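import Pool.Agent.R355.Pack
import Pool.Agent.TH167.SH.Conv

set_option autoImplicit false

/-!
# The number of negative curves
-/

namespace Pool.Agent.R355.NegCount

open MvPolynomial Pool.Agent.W609 Pool.Agent.W609.CR Pool.Agent.TH167 Pool.Agent.TH167.SH

/-- An irreducible curve contained in another one has the same class. -/
theorem same_class {K : Type} [Field K] {s : ℕ} {P : Fin s → Fin 2 → K}
    {G C : MvPolynomial (Fin 3) K} {d e : ℕ} {w u : Fin s → ℕ}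
    (hG : Irreducible G) (hGe : G.IsHomogeneous e) (hGo : ∀ j, Ord (aff (P j)) (u j) G)
    (hC : Irreducible C) (hCd : C.IsHomogeneous d) (hCo : ∀ j, Ord (aff (P j)) (w j) C)
    (h : G ∣ C) : d = e ∧ w = u := by
  obtain ⟨H, hH⟩ := h
  have hu : IsUnit H := by
    rcases hC.isUnit_or_isUnit hH with h | h
    · exact absurd h hG.not_isUnit
    · exact h
  obtain ⟨c, hc, rfl⟩ : ∃ c : K, c ≠ 0 ∧ H = MvPolynomial.C c := by
    have h10 := MvPolynomial.isUnit_iff_eq_C_of_isReduced.1 hu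
    obtain ⟨c, hc, rfl⟩ := h10
    exact ⟨c, hc.ne_zero, rfl⟩
  have hde : d = e := by
    have t1 : C.totalDegree = d := hCd.totalDegree hC.ne_zero
    have t2 : G.totalDegree = e := hGe.totalDegree hG.ne_zero
    rw [hH, MvPolynomial.totalDegree_mul_of_isDomain hG.ne_zero hu.ne_zero,
      MvPolynomial.totalDegree_C, t2] at t1
    omega
  refine ⟨hde, ?_⟩
  funext j
  have t1 : Ord (aff (P j)) (u j + 0) (G * MvPolynomial.C c) := by
    refine ord_mul (hGo j) ⟨van_zero _ _, fun h => ?_⟩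
    rw [zero_add, van_one, MvPolynomial.eval_C] at h
    exact hc h
  rw [add_zero, ← hH] at t1
  exact ord_unique (hCo j) t1

/-- Two irreducible curves of different classes. -/
theorem ip_nonneg {K : Type} [Field K] {s : ℕ} {P : Fin s → Fin 2 → K}
    (hP : Function.Injective P) {G C : MvPolynomial (Fin 3) K} {d e : ℕ} {w u : Fin s → ℕ}
    (hG : Irreducible G) (hGe : G.IsHomogeneous e) (hGo : ∀ j, Ord (aff (P j)) (u j) G)
    (hC : Irreducible C) (hCd : C.IsHomogeneous d) (hCo : ∀ j, Ord (aff (P j)) (w j) C)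
    (h : (d, w) ≠ (e, u)) : 0 ≤ ip d w e u := by
  have hnd : ¬ G ∣ C := fun h1 => by
    obtain ⟨rfl, rfl⟩ := same_class hG hGe hGo hC hCd hCo h1
    exact h rfl
  have hbez := bez hP hG hGe (fun j => (hGo j).1) hC.ne_zero hCd (fun j => (hCo j).1) hnd
  have h3 : (∑ j, (w j : ℤ) * u j) = ((∑ j, u j * w j : ℕ) : ℤ) := by
    push_cast
    exact Finset.sum_congr rfl fun j _ => mul_comm _ _
  unfold ip
  rw [h3, mul_comm (d : ℤ)]
  have : ((∑ j, u j * w j : ℕ) : ℤ) ≤ ((e * d : ℕ) : ℤ) := by exact_mod_cast hbez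
  push_cast at this ⊢
  linarith

/-- The vector of the multiplicities. -/
noncomputable def vec {s : ℕ} (w : Fin s → ℕ) : EuclideanSpace ℝ (Fin s) :=
  WithLp.toLp 2 fun i => (w i : ℝ)

theorem inner_vec {s : ℕ} (w u : Fin s → ℕ) :
    inner ℝ (vec w) (vec u) = ∑ i, (w i : ℝ) * u i := by
  unfold vec
  rw [EuclideanSpace.inner_eq_star_dotProduct]
  simp [dotProduct, mul_comm]

theorem norm_vec {s : ℕ} (w : Fin s → ℕ) : ‖vec w‖ ^ 2 = ∑ i, (w i : ℝ) * w i := by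
  rw [← inner_vec, real_inner_self_eq_norm_sq]

/-- The unit vector of the multiplicities. -/
noncomputable def uv {s : ℕ} (w : Fin s → ℕ) : EuclideanSpace ℝ (Fin s) := ‖vec w‖⁻¹ • vec w

/-- The classes of the irreducible curves `C` with `d ^ 2 ≤ T ^ 2 (- C ^ 2)`, `C ^ 2 < 0`. -/
def NegClasses {s : ℕ} (P : Fin s → Fin 2 → ℂ) (T : ℝ) : Set (ℕ × (Fin s → ℕ)) :=
  {c | ∃ C, SHDefs.Curve P C c.1 c.2 ∧ SHDefs.inter c.1 c.2 c.1 c.2 < 0 ∧
    (c.1 : ℝ) ^ 2 ≤ T ^ 2 * -(SHDefs.inter c.1 c.2 c.1 c.2 : ℝ)}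

theorem norm_bound {s : ℕ} {P : Fin s → Fin 2 → ℂ} {T : ℝ} (hT : 1 ≤ T)
    {c : ℕ × (Fin s → ℕ)} (hc : c ∈ NegClasses P T) :
    0 < ‖vec c.2‖ ∧ (c.1 : ℝ) ^ 2 * (T ^ 2 + 1) ≤ T ^ 2 * ‖vec c.2‖ ^ 2 := by
  obtain ⟨C, hC, hneg, hle⟩ := hc
  have h1 : (SHDefs.inter c.1 c.2 c.1 c.2 : ℝ) = (c.1 : ℝ) ^ 2 - ‖vec c.2‖ ^ 2 := by
    rw [norm_vec]
    unfold SHDefs.inter
    push_cast
    ring
  rw [h1] at hle
  have h2 : ((SHDefs.inter c.1 c.2 c.1 c.2 : ℤ) : ℝ) < 0 := by exact_mod_cast hneg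
  rw [h1] at h2
  have h3 : 0 < ‖vec c.2‖ ^ 2 := by nlinarith [sq_nonneg (c.1 : ℝ)]
  refine ⟨?_, by linarith⟩
  rcases (norm_nonneg (vec c.2)).lt_or_eq with h | h
  · exact h
  · rw [← h] at h3
    norm_num at h3

theorem far {s : ℕ} {P : Fin s → Fin 2 → ℂ} (hP : Function.Injective P) {T : ℝ} (hT : 1 ≤ T)
    {a b : ℕ × (Fin s → ℕ)} (ha : a ∈ NegClasses P T) (hb : b ∈ NegClasses P T) (hab : a ≠ b) :
    1 / T ≤ dist (uv a.2) (uv b.2) := by
  obtain ⟨a1, a2⟩ := norm_bound hT ha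
  obtain ⟨b1, b2⟩ := norm_bound hT hb
  obtain ⟨A, hA, -, -⟩ := ha
  obtain ⟨B, hB, -, -⟩ := hb
  obtain ⟨A1, A2, A3⟩ := curve_iff.1 hA
  obtain ⟨B1, B2, B3⟩ := curve_iff.1 hB
  have h1 := ip_nonneg hP B1 B2 B3 A1 A2 A3 (by
    intro h
    exact hab (Prod.ext (congrArg Prod.fst h) (congrArg Prod.snd h)))
  have h2 : inner ℝ (vec a.2) (vec b.2) ≤ (a.1 : ℝ) * b.1 := by
    rw [inner_vec]
    unfold ip at h1
    have h3 : ∑ j, ((a.2 j : ℤ) * (b.2 j : ℤ)) ≤ (a.1 : ℤ) * b.1 := by linarith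
    exact_mod_cast h3
  have hT0 : 0 < T := by linarith
  have hT1 : 0 < T ^ 2 + 1 := by positivity
  -- the product of the norms
  have h4 : (a.1 : ℝ) * b.1 * (T ^ 2 + 1) ≤ T ^ 2 * (‖vec a.2‖ * ‖vec b.2‖) := by
    have ha0 : (0 : ℝ) ≤ a.1 := Nat.cast_nonneg _
    have hb0 : (0 : ℝ) ≤ b.1 := Nat.cast_nonneg _
    refine abs_le_of_sq_le_sq' ?_ (by positivity) |>.2
    have h5 : ((a.1 : ℝ) ^ 2 * (T ^ 2 + 1)) * ((b.1 : ℝ) ^ 2 * (T ^ 2 + 1)) ≤
        (T ^ 2 * ‖vec a.2‖ ^ 2) * (T ^ 2 * ‖vec b.2‖ ^ 2) :=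
      mul_le_mul a2 b2 (by positivity) (by positivity)
    calc ((a.1 : ℝ) * b.1 * (T ^ 2 + 1)) ^ 2
        = ((a.1 : ℝ) ^ 2 * (T ^ 2 + 1)) * ((b.1 : ℝ) ^ 2 * (T ^ 2 + 1)) := by ring
      _ ≤ (T ^ 2 * ‖vec a.2‖ ^ 2) * (T ^ 2 * ‖vec b.2‖ ^ 2) := h5
      _ = (T ^ 2 * (‖vec a.2‖ * ‖vec b.2‖)) ^ 2 := by ring
  have h6 : inner ℝ (uv a.2) (uv b.2) ≤ T ^ 2 / (T ^ 2 + 1) := by
    unfold uv
    rw [real_inner_smul_left, real_inner_smul_right]
    rw [← mul_assoc, ← mul_inv, inv_mul_le_iff₀ (mul_pos a1 b1), mul_div_assoc',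
      le_div_iff₀ hT1]
    have h7 : inner ℝ (vec a.2) (vec b.2) * (T ^ 2 + 1) ≤ (a.1 : ℝ) * b.1 * (T ^ 2 + 1) :=
      mul_le_mul_of_nonneg_right h2 hT1.le
    linarith
  have na : ‖uv a.2‖ = 1 := by
    unfold uv
    rw [norm_smul, norm_inv, norm_norm, inv_mul_cancel₀ a1.ne']
  have nb : ‖uv b.2‖ = 1 := by
    unfold uv
    rw [norm_smul, norm_inv, norm_norm, inv_mul_cancel₀ b1.ne']
  have h8 : dist (uv a.2) (uv b.2) ^ 2 = 2 - 2 * inner ℝ (uv a.2) (uv b.2) := by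
    rw [dist_eq_norm, norm_sub_sq_real, na, nb]
    ring
  have h9 : (1 / T) ^ 2 ≤ dist (uv a.2) (uv b.2) ^ 2 := by
    rw [h8]
    have h10 : (1 / T) ^ 2 ≤ 2 - 2 * (T ^ 2 / (T ^ 2 + 1)) := by
      have e1 : 2 - 2 * (T ^ 2 / (T ^ 2 + 1)) = 2 / (T ^ 2 + 1) := by
        field_simp
        ring
      rw [e1, one_div, inv_pow, inv_eq_one_div, div_le_div_iff₀ (by positivity) hT1]
      nlinarith
    linarith
  exact abs_le_of_sq_le_sq' h9 dist_nonneg |>.2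

/-- **The number of negative curves.** -/
theorem count {s : ℕ} {P : Fin (s + 1) → Fin 2 → ℂ} (hP : Function.Injective P) {T : ℝ}
    (hT : 1 ≤ T) : (NegClasses P T).Finite ∧
      ((NegClasses P T).ncard : ℝ) ≤ 2 * (s + 1) * (1 + 2 * T) ^ s := by
  classical
  have hT0 : 0 < T := by linarith
  have key : ∀ A : Finset (ℕ × (Fin (s + 1) → ℕ)), (A : Set (ℕ × (Fin (s + 1) → ℕ))) ⊆
      NegClasses P T → (A.card : ℝ) ≤ 2 * (s + 1) * (1 + 2 * T) ^ s := by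
    intro A hA
    have hinj : Set.InjOn (fun c : ℕ × (Fin (s + 1) → ℕ) => uv c.2) A := by
      intro a ha b hb hab
      by_contra hne
      have h1 := far hP hT (hA ha) (hA hb) hne
      simp only at hab
      rw [hab, dist_self] at h1
      have : 0 < 1 / T := by positivity
      linarith
    have h1 := Pack.pack (s := s) (r := 1 / (2 * T)) (by positivity) (by
      rw [div_le_one (by positivity)]
      linarith) (A.image fun c => uv c.2) (by
        intro x hx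
        rw [Finset.mem_image] at hx
        obtain ⟨c, hc, rfl⟩ := hx
        have a1 := (norm_bound hT (hA hc)).1
        show ‖uv c.2‖ = 1
        unfold uv
        rw [norm_smul, norm_inv, norm_norm, inv_mul_cancel₀ a1.ne']) (by
        intro x hx y hy hxy
        rw [Finset.mem_image] at hx hy
        obtain ⟨a, ha, rfl⟩ := hx
        obtain ⟨b, hb, rfl⟩ := hy
        have h2 := far hP hT (hA ha) (hA hb) fun h => hxy (by rw [h])
        have e1 : 2 * (1 / (2 * T)) = 1 / T := by field_simp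
        rw [e1]
        exact h2)
    rw [Finset.card_image_of_injOn hinj] at h1
    have e2 : 1 / (1 / (2 * T)) = 2 * T := one_div_one_div _
    rw [e2] at h1
    exact h1
  have hfin : (NegClasses P T).Finite := by
    by_contra hinf
    obtain ⟨N, hN⟩ := exists_nat_gt (2 * ((s : ℝ) + 1) * (1 + 2 * T) ^ s)
    obtain ⟨A, hA, hAc⟩ := Set.Infinite.exists_subset_card_eq hinf N
    have := key A hA
    rw [hAc] at this
    linarith
  refine ⟨hfin, ?_⟩
  have h2 := key hfin.toFinset (by rw [hfin.coe_toFinset])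
  rw [Set.ncard_eq_toFinset_card _ hfin]
  exact h2

end Pool.Agent.R355.NegCount
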