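import Mathlib

/-!
# Simultaneous approximation (Dirichlet) and finite-dimensional rational spaces of real numbers
-/

set_option autoImplicit false

namespace Pool.Agent.R355

/-- simultaneous Dirichlet approximation by the pigeonhole principle -/
lemma dirichlet {D : ℕ} (v : Fin D → ℝ) {Q : ℕ} (hQ : 1 ≤ Q) :
    ∃ q : ℕ, 1 ≤ q ∧ q ≤ Q ^ D ∧ ∀ i, ∃ p : ℤ, |(q : ℝ) * v i - p| < 1 / Q := by
  have hQ0 : (0 : ℝ) < Q := by exact_mod_cast hQ
  -- the boxes
  have hfl : ∀ x : ℝ, ⌊(Q : ℝ) * Int.fract x⌋₊ < Q := by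
    intro x
    rw [Nat.floor_lt (mul_nonneg hQ0.le (Int.fract_nonneg x))]
    have := Int.fract_lt_one x
    nlinarith
  let f : Fin (Q ^ D + 1) → (Fin D → Fin Q) := fun j i => ⟨⌊(Q : ℝ) * Int.fract ((j : ℝ) * v i)⌋₊, hfl _⟩
  have hcard : Fintype.card (Fin D → Fin Q) < Fintype.card (Fin (Q ^ D + 1)) := by
    simp
  obtain ⟨a, b, hab, hf⟩ := Fintype.exists_ne_map_eq_of_card_lt f hcard
  wlog hlt : (a : ℕ) < b generalizing a b
  · exact this b a hab.symm hf.symm (by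
      have : (a : ℕ) ≠ b := fun h => hab (Fin.ext h)
      omega)
  refine ⟨b - a, by omega, by omega, fun i => ?_⟩
  refine ⟨⌊(b : ℝ) * v i⌋ - ⌊(a : ℝ) * v i⌋, ?_⟩
  have h1 := congrFun hf i
  have h2 : ⌊(Q : ℝ) * Int.fract ((a : ℝ) * v i)⌋₊ = ⌊(Q : ℝ) * Int.fract ((b : ℝ) * v i)⌋₊ := by
    have := congrArg Fin.val h1
    simpa [f] using this
  have e : (((b - a : ℕ) : ℕ) : ℝ) * v i - ((⌊(b : ℝ) * v i⌋ - ⌊(a : ℝ) * v i⌋ : ℤ) : ℝ) =
      Int.fract ((b : ℝ) * v i) - Int.fract ((a : ℝ) * v i) := by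
    rw [Nat.cast_sub hlt.le]
    unfold Int.fract
    push_cast
    ring
  rw [e]
  have g1 := Nat.floor_le (mul_nonneg hQ0.le (Int.fract_nonneg ((a : ℝ) * v i)))
  have g2 := Nat.lt_floor_add_one ((Q : ℝ) * Int.fract ((a : ℝ) * v i))
  have g3 := Nat.floor_le (mul_nonneg hQ0.le (Int.fract_nonneg ((b : ℝ) * v i)))
  have g4 := Nat.lt_floor_add_one ((Q : ℝ) * Int.fract ((b : ℝ) * v i))
  rw [h2] at g1 g2
  rw [lt_div_iff₀ hQ0, abs_sub_comm]
  have : |Int.fract ((a : ℝ) * v i) - Int.fract ((b : ℝ) * v i)| * Q =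
      |(Q : ℝ) * Int.fract ((a : ℝ) * v i) - Q * Int.fract ((b : ℝ) * v i)| := by
    rw [← mul_sub, abs_mul, abs_of_pos hQ0, mul_comm]
  rw [this, abs_lt]
  constructor <;> linarith

/-- Let `W` be a space of dimension at most `S` over `ℚ` containing `1`, and let `z` be a finite family of real numbers.
For all `q0` there is `q ≥ q0` such that all the `z j` in `W` satisfy `|q z_j - p| < q^(-1/S)` for some integer `p`. -/
lemma approx_of_mem {ι : Type*} [Fintype ι] (W : Submodule ℚ ℝ) [FiniteDimensional ℚ W] (h1 : (1 : ℝ) ∈ W)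
    {S : ℕ} (hS : Module.finrank ℚ W ≤ S) (z : ι → ℝ) (q0 : ℕ) :
    ∃ q : ℕ, q0 ≤ q ∧ 1 ≤ q ∧ ∀ j, z j ∈ W → ∃ p : ℤ, |(q : ℝ) * z j - p| < (q : ℝ) ^ (-(1 / (S : ℝ))) := by
  classical
  -- a complement of the line of `1`
  let u : W := ⟨1, h1⟩
  have hu : u ≠ 0 := fun h => one_ne_zero (congrArg Subtype.val h)
  obtain ⟨C, hC⟩ := Submodule.exists_isCompl (Submodule.span ℚ {u})
  have hfr : Module.finrank ℚ C + 1 = Module.finrank ℚ W := by
    have h2 := Submodule.finrank_add_eq_of_isCompl hC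
    rw [finrank_span_singleton hu] at h2
    omega
  obtain ⟨D, hD⟩ : ∃ D, D = Module.finrank ℚ C := ⟨_, rfl⟩
  have hDS : D + 1 ≤ S := by omega
  let B := Module.finBasisOfFinrankEq ℚ C hD.symm
  let v : Fin D → ℝ := fun i => ((B i : C) : W)
  -- expansion of the elements of `W`
  have hexp : ∀ x ∈ W, ∃ (r : ℚ) (c : Fin D → ℚ), x = r + ∑ i, (c i : ℝ) * v i := by
    intro x hx
    obtain ⟨y, hy, c, hc, hyc⟩ := Submodule.mem_sup.1
      (show (⟨x, hx⟩ : W) ∈ Submodule.span ℚ {u} ⊔ C by rw [hC.sup_eq_top]; exact Submodule.mem_top)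
    obtain ⟨r, hr⟩ := Submodule.mem_span_singleton.1 hy
    refine ⟨r, fun i => B.repr ⟨c, hc⟩ i, ?_⟩
    have h3 : (⟨c, hc⟩ : C) = ∑ i, B.repr ⟨c, hc⟩ i • B i := (B.sum_repr ⟨c, hc⟩).symm
    have h4 : ((c : W) : ℝ) = ∑ i, ((B.repr ⟨c, hc⟩ i : ℚ) : ℝ) * v i := by
      have h5 := congrArg (fun t : C => ((t : W) : ℝ)) h3
      simp only [Submodule.coe_sum, Submodule.coe_smul] at h5
      rw [h5]
      apply Finset.sum_congr rfl
      intro i _
      rw [Rat.smul_def]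
    have h6 : x = ((y : W) : ℝ) + ((c : W) : ℝ) := by
      have := congrArg (fun t : W => (t : ℝ)) hyc
      simpa using this.symm
    rw [h6, h4, ← hr]
    simp [u, Rat.smul_def]
  choose! r c hrc using hexp
  -- a common denominator and a bound for the coefficients
  obtain ⟨N, hN, hNr⟩ : ∃ N : ℕ, 1 ≤ N ∧ ∀ j, ∃ (r' : ℤ) (c' : Fin D → ℤ), (N : ℚ) * r (z j) = r' ∧
      ∀ i, (N : ℚ) * c (z j) i = c' i := by
    refine ⟨∏ j, ((r (z j)).den * ∏ i, (c (z j) i).den), ?_, ?_⟩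
    · apply Nat.one_le_iff_ne_zero.2
      rw [Finset.prod_ne_zero_iff]
      intro j _
      apply mul_ne_zero (Rat.den_nz _)
      rw [Finset.prod_ne_zero_iff]
      exact fun i _ => Rat.den_nz _
    · have key : ∀ (M : ℕ) (x : ℚ), x.den ∣ M → ∃ t : ℤ, (M : ℚ) * x = t := by
        intro M x ⟨k, hk⟩
        refine ⟨k * x.num, ?_⟩
        rw [hk]
        push_cast
        have := Rat.den_mul_eq_num x
        linear_combination (k : ℚ) * this
      intro j
      have hd : ((r (z j)).den * ∏ i, (c (z j) i).den) ∣ ∏ j, ((r (z j)).den * ∏ i, (c (z j) i).den) :=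
        Finset.dvd_prod_of_mem (fun j => (r (z j)).den * ∏ i, (c (z j) i).den) (Finset.mem_univ j)
      obtain ⟨r', hr'⟩ := key _ (r (z j)) ((Dvd.intro _ rfl).trans hd)
      have hc' : ∀ i, ∃ t : ℤ, ((∏ j, ((r (z j)).den * ∏ i, (c (z j) i).den) : ℕ) : ℚ) * c (z j) i = t := by
        intro i
        apply key
        exact ((Finset.dvd_prod_of_mem (fun i => (c (z j) i).den) (Finset.mem_univ i)).trans
          (Dvd.intro_left _ rfl)).trans hd
      choose c' hc' using hc'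
      exact ⟨r', c', hr', hc'⟩
  choose r' c' hr' hc' using hNr
  obtain ⟨A, hA1, hA⟩ : ∃ A : ℝ, 1 ≤ A ∧ ∀ j, ∑ i, |(c' j i : ℝ)| ≤ A := by
    refine ⟨1 + ∑ j, ∑ i, |(c' j i : ℝ)|, ?_, fun j => ?_⟩
    · have : 0 ≤ ∑ j, ∑ i, |(c' j i : ℝ)| := Finset.sum_nonneg fun _ _ => Finset.sum_nonneg fun _ _ => abs_nonneg _
      linarith
    · have : ∑ i, |(c' j i : ℝ)| ≤ ∑ j, ∑ i, |(c' j i : ℝ)| :=
        Finset.single_le_sum (f := fun j => ∑ i, |(c' j i : ℝ)|) (fun _ _ => Finset.sum_nonneg fun _ _ => abs_nonneg _)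
          (Finset.mem_univ j)
      linarith
  -- choice of the quality
  have hS1 : (1 : ℝ) ≤ S := by exact_mod_cast (by omega : 1 ≤ S)
  have hN0 : (1 : ℝ) ≤ N := by exact_mod_cast hN
  obtain ⟨M, hM⟩ : ∃ M : ℕ, M = q0 + 1 := ⟨_, rfl⟩
  obtain ⟨Q, hQ⟩ := exists_nat_gt (A ^ S * (N * M))
  have hM1 : (1 : ℝ) ≤ M := by exact_mod_cast (by omega : 1 ≤ M)
  have hAS : (1 : ℝ) ≤ A ^ S := one_le_pow₀ hA1
  have hNM : (1 : ℝ) ≤ N * M := by nlinarith
  have hQ1 : (1 : ℝ) < Q := by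
    have : (1 : ℝ) ≤ A ^ S * (N * M) := by nlinarith
    linarith
  have hQn : 1 ≤ Q := by exact_mod_cast hQ1.le
  obtain ⟨q, hq1, hq2, hq⟩ := dirichlet (fun i => (M : ℝ) * v i) hQn
  refine ⟨N * (q * M), ?_, ?_, ?_⟩
  · have : 1 * (1 * q0) ≤ N * (q * M) := Nat.mul_le_mul hN (Nat.mul_le_mul hq1 (by omega))
    omega
  · have : 1 * (1 * 1) ≤ N * (q * M) := Nat.mul_le_mul hN (Nat.mul_le_mul hq1 (by omega))
    omega
  · intro j hj
    choose p hp using hq
    refine ⟨q * M * r' j + ∑ i, c' j i * p i, ?_⟩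
    have e1 : ((N * (q * M) : ℕ) : ℝ) * z j - ((q * M * r' j + ∑ i, c' j i * p i : ℤ) : ℝ) =
        ∑ i, (c' j i : ℝ) * ((q : ℝ) * (M * v i) - p i) := by
      have e2 := hrc (z j) hj
      have e3 : (N : ℝ) * (r (z j) : ℝ) = r' j := by
        have := hr' j
        exact_mod_cast congrArg (fun t : ℚ => (t : ℝ)) this
      have e4 : ∀ i, (N : ℝ) * (c (z j) i : ℝ) = c' j i := by
        intro i
        have := hc' j i
        exact_mod_cast congrArg (fun t : ℚ => (t : ℝ)) this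
      have e5 : ((N * (q * M) : ℕ) : ℝ) * z j = q * M * ((N : ℝ) * r (z j)) +
          ∑ i, (((N : ℝ) * c (z j) i) * (q * (M * v i))) := by
        conv_lhs => rw [e2]
        push_cast
        rw [mul_add, Finset.mul_sum]
        congr 1
        · ring
        · apply Finset.sum_congr rfl
          intro i _
          ring
      rw [e5, e3]
      simp only [e4]
      push_cast
      simp only [mul_sub, Finset.sum_sub_distrib]
      ring
    rw [e1]
    have e6 : |∑ i, (c' j i : ℝ) * ((q : ℝ) * (M * v i) - p i)| ≤ A / Q := by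
      calc |∑ i, (c' j i : ℝ) * ((q : ℝ) * (M * v i) - p i)|
          ≤ ∑ i, |(c' j i : ℝ) * ((q : ℝ) * (M * v i) - p i)| := Finset.abs_sum_le_sum_abs _ _
        _ ≤ ∑ i, |(c' j i : ℝ)| * (1 / Q) := by
            apply Finset.sum_le_sum
            intro i _
            rw [abs_mul]
            exact mul_le_mul_of_nonneg_left (hp i).le (abs_nonneg _)
        _ = (∑ i, |(c' j i : ℝ)|) * (1 / Q) := by rw [Finset.sum_mul]
        _ ≤ A * (1 / Q) := mul_le_mul_of_nonneg_right (hA j) (by positivity)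
        _ = A / Q := by ring
    refine lt_of_le_of_lt e6 ?_
    -- compare with the power
    have hQ0 : (0 : ℝ) < Q := by linarith
    have hqq : (0 : ℝ) < ((N * (q * M) : ℕ) : ℝ) := by
      have : 0 < N * (q * M) := Nat.mul_pos (by omega) (Nat.mul_pos (by omega) (by omega))
      exact_mod_cast this
    have g1 : ((N * (q * M) : ℕ) : ℝ) ≤ N * M * Q ^ D := by
      push_cast
      have : (q : ℝ) ≤ (Q : ℝ) ^ D := by exact_mod_cast hq2
      nlinarith
    have g2 : (A / Q) ^ S * ((N * (q * M) : ℕ) : ℝ) < 1 := by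
      have g3 : (A / Q) ^ S * ((N * (q * M) : ℕ) : ℝ) ≤ (A / Q) ^ S * (N * M * Q ^ D) :=
        mul_le_mul_of_nonneg_left g1 (by positivity)
      have g4 : (A / Q) ^ S * (N * M * (Q : ℝ) ^ D) = A ^ S * (N * M) * ((Q : ℝ) ^ D / Q ^ S) := by
        rw [div_pow]; ring
      have g5 : (Q : ℝ) ^ D / Q ^ S ≤ 1 / Q := by
        rw [div_le_div_iff₀ (by positivity) hQ0, one_mul, ← pow_succ]
        exact pow_le_pow_right₀ hQ1.le hDS
      have g6 : A ^ S * (N * M) * ((Q : ℝ) ^ D / Q ^ S) ≤ A ^ S * (N * M) * (1 / Q) :=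
        mul_le_mul_of_nonneg_left g5 (by positivity)
      have g7 : A ^ S * (N * M) * (1 / Q) < 1 := by
        rw [mul_one_div, div_lt_one hQ0]
        exact hQ
      linarith
    have g8 : (((N * (q * M) : ℕ) : ℝ) ^ (-(1 / (S : ℝ)))) ^ S = (((N * (q * M) : ℕ) : ℝ))⁻¹ := by
      rw [← Real.rpow_natCast, ← Real.rpow_mul hqq.le, neg_mul, one_div, inv_mul_cancel₀ (by linarith), Real.rpow_neg_one]
    by_contra hcon
    push Not at hcon
    have g9 := pow_le_pow_left₀ (by positivity) hcon S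
    rw [g8] at g9
    have g10 : 1 ≤ (A / Q) ^ S * ((N * (q * M) : ℕ) : ℝ) := by
      have := mul_le_mul_of_nonneg_right g9 hqq.le
      rwa [inv_mul_cancel₀ hqq.ne'] at this
    linarith

end Pool.Agent.R355
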