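import Mathlib
import Pool.Agent.R355.Dirichlet
import Pool.Agent.Y926.TW.Main

/-!
# Disjoint sets of linearly independent odd zeta values
-/

set_option autoImplicit false

namespace Pool.Agent.R355

open Module

/-- the greedy choice of one set -/
lemma greedy_one {F : Type*} [Field F] [Module F ℝ] (V : Submodule F ℝ) [Module.Finite F V] {v S M : ℕ}
    (hv : finrank F V ≤ v) (z : ℕ → ℝ) (E : Finset ℕ)
    (h : ∀ U : Submodule F ℝ, Module.Finite F U → finrank F U + 1 ≤ v + S →
      ∀ T : Finset ℕ, T.card < M → ∃ j ∈ E, j ∉ T ∧ z j ∉ U)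
    (T : Finset ℕ) : ∀ a : ℕ, a ≤ S → T.card + a ≤ M →
      ∃ J : Finset ℕ, J ⊆ E ∧ J.card = a ∧ Disjoint T J ∧
        LinearIndepOn F (fun j => V.mkQ (z j)) (J : Set ℕ) := by
  classical
  intro a
  induction a with
  | zero => intro _ _; exact ⟨∅, by simp, by simp, by simp, by simp⟩
  | succ a ih =>
    intro ha hT
    obtain ⟨J, hJE, hJc, hJT, hJi⟩ := ih (by omega) (by omega)
    have hfin : Module.Finite F (Submodule.span F (z '' (J : Set ℕ))) :=
      FiniteDimensional.span_of_finite F (J.finite_toSet.image z)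
    have h1 : finrank F (Submodule.span F (z '' (J : Set ℕ))) ≤ a := by
      have := finrank_span_finset_le_card (R := F) (J.image z)
      rw [Finset.coe_image] at this
      exact this.trans (Finset.card_image_le.trans hJc.le)
    have h2 : finrank F (V ⊔ Submodule.span F (z '' (J : Set ℕ)) : Submodule F ℝ) ≤ v + a := by
      have := Submodule.finrank_add_le_finrank_add_finrank V (Submodule.span F (z '' (J : Set ℕ)))
      omega
    obtain ⟨j, hjE, hjT, hjU⟩ := h (V ⊔ Submodule.span F (z '' (J : Set ℕ))) inferInstance (by omega)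
      (T ∪ J) (lt_of_le_of_lt (Finset.card_union_le _ _) (by omega))
    rw [Finset.mem_union, not_or] at hjT
    refine ⟨insert j J, ?_, ?_, ?_, ?_⟩
    · intro x hx
      rcases Finset.mem_insert.1 hx with rfl | hx
      · exact hjE
      · exact hJE hx
    · rw [Finset.card_insert_of_notMem hjT.2, hJc]
    · rw [Finset.disjoint_insert_right]
      exact ⟨hjT.1, hJT⟩
    · rw [Finset.coe_insert]
      refine hJi.insert ?_
      intro hmem
      apply hjU
      have e1 : (fun j => V.mkQ (z j)) '' (J : Set ℕ) = V.mkQ '' (z '' (J : Set ℕ)) := by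
        rw [Set.image_image]
      rw [e1, ← Submodule.map_span] at hmem
      have h3 : z j ∈ Submodule.comap V.mkQ (Submodule.map V.mkQ (Submodule.span F (z '' (J : Set ℕ)))) := hmem
      rwa [Submodule.comap_map_mkQ] at h3

/-- the greedy choice of `K` disjoint sets -/
lemma greedy {F : Type*} [Field F] [Module F ℝ] (V : Submodule F ℝ) [Module.Finite F V] {v S : ℕ} (K : ℕ)
    (hv : finrank F V ≤ v) (z : ℕ → ℝ) (E : Finset ℕ)
    (h : ∀ U : Submodule F ℝ, Module.Finite F U → finrank F U + 1 ≤ v + S →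
      ∀ T : Finset ℕ, T.card < K * S → ∃ j ∈ E, j ∉ T ∧ z j ∉ U) :
    ∃ J : Fin K → Finset ℕ, (∀ i i', i ≠ i' → Disjoint (J i) (J i')) ∧ ∀ i, J i ⊆ E ∧ (J i).card = S ∧
        LinearIndepOn F (fun j => V.mkQ (z j)) (J i : Set ℕ) := by
  classical
  have key : ∀ k : ℕ, k ≤ K → ∃ J : ℕ → Finset ℕ, (∀ i < k, ∀ i' < k, i ≠ i' → Disjoint (J i) (J i')) ∧
      ∀ i < k, J i ⊆ E ∧ (J i).card = S ∧ LinearIndepOn F (fun j => V.mkQ (z j)) (J i : Set ℕ) := by
    intro k
    induction k with
    | zero => intro _; exact ⟨fun _ => ∅, by simp, by simp⟩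
    | succ k ih =>
      intro hk
      obtain ⟨J, hJd, hJ⟩ := ih (by omega)
      have hT : ((Finset.range k).biUnion J).card ≤ k * S := by
        refine Finset.card_biUnion_le.trans ?_
        calc ∑ i ∈ Finset.range k, (J i).card ≤ ∑ i ∈ Finset.range k, S :=
              Finset.sum_le_sum fun i hi => (hJ i (Finset.mem_range.1 hi)).2.1.le
          _ = k * S := by simp
      have hkS : k * S + S ≤ K * S := by
        have := Nat.mul_le_mul_right S hk
        rwa [Nat.add_mul, one_mul] at this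
      obtain ⟨J', h1, h2, h3, h4⟩ := greedy_one V hv z E h ((Finset.range k).biUnion J) S le_rfl (by omega)
      refine ⟨fun i => if i < k then J i else J', ?_, ?_⟩
      · intro i hi i' hi' hne
        by_cases g1 : i < k <;> by_cases g2 : i' < k
        · simp only [g1, g2, if_true]
          exact hJd i g1 i' g2 hne
        · simp only [g1, g2, if_true, if_false]
          exact (Finset.disjoint_biUnion_left _ _ _).1 h3 i (Finset.mem_range.2 g1)
        · simp only [g1, g2, if_true, if_false]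
          exact ((Finset.disjoint_biUnion_left _ _ _).1 h3 i' (Finset.mem_range.2 g2)).symm
        · omega
      · intro i hi
        by_cases g1 : i < k
        · simp only [g1, if_true]
          exact hJ i g1
        · simp only [g1, if_false]
          exact ⟨h1, h2, h4⟩
  obtain ⟨J, hJd, hJ⟩ := key K le_rfl
  exact ⟨fun i => J i, fun i i' hne => hJd i i.2 i' i'.2 (fun e => hne (Fin.ext e)), fun i => hJ i i.2⟩

/-- the number of odd zeta values outside of a rational space of small dimension -/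
lemma outside {b K s S : ℕ} (hK : 1 ≤ K) (hS : 1 ≤ S)
    (hs : (2 : ℝ) ^ (132 * S) * ((b : ℝ) + 1) ^ 2 * (K : ℝ) ^ 3 * Real.log (K + 1) ≤ (s : ℝ) ^ 2)
    (W : Submodule ℚ ℝ) [FiniteDimensional ℚ W] (h1 : (1 : ℝ) ∈ W) (hW : finrank ℚ W ≤ S) :
    K ≤ Set.ncard {j : ℕ | b < j ∧ j ≤ s ∧ Odd j ∧ (∑' n : ℕ, 1 / ((n : ℝ) + 1) ^ j) ∉ W} := by
  obtain ⟨q0, hq0⟩ := (Pool.Agent.Y926.TW.main b K s S hK hS hs).2
  obtain ⟨q, hqq, hq1, hq⟩ := approx_of_mem W h1 hW
    (fun j : Fin (s + 1) => ∑' n : ℕ, 1 / ((n : ℝ) + 1) ^ (j : ℕ)) q0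
  refine (hq0 q hqq).trans (Set.ncard_le_ncard ?_ ?_)
  · rintro j ⟨g1, g2, g3, g4⟩
    refine ⟨g1, g2, g3, fun hmem => ?_⟩
    obtain ⟨p, hp⟩ := hq ⟨j, by omega⟩ hmem
    exact absurd hp (not_lt.2 (g4 p))
  · exact (Set.finite_Iic s).subset fun j hj => hj.2.1

/-- main result -/
theorem disjoint_sets {b K s S d v : ℕ} (hK : 1 ≤ K) (hS : 1 ≤ S)
    (hs : (2 : ℝ) ^ (132 * (d * (v + S))) * ((b : ℝ) + 1) ^ 2 * ((K : ℝ) * S) ^ 3 * Real.log ((K : ℝ) * S + 1) ≤
      (s : ℝ) ^ 2)
    (F : IntermediateField ℚ ℝ) [FiniteDimensional ℚ F] (hF : finrank ℚ F ≤ d)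
    (V : Submodule F ℝ) [Module.Finite F V] (hV : finrank F V ≤ v) :
    ∃ J : Fin K → Finset ℕ, (∀ i i', i ≠ i' → Disjoint (J i) (J i')) ∧ ∀ i, (J i).card = S ∧
      (∀ j ∈ J i, b < j ∧ j ≤ s ∧ Odd j) ∧
      LinearIndependent F (fun j : J i => V.mkQ (∑' n : ℕ, 1 / ((n : ℝ) + 1) ^ (j : ℕ))) := by
  classical
  have hd : 1 ≤ d := le_trans (Nat.one_le_iff_ne_zero.2 finrank_pos.ne') hF
  obtain ⟨J, hJd, hJ⟩ := greedy (S := S) V K hV (fun j => ∑' n : ℕ, 1 / ((n : ℝ) + 1) ^ j)
    ((Finset.range (s + 1)).filter fun j => b < j ∧ Odd j) (by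
      intro U hU hUd T hT
      -- the rational space spanned by `U` and `1`
      have hST : IsScalarTower ℚ F (U.restrictScalars ℚ) := ⟨fun a c x => Subtype.ext (smul_assoc a c (x : ℝ))⟩
      have hUF : Module.Finite F (U.restrictScalars ℚ) := hU
      have hUQ : FiniteDimensional ℚ (U.restrictScalars ℚ) := Module.Finite.trans F (U.restrictScalars ℚ)
      have h3 : finrank ℚ (U.restrictScalars ℚ) ≤ d * (v + S - 1) := by
        have e : finrank ℚ (U.restrictScalars ℚ) = finrank ℚ F * finrank F U :=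
          (Module.finrank_mul_finrank ℚ F (U.restrictScalars ℚ)).symm
        rw [e]
        exact Nat.mul_le_mul hF (by omega)
      have h4 : finrank ℚ (U.restrictScalars ℚ ⊔ Submodule.span ℚ {(1 : ℝ)} : Submodule ℚ ℝ) ≤ d * (v + S) := by
        have h5 := Submodule.finrank_add_le_finrank_add_finrank (U.restrictScalars ℚ) (Submodule.span ℚ {(1 : ℝ)})
        have h6 : finrank ℚ (Submodule.span ℚ {(1 : ℝ)}) ≤ 1 := finrank_span_le_card {(1 : ℝ)} |>.trans (by simp)
        have h7 : d * (v + S - 1) + d = d * (v + S) := by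
          have : v + S = (v + S - 1) + 1 := by omega
          conv_rhs => rw [this]
          ring
        omega
      have hKS : 1 ≤ K * S := Nat.mul_pos hK hS
      have h8 := outside (K := K * S) hKS (Nat.mul_pos hd (by omega) : 1 ≤ d * (v + S))
        (by push_cast; exact hs) (U.restrictScalars ℚ ⊔ Submodule.span ℚ {(1 : ℝ)})
        (Submodule.mem_sup_right (Submodule.mem_span_singleton_self _)) h4
      by_contra hcon
      push Not at hcon
      have h9 : {j : ℕ | b < j ∧ j ≤ s ∧ Odd j ∧ (∑' n : ℕ, 1 / ((n : ℝ) + 1) ^ j) ∉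
          (U.restrictScalars ℚ ⊔ Submodule.span ℚ {(1 : ℝ)} : Submodule ℚ ℝ)} ⊆ (T : Set ℕ) := by
        rintro j ⟨g1, g2, g3, g4⟩
        by_contra hjT
        have := hcon j (Finset.mem_filter.2 ⟨Finset.mem_range.2 (by omega), g1, g3⟩) hjT
        exact g4 (Submodule.mem_sup_left this)
      have h10 := Set.ncard_le_ncard h9 T.finite_toSet
      rw [Set.ncard_coe_finset] at h10
      omega)
  refine ⟨J, hJd, fun i => ⟨(hJ i).2.1, fun j hj => ?_, (hJ i).2.2⟩⟩
  have := (hJ i).1 hj
  rw [Finset.mem_filter, Finset.mem_range] at this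
  exact ⟨this.2.1, by omega, this.2.2⟩

end Pool.Agent.R355
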