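import Mathlib

/-!
# Brannan's coefficient conjecture, part A: an integral representation

For `0 < γ < 1` the partial sums of the binomial series of exponent `γ` are expressed by integrals
against the weight `t ^ (-γ) (1 - t) ^ γ` on `[0, 1]`.
-/

set_option autoImplicit false

namespace Pool.Agent.R355.Bran

open Finset MeasureTheory intervalIntegral Filter Topology

/-- the binomial coefficient `α (α - 1) ⋯ (α - k + 1) / k!` -/
noncomputable def cf (α : ℝ) (k : ℕ) : ℝ :=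
  (∏ j ∈ Finset.range k, (α - (j : ℝ))) / (k.factorial : ℝ)

lemma cf_zero (α : ℝ) : cf α 0 = 1 := by simp [cf]

lemma cf_succ (α : ℝ) (k : ℕ) : cf α (k + 1) = cf α k * (α - k) / (k + 1) := by
  have h : (k.factorial : ℝ) ≠ 0 := by positivity
  have h' : ((k : ℝ) + 1) ≠ 0 := by positivity
  rw [cf, cf, Finset.prod_range_succ, Nat.factorial_succ]
  push_cast
  field_simp

/-- partial sums of the binomial series -/
noncomputable def S (α : ℝ) (m : ℕ) (x : ℂ) : ℂ := ∑ k ∈ Finset.range (m + 1), (cf α k : ℂ) * x ^ k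

/-- real partial sums at `1` -/
noncomputable def S1 (α : ℝ) (m : ℕ) : ℝ := ∑ k ∈ Finset.range (m + 1), cf α k

lemma S_one (α : ℝ) (m : ℕ) : S α m 1 = (S1 α m : ℂ) := by simp [S, S1]

lemma cf_add_one (α : ℝ) (k : ℕ) : cf (α + 1) (k + 1) = cf α (k + 1) + cf α k := by
  induction k with
  | zero => simp [cf]
  | succ k ih =>
    rw [cf_succ (α + 1) (k + 1), ih, cf_succ α (k + 1)]
    have h' : ((k : ℝ) + 1) ≠ 0 := by positivity
    have h2 : ((k : ℝ) + 1 + 1) ≠ 0 := by positivity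
    have := cf_succ α k
    rw [this]
    push_cast
    field_simp
    ring

lemma S_add_one (α : ℝ) (m : ℕ) (x : ℂ) :
    S (α + 1) (m + 1) x = S α (m + 1) x + x * S α m x := by
  unfold S
  rw [Finset.sum_range_succ' _ (m + 1), Finset.sum_range_succ' _ (m + 1)]
  rw [Finset.mul_sum]
  simp only [cf_add_one, cf_zero]
  have : ∑ k ∈ Finset.range (m + 1), (((cf α (k + 1) + cf α k : ℝ)) : ℂ) * x ^ (k + 1) =
      ∑ k ∈ Finset.range (m + 1), (cf α (k + 1) : ℂ) * x ^ (k + 1) +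
      ∑ k ∈ Finset.range (m + 1), x * ((cf α k : ℂ) * x ^ k) := by
    rw [← Finset.sum_add_distrib]
    refine Finset.sum_congr rfl fun k _ => ?_
    push_cast
    ring
  rw [this]
  ring

lemma S1_add_one (α : ℝ) (m : ℕ) : S1 (α + 1) (m + 1) = S1 α (m + 1) + S1 α m := by
  unfold S1
  rw [Finset.sum_range_succ' _ (m + 1), Finset.sum_range_succ' (fun k => cf α k) (m + 1)]
  simp only [cf_add_one, cf_zero]
  rw [Finset.sum_add_distrib]
  ring

/-- the weight -/
noncomputable def ρ (γ t : ℝ) : ℝ := (1 - t) ^ γ * t ^ (-γ)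

lemma ρ_nonneg (γ : ℝ) {t : ℝ} (h0 : 0 ≤ t) (h1 : t ≤ 1) : 0 ≤ ρ γ t :=
  mul_nonneg (Real.rpow_nonneg (by linarith) _) (Real.rpow_nonneg h0 _)

lemma ρ_integrable {γ : ℝ} (h0 : 0 < γ) (h1 : γ < 1) :
    IntervalIntegrable (ρ γ) volume 0 1 := by
  have h := intervalIntegral.intervalIntegrable_rpow' (a := 0) (b := 1) (r := -γ) (by linarith)
  refine h.continuousOn_mul ?_
  exact ContinuousOn.rpow_const (by fun_prop) (fun x hx => Or.inr h0.le)

lemma ρ_mul_integrable {γ : ℝ} (h0 : 0 < γ) (h1 : γ < 1) {f : ℝ → ℝ}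
    (hf : ContinuousOn f (Set.uIcc 0 1)) :
    IntervalIntegrable (fun t => f t * ρ γ t) volume 0 1 :=
  (ρ_integrable h0 h1).continuousOn_mul hf

lemma ρ_mul_integrableC {γ : ℝ} (h0 : 0 < γ) (h1 : γ < 1) {f : ℝ → ℂ}
    (hf : ContinuousOn f (Set.uIcc 0 1)) :
    IntervalIntegrable (fun t => f t * (ρ γ t : ℂ)) volume 0 1 := by
  have h : IntervalIntegrable (fun t => (ρ γ t : ℂ)) volume 0 1 :=
    ⟨(ρ_integrable h0 h1).1.ofReal, (ρ_integrable h0 h1).2.ofReal⟩
  exact h.continuousOn_mul hf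

/-- moments -/
noncomputable def M (γ : ℝ) (k : ℕ) : ℝ := ∫ t in (0 : ℝ)..1, t ^ k * ρ γ t

lemma M_rec {γ : ℝ} (h0 : 0 < γ) (h1 : γ < 1) (k : ℕ) :
    ((k : ℝ) + 2) * M γ (k + 1) = (k + 1 - γ) * M γ k := by
  have hk : 0 < (k : ℝ) + 1 - γ := by
    have : (0 : ℝ) ≤ k := Nat.cast_nonneg k
    linarith
  -- primitive
  have key := intervalIntegral.integral_eq_sub_of_hasDerivAt_of_le (a := 0) (b := 1) (by norm_num)
    (f := fun t : ℝ => t ^ ((k : ℝ) + 1 - γ) * (1 - t) ^ (1 + γ))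
    (f' := fun t : ℝ => ((k : ℝ) + 1 - γ) * (t ^ k * ρ γ t) - ((k : ℝ) + 2) * (t ^ (k + 1) * ρ γ t))
    ?_ ?_ ?_
  · rw [intervalIntegral.integral_sub, intervalIntegral.integral_const_mul,
      intervalIntegral.integral_const_mul] at key
    · have e0 : (0 : ℝ) ^ ((k : ℝ) + 1 - γ) = 0 := Real.zero_rpow hk.ne'
      have e1 : (1 - 1 : ℝ) ^ (1 + γ) = 0 := by
        rw [sub_self]; exact Real.zero_rpow (by linarith)
      rw [e0, e1] at key
      simp only [mul_zero, zero_mul, sub_zero] at key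
      unfold M
      linarith
    · exact (ρ_mul_integrable h0 h1 (by fun_prop)).const_mul _
    · exact (ρ_mul_integrable h0 h1 (by fun_prop)).const_mul _
  · refine ContinuousOn.mul ?_ ?_
    · exact ContinuousOn.rpow_const (by fun_prop) (fun x hx => Or.inr hk.le)
    · exact ContinuousOn.rpow_const (by fun_prop) (fun x hx => Or.inr (by linarith))
  · intro t ht
    have ht0 : 0 < t := ht.1
    have ht1 : 0 < 1 - t := by linarith [ht.2]
    have d1 : HasDerivAt (fun t : ℝ => t ^ ((k : ℝ) + 1 - γ))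
        (((k : ℝ) + 1 - γ) * t ^ ((k : ℝ) + 1 - γ - 1)) t :=
      Real.hasDerivAt_rpow_const (Or.inl ht0.ne')
    have d2 : HasDerivAt (fun t : ℝ => (1 - t) ^ (1 + γ))
        ((-1) * (1 + γ) * (1 - t) ^ (1 + γ - 1)) t := by
      have := ((hasDerivAt_id t).const_sub 1).rpow_const (p := 1 + γ) (Or.inl ht1.ne')
      simpa using this
    have d := d1.mul d2
    refine d.congr_deriv ?_
    have e1 : t ^ ((k : ℝ) + 1 - γ - 1) = t ^ k * t ^ (-γ) := by
      rw [← Real.rpow_natCast, ← Real.rpow_add ht0]; congr 1; ring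
    have e2 : (1 - t) ^ (1 + γ) = (1 - t) * (1 - t) ^ γ := by
      rw [Real.rpow_add ht1, Real.rpow_one]
    have e3 : t ^ ((k : ℝ) + 1 - γ) = t ^ (k + 1) * t ^ (-γ) := by
      rw [← Real.rpow_natCast, ← Real.rpow_add ht0]; push_cast; congr 1
    have e4 : (1 - t) ^ (1 + γ - 1) = (1 - t) ^ γ := by congr 1; ring
    rw [e1, e2, e3, e4]
    unfold ρ
    ring
  · exact ((ρ_mul_integrable h0 h1 (by fun_prop)).const_mul _).sub
      ((ρ_mul_integrable h0 h1 (by fun_prop)).const_mul _)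

lemma M_zero_ge {γ : ℝ} (h0 : 0 < γ) (h1 : γ < 1) : 1 ≤ M γ 0 := by
  have e1 : M γ 0 = ∫ t in (0 : ℝ)..1, ρ γ t := by simp [M]
  have e2 : ∫ t in (0 : ℝ)..1, ρ γ (1 - t) = ∫ t in (0 : ℝ)..1, ρ γ t := by
    simp
  have i1 := ρ_integrable h0 h1
  have i2 : IntervalIntegrable (fun t => ρ γ (1 - t)) volume 0 1 := by
    have := (i1.comp_sub_left 1).symm
    simp only [sub_zero, sub_self] at this
    exact this
  have h2 : (2 : ℝ) ≤ ∫ t in (0 : ℝ)..1, (ρ γ t + ρ γ (1 - t)) := by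
    have : ∫ t in (0 : ℝ)..1, (2 : ℝ) = 2 := by simp
    rw [← this]
    refine intervalIntegral.integral_mono_on_of_le_Ioo (by norm_num) (by simp) (i1.add i2) ?_
    intro t ht
    have ht0 : 0 < t := ht.1
    have ht1 : 0 < 1 - t := by linarith [ht.2]
    have hpos : 0 < ρ γ t := mul_pos (Real.rpow_pos_of_pos ht1 _) (Real.rpow_pos_of_pos ht0 _)
    have hinv : ρ γ (1 - t) = (ρ γ t)⁻¹ := by
      unfold ρ
      rw [sub_sub_cancel, mul_inv, Real.rpow_neg ht1.le, Real.rpow_neg ht0.le, inv_inv]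
      ring
    rw [hinv]
    have : 0 ≤ (ρ γ t - 1) ^ 2 / ρ γ t := by positivity
    have e : (ρ γ t - 1) ^ 2 / ρ γ t = ρ γ t + (ρ γ t)⁻¹ - 2 := by
      field_simp
      ring
    linarith
  rw [intervalIntegral.integral_add i1 i2, e2] at h2
  rw [e1]
  linarith

/-- the normalizing constant -/
noncomputable def C (γ : ℝ) : ℝ := γ / M γ 0

lemma C_pos {γ : ℝ} (h0 : 0 < γ) (h1 : γ < 1) : 0 < C γ :=
  div_pos h0 (lt_of_lt_of_le one_pos (M_zero_ge h0 h1))

lemma C_le {γ : ℝ} (h0 : 0 < γ) (h1 : γ < 1) : C γ ≤ γ :=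
  div_le_self h0.le (M_zero_ge h0 h1)

/-- the coefficients as moments -/
lemma cf_eq {γ : ℝ} (h0 : 0 < γ) (h1 : γ < 1) (k : ℕ) :
    cf γ (k + 1) = (-1) ^ k * (C γ * M γ k) := by
  have hM : M γ 0 ≠ 0 := (lt_of_lt_of_le one_pos (M_zero_ge h0 h1)).ne'
  induction k with
  | zero =>
    rw [cf_succ, cf_zero]
    simp [C]
    field_simp
  | succ k ih =>
    rw [cf_succ, ih]
    have h := M_rec h0 h1 k
    have hk : ((k : ℝ) + 2) ≠ 0 := by positivity
    have hm : M γ (k + 1) = (k + 1 - γ) * M γ k / (k + 2) := by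
      field_simp
      linarith
    rw [hm]
    push_cast
    have hk' : ((k : ℝ) + 1 + 1) ≠ 0 := by positivity
    field_simp
    ring

end Pool.Agent.R355.Bran
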