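import Pool.Agent.R355.BranA

/-!
# Brannan's coefficient conjecture, part B: the representation on the unit circle
-/

set_option autoImplicit false

namespace Pool.Agent.R355.Bran

open Finset MeasureTheory intervalIntegral Filter Topology

lemma norm_one_add_ge {z : ℂ} (hz : ‖z‖ ≤ 1) {t : ℝ} (h0 : 0 ≤ t) (h1 : t ≤ 1) :
    ‖1 + z‖ / 2 ≤ ‖1 + t * z‖ := by
  have e1 : 1 + z = (1 + t * z) + ((1 - t : ℝ) : ℂ) * z := by push_cast; ring
  have e2 : ‖((1 - t : ℝ) : ℂ) * z‖ ≤ 1 - t := by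
    rw [norm_mul, Complex.norm_real, Real.norm_of_nonneg (by linarith)]
    nlinarith [norm_nonneg z]
  have e3 : ‖1 + z‖ ≤ ‖1 + t * z‖ + (1 - t) := by
    rw [e1]
    exact (norm_add_le _ _).trans (by linarith)
  have e4 : 1 - t ≤ ‖1 + t * z‖ := by
    have : ‖(1 : ℂ)‖ - ‖(t : ℂ) * z‖ ≤ ‖1 + t * z‖ := by
      have := norm_sub_norm_le (1 : ℂ) (-((t : ℂ) * z))
      simpa using this
    rw [norm_one, norm_mul, Complex.norm_real, Real.norm_of_nonneg h0] at this
    nlinarith [norm_nonneg z]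
  linarith

lemma one_add_ne {z : ℂ} (hz : ‖z‖ ≤ 1) (hz1 : 1 + z ≠ 0) {t : ℝ} (h0 : 0 ≤ t) (h1 : t ≤ 1) :
    (1 + t * z : ℂ) ≠ 0 := by
  have := norm_one_add_ge hz h0 h1
  have h2 : 0 < ‖1 + z‖ := norm_pos_iff.2 hz1
  exact norm_pos_iff.1 (by linarith)

/-- the integral in the remainder -/
noncomputable def J (γ : ℝ) (f : ℝ → ℂ) (z : ℂ) : ℂ :=
  ∫ t in (0 : ℝ)..1, (f t / (1 + t * z)) * (ρ γ t : ℂ)

lemma cont_div {z : ℂ} (hz : ‖z‖ ≤ 1) (hz1 : 1 + z ≠ 0) {f : ℝ → ℂ}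
    (hf : ContinuousOn f (Set.uIcc 0 1)) :
    ContinuousOn (fun t : ℝ => f t / (1 + t * z)) (Set.uIcc 0 1) := by
  refine hf.div (by fun_prop) ?_
  intro t ht
  rw [Set.uIcc_of_le (by norm_num)] at ht
  exact one_add_ne hz hz1 ht.1 ht.2

lemma J_rec {γ : ℝ} (h0 : 0 < γ) (h1 : γ < 1) {z : ℂ} (hz : ‖z‖ ≤ 1) (hz1 : 1 + z ≠ 0) (m : ℕ) :
    J γ (fun t => (t : ℂ) ^ m) z + z * J γ (fun t => (t : ℂ) ^ (m + 1)) z = (M γ m : ℂ) := by
  unfold J M
  rw [← intervalIntegral.integral_const_mul, ← intervalIntegral.integral_add,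
    ← intervalIntegral.integral_ofReal]
  · refine intervalIntegral.integral_congr ?_
    intro t ht
    rw [Set.uIcc_of_le (by norm_num)] at ht
    have := one_add_ne hz hz1 ht.1 ht.2
    simp only
    push_cast
    field_simp
    ring
  · exact ρ_mul_integrableC h0 h1 (cont_div hz hz1 (by fun_prop))
  · exact (ρ_mul_integrableC h0 h1 (cont_div hz hz1 (by fun_prop))).const_mul _

lemma S_eq {γ : ℝ} (h0 : 0 < γ) (h1 : γ < 1) {z : ℂ} (hz : ‖z‖ ≤ 1) (hz1 : 1 + z ≠ 0) (m : ℕ) :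
    S γ m z = 1 + C γ * (z * J γ (fun t => (t : ℂ) ^ 0) z) +
      (-z) ^ (m + 1) * (C γ * J γ (fun t => (t : ℂ) ^ m) z) := by
  induction m with
  | zero =>
    simp only [S, zero_add, Finset.range_one, Finset.sum_singleton, cf_zero, pow_zero, pow_one]
    push_cast
    ring
  | succ m ih =>
    have e : S γ (m + 1) z = S γ m z + (cf γ (m + 1) : ℂ) * z ^ (m + 1) := by
      unfold S
      rw [Finset.sum_range_succ]
    rw [e, ih, cf_eq h0 h1]
    have h := J_rec h0 h1 hz hz1 m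
    push_cast
    rw [← h]
    rw [neg_pow z (m + 1), neg_pow z (m + 1 + 1)]
    ring

lemma J_norm_le {γ : ℝ} (h0 : 0 < γ) (h1 : γ < 1) {z : ℂ} (hz : ‖z‖ ≤ 1) (hz1 : 1 + z ≠ 0) (m : ℕ) :
    ‖J γ (fun t => (t : ℂ) ^ m) z‖ ≤ 2 / ‖1 + z‖ * M γ 0 := by
  have h2 : 0 < ‖1 + z‖ := norm_pos_iff.2 hz1
  unfold J M
  rw [← intervalIntegral.integral_const_mul]
  refine intervalIntegral.norm_integral_le_of_norm_le (by norm_num) ?_ ?_
  · refine Filter.Eventually.of_forall fun t ht => ?_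
    have ht0 : 0 ≤ t := ht.1.le
    have ht1 : t ≤ 1 := ht.2
    rw [norm_mul, norm_div, norm_pow, Complex.norm_real, Complex.norm_real,
      Real.norm_of_nonneg ht0, Real.norm_of_nonneg (ρ_nonneg γ ht0 ht1), pow_zero, one_mul]
    refine mul_le_mul_of_nonneg_right ?_ (ρ_nonneg γ ht0 ht1)
    have h3 := norm_one_add_ge hz ht0 ht1
    rw [div_le_div_iff₀ (by linarith) h2]
    have : t ^ m ≤ 1 := pow_le_one₀ ht0 ht1
    nlinarith
  · exact (ρ_mul_integrable h0 h1 (by fun_prop)).const_mul _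

lemma choose_eq (α : ℝ) (k : ℕ) : (Ring.choose (α : ℂ) k) = (cf α k : ℂ) := by
  have h := Ring.descPochhammer_eq_factorial_smul_choose (α : ℂ) k
  have h2 : (descPochhammer ℤ k).smeval (α : ℂ) = ∏ j ∈ Finset.range k, ((α : ℂ) - (j : ℂ)) := by
    induction k with
    | zero => simp
    | succ k ih =>
      rw [Finset.prod_range_succ, ← ih (Ring.descPochhammer_eq_factorial_smul_choose (α : ℂ) k)]
      simp [descPochhammer_succ_right, Polynomial.smeval_mul, Polynomial.smeval_natCast]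
  rw [h2, nsmul_eq_mul] at h
  have h3 : (k.factorial : ℂ) ≠ 0 := by exact_mod_cast k.factorial_ne_zero
  unfold cf
  push_cast
  rw [h]
  field_simp

lemma S_tendsto (γ : ℝ) {z : ℂ} (hz : ‖z‖ < 1) :
    Tendsto (fun m => S γ m z) atTop (𝓝 ((1 + z) ^ (γ : ℂ))) := by
  have h := (Complex.one_add_cpow_hasFPowerSeriesOnBall_zero (a := (γ : ℂ))).hasSum
    (y := z) (by simpa [← ENNReal.ofReal_one, Metric.eball_ofReal] using hz)
  have h2 := h.tendsto_sum_nat
  have h3 := (tendsto_add_atTop_iff_nat 1).2 h2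
  simp only [zero_add] at h3
  refine h3.congr fun m => ?_
  unfold S
  refine Finset.sum_congr rfl fun k _ => ?_
  rw [binomialSeries_apply, choose_eq, List.prod_ofFn]
  simp

lemma K_disk {γ : ℝ} (h0 : 0 < γ) (h1 : γ < 1) {z : ℂ} (hz : ‖z‖ < 1) :
    1 + C γ * (z * J γ (fun t => (t : ℂ) ^ 0) z) = (1 + z) ^ (γ : ℂ) := by
  have hz1 : 1 + z ≠ 0 := by
    intro h
    have : z = -1 := by linear_combination h
    rw [this] at hz
    simp at hz
  refine tendsto_nhds_unique ?_ (S_tendsto γ hz)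
  have e : (fun m => S γ m z) = fun m => 1 + C γ * (z * J γ (fun t => (t : ℂ) ^ 0) z) +
      (-z) ^ (m + 1) * (C γ * J γ (fun t => (t : ℂ) ^ m) z) := by
    funext m
    exact S_eq h0 h1 hz.le hz1 m
  rw [e]
  have : Tendsto (fun m : ℕ => (-z) ^ (m + 1) * (C γ * J γ (fun t => (t : ℂ) ^ m) z)) atTop (𝓝 0) := by
    rw [tendsto_zero_iff_norm_tendsto_zero]
    have hb : Tendsto (fun m : ℕ => ‖z‖ ^ (m + 1) * (C γ * (2 / ‖1 + z‖ * M γ 0))) atTop (𝓝 0) := by
      have := (tendsto_pow_atTop_nhds_zero_of_lt_one (norm_nonneg z) hz)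
      have := ((tendsto_add_atTop_iff_nat 1).2 this).mul_const (C γ * (2 / ‖1 + z‖ * M γ 0))
      simpa using this
    refine squeeze_zero (fun _ => norm_nonneg _) (fun m => ?_) hb
    rw [norm_mul, norm_mul, norm_pow, norm_neg, Complex.norm_real,
      Real.norm_of_nonneg (C_pos h0 h1).le]
    have := J_norm_le h0 h1 hz.le hz1 m
    have := (C_pos h0 h1).le
    gcongr
  simpa using tendsto_const_nhds.add this

lemma K_circle {γ : ℝ} (h0 : 0 < γ) (h1 : γ < 1) {x : ℂ} (hx : ‖x‖ = 1) (hx1 : 1 + x ≠ 0) :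
    1 + C γ * (x * J γ (fun t => (t : ℂ) ^ 0) x) = (1 + x) ^ (γ : ℂ) := by
  have hu : 0 < ‖1 + x‖ := norm_pos_iff.2 hx1
  have hl : Tendsto (fun r : ℝ => (r : ℂ) * x) (𝓝[<] 1) (𝓝 x) := by
    have : Tendsto (fun r : ℝ => (r : ℂ) * x) (𝓝 1) (𝓝 (((1 : ℝ) : ℂ) * x)) :=
      (Continuous.tendsto (by fun_prop) 1)
    simpa using this.mono_left nhdsWithin_le_nhds
  have hev : ∀ᶠ r : ℝ in 𝓝[<] 1, 0 < r ∧ r < 1 := by
    have := Ioo_mem_nhdsLT (show (0 : ℝ) < 1 by norm_num)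
    exact this
  have hre : 0 < (1 + x).re := by
    have h2 : ‖1 + x‖ ^ 2 = 2 * (1 + x).re := by
      have e1 : ‖x‖ ^ 2 = x.re ^ 2 + x.im ^ 2 := by
        rw [← Complex.normSq_eq_norm_sq, Complex.normSq_apply]; ring
      have e2 : ‖1 + x‖ ^ 2 = (1 + x).re ^ 2 + (1 + x).im ^ 2 := by
        rw [← Complex.normSq_eq_norm_sq, Complex.normSq_apply]; ring
      rw [e2]
      rw [hx] at e1
      simp only [Complex.add_re, Complex.one_re, Complex.add_im, Complex.one_im, zero_add]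
      nlinarith
    nlinarith [sq_pos_of_pos hu]
  -- the right side
  have hR : Tendsto (fun r : ℝ => (1 + (r : ℂ) * x) ^ (γ : ℂ)) (𝓝[<] 1) (𝓝 ((1 + x) ^ (γ : ℂ))) := by
    have hc : ContinuousAt (fun z : ℂ => z ^ (γ : ℂ)) (1 + x) :=
      continuousAt_id.cpow continuousAt_const (Or.inl hre)
    exact hc.tendsto.comp (tendsto_const_nhds.add hl)
  -- the left side
  have hJ : Tendsto (fun r : ℝ => J γ (fun t => (t : ℂ) ^ 0) ((r : ℂ) * x)) (𝓝[<] 1)
      (𝓝 (J γ (fun t => (t : ℂ) ^ 0) x)) := by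
    unfold J
    refine intervalIntegral.tendsto_integral_filter_of_dominated_convergence
      (fun t => 2 / ‖1 + x‖ * ρ γ t) ?_ ?_ ?_ ?_
    · filter_upwards [hev] with r hr
      have hn : ‖(r : ℂ) * x‖ < 1 := by
        rw [norm_mul, hx, mul_one, Complex.norm_real, Real.norm_of_nonneg hr.1.le]
        exact hr.2
      have hne : 1 + (r : ℂ) * x ≠ 0 := by
        intro h
        have : (r : ℂ) * x = -1 := by linear_combination h
        rw [this] at hn
        simp at hn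
      have := (ρ_mul_integrableC h0 h1 (cont_div hn.le hne
        (f := fun t : ℝ => (t : ℂ) ^ 0) (by fun_prop))).aestronglyMeasurable
      rw [Set.uIoc_of_le (by norm_num : (0 : ℝ) ≤ 1)]
      exact this
    · filter_upwards [hev] with r hr
      refine Filter.Eventually.of_forall fun t ht => ?_
      rw [Set.uIoc_of_le (by norm_num)] at ht
      have ht0 : 0 ≤ t := ht.1.le
      have ht1 : t ≤ 1 := ht.2
      have h3 := norm_one_add_ge hx.le (t := t * r) (by nlinarith [hr.1]) (by nlinarith [hr.1, hr.2])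
      rw [norm_mul, norm_div, norm_pow, Complex.norm_real, Complex.norm_real,
        Real.norm_of_nonneg ht0, Real.norm_of_nonneg (ρ_nonneg γ ht0 ht1), pow_zero]
      refine mul_le_mul_of_nonneg_right ?_ (ρ_nonneg γ ht0 ht1)
      have e : (1 + (t : ℂ) * ((r : ℂ) * x)) = 1 + ((t * r : ℝ) : ℂ) * x := by push_cast; ring
      rw [e, div_le_div_iff₀ (by linarith) hu]
      linarith
    · exact (ρ_integrable h0 h1).const_mul _
    · refine Filter.Eventually.of_forall fun t ht => ?_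
      rw [Set.uIoc_of_le (by norm_num)] at ht
      have hne := one_add_ne hx.le hx1 ht.1.le ht.2
      refine Tendsto.mul_const _ ?_
      refine Tendsto.div tendsto_const_nhds ?_ hne
      exact tendsto_const_nhds.add (tendsto_const_nhds.mul hl)
  have hL := (tendsto_const_nhds (x := (1 : ℂ))).add
    ((tendsto_const_nhds (x := (C γ : ℂ))).mul (hl.mul hJ))
  refine tendsto_nhds_unique hL (hR.congr' ?_)
  filter_upwards [hev] with r hr
  have hn : ‖(r : ℂ) * x‖ < 1 := by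
    rw [norm_mul, hx, mul_one, Complex.norm_real, Real.norm_of_nonneg hr.1.le]
    exact hr.2
  exact (K_disk h0 h1 hn).symm

/-- **The representation.** -/
lemma S_repr {γ : ℝ} (h0 : 0 < γ) (h1 : γ < 1) {x : ℂ} (hx : ‖x‖ = 1) (hx1 : 1 + x ≠ 0) (m : ℕ) :
    S γ m x = (1 + x) ^ (γ : ℂ) + (-x) ^ (m + 1) * (C γ * J γ (fun t => (t : ℂ) ^ m) x) := by
  rw [S_eq h0 h1 hx.le hx1 m, K_circle h0 h1 hx hx1]

end Pool.Agent.R355.Bran
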