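import Pool.Agent.R355.BranB

/-!
# Brannan's coefficient conjecture, part C: monotonicity, and the exponents between `0` and `1`
-/

set_option autoImplicit false

namespace Pool.Agent.R355.Bran

open Finset MeasureTheory intervalIntegral Filter Topology

/-- `|1 + t x| ^ 2` for `|x| = 1`, `|1 + x| = v` -/
noncomputable def q (t v : ℝ) : ℝ := (1 - t) ^ 2 + t * v ^ 2

lemma q_pos {t v : ℝ} (ht0 : 0 ≤ t) (hv : 0 < v) : 0 < q t v := by
  unfold q
  rcases eq_or_lt_of_le ht0 with h | h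
  · rw [← h]; norm_num
  · have := mul_pos h (pow_pos hv 2)
    nlinarith [sq_nonneg (1 - t)]

lemma norm_sq_eq {x : ℂ} (hx : ‖x‖ = 1) (t : ℝ) : ‖1 + t * x‖ ^ 2 = q t ‖1 + x‖ := by
  have e1 : ‖x‖ ^ 2 = x.re ^ 2 + x.im ^ 2 := by
    rw [← Complex.normSq_eq_norm_sq, Complex.normSq_apply]; ring
  have e2 : ‖1 + x‖ ^ 2 = (1 + x).re ^ 2 + (1 + x).im ^ 2 := by
    rw [← Complex.normSq_eq_norm_sq, Complex.normSq_apply]; ring
  have e3 : ‖1 + t * x‖ ^ 2 = (1 + t * x).re ^ 2 + (1 + t * x).im ^ 2 := by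
    rw [← Complex.normSq_eq_norm_sq, Complex.normSq_apply]; ring
  unfold q
  rw [e2, e3]
  rw [hx] at e1
  simp only [Complex.add_re, Complex.one_re, Complex.add_im, Complex.one_im, Complex.mul_re,
    Complex.ofReal_re, Complex.ofReal_im, Complex.mul_im]
  linear_combination (t - t ^ 2) * e1

lemma norm_eq {x : ℂ} (hx : ‖x‖ = 1) (t : ℝ) : ‖1 + t * x‖ = Real.sqrt (q t ‖1 + x‖) := by
  rw [← norm_sq_eq hx t, Real.sqrt_sq (norm_nonneg _)]

/-- the majorant of the integral -/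
noncomputable def T (γ : ℝ) (m : ℕ) (v : ℝ) : ℝ :=
  ∫ t in (0 : ℝ)..1, t ^ m / Real.sqrt (q t v) * ρ γ t

lemma cont_q (v : ℝ) : Continuous (fun t => q t v) := by unfold q; fun_prop

lemma cont_sqrt_div {v : ℝ} (hv : 0 < v) {f : ℝ → ℝ} (hf : ContinuousOn f (Set.uIcc 0 1)) :
    ContinuousOn (fun t => f t / Real.sqrt (q t v)) (Set.uIcc 0 1) := by
  refine hf.div (Real.continuous_sqrt.comp (cont_q v)).continuousOn ?_
  intro t ht
  rw [Set.uIcc_of_le (by norm_num)] at ht
  exact (Real.sqrt_pos.2 (q_pos ht.1 hv)).ne'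

lemma cont_q32_div {v : ℝ} (hv : 0 < v) {f : ℝ → ℝ} (hf : ContinuousOn f (Set.uIcc 0 1)) :
    ContinuousOn (fun t => f t / (q t v * Real.sqrt (q t v))) (Set.uIcc 0 1) := by
  refine hf.div ((cont_q v).mul (Real.continuous_sqrt.comp (cont_q v))).continuousOn ?_
  intro t ht
  rw [Set.uIcc_of_le (by norm_num)] at ht
  exact (mul_pos (q_pos ht.1 hv) (Real.sqrt_pos.2 (q_pos ht.1 hv))).ne'

lemma J_le {γ : ℝ} (h0 : 0 < γ) (h1 : γ < 1) {x : ℂ} (hx : ‖x‖ = 1) (hx1 : 1 + x ≠ 0) (m : ℕ) :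
    ‖J γ (fun t => (t : ℂ) ^ m) x‖ ≤ T γ m ‖1 + x‖ := by
  have hu : 0 < ‖1 + x‖ := norm_pos_iff.2 hx1
  unfold J T
  refine intervalIntegral.norm_integral_le_of_norm_le (by norm_num) ?_ ?_
  · refine Filter.Eventually.of_forall fun t ht => ?_
    have ht0 : 0 ≤ t := ht.1.le
    have ht1 : t ≤ 1 := ht.2
    rw [norm_mul, norm_div, norm_pow, Complex.norm_real, Complex.norm_real,
      Real.norm_of_nonneg ht0, Real.norm_of_nonneg (ρ_nonneg γ ht0 ht1), norm_eq hx]
  · exact ρ_mul_integrable h0 h1 (cont_sqrt_div hu (by fun_prop))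

/-- the elementary integrals -/
lemma int_zero {v : ℝ} (hv0 : 0 < v) (hv2 : v < 2) :
    ∫ t in (0 : ℝ)..1, t * v ^ 2 / (q t v * Real.sqrt (q t v)) = 2 / (2 + v) := by
  have h4 : 0 < 4 - v ^ 2 := by nlinarith
  rw [intervalIntegral.integral_eq_sub_of_hasDerivAt
    (f := fun t => 4 * ((1 - v ^ 2 / 2) * t - 1) / ((4 - v ^ 2) * Real.sqrt (q t v)))]
  · have e1 : q 1 v = v ^ 2 := by unfold q; ring
    have e0 : q 0 v = 1 := by unfold q; ring
    rw [e1, e0, Real.sqrt_sq hv0.le, Real.sqrt_one]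
    have h5 : (2 - v) ≠ 0 := by linarith
    have h6 : (2 + v) ≠ 0 := by linarith
    have h7 : (4 - v ^ 2) = (2 - v) * (2 + v) := by ring
    rw [h7]
    field_simp
    ring
  · intro t ht
    rw [Set.uIcc_of_le (by norm_num)] at ht
    have hq := q_pos ht.1 hv0
    have hs := Real.sqrt_pos.2 hq
    have dq : HasDerivAt (fun t => q t v) (-2 * (1 - t) + v ^ 2) t := by
      unfold q
      have d1 : HasDerivAt (fun t : ℝ => (1 - t) ^ 2) (2 * (1 - t) * (-1)) t := by
        have := ((hasDerivAt_id t).const_sub 1).fun_pow 2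
        simpa using this
      have d2 : HasDerivAt (fun t : ℝ => t * v ^ 2) (1 * v ^ 2) t := (hasDerivAt_id t).mul_const _
      refine (d1.add d2).congr_deriv ?_
      ring
    have ds := dq.sqrt hq.ne'
    have dn : HasDerivAt (fun t : ℝ => 4 * ((1 - v ^ 2 / 2) * t - 1)) (4 * ((1 - v ^ 2 / 2) * 1)) t :=
      (((hasDerivAt_id t).const_mul (1 - v ^ 2 / 2)).sub_const 1).const_mul 4
    have dd := ds.const_mul (4 - v ^ 2)
    have := dn.div dd (mul_pos h4 hs).ne'
    refine this.congr_deriv ?_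
    have hsq : Real.sqrt (q t v) ^ 2 = q t v := Real.sq_sqrt hq.le
    have hqe : q t v = (1 - t) ^ 2 + t * v ^ 2 := rfl
    have h4' := h4.ne'
    have hs' := hs.ne'
    have hq' := hq.ne'
    rw [div_eq_div_iff (by positivity) (by positivity)]
    generalize hS : Real.sqrt (q t v) = s at *
    rw [← hsq]
    field_simp
    rw [show s ^ 2 = (1 - t) ^ 2 + t * v ^ 2 by rw [hsq, hqe]]
    ring
  · refine ContinuousOn.intervalIntegrable (cont_q32_div hv0 (by fun_prop))

lemma int_one {v : ℝ} (hv0 : 0 < v) (hv2 : v < 2) :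
    ∫ t in (0 : ℝ)..1, (1 - t) * v / (q t v * Real.sqrt (q t v)) = 2 / (2 + v) := by
  have h4 : 0 < 4 - v ^ 2 := by nlinarith
  rw [intervalIntegral.integral_eq_sub_of_hasDerivAt
    (f := fun t => 2 * v * (1 + t) / ((4 - v ^ 2) * Real.sqrt (q t v)))]
  · have e1 : q 1 v = v ^ 2 := by unfold q; ring
    have e0 : q 0 v = 1 := by unfold q; ring
    rw [e1, e0, Real.sqrt_sq hv0.le, Real.sqrt_one]
    have h5 : (2 - v) ≠ 0 := by linarith
    have h6 : (2 + v) ≠ 0 := by linarith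
    have h7 : (4 - v ^ 2) = (2 - v) * (2 + v) := by ring
    rw [h7]
    field_simp
    ring
  · intro t ht
    rw [Set.uIcc_of_le (by norm_num)] at ht
    have hq := q_pos ht.1 hv0
    have hs := Real.sqrt_pos.2 hq
    have dq : HasDerivAt (fun t => q t v) (-2 * (1 - t) + v ^ 2) t := by
      unfold q
      have d1 : HasDerivAt (fun t : ℝ => (1 - t) ^ 2) (2 * (1 - t) * (-1)) t := by
        have := ((hasDerivAt_id t).const_sub 1).fun_pow 2
        simpa using this
      have d2 : HasDerivAt (fun t : ℝ => t * v ^ 2) (1 * v ^ 2) t := (hasDerivAt_id t).mul_const _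
      refine (d1.add d2).congr_deriv ?_
      ring
    have ds := dq.sqrt hq.ne'
    have dn : HasDerivAt (fun t : ℝ => 2 * v * (1 + t)) (2 * v * 1) t :=
      ((hasDerivAt_id t).const_add 1).const_mul (2 * v)
    have dd := ds.const_mul (4 - v ^ 2)
    have := dn.div dd (mul_pos h4 hs).ne'
    refine this.congr_deriv ?_
    have hsq : Real.sqrt (q t v) ^ 2 = q t v := Real.sq_sqrt hq.le
    have hqe : q t v = (1 - t) ^ 2 + t * v ^ 2 := rfl
    have h4' := h4.ne'
    have hs' := hs.ne'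
    have hq' := hq.ne'
    rw [div_eq_div_iff (by positivity) (by positivity)]
    generalize hS : Real.sqrt (q t v) = s at *
    rw [← hsq]
    field_simp
    rw [show s ^ 2 = (1 - t) ^ 2 + t * v ^ 2 by rw [hsq, hqe]]
    ring
  · refine ContinuousOn.intervalIntegrable (cont_q32_div hv0 (by fun_prop))

end Pool.Agent.R355.Bran
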