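import Pool.Agent.R355.BranC

/-!
# Brannan's coefficient conjecture, part D: exponents between `0` and `1`
-/

set_option autoImplicit false

namespace Pool.Agent.R355.Bran

open Finset MeasureTheory intervalIntegral Filter Topology

/-- the derivative of the majorant -/
noncomputable def T' (γ : ℝ) (m : ℕ) (v : ℝ) : ℝ :=
  ∫ t in (0 : ℝ)..1, (-(t ^ (m + 1) * v) / (q t v * Real.sqrt (q t v))) * ρ γ t

lemma q_lower {b v t : ℝ} (hb0 : 0 < b) (hb1 : b ≤ 1) (hv : b ≤ v) (ht0 : 0 ≤ t) :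
    b ^ 2 / 2 ≤ q t v := by
  unfold q
  have h1 : t * b ^ 2 ≤ t * v ^ 2 := mul_le_mul_of_nonneg_left (by gcongr) ht0
  have h2 : b ^ 2 ≤ 1 := by nlinarith
  nlinarith [sq_nonneg (1 - t), sq_nonneg (t - 1 / 2), mul_nonneg (sub_nonneg.2 h2) (sq_nonneg (1 - t))]

lemma hasDeriv_pt {t v : ℝ} (ht0 : 0 ≤ t) (hv : 0 < v) (m : ℕ) :
    HasDerivAt (fun v => t ^ m / Real.sqrt (q t v))
      (-(t ^ (m + 1) * v) / (q t v * Real.sqrt (q t v))) v := by
  have hq := q_pos ht0 hv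
  have hs := Real.sqrt_pos.2 hq
  have dq : HasDerivAt (fun v => q t v) (2 * t * v) v := by
    unfold q
    have d1 : HasDerivAt (fun v : ℝ => t * v ^ 2) (t * (2 * v)) v := by
      have := (hasDerivAt_pow 2 v).const_mul t
      simpa using this
    refine (d1.const_add ((1 - t) ^ 2)).congr_deriv ?_
    ring
  have ds := dq.sqrt hq.ne'
  have := (ds.inv hs.ne').const_mul (t ^ m)
  refine (this.congr_deriv ?_)
  have hsq : Real.sqrt (q t v) ^ 2 = q t v := Real.sq_sqrt hq.le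
  rw [hsq]
  field_simp
  ring

lemma T_hasDeriv {γ : ℝ} (h0 : 0 < γ) (h1 : γ < 1) (m : ℕ) {v : ℝ} (hv : 0 < v) :
    HasDerivAt (T γ m) (T' γ m v) v := by
  set b : ℝ := min (v / 2) 1 with hb
  have hb0 : 0 < b := lt_min (by linarith) one_pos
  have hb1 : b ≤ 1 := min_le_right _ _
  have hbv : b ≤ v / 2 := min_le_left _ _
  have hball : ∀ w ∈ Metric.ball v (v / 2), b ≤ w ∧ w ≤ 2 * v := by
    intro w hw
    rw [Metric.mem_ball, Real.dist_eq, abs_lt] at hw
    constructor <;> linarith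
  have key := intervalIntegral.hasDerivAt_integral_of_dominated_loc_of_deriv_le
    (μ := volume) (a := 0) (b := 1)
    (F := fun w t => t ^ m / Real.sqrt (q t w) * ρ γ t)
    (F' := fun w t => (-(t ^ (m + 1) * w) / (q t w * Real.sqrt (q t w))) * ρ γ t)
    (x₀ := v) (s := Metric.ball v (v / 2))
    (bound := fun t => (2 * v / (b ^ 2 / 2 * Real.sqrt (b ^ 2 / 2))) * ρ γ t)
    (Metric.ball_mem_nhds v (by linarith)) ?_ ?_ ?_ ?_ ?_ ?_
  · exact key.2
  · filter_upwards [lt_mem_nhds hv] with w hw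
    rw [Set.uIoc_of_le (by norm_num : (0 : ℝ) ≤ 1)]
    exact (ρ_mul_integrable h0 h1 (cont_sqrt_div hw (by fun_prop))).aestronglyMeasurable
  · exact ρ_mul_integrable h0 h1 (cont_sqrt_div hv (by fun_prop))
  · rw [Set.uIoc_of_le (by norm_num : (0 : ℝ) ≤ 1)]
    exact (ρ_mul_integrable h0 h1 (cont_q32_div hv (by fun_prop))).aestronglyMeasurable
  · refine Filter.Eventually.of_forall fun t ht w hw => ?_
    rw [Set.uIoc_of_le (by norm_num)] at ht
    have ht0 : 0 ≤ t := ht.1.le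
    have ht1 : t ≤ 1 := ht.2
    obtain ⟨hw1, hw2⟩ := hball w hw
    have hw0 : 0 < w := lt_of_lt_of_le hb0 hw1
    have hql := q_lower hb0 hb1 hw1 ht0
    have hq := q_pos ht0 hw0
    rw [norm_mul, Real.norm_of_nonneg (ρ_nonneg γ ht0 ht1), norm_div, norm_neg]
    refine mul_le_mul_of_nonneg_right ?_ (ρ_nonneg γ ht0 ht1)
    rw [Real.norm_of_nonneg (by positivity), Real.norm_of_nonneg (by positivity)]
    have hp : t ^ (m + 1) ≤ 1 := pow_le_one₀ ht0 ht1
    have hb2 : 0 < b ^ 2 / 2 := by positivity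
    have hnum : t ^ (m + 1) * w ≤ 2 * v := by nlinarith
    exact div_le_div₀ (by positivity) hnum (by positivity)
      (mul_le_mul hql (Real.sqrt_le_sqrt hql) (Real.sqrt_nonneg _) hq.le)
  · exact (ρ_integrable h0 h1).const_mul _
  · refine Filter.Eventually.of_forall fun t ht w hw => ?_
    rw [Set.uIoc_of_le (by norm_num)] at ht
    obtain ⟨hw1, hw2⟩ := hball w hw
    have hw0 : 0 < w := lt_of_lt_of_le hb0 hw1
    exact (hasDeriv_pt ht.1.le hw0 m).mul_const _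

/-- pointwise bound by the weighted inequality of the means -/
lemma pointwise {γ : ℝ} (h0 : 0 < γ) (h1 : γ < 1) (m : ℕ) {v t : ℝ} (hv : 0 < v) (ht0 : 0 < t)
    (ht1 : t < 1) :
    t ^ (m + 1) * v * ρ γ t ≤
      v ^ (γ - 1) * ((1 - γ) * (t * v ^ 2) + γ * ((1 - t) * v)) := by
  have h1t : 0 < 1 - t := by linarith
  have hm := Real.geom_mean_le_arith_mean2_weighted (w₁ := 1 - γ) (w₂ := γ)
    (p₁ := t * v ^ 2) (p₂ := (1 - t) * v) (by linarith) h0.le (by positivity) (by positivity)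
    (by ring)
  have hv1 : 0 ≤ v ^ (γ - 1) := (Real.rpow_pos_of_pos hv _).le
  refine le_trans ?_ (mul_le_mul_of_nonneg_left hm hv1)
  have e1 : (t * v ^ 2) ^ (1 - γ) = t ^ (1 - γ) * (v ^ (2 : ℝ)) ^ (1 - γ) := by
    rw [Real.mul_rpow ht0.le (by positivity), Real.rpow_two]
  have e2 : ((1 - t) * v) ^ γ = (1 - t) ^ γ * v ^ γ := Real.mul_rpow h1t.le hv.le
  rw [e1, e2, ← Real.rpow_mul hv.le]
  have e3 : v ^ (γ - 1) * (t ^ (1 - γ) * v ^ (2 * (1 - γ)) * ((1 - t) ^ γ * v ^ γ)) =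
      t ^ (1 - γ) * (1 - t) ^ γ * (v ^ (γ - 1) * v ^ (2 * (1 - γ)) * v ^ γ) := by ring
  rw [e3, ← Real.rpow_add hv, ← Real.rpow_add hv]
  have e4 : γ - 1 + 2 * (1 - γ) + γ = 1 := by ring
  rw [e4, Real.rpow_one]
  have e5 : t ^ (1 - γ) = t * t ^ (-γ) := by
    rw [show (1 - γ) = 1 + -γ by ring, Real.rpow_add ht0, Real.rpow_one]
  rw [e5]
  unfold ρ
  have hp : t ^ (m + 1) ≤ t := by
    rw [pow_succ]
    have : t ^ m ≤ 1 := pow_le_one₀ ht0.le ht1.le
    nlinarith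
  have hA : 0 ≤ (1 - t) ^ γ * t ^ (-γ) * v := by positivity
  nlinarith [mul_le_mul_of_nonneg_right hp hA]

lemma T'_ge {γ : ℝ} (h0 : 0 < γ) (h1 : γ < 1) (m : ℕ) {v : ℝ} (hv : 0 < v) (hv2 : v < 2) :
    -(v ^ (γ - 1)) ≤ T' γ m v := by
  have hv1 : 0 < v ^ (γ - 1) := Real.rpow_pos_of_pos hv _
  have hA : ∫ t in (0 : ℝ)..1, (t ^ (m + 1) * v / (q t v * Real.sqrt (q t v))) * ρ γ t ≤
      ∫ t in (0 : ℝ)..1, v ^ (γ - 1) * ((1 - γ) * (t * v ^ 2 / (q t v * Real.sqrt (q t v))) +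
        γ * ((1 - t) * v / (q t v * Real.sqrt (q t v)))) := by
    refine intervalIntegral.integral_mono_on_of_le_Ioo (by norm_num) ?_ ?_ ?_
    · exact ρ_mul_integrable h0 h1 (cont_q32_div hv (by fun_prop))
    · refine ContinuousOn.intervalIntegrable ?_
      refine continuousOn_const.mul ((continuousOn_const.mul (cont_q32_div hv (by fun_prop))).add
        (continuousOn_const.mul (cont_q32_div hv (by fun_prop))))
    · intro t ht
      have hq := q_pos ht.1.le hv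
      have hs := Real.sqrt_pos.2 hq
      have hd : 0 < q t v * Real.sqrt (q t v) := mul_pos hq hs
      have := pointwise h0 h1 m hv ht.1 ht.2
      have e1 : (t ^ (m + 1) * v / (q t v * Real.sqrt (q t v))) * ρ γ t =
        (t ^ (m + 1) * v * ρ γ t) / (q t v * Real.sqrt (q t v)) := by ring
      have e2 : v ^ (γ - 1) * ((1 - γ) * (t * v ^ 2 / (q t v * Real.sqrt (q t v))) +
        γ * ((1 - t) * v / (q t v * Real.sqrt (q t v)))) =
        (v ^ (γ - 1) * ((1 - γ) * (t * v ^ 2) + γ * ((1 - t) * v))) /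
          (q t v * Real.sqrt (q t v)) := by ring
      rw [e1, e2]
      exact div_le_div_of_nonneg_right this hd.le
  rw [intervalIntegral.integral_const_mul, intervalIntegral.integral_add,
    intervalIntegral.integral_const_mul, intervalIntegral.integral_const_mul,
    int_zero hv hv2, int_one hv hv2] at hA
  · have hB : v ^ (γ - 1) * ((1 - γ) * (2 / (2 + v)) + γ * (2 / (2 + v))) ≤ v ^ (γ - 1) := by
      have : (1 - γ) * (2 / (2 + v)) + γ * (2 / (2 + v)) = 2 / (2 + v) := by ring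
      rw [this]
      have : 2 / (2 + v) ≤ 1 := by
        rw [div_le_one (by linarith)]; linarith
      nlinarith
    have e : T' γ m v = -∫ t in (0 : ℝ)..1, (t ^ (m + 1) * v / (q t v * Real.sqrt (q t v))) * ρ γ t := by
      unfold T'
      rw [← intervalIntegral.integral_neg]
      refine intervalIntegral.integral_congr fun t _ => ?_
      ring
    rw [e]
    linarith
  · exact (ContinuousOn.intervalIntegrable (cont_q32_div hv (by fun_prop))).const_mul _
  · exact (ContinuousOn.intervalIntegrable (cont_q32_div hv (by fun_prop))).const_mul _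

/-- `v ^ γ + C T(v)` is nondecreasing up to `2` -/
lemma G_le {γ : ℝ} (h0 : 0 < γ) (h1 : γ < 1) (m : ℕ) {v : ℝ} (hv : 0 < v) (hv2 : v ≤ 2) :
    v ^ γ + C γ * T γ m v ≤ 2 ^ γ + C γ * T γ m 2 := by
  have hd : ∀ w : ℝ, 0 < w → HasDerivAt (fun w => w ^ γ + C γ * T γ m w)
      (γ * w ^ (γ - 1) + C γ * T' γ m w) w := by
    intro w hw
    exact (Real.hasDerivAt_rpow_const (Or.inl hw.ne')).add ((T_hasDeriv h0 h1 m hw).const_mul _)
  have hmono : MonotoneOn (fun w => w ^ γ + C γ * T γ m w) (Set.Icc v 2) := by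
    refine monotoneOn_of_deriv_nonneg (convex_Icc v 2) ?_ ?_ ?_
    · intro w hw
      exact (hd w (lt_of_lt_of_le hv hw.1)).continuousAt.continuousWithinAt
    · intro w hw
      rw [interior_Icc] at hw
      exact (hd w (hv.trans hw.1)).differentiableAt.differentiableWithinAt
    · intro w hw
      rw [interior_Icc] at hw
      have hw0 : 0 < w := hv.trans hw.1
      rw [(hd w hw0).deriv]
      have a1 := T'_ge h0 h1 m hw0 hw.2
      have a2 := C_le h0 h1
      have a3 := C_pos h0 h1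
      have a4 : 0 < w ^ (γ - 1) := Real.rpow_pos_of_pos hw0 _
      nlinarith [mul_le_mul_of_nonneg_left a1 a3.le, mul_le_mul_of_nonneg_right a2 a4.le]
  exact hmono ⟨le_refl _, hv2⟩ ⟨hv2, le_refl _⟩ hv2

lemma norm_cpow_eq (x : ℂ) (α : ℝ) : ‖(1 + x) ^ (α : ℂ)‖ = ‖1 + x‖ ^ α := by
  exact Complex.norm_cpow_real _ _

lemma norm_one_add_le {x : ℂ} (hx : ‖x‖ = 1) : ‖1 + x‖ ≤ 2 := by
  refine (norm_add_le _ _).trans ?_
  rw [hx, norm_one]; norm_num

/-- integrals at `x = 1` -/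
lemma J_one (γ : ℝ) (f : ℝ → ℝ) :
    J γ (fun t => (f t : ℂ)) 1 = ((∫ t in (0 : ℝ)..1, f t / (1 + t) * ρ γ t : ℝ) : ℂ) := by
  unfold J
  rw [← intervalIntegral.integral_ofReal]
  refine intervalIntegral.integral_congr fun t _ => ?_
  simp only
  push_cast
  ring

lemma T_two (γ : ℝ) (m : ℕ) : T γ m 2 = ∫ t in (0 : ℝ)..1, t ^ m / (1 + t) * ρ γ t := by
  unfold T
  refine intervalIntegral.integral_congr fun t ht => ?_
  rw [Set.uIcc_of_le (by norm_num)] at ht
  have : Real.sqrt (q t 2) = 1 + t := by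
    rw [show q t 2 = (1 + t) ^ 2 by unfold q; ring, Real.sqrt_sq (by linarith [ht.1])]
  rw [this]

lemma S1_eq {γ : ℝ} (h0 : 0 < γ) (h1 : γ < 1) {m : ℕ} (hm : Odd m) :
    S1 γ m = 2 ^ γ + C γ * T γ m 2 := by
  have h := S_repr h0 h1 (x := 1) (by simp) (by norm_num) m
  have e1 : (-(1 : ℂ)) ^ (m + 1) = 1 := by
    have : Even (m + 1) := hm.add_one
    exact this.neg_one_pow
  have e2 : J γ (fun t => (t : ℂ) ^ m) 1 = (T γ m 2 : ℂ) := by
    rw [T_two, ← J_one]
    congr 1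
    funext t
    push_cast
    rfl
  rw [S_one, e1, e2, one_mul] at h
  have e3 : ((1 : ℂ) + 1) ^ (γ : ℂ) = ((2 ^ γ : ℝ) : ℂ) := by
    rw [show ((1 : ℂ) + 1) = ((2 : ℝ) : ℂ) by norm_num, Complex.ofReal_cpow (by norm_num)]
  rw [e3] at h
  exact_mod_cast h

/-- exponents in `(0, 1)`, odd index, `x ≠ -1` -/
lemma dom_small {γ : ℝ} (h0 : 0 < γ) (h1 : γ < 1) {m : ℕ} (hm : Odd m) {x : ℂ} (hx : ‖x‖ = 1)
    (hx1 : 1 + x ≠ 0) : ‖S γ m x‖ ≤ S1 γ m := by
  have hu : 0 < ‖1 + x‖ := norm_pos_iff.2 hx1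
  rw [S_repr h0 h1 hx hx1, S1_eq h0 h1 hm]
  refine le_trans ?_ (G_le h0 h1 m hu (norm_one_add_le hx))
  refine (norm_add_le _ _).trans ?_
  rw [norm_cpow_eq x, norm_mul, norm_pow, norm_neg, hx, one_pow, one_mul, norm_mul,
    Complex.norm_real, Real.norm_of_nonneg (C_pos h0 h1).le]
  have := J_le h0 h1 hx hx1 m
  have := (C_pos h0 h1).le
  gcongr

end Pool.Agent.R355.Bran
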