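import Pool.Agent.R355.BranD

/-!
# Brannan's coefficient conjecture, part E: exponents between `1` and `2`, all indices
-/

set_option autoImplicit false

namespace Pool.Agent.R355.Bran

open Finset MeasureTheory intervalIntegral Filter Topology

lemma abs_sin_nat_mul (j : ℕ) (θ : ℝ) : |Real.sin (j * θ)| ≤ j * |Real.sin θ| := by
  induction j with
  | zero => simp
  | succ j ih =>
    push_cast
    rw [add_mul, one_mul, Real.sin_add]
    have h1 : |Real.sin (j * θ) * Real.cos θ| ≤ j * |Real.sin θ| := by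
      rw [abs_mul]
      have := Real.abs_cos_le_one θ
      have := abs_nonneg (Real.sin (j * θ))
      nlinarith [abs_nonneg (Real.cos θ)]
    have h2 : |Real.cos (j * θ) * Real.sin θ| ≤ |Real.sin θ| := by
      rw [abs_mul]
      have := Real.abs_cos_le_one (j * θ)
      nlinarith [abs_nonneg (Real.sin θ)]
    have := abs_add_le (Real.sin (j * θ) * Real.cos θ) (Real.cos (j * θ) * Real.sin θ)
    linarith

/-- the phase of `(1 + x) ^ α` -/
lemma phase {x : ℂ} (hx : ‖x‖ = 1) (hx1 : 1 + x ≠ 0) {α : ℝ} (ha1 : 1 ≤ α) (ha2 : α ≤ 2) (j : ℕ) :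
    ‖1 + x‖ ^ α * (1 - 2 * (j + 1) ^ 2 * (1 - (‖1 + x‖ / 2) ^ 2)) ≤
      ((starRingEnd ℂ) ((1 + x) ^ (α : ℂ)) * x ^ j).re := by
  set θ := Complex.arg x with hθ
  have hxe : x = Complex.exp (θ * Complex.I) := by
    have := Complex.norm_mul_exp_arg_mul_I x
    rw [hx] at this
    simpa using this.symm
  have hθ1 : -Real.pi < θ := Complex.neg_pi_lt_arg x
  have hθ2 : θ < Real.pi := by
    refine lt_of_le_of_ne (Complex.arg_le_pi x) ?_
    intro h
    apply hx1
    rw [hxe, h, Complex.exp_pi_mul_I]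
    ring
  have hc : 0 < Real.cos (θ / 2) := Real.cos_pos_of_mem_Ioo ⟨by linarith, by linarith⟩
  have h1x : 1 + x = ((2 * Real.cos (θ / 2) : ℝ) : ℂ) * Complex.exp ((θ / 2 : ℝ) * Complex.I) := by
    rw [hxe]
    push_cast
    rw [Complex.cos]
    have e : (θ : ℂ) * Complex.I = (θ / 2 * Complex.I) + (θ / 2 * Complex.I) := by ring
    rw [e, Complex.exp_add]
    have e2 : -(θ / 2 : ℂ) * Complex.I = -(θ / 2 * Complex.I) := by ring
    rw [e2, Complex.exp_neg]
    have := Complex.exp_ne_zero (θ / 2 * Complex.I)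
    field_simp
    ring
  have hn : ‖1 + x‖ = 2 * Real.cos (θ / 2) := by
    rw [h1x, norm_mul, Complex.norm_exp_ofReal_mul_I, mul_one, Complex.norm_real,
      Real.norm_of_nonneg (by positivity)]
  have hW : (1 + x) ^ (α : ℂ) = ((‖1 + x‖ ^ α : ℝ) : ℂ) * Complex.exp ((α * (θ / 2) : ℝ) * Complex.I) := by
    rw [hn, Complex.cpow_def_of_ne_zero hx1]
    conv_lhs => rw [h1x]
    rw [Complex.log_ofReal_mul (by positivity) (Complex.exp_ne_zero _), Complex.log_exp,
      add_mul, Complex.exp_add]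
    · congr 1
      · rw [Real.rpow_def_of_pos (by positivity)]
        push_cast
        rfl
      · congr 1
        push_cast
        ring
    · simp
      linarith
    · simp
      linarith
  have hre : ((starRingEnd ℂ) ((1 + x) ^ (α : ℂ)) * x ^ j).re =
      ‖1 + x‖ ^ α * Real.cos (2 * ((j * (θ / 2)) - α * (θ / 4))) := by
    rw [hW, map_mul, Complex.conj_ofReal, ← Complex.exp_conj]
    have e1 : (starRingEnd ℂ) (((α * (θ / 2) : ℝ) : ℂ) * Complex.I) =
        -(((α * (θ / 2) : ℝ) : ℂ) * Complex.I) := by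
      rw [map_mul, Complex.conj_ofReal, Complex.conj_I]
      ring
    rw [e1]
    conv_lhs => rw [hxe]
    rw [← Complex.exp_nat_mul, mul_assoc, ← Complex.exp_add, Complex.re_ofReal_mul]
    have e2 : -(((α * (θ / 2) : ℝ) : ℂ) * Complex.I) + (j : ℂ) * ((θ : ℂ) * Complex.I) =
        ((2 * ((j * (θ / 2)) - α * (θ / 4)) : ℝ) : ℂ) * Complex.I := by
      push_cast
      ring
    rw [e2, Complex.exp_ofReal_mul_I_re, ← hxe]
  rw [hre]
  refine mul_le_mul_of_nonneg_left ?_ (Real.rpow_nonneg (norm_nonneg _) _)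
  rw [hn]
  have e3 : 1 - (2 * Real.cos (θ / 2) / 2) ^ 2 = Real.sin (θ / 2) ^ 2 := by
    have := Real.sin_sq_add_cos_sq (θ / 2)
    have e : 2 * Real.cos (θ / 2) / 2 = Real.cos (θ / 2) := by ring
    rw [e]
    linarith
  rw [e3, Real.cos_two_mul]
  set A := (j : ℝ) * (θ / 2) - α * (θ / 4) with hA
  have hsin : |Real.sin A| ≤ (j + 1) * |Real.sin (θ / 2)| := by
    rw [hA, Real.sin_sub]
    have h1 := abs_sin_nat_mul j (θ / 2)
    have h2 : |Real.sin (α * (θ / 4))| ≤ |Real.sin (θ / 2)| := by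
      have hmain : ∀ φ : ℝ, 0 ≤ φ → φ < Real.pi → |Real.sin (α * (φ / 4))| ≤ |Real.sin (φ / 2)| := by
        intro φ hφ0 hφ1
        have b1 : 0 ≤ α * (φ / 4) := by positivity
        have b2 : α * (φ / 4) ≤ φ / 2 := by nlinarith
        rw [abs_of_nonneg (Real.sin_nonneg_of_nonneg_of_le_pi b1 (by linarith)),
          abs_of_nonneg (Real.sin_nonneg_of_nonneg_of_le_pi (by linarith) (by linarith))]
        exact Real.sin_le_sin_of_le_of_le_pi_div_two (by linarith) (by linarith) b2
      rcases le_total 0 θ with h | h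
      · exact hmain θ h hθ2
      · have := hmain (-θ) (by linarith) (by linarith)
        have e5 : α * (-θ / 4) = -(α * (θ / 4)) := by ring
        have e6 : -θ / 2 = -(θ / 2) := by ring
        rwa [e5, e6, Real.sin_neg, Real.sin_neg, abs_neg, abs_neg] at this
    have c1 : |Real.sin (j * (θ / 2)) * Real.cos (α * (θ / 4))| ≤ j * |Real.sin (θ / 2)| := by
      rw [abs_mul]
      have := Real.abs_cos_le_one (α * (θ / 4))
      nlinarith [abs_nonneg (Real.sin (j * (θ / 2))), abs_nonneg (Real.cos (α * (θ / 4)))]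
    have c2 : |Real.cos (j * (θ / 2)) * Real.sin (α * (θ / 4))| ≤ |Real.sin (θ / 2)| := by
      rw [abs_mul]
      have := Real.abs_cos_le_one (j * (θ / 2))
      nlinarith [abs_nonneg (Real.sin (α * (θ / 4))), abs_nonneg (Real.cos (j * (θ / 2)))]
    have := abs_sub (Real.sin (j * (θ / 2)) * Real.cos (α * (θ / 4)))
      (Real.cos (j * (θ / 2)) * Real.sin (α * (θ / 4)))
    linarith
  have h3 : Real.sin A ^ 2 ≤ ((j + 1) * |Real.sin (θ / 2)|) ^ 2 := by
    rw [← sq_abs (Real.sin A)]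
    gcongr
  rw [mul_pow, sq_abs] at h3
  have := Real.sin_sq_add_cos_sq A
  nlinarith

end Pool.Agent.R355.Bran
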