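import Pool.Agent.R355.BranE

/-!
# Brannan's coefficient conjecture, part F: exponents above `1`, and the theorem
-/

set_option autoImplicit false

namespace Pool.Agent.R355.Bran

open Finset MeasureTheory intervalIntegral Filter Topology

/-- `C ∫ t ^ k (1 - t) / (1 + t) dρ` -/
noncomputable def I (γ : ℝ) (k : ℕ) : ℝ :=
  C γ * ∫ t in (0 : ℝ)..1, t ^ k * (1 - t) / (1 + t) * ρ γ t

/-- the integral for exponents above `1` -/
noncomputable def L (γ : ℝ) (k : ℕ) (x : ℂ) : ℂ := J γ (fun t => (((t ^ k * (1 - t) : ℝ)) : ℂ)) x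

lemma L_eq {γ : ℝ} (h0 : 0 < γ) (h1 : γ < 1) {x : ℂ} (hx : ‖x‖ = 1) (hx1 : 1 + x ≠ 0) (k : ℕ) :
    L γ k x = J γ (fun t => (t : ℂ) ^ k) x - J γ (fun t => (t : ℂ) ^ (k + 1)) x := by
  unfold L J
  rw [← intervalIntegral.integral_sub]
  · refine intervalIntegral.integral_congr fun t _ => ?_
    simp only
    push_cast
    ring
  · exact ρ_mul_integrableC h0 h1 (cont_div hx.le hx1 (by fun_prop))
  · exact ρ_mul_integrableC h0 h1 (cont_div hx.le hx1 (by fun_prop))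

lemma S_big {γ : ℝ} (h0 : 0 < γ) (h1 : γ < 1) {x : ℂ} (hx : ‖x‖ = 1) (hx1 : 1 + x ≠ 0) (k : ℕ) :
    S (γ + 1) (k + 1) x = (1 + x) ^ ((γ + 1 : ℝ) : ℂ) - (-x) ^ (k + 2) * (C γ * L γ k x) := by
  rw [S_add_one, S_repr h0 h1 hx hx1, S_repr h0 h1 hx hx1, L_eq h0 h1 hx hx1]
  have e : (1 + x) ^ ((γ + 1 : ℝ) : ℂ) = (1 + x) ^ (γ : ℂ) * (1 + x) := by
    push_cast
    rw [Complex.cpow_add _ _ hx1, Complex.cpow_one]
  rw [e]
  ring

lemma S1_big {γ : ℝ} (h0 : 0 < γ) (h1 : γ < 1) (k : ℕ) :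
    S1 (γ + 1) (k + 1) = 2 ^ (γ + 1) - (-1) ^ (k + 2) * I γ k := by
  have h := S_big h0 h1 (x := 1) (by simp) (by norm_num) k
  have e2 : L γ k 1 = ((∫ t in (0 : ℝ)..1, t ^ k * (1 - t) / (1 + t) * ρ γ t : ℝ) : ℂ) := by
    unfold L
    rw [← J_one]
  rw [S_one, e2] at h
  have e3 : ((1 : ℂ) + 1) ^ ((γ + 1 : ℝ) : ℂ) = ((2 ^ (γ + 1) : ℝ) : ℂ) := by
    rw [show ((1 : ℂ) + 1) = ((2 : ℝ) : ℂ) by norm_num, Complex.ofReal_cpow (by norm_num)]
  rw [e3] at h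
  unfold I
  exact_mod_cast h

lemma I_nonneg {γ : ℝ} (h0 : 0 < γ) (h1 : γ < 1) (k : ℕ) : 0 ≤ I γ k := by
  unfold I
  refine mul_nonneg (C_pos h0 h1).le ?_
  refine intervalIntegral.integral_nonneg (by norm_num) fun t ht => ?_
  have := ρ_nonneg γ ht.1 ht.2
  have h2 : 0 ≤ 1 - t := by linarith [ht.2]
  have h3 := ht.1
  positivity

lemma I_le {γ : ℝ} (h0 : 0 < γ) (h1 : γ < 1) (k : ℕ) :
    I γ k ≤ (1 + γ) * (C γ * M γ k) / (k + 2) := by
  have hM : ∫ t in (0 : ℝ)..1, t ^ k * (1 - t) / (1 + t) * ρ γ t ≤ M γ k - M γ (k + 1) := by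
    unfold M
    rw [← intervalIntegral.integral_sub (ρ_mul_integrable h0 h1 (by fun_prop))
      (ρ_mul_integrable h0 h1 (by fun_prop))]
    refine intervalIntegral.integral_mono_on (by norm_num) ?_ ?_ ?_
    · refine ρ_mul_integrable h0 h1 (ContinuousOn.div (by fun_prop) (by fun_prop) ?_)
      intro t ht
      rw [Set.uIcc_of_le (by norm_num)] at ht
      have := ht.1
      positivity
    · exact (ρ_mul_integrable h0 h1 (by fun_prop)).sub (ρ_mul_integrable h0 h1 (by fun_prop))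
    · intro t ht
      have hρ := ρ_nonneg γ ht.1 ht.2
      have e : t ^ k * ρ γ t - t ^ (k + 1) * ρ γ t = t ^ k * (1 - t) * ρ γ t := by ring
      rw [e]
      refine mul_le_mul_of_nonneg_right ?_ hρ
      have h2 : 0 ≤ 1 - t := by linarith [ht.2]
      have h3 := ht.1
      exact div_le_self (by positivity) (by linarith)
  have hr := M_rec h0 h1 k
  have hk : (0 : ℝ) < (k : ℝ) + 2 := by positivity
  unfold I
  rw [le_div_iff₀ hk]
  have hC := (C_pos h0 h1).le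
  have e : (1 + γ) * (C γ * M γ k) = C γ * ((M γ k - M γ (k + 1)) * (k + 2)) := by
    have : (M γ k - M γ (k + 1)) * (k + 2) = (1 + γ) * M γ k := by linarith
    rw [this]
    ring
  rw [e, mul_assoc]
  exact mul_le_mul_of_nonneg_left (mul_le_mul_of_nonneg_right hM hk.le) hC

lemma M_nonneg {γ : ℝ} (k : ℕ) : 0 ≤ M γ k := by
  unfold M
  refine intervalIntegral.integral_nonneg (by norm_num) fun t ht => ?_
  have := ρ_nonneg γ ht.1 ht.2
  have h3 := ht.1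
  positivity

lemma CM_zero {γ : ℝ} (h0 : 0 < γ) (h1 : γ < 1) : C γ * M γ 0 = γ := by
  have hM : M γ 0 ≠ 0 := (lt_of_lt_of_le one_pos (M_zero_ge h0 h1)).ne'
  unfold C
  field_simp

lemma CM_one {γ : ℝ} (h0 : 0 < γ) (h1 : γ < 1) : C γ * M γ 1 = γ * (1 - γ) / 2 := by
  have h := M_rec h0 h1 0
  have h2 := CM_zero h0 h1
  simp only [Nat.cast_zero, zero_add] at h
  have : M γ 1 = (1 - γ) * M γ 0 / 2 := by linarith
  rw [this]
  linear_combination (1 - γ) / 2 * h2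

lemma CM_two {γ : ℝ} (h0 : 0 < γ) (h1 : γ < 1) : C γ * M γ 2 = γ * (1 - γ) * (2 - γ) / 6 := by
  have h := M_rec h0 h1 1
  have h2 := CM_one h0 h1
  norm_num at h
  have : M γ 2 = (2 - γ) * M γ 1 / 3 := by linarith
  rw [this]
  linear_combination (2 - γ) / 3 * h2

lemma CM_anti {γ : ℝ} (h0 : 0 < γ) (h1 : γ < 1) {i k : ℕ} (hik : i ≤ k) :
    (k + 1) * (C γ * M γ k) ≤ (i + 1) * (C γ * M γ i) := by
  induction k, hik using Nat.le_induction with
  | base => exact le_refl _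
  | succ k _ ih =>
    refine le_trans ?_ ih
    have h := M_rec h0 h1 k
    have hC := (C_pos h0 h1).le
    have hM := M_nonneg (γ := γ) k
    push_cast
    have e : ((k : ℝ) + 1 + 1) * (C γ * M γ (k + 1)) = C γ * ((k + 1 - γ) * M γ k) := by
      rw [← h]; ring
    rw [e]
    nlinarith [mul_nonneg hC hM]

/-- lower bound for `q` -/
lemma q_ge {t v : ℝ} (hv0 : 0 ≤ v) (hv2 : v ≤ 2) : (1 + t) ^ 2 * (v / 2) ^ 2 ≤ q t v := by
  unfold q
  have : (v / 2) ^ 2 ≤ 1 := by nlinarith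
  nlinarith [mul_nonneg (sq_nonneg (1 - t)) (sub_nonneg.2 this)]

lemma q_le {t v : ℝ} (ht : 0 ≤ t) (hv0 : 0 ≤ v) (hv2 : v ≤ 2) : q t v ≤ (1 + t) ^ 2 := by
  unfold q
  have : v ^ 2 ≤ 4 := by nlinarith
  nlinarith [mul_nonneg ht (sub_nonneg.2 this)]

lemma L_norm {x : ℂ} (hx : ‖x‖ = 1) {t : ℝ} (γ : ℝ) (ht0 : 0 ≤ t) (ht1 : t ≤ 1) (k : ℕ) :
    ‖(((t ^ k * (1 - t) : ℝ)) : ℂ) / (1 + t * x) * (ρ γ t : ℂ)‖ =
      t ^ k * (1 - t) / Real.sqrt (q t ‖1 + x‖) * ρ γ t := by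
  rw [norm_mul, norm_div, Complex.norm_real, Complex.norm_real,
    Real.norm_of_nonneg (ρ_nonneg γ ht0 ht1),
    Real.norm_of_nonneg (mul_nonneg (pow_nonneg ht0 _) (by linarith)), norm_eq hx]

lemma L_le_M {γ : ℝ} (h0 : 0 < γ) (h1 : γ < 1) {x : ℂ} (hx : ‖x‖ = 1) (hx1 : 1 + x ≠ 0) (k : ℕ) :
    ‖L γ k x‖ ≤ M γ k := by
  have hu : 0 < ‖1 + x‖ := norm_pos_iff.2 hx1
  unfold L J M
  refine intervalIntegral.norm_integral_le_of_norm_le (by norm_num) ?_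
    (ρ_mul_integrable h0 h1 (by fun_prop))
  refine Filter.Eventually.of_forall fun t ht => ?_
  have ht0 : 0 ≤ t := ht.1.le
  have ht1 : t ≤ 1 := ht.2
  rw [L_norm hx γ ht0 ht1]
  refine mul_le_mul_of_nonneg_right ?_ (ρ_nonneg γ ht0 ht1)
  have hq := q_pos ht0 hu
  have hs := Real.sqrt_pos.2 hq
  rw [div_le_iff₀ hs]
  refine mul_le_mul_of_nonneg_left ?_ (pow_nonneg ht0 _)
  refine Real.le_sqrt_of_sq_le ?_
  unfold q
  nlinarith [mul_nonneg ht0 (sq_nonneg ‖1 + x‖)]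

lemma L_le_I {γ : ℝ} (h0 : 0 < γ) (h1 : γ < 1) {x : ℂ} (hx : ‖x‖ = 1) (hx1 : 1 + x ≠ 0) (k : ℕ) :
    C γ * ‖L γ k x‖ ≤ I γ k / (‖1 + x‖ / 2) := by
  have hu : 0 < ‖1 + x‖ := norm_pos_iff.2 hx1
  have hu2 := norm_one_add_le hx
  have hr : 0 < ‖1 + x‖ / 2 := by linarith
  have hL : ‖L γ k x‖ ≤ ∫ t in (0 : ℝ)..1,
      (‖1 + x‖ / 2)⁻¹ * (t ^ k * (1 - t) / (1 + t) * ρ γ t) := by
    unfold L J
    refine intervalIntegral.norm_integral_le_of_norm_le (by norm_num) ?_ ?_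
    · refine Filter.Eventually.of_forall fun t ht => ?_
      have ht0 : 0 ≤ t := ht.1.le
      have ht1 : t ≤ 1 := ht.2
      rw [L_norm hx γ ht0 ht1, ← mul_assoc]
      refine mul_le_mul_of_nonneg_right ?_ (ρ_nonneg γ ht0 ht1)
      have hq := q_ge (t := t) hu.le hu2
      have hs : (1 + t) * (‖1 + x‖ / 2) ≤ Real.sqrt (q t ‖1 + x‖) := by
        refine Real.le_sqrt_of_sq_le ?_
        rw [mul_pow]
        exact hq
      have hp : 0 ≤ t ^ k * (1 - t) := mul_nonneg (pow_nonneg ht0 _) (by linarith)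
      have e : (‖1 + x‖ / 2)⁻¹ * (t ^ k * (1 - t) / (1 + t)) =
          t ^ k * (1 - t) / ((1 + t) * (‖1 + x‖ / 2)) := by
        field_simp
      rw [e]
      exact div_le_div_of_nonneg_left hp (by positivity) hs
    · refine (ρ_mul_integrable h0 h1 (ContinuousOn.div (by fun_prop) (by fun_prop) ?_)).const_mul _
      intro t ht
      rw [Set.uIcc_of_le (by norm_num)] at ht
      have := ht.1
      positivity
  rw [intervalIntegral.integral_const_mul] at hL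
  have := mul_le_mul_of_nonneg_left hL (C_pos h0 h1).le
  refine this.trans (le_of_eq ?_)
  unfold I
  rw [div_eq_mul_inv]
  ring

/-- the real part -/
lemma re_ge {γ : ℝ} (h0 : 0 < γ) (h1 : γ < 1) {x : ℂ} (hx : ‖x‖ = 1) (hx1 : 1 + x ≠ 0) (k : ℕ) :
    ‖1 + x‖ ^ (γ + 1) * I γ k *
      (1 - 2 * (k + 3) ^ 2 * (1 - (‖1 + x‖ / 2) ^ 2) / (‖1 + x‖ / 2) ^ 2) ≤
    ((starRingEnd ℂ) ((1 + x) ^ ((γ + 1 : ℝ) : ℂ)) * (x ^ (k + 2) * (C γ * L γ k x))).re := by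
  have hu : 0 < ‖1 + x‖ := norm_pos_iff.2 hx1
  have hu2 := norm_one_add_le hx
  set r := ‖1 + x‖ / 2 with hr
  have hr0 : 0 < r := by rw [hr]; linarith
  have hr1 : r ≤ 1 := by rw [hr]; linarith
  set U := ‖1 + x‖ ^ (γ + 1) with hU
  have hU0 : 0 < U := Real.rpow_pos_of_pos hu _
  set W := (starRingEnd ℂ) ((1 + x) ^ ((γ + 1 : ℝ) : ℂ)) with hW
  have hint : IntervalIntegrable (fun t : ℝ => ((((t ^ k * (1 - t) : ℝ)) : ℂ) / (1 + t * x)) *
      (ρ γ t : ℂ)) volume 0 1 :=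
    ρ_mul_integrableC h0 h1 (cont_div hx.le hx1 (by fun_prop))
  have e1 : W * (x ^ (k + 2) * (C γ * L γ k x)) =
      (C γ : ℂ) * ∫ t in (0 : ℝ)..1, (W * x ^ (k + 2)) *
        (((((t ^ k * (1 - t) : ℝ)) : ℂ) / (1 + t * x)) * (ρ γ t : ℂ)) := by
    rw [intervalIntegral.integral_const_mul]
    unfold L J
    ring
  rw [e1, Complex.re_ofReal_mul]
  have e2 := (Complex.reCLM).intervalIntegral_comp_comm (hint.const_mul (W * x ^ (k + 2)))
  have e2' : (∫ t in (0 : ℝ)..1, (W * x ^ (k + 2)) *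
        (((((t ^ k * (1 - t) : ℝ)) : ℂ) / (1 + t * x)) * (ρ γ t : ℂ))).re =
      ∫ t in (0 : ℝ)..1, ((W * x ^ (k + 2)) *
        (((((t ^ k * (1 - t) : ℝ)) : ℂ) / (1 + t * x)) * (ρ γ t : ℂ))).re := e2.symm
  rw [e2']
  unfold I
  have e3 : U * (C γ * ∫ t in (0 : ℝ)..1, t ^ k * (1 - t) / (1 + t) * ρ γ t) *
      (1 - 2 * (k + 3) ^ 2 * (1 - r ^ 2) / r ^ 2) =
      C γ * ∫ t in (0 : ℝ)..1, (U * (1 - 2 * (k + 3) ^ 2 * (1 - r ^ 2) / r ^ 2)) *
        (t ^ k * (1 - t) / (1 + t) * ρ γ t) := by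
    rw [intervalIntegral.integral_const_mul]
    ring
  rw [e3]
  refine mul_le_mul_of_nonneg_left ?_ (C_pos h0 h1).le
  refine intervalIntegral.integral_mono_on (by norm_num) ?_ ?_ ?_
  · refine (ρ_mul_integrable h0 h1 (ContinuousOn.div (by fun_prop) (by fun_prop) ?_)).const_mul _
    intro t ht
    rw [Set.uIcc_of_le (by norm_num)] at ht
    have := ht.1
    positivity
  · have := hint.const_mul (W * x ^ (k + 2))
    exact ⟨this.1.re, this.2.re⟩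
  · intro t ht
    have ht0 : 0 ≤ t := ht.1
    have ht1 : t ≤ 1 := ht.2
    have hq := q_pos ht0 hu
    have hρ := ρ_nonneg γ ht0 ht1
    have hne := one_add_ne hx.le hx1 ht0 ht1
    -- the real part of the integrand
    have hxx : (starRingEnd ℂ) x * x = 1 := by
      rw [mul_comm, Complex.mul_conj, Complex.normSq_eq_norm_sq, hx]; norm_num
    have hqc : (1 + t * x) * (1 + t * (starRingEnd ℂ) x) = (q t ‖1 + x‖ : ℂ) := by
      have h := Complex.mul_conj (1 + t * x)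
      rw [map_add, map_one, map_mul, Complex.conj_ofReal, Complex.normSq_eq_norm_sq,
        norm_sq_eq hx] at h
      exact h
    have hre : ((W * x ^ (k + 2)) *
        (((((t ^ k * (1 - t) : ℝ)) : ℂ) / (1 + t * x)) * (ρ γ t : ℂ))) =
        ((t ^ k * (1 - t) * ρ γ t / q t ‖1 + x‖ : ℝ) : ℂ) *
          (W * x ^ (k + 2) + (t : ℂ) * (W * x ^ (k + 1))) := by
      have hq' : (q t ‖1 + x‖ : ℂ) ≠ 0 := by exact_mod_cast hq.ne'
      have hc : (1 + t * (starRingEnd ℂ) x) ≠ 0 := by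
        intro h
        rw [h, mul_zero] at hqc
        exact hq' hqc.symm
      push_cast
      rw [← hqc]
      field_simp
      have : x ^ (k + 2) * (starRingEnd ℂ) x = x ^ (k + 1) := by
        rw [pow_succ x (k + 1), mul_assoc, mul_comm x, hxx, mul_one]
      linear_combination W * (t : ℂ) ^ k * (1 - (t : ℂ)) * (ρ γ t : ℂ) * (t : ℂ) * this
    rw [hre, Complex.re_ofReal_mul, Complex.add_re, Complex.re_ofReal_mul]
    have p1 := phase hx hx1 (α := γ + 1) (by linarith) (by linarith) (k + 2)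
    have p2 := phase hx hx1 (α := γ + 1) (by linarith) (by linarith) (k + 1)
    rw [← hU, ← hr, ← hW] at p1 p2
    push_cast at p1 p2
    have hσ : 0 ≤ 1 - r ^ 2 := by nlinarith
    have p2' : U * (1 - 2 * ((k : ℝ) + 3) ^ 2 * (1 - r ^ 2)) ≤ (W * x ^ (k + 1)).re := by
      refine le_trans (mul_le_mul_of_nonneg_left ?_ hU0.le) p2
      have : ((k : ℝ) + 1 + 1) ^ 2 ≤ ((k : ℝ) + 3) ^ 2 := by
        have : (0 : ℝ) ≤ k := Nat.cast_nonneg k
        nlinarith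
      nlinarith [mul_le_mul_of_nonneg_right this hσ]
    have p1' : U * (1 - 2 * ((k : ℝ) + 3) ^ 2 * (1 - r ^ 2)) ≤ (W * x ^ (k + 2)).re := by
      refine le_trans (le_of_eq ?_) p1
      ring
    have hw : 0 ≤ t ^ k * (1 - t) * ρ γ t := by
      have : 0 ≤ 1 - t := by linarith
      positivity
    have hsum : U * (1 + t) * (1 - 2 * ((k : ℝ) + 3) ^ 2 * (1 - r ^ 2)) ≤
        (W * x ^ (k + 2)).re + t * (W * x ^ (k + 1)).re := by
      nlinarith [mul_le_mul_of_nonneg_left p2' ht0]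
    have hfin : U * (1 - 2 * ((k : ℝ) + 3) ^ 2 * (1 - r ^ 2) / r ^ 2) / (1 + t) ≤
        U * (1 + t) * (1 - 2 * ((k : ℝ) + 3) ^ 2 * (1 - r ^ 2)) / q t ‖1 + x‖ := by
      have g1 := q_ge (t := t) hu.le hu2
      have g2 := q_le ht0 hu.le hu2
      rw [← hr] at g1
      rw [div_le_div_iff₀ (by linarith) hq]
      set Y := 2 * ((k : ℝ) + 3) ^ 2 * (1 - r ^ 2) with hY
      have hY0 : 0 ≤ Y := by positivity
      have h5 : (1 - Y / r ^ 2) * q t ‖1 + x‖ ≤ (1 + t) ^ 2 * (1 - Y) := by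
        have h6 : (1 + t) ^ 2 * Y ≤ Y / r ^ 2 * q t ‖1 + x‖ := by
          have : Y / r ^ 2 * ((1 + t) ^ 2 * r ^ 2) = (1 + t) ^ 2 * Y := by field_simp
          rw [← this]
          exact mul_le_mul_of_nonneg_left g1 (by positivity)
        nlinarith
      nlinarith [mul_le_mul_of_nonneg_left h5 hU0.le]
    have h7 := mul_le_mul_of_nonneg_left (hfin.trans (div_le_div_of_nonneg_right hsum hq.le)) hw
    calc _ = t ^ k * (1 - t) * ρ γ t *
          (U * (1 - 2 * ((k : ℝ) + 3) ^ 2 * (1 - r ^ 2) / r ^ 2) / (1 + t)) := by ring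
      _ ≤ _ := h7
      _ = _ := by ring

end Pool.Agent.R355.Bran
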