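import Pool.Agent.R355.BranF

/-!
# Brannan's coefficient conjecture, part G: the theorem
-/

set_option autoImplicit false

namespace Pool.Agent.R355.Bran

open Finset MeasureTheory intervalIntegral Filter Topology

/-- nonnegative coefficients -/
lemma dom_of_nonneg {α : ℝ} {n : ℕ} (h : ∀ k ≤ n, 0 ≤ cf α k) {x : ℂ} (hx : ‖x‖ = 1) :
    ‖S α n x‖ ≤ S1 α n := by
  unfold S S1
  refine (norm_sum_le _ _).trans (Finset.sum_le_sum fun k hk => ?_)
  rw [norm_mul, norm_pow, hx, one_pow, mul_one, Complex.norm_real, Real.norm_of_nonneg]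
  exact h k (by simpa [Nat.lt_succ_iff] using hk)

lemma quarter (γ : ℝ) : γ * (1 - γ) ≤ 1 / 4 := by nlinarith [sq_nonneg (γ - 1 / 2)]

lemma h_nonneg {γ : ℝ} (h0 : 0 < γ) (h1 : γ < 1) : 0 ≤ γ * (1 - γ) * (1 - γ / 2) :=
  mul_nonneg (mul_nonneg h0.le (by linarith)) (by linarith)

lemma h_quarter {γ : ℝ} (h0 : 0 < γ) (h1 : γ < 1) : γ * (1 - γ) * (1 - γ / 2) ≤ 1 / 4 := by
  have a := quarter γ
  have b : 0 ≤ γ * (1 - γ) := mul_nonneg h0.le (by linarith)
  have c : γ * (1 - γ) * (1 - γ / 2) ≤ γ * (1 - γ) * 1 :=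
    mul_le_mul_of_nonneg_left (by linarith) b
  linarith

lemma r_ge {r : ℝ} (hr : 3 / 4 ≤ r ^ 2) (hr0 : 0 < r) : 433 / 500 ≤ r := by
  by_contra hcon
  push Not at hcon
  nlinarith

lemma r_le {r : ℝ} (hr : r ^ 2 < 3 / 4) (hr0 : 0 < r) : r ≤ 867 / 1000 := by
  by_contra hcon
  push Not at hcon
  nlinarith

lemma U_div {P U r : ℝ} (hP : 0 ≤ P) (hr : 433 / 500 ≤ r) (hU : U ≤ P * r) :
    U / r ^ 2 ≤ 500 / 433 * P := by
  have hr0 : 0 < r := by linarith
  rw [div_le_iff₀ (by positivity)]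
  have h1 : 0 ≤ P * r * (r - 433 / 500) := mul_nonneg (mul_nonneg hP hr0.le) (by linarith)
  linarith

lemma I_div {I r : ℝ} (hr : 3 / 4 ≤ r ^ 2) : I ^ 2 / r ^ 2 ≤ 4 / 3 * I ^ 2 := by
  rw [div_le_iff₀ (by linarith)]
  nlinarith [sq_nonneg I]

lemma poly_ineq {γ : ℝ} (h1 : γ < 1) :
    9.81 * (γ * (1 - γ) * (1 - γ / 2)) ≤ 7 / 8 * (2 + 1.38 * γ) := by
  nlinarith [mul_nonneg (sub_nonneg.2 h1.le) (sq_nonneg (γ - 2 / 5)), sq_nonneg (γ - 1 / 3),
    sq_nonneg (γ - 2 / 5)]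

lemma hmain_lemma {γ P I h V : ℝ} (h0 : 0 < γ) (hP : 2 + 1.38 * γ ≤ P) (hh0 : 0 ≤ h)
    (hh : 9.81 * h ≤ 7 / 8 * (2 + 1.38 * γ)) (hI0 : 0 ≤ I) (hI3 : I ≤ h / 6) (hI4 : I ≤ 1 / 24)
    (hV : V ≤ (1 + γ) * h * (25 / 12)) :
    4 * (500 / 433 * P) * V + 4 / 3 * I ^ 2 ≤ P * ((γ + 1) / 2) * (7 / 4 * P - 2 * I) := by
  have hP2 : 2 ≤ P := by linarith
  have a1 : 4 * (500 / 433 * P) * V ≤ 4 * (500 / 433 * P) * ((1 + γ) * h * (25 / 12)) :=
    mul_le_mul_of_nonneg_left hV (by positivity)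
  have b1 : I ^ 2 ≤ h / 6 * (1 / 24) := by
    rw [sq]; exact mul_le_mul hI3 hI4 hI0 (by positivity)
  have b2 : 2 * 1 ≤ P * (1 + γ) := mul_le_mul hP2 (by linarith) (by norm_num) (by linarith)
  have b3 : 2 * 1 * h ≤ P * (1 + γ) * h := mul_le_mul_of_nonneg_right b2 hh0
  have a2 : 4 / 3 * I ^ 2 ≤ P * (1 + γ) * (1 / 100 * h) := by linarith
  have a3 : 4 * (500 / 433) * (h * (25 / 12)) + 1 / 100 * h ≤ 1 / 2 * (7 / 4 * P - 2 * I) := by
    have c1 : 4 * (500 / 433 : ℝ) * (25 / 12) + 1 / 100 + 1 / 6 ≤ 9.81 := by norm_num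
    have c3 := mul_le_mul_of_nonneg_right c1 hh0
    linarith
  have hPg : 0 ≤ P * (1 + γ) := by positivity
  have a4 := mul_le_mul_of_nonneg_left a3 hPg
  linarith

lemma P_sub {γ P U r : ℝ} (hU3 : U ≤ P * (1 + (γ + 1) / 2 * (r ^ 2 - 1))) :
    P * ((γ + 1) / 2) * (1 - r ^ 2) ≤ P - U := by linarith

lemma sum_ge {P U I r : ℝ} (hP : 0 ≤ P) (hr : 3 / 4 ≤ r ^ 2) (hU2 : P * r ^ 2 ≤ U) :
    7 / 4 * P - 2 * I ≤ P + U - 2 * I := by
  have := mul_le_mul_of_nonneg_left hr hP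
  linarith

lemma ar1 {c h k : ℝ} (hc : 0 ≤ c) (hk : 2 ≤ k) (h3 : (k + 1) * c ≤ h) : 3 * c ≤ h := by
  have := mul_le_mul_of_nonneg_right hk hc
  linarith

lemma ar2 {k : ℝ} (hk : 2 ≤ k) : (k + 3) ^ 2 ≤ 25 / 12 * ((k + 1) * (k + 2)) := by nlinarith

lemma ar3 {c h k γ i : ℝ} (hγ : 0 ≤ 1 + γ) (hk : 0 ≤ k + 1) (h3 : (k + 1) * c ≤ h)
    (hi : i * (k + 2) ≤ (1 + γ) * c) : i * ((k + 1) * (k + 2)) ≤ (1 + γ) * h := by
  have c2 := mul_le_mul_of_nonneg_right hi hk
  have c3 := mul_le_mul_of_nonneg_left h3 hγ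
  linarith

lemma ar4 {c k g : ℝ} (hc : 0 ≤ c) (hk : 1 ≤ k) (h : (k + 1) * c ≤ (1 + 1) * (g / 2)) (hg : g ≤ 1 / 4) :
    c ≤ 1 / 8 := by
  have := mul_le_mul_of_nonneg_right hk hc
  linarith

lemma ar5 {i r P : ℝ} (hi : i ≤ 1 / 8) (hr : 1 / 2 ≤ r) (hr1 : r ≤ 1) (hP : 2 ≤ P) :
    i ≤ (i + P * (1 - r)) * r := by
  have h1 : 0 ≤ 1 - r := by linarith
  have h2 : 2 * (1 / 2) ≤ P * r := mul_le_mul hP hr (by norm_num) (by linarith)
  have h3 : 0 ≤ (P * r - i) * (1 - r) := mul_nonneg (by linarith) h1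
  linarith

/-- the numerical inequality for the second order estimate -/
lemma numeric {γ P U I r N : ℝ} (h0 : 0 < γ) (h1 : γ < 1) (hP : 2 + 1.38 * γ ≤ P)
    (hr : 3 / 4 ≤ r ^ 2) (hr0 : 0 < r) (hr1 : r ≤ 1) (hU1 : U ≤ P * r) (hU2 : P * r ^ 2 ≤ U)
    (hU3 : U ≤ P * (1 + (γ + 1) / 2 * (r ^ 2 - 1))) (hI0 : 0 ≤ I)
    (hI1 : I ≤ (1 + γ) * (γ * (1 - γ) * (1 - γ / 2)) / 12)
    (hI2 : I * N ^ 2 ≤ (1 + γ) * (γ * (1 - γ) * (1 - γ / 2)) * (25 / 12)) :
    U ^ 2 - 2 * (U * I * (1 - 2 * N ^ 2 * (1 - r ^ 2) / r ^ 2)) + (I / r) ^ 2 ≤ (P - I) ^ 2 := by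
  have hpoly := poly_ineq h1
  have hh0 := h_nonneg h0 h1
  have hh1 := h_quarter h0 h1
  generalize γ * (1 - γ) * (1 - γ / 2) = h at *
  have hI3 : I ≤ h / 6 := by
    have : (1 + γ) * h ≤ 2 * h := mul_le_mul_of_nonneg_right (by linarith) hh0
    linarith
  have hI4 : I ≤ 1 / 24 := by linarith
  have hP0 : 0 ≤ P := by linarith
  have hr2 : 0 < r ^ 2 := by positivity
  have hσ : 0 ≤ 1 - r ^ 2 := by
    have := pow_le_one₀ (n := 2) hr0.le hr1
    linarith
  have hUr := U_div hP0 (r_ge hr hr0) hU1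
  have hIr := I_div (I := I) hr
  have hmain := hmain_lemma (V := I * N ^ 2) h0 hP hh0 hpoly hI0 hI3 hI4 hI2
  have hPU := P_sub hU3
  have hsum := sum_ge (I := I) hP0 hr hU2
  have hsum0 : 0 ≤ 7 / 4 * P - 2 * I := by linarith
  have hprod : P * ((γ + 1) / 2) * (1 - r ^ 2) * (7 / 4 * P - 2 * I) ≤ (P - U) * (P + U - 2 * I) := by
    have hP0 : 0 ≤ P * ((γ + 1) / 2) * (1 - r ^ 2) := by positivity
    exact mul_le_mul hPU hsum hsum0 (hP0.trans hPU)
  have hm2 := mul_le_mul_of_nonneg_right hmain hσ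
  have e2 : (I / r) ^ 2 = I ^ 2 + I ^ 2 / r ^ 2 * (1 - r ^ 2) := by
    field_simp
    ring
  have hN : 0 ≤ I * N ^ 2 * (1 - r ^ 2) := by positivity
  have hq1 : 4 * (I * N ^ 2 * (1 - r ^ 2)) * (U / r ^ 2) ≤
      4 * (I * N ^ 2 * (1 - r ^ 2)) * (500 / 433 * P) :=
    mul_le_mul_of_nonneg_left hUr (by linarith)
  have hq2 : I ^ 2 / r ^ 2 * (1 - r ^ 2) ≤ 4 / 3 * I ^ 2 * (1 - r ^ 2) :=
    mul_le_mul_of_nonneg_right hIr hσ
  have e3 : U ^ 2 - 2 * (U * I * (1 - 2 * N ^ 2 * (1 - r ^ 2) / r ^ 2)) =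
      U ^ 2 - 2 * (U * I) + 4 * (I * N ^ 2 * (1 - r ^ 2)) * (U / r ^ 2) := by ring
  rw [e3, e2]
  linarith

lemma two_rpow_ge {γ : ℝ} (h0 : 0 < γ) : 2 + 1.38 * γ ≤ (2 : ℝ) ^ (γ + 1) := by
  rw [Real.rpow_add (by norm_num), Real.rpow_one, Real.rpow_def_of_pos (by norm_num)]
  have h1 := Real.add_one_le_exp (Real.log 2 * γ)
  have h2 := Real.log_two_gt_d9
  nlinarith

/-- exponents in `(1, 2)`, `x ≠ -1`, all indices -/
lemma dom_mid {γ : ℝ} (h0 : 0 < γ) (h1 : γ < 1) (n : ℕ) {x : ℂ} (hx : ‖x‖ = 1)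
    (hx1 : 1 + x ≠ 0) : ‖S (γ + 1) n x‖ ≤ S1 (γ + 1) n := by
  rcases n with _ | k
  · refine dom_of_nonneg ?_ hx
    intro j hj
    have : j = 0 := by omega
    rw [this, cf_zero]; norm_num
  have hu : 0 < ‖1 + x‖ := norm_pos_iff.2 hx1
  have hu2 := norm_one_add_le hx
  set r := ‖1 + x‖ / 2 with hr
  have hr0 : 0 < r := by rw [hr]; linarith
  have hr1 : r ≤ 1 := by rw [hr]; linarith
  set P : ℝ := 2 ^ (γ + 1) with hPdef
  have hP := two_rpow_ge h0
  rw [← hPdef] at hP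
  have hU : ‖1 + x‖ ^ (γ + 1) = P * r ^ (γ + 1) := by
    rw [hPdef, ← Real.mul_rpow (by norm_num) hr0.le]
    congr 1
    rw [hr]; ring
  have hr_1 : r ^ (γ + 1) ≤ r := by
    have := Real.rpow_le_rpow_of_exponent_ge hr0 hr1 (show (1 : ℝ) ≤ γ + 1 by linarith)
    rwa [Real.rpow_one] at this
  have hr_2 : r ^ 2 ≤ r ^ (γ + 1) := by
    have := Real.rpow_le_rpow_of_exponent_ge hr0 hr1 (show γ + 1 ≤ (2 : ℝ) by linarith)
    rwa [Real.rpow_two] at this
  have hr_3 : r ^ (γ + 1) ≤ 1 + (γ + 1) / 2 * (r ^ 2 - 1) := by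
    have e : r ^ (γ + 1) = (1 + (r ^ 2 - 1)) ^ ((γ + 1) / 2) := by
      rw [show 1 + (r ^ 2 - 1) = r ^ (2 : ℝ) by rw [Real.rpow_two]; ring, ← Real.rpow_mul hr0.le]
      congr 1
      ring
    rw [e]
    exact rpow_one_add_le_one_add_mul_self (by nlinarith) (by linarith) (by linarith)
  have hC := C_pos h0 h1
  have hI0 := I_nonneg h0 h1 k
  have hIl := I_le h0 h1 k
  have hM0 := M_nonneg (γ := γ) k
  have hIM : I γ k ≤ C γ * M γ k := by
    refine hIl.trans ?_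
    rw [div_le_iff₀ (by positivity)]
    have : 0 ≤ C γ * M γ k := mul_nonneg hC.le hM0
    have hk : (0 : ℝ) ≤ k := Nat.cast_nonneg k
    rw [mul_comm]
    exact mul_le_mul_of_nonneg_left (by linarith) this
  have hSn : ‖S (γ + 1) (k + 1) x‖ ≤ P * r ^ (γ + 1) + C γ * ‖L γ k x‖ := by
    rw [S_big h0 h1 hx hx1]
    refine (norm_sub_le _ _).trans ?_
    rw [norm_cpow_eq x, norm_mul, norm_pow, norm_neg, hx, one_pow, one_mul, norm_mul,
      Complex.norm_real, Real.norm_of_nonneg hC.le, hU]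
  have hLM := mul_le_mul_of_nonneg_left (L_le_M h0 h1 hx hx1 k) hC.le
  have hLI := L_le_I h0 h1 hx hx1 k
  rw [← hr] at hLI
  rcases Nat.even_or_odd k with hk | hk
  · -- `n` odd
    have hS1 : S1 (γ + 1) (k + 1) = P - I γ k := by
      rw [S1_big h0 h1]
      have : Even (k + 2) := hk.add (by decide)
      rw [this.neg_one_pow, one_mul]
    rcases Nat.eq_zero_or_pos k with hk0 | hkpos
    · subst hk0
      refine dom_of_nonneg ?_ hx
      intro j hj
      have : j = 0 ∨ j = 1 := by omega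
      rcases this with rfl | rfl
      · rw [cf_zero]; norm_num
      · rw [cf_succ, cf_zero]; simp; linarith
    have hk2 : 2 ≤ k := by
      rcases hk with ⟨i, hi⟩
      omega
    have hkr : (2 : ℝ) ≤ k := by exact_mod_cast hk2
    have hM3 : (k + 1) * (C γ * M γ k) ≤ γ * (1 - γ) * (1 - γ / 2) := by
      have := CM_anti h0 h1 hk2
      rw [CM_two h0 h1] at this
      push_cast at this
      linarith
    set h := γ * (1 - γ) * (1 - γ / 2) with hh
    have hh0 : 0 ≤ h := by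
      have : 0 ≤ 1 - γ := by linarith
      have : 0 ≤ 1 - γ / 2 := by linarith
      positivity
    rcases lt_or_ge (r ^ 2) (3 / 4) with hcase | hcase
    · -- crude
      rw [hS1]
      have hh1 : h ≤ 1 / 4 := h_quarter h0 h1
      have hCM : C γ * M γ k ≤ 1 / 12 := by
        have := ar1 (mul_nonneg hC.le hM0) hkr hM3
        linarith
      have hrr : r ≤ 867 / 1000 := r_le hcase hr0
      have : P * r ^ (γ + 1) ≤ P * (867 / 1000) := by
        refine mul_le_mul_of_nonneg_left (hr_1.trans hrr) (by linarith)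
      linarith
    · -- second order
      rw [hS1]
      have hI1 : I γ k ≤ (1 + γ) * h / 12 := by
        refine hIl.trans ?_
        rw [div_le_div_iff₀ (by positivity) (by norm_num)]
        have hCM0 : 0 ≤ C γ * M γ k := mul_nonneg hC.le hM0
        have a1 : 3 * (C γ * M γ k) ≤ h := ar1 hCM0 hkr hM3
        have a2 : (1 + γ) * (3 * (C γ * M γ k)) ≤ (1 + γ) * h :=
          mul_le_mul_of_nonneg_left a1 (by linarith)
        have a3 : (1 + γ) * h * 4 ≤ (1 + γ) * h * (k + 2) := by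
          have : 0 ≤ (1 + γ) * h := by positivity
          exact mul_le_mul_of_nonneg_left (by linarith) this
        linarith
      have hI2 : I γ k * ((k : ℝ) + 3) ^ 2 ≤ (1 + γ) * h * (25 / 12) := by
        have hCM0 : 0 ≤ C γ * M γ k := mul_nonneg hC.le hM0
        have b1 : I γ k * ((k + 1) * (k + 2)) ≤ (1 + γ) * h := by
          have c1 : I γ k * (k + 2) ≤ (1 + γ) * (C γ * M γ k) := by
            rw [← le_div_iff₀ (by positivity)]
            exact hIl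
          exact ar3 (by linarith) (by linarith) hM3 c1
        have b2 : ((k : ℝ) + 3) ^ 2 ≤ 25 / 12 * ((k + 1) * (k + 2)) := ar2 hkr
        calc I γ k * ((k : ℝ) + 3) ^ 2 ≤ I γ k * (25 / 12 * ((k + 1) * (k + 2))) :=
              mul_le_mul_of_nonneg_left b2 hI0
          _ = (25 / 12) * (I γ k * ((k + 1) * (k + 2))) := by ring
          _ ≤ (25 / 12) * ((1 + γ) * h) := by linarith
          _ = _ := by ring
      have hnum := numeric (U := P * r ^ (γ + 1)) (N := (k : ℝ) + 3) h0 h1 hP hcase hr0 hr1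
        (mul_le_mul_of_nonneg_left hr_1 (by linarith)) (mul_le_mul_of_nonneg_left hr_2 (by linarith))
        (mul_le_mul_of_nonneg_left hr_3 (by linarith)) hI0 hI1 hI2
      have hre := re_ge h0 h1 hx hx1 k
      rw [hU, ← hr] at hre
      have hI24 : I γ k ≤ 2 := by
        have hh1 : h ≤ 1 / 4 := h_quarter h0 h1
        have := ar1 (mul_nonneg hC.le hM0) hkr hM3
        linarith
      have hPI : 0 ≤ P - I γ k := by linarith
      rw [← abs_of_nonneg hPI]
      rw [← abs_of_nonneg (norm_nonneg (S (γ + 1) (k + 1) x))]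
      rw [← sq_le_sq]
      have hkk : Even (k + 2) := hk.add (by decide)
      rw [S_big h0 h1 hx hx1, hkk.neg_pow]
      set W := (1 + x) ^ ((γ + 1 : ℝ) : ℂ) with hW
      set V := x ^ (k + 2) * (C γ * L γ k x) with hV
      have hWn : ‖W‖ = P * r ^ (γ + 1) := by rw [hW, norm_cpow_eq x, hU]
      have hVn : ‖V‖ ≤ I γ k / r := by
        rw [hV, norm_mul, norm_pow, hx, one_pow, one_mul, norm_mul, Complex.norm_real,
          Real.norm_of_nonneg hC.le]
        exact hLI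
      have hexp : ‖W - V‖ ^ 2 = ‖W‖ ^ 2 - 2 * ((starRingEnd ℂ) W * V).re + ‖V‖ ^ 2 := by
        rw [← Complex.normSq_eq_norm_sq, ← Complex.normSq_eq_norm_sq, ← Complex.normSq_eq_norm_sq,
          Complex.normSq_sub]
        have : (W * (starRingEnd ℂ) V).re = ((starRingEnd ℂ) W * V).re := by
          simp [Complex.mul_re, Complex.conj_re, Complex.conj_im]
        rw [this]
        ring
      have hV2 : ‖V‖ ^ 2 ≤ (I γ k / r) ^ 2 := by gcongr
      rw [hexp, hWn]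
      linarith
  · -- `n` even
    have hS1 : S1 (γ + 1) (k + 1) = P + I γ k := by
      rw [S1_big h0 h1]
      have : Odd (k + 2) := hk.add_even (by decide)
      rw [this.neg_one_pow]
      ring
    rw [hS1]
    have hk1 : 1 ≤ k := hk.pos
    have hCM : C γ * M γ k ≤ 1 / 8 := by
      have := CM_anti h0 h1 hk1
      rw [CM_one h0 h1] at this
      have hkr : (1 : ℝ) ≤ k := by exact_mod_cast hk1
      push_cast at this
      exact ar4 (mul_nonneg hC.le hM0) hkr this (quarter γ)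
    rcases lt_or_ge r (1 / 2) with hcase | hcase
    · have : P * r ^ (γ + 1) ≤ P * (1 / 2) := by
        refine mul_le_mul_of_nonneg_left (hr_1.trans hcase.le) (by linarith)
      linarith
    · have a1 : P * r ^ (γ + 1) ≤ P * r := mul_le_mul_of_nonneg_left hr_1 (by linarith)
      have a2 : I γ k / r ≤ I γ k + P * (1 - r) := by
        rw [div_le_iff₀ hr0]
        exact ar5 (hIM.trans hCM) hcase hr1 (by linarith)
      linarith

/-- passing to `x = -1` by continuity -/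
lemma closure_lemma {f : ℂ → ℝ} (hf : Continuous f) {B : ℝ}
    (h : ∀ x : ℂ, ‖x‖ = 1 → 1 + x ≠ 0 → f x ≤ B) {x : ℂ} (hx : ‖x‖ = 1) : f x ≤ B := by
  by_cases hx1 : 1 + x = 0
  · have hxe : x = -1 := by linear_combination hx1
    have ht : Tendsto (fun n : ℕ => Complex.exp (((Real.pi - 1 / ((n : ℝ) + 1) : ℝ) : ℂ) * Complex.I))
        atTop (𝓝 x) := by
      have h1 : Tendsto (fun n : ℕ => Real.pi - 1 / ((n : ℝ) + 1)) atTop (𝓝 (Real.pi - 0)) :=
        tendsto_const_nhds.sub tendsto_one_div_add_atTop_nhds_zero_nat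
      have hc : Continuous (fun s : ℝ => Complex.exp ((s : ℂ) * Complex.I)) := by fun_prop
      have h2 := (hc.tendsto (Real.pi - 0)).comp h1
      rw [sub_zero, Complex.exp_pi_mul_I] at h2
      rw [hxe]
      exact h2
    refine le_of_tendsto ((hf.tendsto x).comp ht) (Filter.Eventually.of_forall fun n => ?_)
    refine h _ (Complex.norm_exp_ofReal_mul_I _) ?_
    intro h3
    have h4 : Complex.exp (((Real.pi - 1 / ((n : ℝ) + 1) : ℝ) : ℂ) * Complex.I) = -1 := by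
      linear_combination h3
    have h5 := congrArg Complex.re h4
    rw [Complex.exp_ofReal_mul_I_re] at h5
    simp only [Complex.neg_re, Complex.one_re] at h5
    have h6 : 0 < 1 / ((n : ℝ) + 1) := by positivity
    have h7 : 1 / ((n : ℝ) + 1) ≤ 1 := by
      rw [div_le_one (by positivity)]
      linarith [(Nat.cast_nonneg n : (0 : ℝ) ≤ n)]
    rw [Real.cos_pi_sub] at h5
    have h8 : Real.cos (1 / ((n : ℝ) + 1)) < 1 := by
      have := Real.cos_lt_cos_of_nonneg_of_le_pi (x := 0) (y := 1 / ((n : ℝ) + 1)) le_rfl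
        (by linarith [Real.pi_gt_three]) h6
      rwa [Real.cos_zero] at this
    linarith
  · exact h x hx hx1

lemma S_cont (α : ℝ) (m : ℕ) : Continuous (fun x => ‖S α m x‖) := by
  unfold S; fun_prop

/-- all exponents above `1` -/
lemma dom_big (N : ℕ) {γ : ℝ} (h0 : 0 < γ) (h1 : γ < 1) (n : ℕ) {x : ℂ} (hx : ‖x‖ = 1) :
    ‖S (γ + 1 + N) n x‖ ≤ S1 (γ + 1 + N) n := by
  induction N generalizing n with
  | zero =>
    simp only [Nat.cast_zero, add_zero]
    exact closure_lemma (S_cont _ _) (fun y hy hy1 => dom_mid h0 h1 n hy hy1) hx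
  | succ N ih =>
    rcases n with _ | n
    · refine dom_of_nonneg ?_ hx
      intro j hj
      have : j = 0 := by omega
      rw [this, cf_zero]; norm_num
    · have e : γ + 1 + ((N + 1 : ℕ) : ℝ) = (γ + 1 + N) + 1 := by push_cast; ring
      rw [e, S_add_one, S1_add_one]
      refine (norm_add_le _ _).trans ?_
      rw [norm_mul, hx, one_mul]
      exact add_le_add (ih (n + 1)) (ih n)

/-- natural exponents -/
lemma cf_nat_nonneg (N k : ℕ) : 0 ≤ cf (N : ℝ) k := by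
  unfold cf
  refine div_nonneg ?_ (by positivity)
  by_cases h : k ≤ N
  · refine Finset.prod_nonneg fun j hj => ?_
    have : j < k := Finset.mem_range.1 hj
    have : (j : ℝ) ≤ N := by exact_mod_cast (by omega : j ≤ N)
    linarith
  · have : ∏ j ∈ Finset.range k, ((N : ℝ) - (j : ℝ)) = 0 :=
      Finset.prod_eq_zero (Finset.mem_range.2 (not_le.1 h)) (sub_self _)
    rw [this]

/-- **Brannan's conjecture for `β = 1` and odd indices.** -/
theorem main (α : ℝ) (hα : 0 < α) (m : ℕ) (hm : Odd m) (x : ℂ) (hx : ‖x‖ = 1) :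
    ‖S α m x‖ ≤ S1 α m := by
  by_cases hnat : ∃ N : ℕ, (N : ℝ) = α
  · obtain ⟨N, rfl⟩ := hnat
    exact dom_of_nonneg (fun k _ => cf_nat_nonneg N k) hx
  push Not at hnat
  set f := ⌊α⌋₊ with hf
  have hf1 : (f : ℝ) ≤ α := Nat.floor_le hα.le
  have hf2 : α < f + 1 := Nat.lt_floor_add_one α
  have hf3 : (f : ℝ) < α := lt_of_le_of_ne hf1 (hnat f)
  rcases Nat.eq_zero_or_pos f with h | h
  · rw [h] at hf2
    simp only [Nat.cast_zero, zero_add] at hf2
    exact closure_lemma (S_cont _ _) (fun y hy hy1 => dom_small hα hf2 hm hy hy1) hx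
  · obtain ⟨N, hN⟩ : ∃ N, f = N + 1 := ⟨f - 1, by omega⟩
    have e : α = (α - f) + 1 + N := by
      rw [hN]; push_cast; ring
    rw [e]
    exact dom_big N (by linarith) (by linarith) m hx

end Pool.Agent.R355.Bran
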