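import Pool.Agent.R355.NegOrb
import Pool.Agent.TH167.T3.Nine

set_option autoImplicit false

/-!
# Negative curves of given canonical degree
-/

namespace Pool.Agent.R355.CanDeg

open MvPolynomial Pool.Agent.W609 Pool.Agent.W609.CR Pool.Agent.TH167 Pool.Agent.TH167.SH
open Pool.Agent.TH442.NF (cls refl Step refl_cls)
open Pool.Agent.R355.NegOrb

/-- Reduction to the standard form. -/
theorem exists_std {r : ℕ} {P : Fin (r + 4) → Fin 2 → ℂ}
    (hP : AlgebraicIndependent ℚ (fun ij : Fin (r + 4) × Fin 2 => P ij.1 ij.2)) :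
    ∀ (d : ℕ) (w : Fin (r + 4) → ℕ), Irr P d w → ∃ (e : ℕ) (u : Fin (r + 4) → ℕ),
      Ch (cls d w) (cls e u) ∧ Irr P e u ∧ Reduced e u ∧ e ≤ d ∧
      ip e u e u = ip d w d w ∧ kk e u = kk d w := by
  intro d
  induction d using Nat.strong_induction_on with
  | _ d ih =>
    intro w hI
    by_cases hred : Reduced d w
    · exact ⟨d, w, Relation.ReflTransGen.refl, hI, hred, le_rfl, rfl, rfl⟩
    · have hred' := hred
      unfold Reduced at hred'
      push Not at hred'
      obtain ⟨a, b, c, hab, hac, hbc, hlt⟩ := hred'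
      have hi : Function.Injective ![a, b, c] := inj_cons hab hac hbc
      have p := hI.ps hP hi
      have hc1 := cd_cast p
      unfold dl at hc1
      have e0 : w (![a, b, c] 0) = w a := rfl
      have e1 : w (![a, b, c] 1) = w b := rfl
      have e2 : w (![a, b, c] 2) = w c := rfl
      rw [e0, e1, e2] at hc1
      have hlt' : cd ![a, b, c] d w < d := by omega
      obtain ⟨e, u, h1, h2, h3, h4, h5, h6⟩ := ih _ hlt' _ (hI.step hP hi)
      refine ⟨e, u, ?_, h2, h3, by omega, by rw [h5, ip_cr hi p p], by rw [h6, kk_cr hi p]⟩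
      unfold Ch at h1 ⊢
      exact Relation.ReflTransGen.head ⟨_, hi, (refl_cls hi p).symm⟩ h1

theorem red_three {s e : ℕ} {u : Fin s → ℕ} (hred : Reduced e u) {X : Finset (Fin s)}
    (hX : X.card = 3) : ∑ j ∈ X, u j ≤ e := by
  classical
  obtain ⟨a, b, c, hab, hac, hbc, rfl⟩ := Finset.card_eq_three.1 hX
  rw [Finset.sum_insert (by simp [hab, hac]), Finset.sum_insert (by simp [hbc]),
    Finset.sum_singleton]
  have := hred a b c hab hac hbc
  omega

theorem red_sum {s e : ℕ} {u : Fin s → ℕ} (hred : Reduced e u) : ∀ (n : ℕ) (Y : Finset (Fin s)),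
    Y.card = 3 * n → ∑ j ∈ Y, u j ≤ n * e := by
  classical
  intro n
  induction n with
  | zero =>
    intro Y hY
    have : Y = ∅ := Finset.card_eq_zero.1 (by omega)
    rw [this]
    simp
  | succ n ih =>
    intro Y hY
    obtain ⟨X, hX, hXc⟩ := Finset.exists_subset_card_eq (s := Y) (n := 3) (by omega)
    have h1 := red_three hred hXc
    have h2 := ih (Y \ X) (by rw [Finset.card_sdiff_of_subset hX]; omega)
    rw [← Finset.sum_sdiff hX, Nat.succ_mul]
    omega

/-- The `k` largest values. -/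
theorem exists_top {s : ℕ} (u : Fin s → ℕ) : ∀ k ≤ s, ∃ T : Finset (Fin s), T.card = k ∧
    ∀ i ∈ T, ∀ j, j ∉ T → u j ≤ u i := by
  classical
  intro k
  induction k with
  | zero => exact fun _ => ⟨∅, rfl, fun i hi => absurd hi (Finset.notMem_empty i)⟩
  | succ k ih =>
    intro hk
    obtain ⟨T, hT, h⟩ := ih (by omega)
    have hne : (Finset.univ \ T).Nonempty := by
      rw [← Finset.card_pos, Finset.card_sdiff_of_subset (Finset.subset_univ T), Finset.card_univ,
        Fintype.card_fin]
      omega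
    obtain ⟨j0, hj0, hmax⟩ := Finset.exists_max_image (Finset.univ \ T) u hne
    have hj0' : j0 ∉ T := (Finset.mem_sdiff.1 hj0).2
    refine ⟨insert j0 T, by rw [Finset.card_insert_of_notMem hj0', hT], fun i hi j hj => ?_⟩
    have hjT : j ∉ T := fun h' => hj (Finset.mem_insert_of_mem h')
    rcases Finset.mem_insert.1 hi with rfl | hi
    · exact hmax j (Finset.mem_sdiff.2 ⟨Finset.mem_univ j, hjT⟩)
    · exact h i hi j hjT

/-- The main inequality. -/
theorem main_ineq {r e : ℕ} {u : Fin (r + 4) → ℕ} (hred : Reduced e u) {T : Finset (Fin (r + 4))}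
    (hT : T.card = 9) {i0 : Fin (r + 4)} (hi0 : i0 ∈ T) (hmin : ∀ i ∈ T, u i0 ≤ u i)
    (hsum : ∑ i ∈ T, u i ≤ 3 * e) :
    2 * (u i0 : ℤ) * (3 * e - ∑ i ∈ T, (u i : ℤ)) ≤ (e : ℤ) ^ 2 - ∑ i ∈ T, (u i : ℤ) ^ 2 := by
  classical
  obtain ⟨m, hm⟩ : ∃ m, m = u i0 := ⟨_, rfl⟩
  rw [← hm] at hmin ⊢
  obtain ⟨u', hu'⟩ : ∃ u' : Fin (r + 4) → ℕ, u' = fun j => if j ∈ T then u j - m else 0 :=
    ⟨_, rfl⟩
  -- sums over subsets of at most three elements
  have hX : ∀ X : Finset (Fin (r + 4)), X.card ≤ 3 → 3 * m ≤ e ∧ ∑ j ∈ X, u' j ≤ e - 3 * m := by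
    intro X hXc
    obtain ⟨Y, hY1, hY2, hYc⟩ := Finset.exists_subsuperset_card_eq
      (s := X ∩ T) (t := T) (n := 3) Finset.inter_subset_right
      ((Finset.card_le_card Finset.inter_subset_left).trans hXc) (by omega)
    have h1 := red_three hred hYc
    have h2 : ∑ j ∈ Y, u' j + 3 * m = ∑ j ∈ Y, u j := by
      have h3 : ∑ j ∈ Y, u j = ∑ j ∈ Y, (u' j + m) := by
        refine Finset.sum_congr rfl fun j hj => ?_
        have := hmin j (hY2 hj)
        rw [hu']
        simp only
        rw [if_pos (hY2 hj)]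
        omega
      rw [h3, Finset.sum_add_distrib, Finset.sum_const, hYc, smul_eq_mul]
    have h3 : ∑ j ∈ X, u' j ≤ ∑ j ∈ Y, u' j := by
      have h4 : ∑ j ∈ X, u' j = ∑ j ∈ X ∩ T, u' j := by
        symm
        refine Finset.sum_subset Finset.inter_subset_left fun j hj hj' => ?_
        rw [hu']
        simp only
        rw [if_neg fun h => hj' (Finset.mem_inter.2 ⟨hj, h⟩)]
      rw [h4]
      exact Finset.sum_le_sum_of_subset hY1
    omega
  have h3m : 3 * m ≤ e := (hX ∅ (by simp)).1
  have hred' : Reduced (e - 3 * m) u' := by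
    intro a b c hab hac hbc
    have h1 := (hX {a, b, c} (Finset.card_le_three)).2
    rw [Finset.sum_insert (by simp [hab, hac]), Finset.sum_insert (by simp [hbc]),
      Finset.sum_singleton] at h1
    omega
  have hle : ∀ j, u' j ≤ e - 3 * m := by
    intro j
    have h1 := (hX {j} (by simp)).2
    rwa [Finset.sum_singleton] at h1
  have hT1 : ∑ j, u' j = ∑ j ∈ T, u' j := by
    symm
    refine Finset.sum_subset (Finset.subset_univ T) fun j _ hj => ?_
    rw [hu']
    simp only
    rw [if_neg hj]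
  have hT2 : ∑ j ∈ T, u' j + 9 * m = ∑ j ∈ T, u j := by
    have h3 : ∑ j ∈ T, u j = ∑ j ∈ T, (u' j + m) := by
      refine Finset.sum_congr rfl fun j hj => ?_
      have := hmin j hj
      rw [hu']
      simp only
      rw [if_pos hj]
      omega
    rw [h3, Finset.sum_add_distrib, Finset.sum_const, hT, smul_eq_mul]
  have h4 := red_ip hred' hle (by
    rw [hT1]
    omega)
  have h5 : ip (e - 3 * m) u' (e - 3 * m) u' =
      ((e : ℤ) - 3 * m) ^ 2 - ∑ j ∈ T, ((u j : ℤ) - m) ^ 2 := by
    unfold ip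
    have h6 : ∑ j, (u' j : ℤ) * u' j = ∑ j ∈ T, ((u j : ℤ) - m) ^ 2 := by
      rw [← Finset.sum_subset (Finset.subset_univ T) (f := fun j => (u' j : ℤ) * u' j)
        (fun j _ hj => by
          rw [hu']
          simp only
          rw [if_neg hj]
          simp)]
      refine Finset.sum_congr rfl fun j hj => ?_
      have := hmin j hj
      rw [hu']
      simp only
      rw [if_pos hj]
      push_cast [Nat.cast_sub this]
      ring
    rw [h6]
    push_cast [Nat.cast_sub h3m]
    ring
  rw [h5] at h4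
  have h6 : ∑ j ∈ T, ((u j : ℤ) - m) ^ 2 = ∑ j ∈ T, (u j : ℤ) ^ 2 - 2 * m * ∑ j ∈ T, (u j : ℤ) +
      9 * (m : ℤ) ^ 2 := by
    have h7 : ∀ j ∈ T, ((u j : ℤ) - m) ^ 2 = (u j : ℤ) ^ 2 - 2 * m * u j + (m : ℤ) ^ 2 :=
      fun j _ => by ring
    rw [Finset.sum_congr rfl h7, Finset.sum_add_distrib, Finset.sum_sub_distrib, ← Finset.mul_sum,
      Finset.sum_const, hT]
    simp
  rw [h6] at h4
  linarith

/-- The case of equality. -/
theorem all_eq {s e : ℕ} {u : Fin s → ℕ} (hred : Reduced e u) {T : Finset (Fin s)}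
    (hT : T.card = 9) (hsum : ∑ i ∈ T, u i = 3 * e) :
    ∃ m, e = 3 * m ∧ ∀ i ∈ T, u i = m := by
  classical
  have h3 : ∀ X ⊆ T, X.card = 3 → ∑ j ∈ X, u j = e := by
    intro X hX hXc
    have h1 := red_three hred hXc
    have h2 := red_sum hred 2 (T \ X) (by rw [Finset.card_sdiff_of_subset hX]; omega)
    have h4 := Finset.sum_sdiff hX (f := u)
    omega
  have heq : ∀ a ∈ T, ∀ b ∈ T, u a = u b := by
    intro a ha b hb
    by_cases hab : a = b
    · rw [hab]
    · obtain ⟨Y, hY, hYc⟩ := Finset.exists_subset_card_eq (s := T \ {a, b}) (n := 2) (by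
        have hsub : ({a, b} : Finset (Fin s)) ⊆ T := by
          intro x hx
          rw [Finset.mem_insert, Finset.mem_singleton] at hx
          rcases hx with rfl | rfl
          · exact ha
          · exact hb
        rw [Finset.card_sdiff_of_subset hsub, Finset.card_pair hab, hT]
        omega)
      have haY : a ∉ Y := fun h => by
        have := (Finset.mem_sdiff.1 (hY h)).2
        simp at this
      have hbY : b ∉ Y := fun h => by
        have := (Finset.mem_sdiff.1 (hY h)).2
        simp at this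
      have hYT : Y ⊆ T := fun x hx => (Finset.mem_sdiff.1 (hY hx)).1
      have e1 := h3 (insert a Y) (Finset.insert_subset ha hYT)
        (by rw [Finset.card_insert_of_notMem haY, hYc])
      have e2 := h3 (insert b Y) (Finset.insert_subset hb hYT)
        (by rw [Finset.card_insert_of_notMem hbY, hYc])
      rw [Finset.sum_insert haY] at e1
      rw [Finset.sum_insert hbY] at e2
      omega
  obtain ⟨a, ha⟩ : T.Nonempty := by
    rw [← Finset.card_pos]
    omega
  refine ⟨u a, ?_, fun i hi => heq i hi a ha⟩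
  have h4 : ∑ i ∈ T, u i = 9 * u a := by
    rw [Finset.sum_congr rfl fun i hi => heq i hi a ha, Finset.sum_const, hT, smul_eq_mul]
  omega

/-- The degree is at most three times the sum of the least of the nine multiplicities and `t`. -/
theorem deg_le {s e t : ℕ} {u : Fin s → ℕ} (hred : Reduced e u) {T : Finset (Fin s)}
    (hT : T.card = 9) {i0 : Fin s} (hi0 : i0 ∈ T) (hsum : ∑ i ∈ T, u i + t = 3 * e) :
    e ≤ 3 * (u i0 + t) ∧ ∀ i ∈ T, u i ≤ u i0 + t := by
  classical
  have h3 : ∀ X ⊆ T, X.card = 3 → e ≤ ∑ j ∈ X, u j + t := by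
    intro X hX hXc
    have h2 := red_sum hred 2 (T \ X) (by rw [Finset.card_sdiff_of_subset hX]; omega)
    have h4 := Finset.sum_sdiff hX (f := u)
    omega
  have hle : ∀ a ∈ T, u a ≤ u i0 + t := by
    intro a ha
    by_cases hab : a = i0
    · rw [hab]
      omega
    · obtain ⟨Y, hY, hYc⟩ := Finset.exists_subset_card_eq (s := T \ {a, i0}) (n := 2) (by
        have hsub : ({a, i0} : Finset (Fin s)) ⊆ T := by
          intro x hx
          rw [Finset.mem_insert, Finset.mem_singleton] at hx
          rcases hx with rfl | rfl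
          · exact ha
          · exact hi0
        rw [Finset.card_sdiff_of_subset hsub, Finset.card_pair hab, hT]
        omega)
      have haY : a ∉ Y := fun h => by
        have := (Finset.mem_sdiff.1 (hY h)).2
        simp at this
      have hbY : i0 ∉ Y := fun h => by
        have := (Finset.mem_sdiff.1 (hY h)).2
        simp at this
      have hYT : Y ⊆ T := fun x hx => (Finset.mem_sdiff.1 (hY hx)).1
      have e1 := red_three hred (X := insert a Y)
        (by rw [Finset.card_insert_of_notMem haY, hYc])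
      have e2 := h3 (insert i0 Y) (Finset.insert_subset hi0 hYT)
        (by rw [Finset.card_insert_of_notMem hbY, hYc])
      rw [Finset.sum_insert haY] at e1
      rw [Finset.sum_insert hbY] at e2
      omega
  refine ⟨?_, hle⟩
  obtain ⟨Y, hY, hYc⟩ := Finset.exists_subset_card_eq (s := T \ {i0}) (n := 2) (by
    rw [Finset.card_sdiff_of_subset (Finset.singleton_subset_iff.2 hi0), Finset.card_singleton, hT]
    omega)
  have hbY : i0 ∉ Y := fun h => by
    have := (Finset.mem_sdiff.1 (hY h)).2
    simp at this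
  have hYT : Y ⊆ T := fun x hx => (Finset.mem_sdiff.1 (hY hx)).1
  have e2 := h3 (insert i0 Y) (Finset.insert_subset hi0 hYT)
    (by rw [Finset.card_insert_of_notMem hbY, hYc])
  have e3 : ∑ j ∈ Y, u j ≤ 2 * (u i0 + t) := by
    refine (Finset.sum_le_card_nsmul Y u (u i0 + t) fun j hj => hle j (hYT hj)).trans ?_
    rw [hYc, smul_eq_mul]
  rw [Finset.sum_insert hbY] at e2
  omega

end Pool.Agent.R355.CanDeg
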