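import Pool.Agent.R355.CanDeg
import Pool.Agent.TH167.CL.Neg

set_option autoImplicit false

/-!
# Negative curves of given canonical degree
-/

namespace Pool.Agent.R355.CanDeg

open MvPolynomial Pool.Agent.W609 Pool.Agent.W609.CR Pool.Agent.TH167 Pool.Agent.TH167.SH
open Pool.Agent.TH442.NF (cls refl Step refl_cls)
open Pool.Agent.R355.NegOrb

theorem num {κ t m k e σ σ2 : ℤ} (hm : 0 ≤ m) (hk : 0 < k) (ht : 1 ≤ t)
    (hσ : σ = t + κ) (hmain : 2 * m * t ≤ σ2 - k) (h2 : σ2 ≤ m * σ) (h22 : σ2 ≤ σ ^ 2)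
    (he : e ≤ 3 * (m + t)) : t < κ ∧ 2 * e ≤ 3 * κ ^ 2 + 6 * κ + 6 := by
  have hm1 : 1 ≤ m := by
    by_contra h
    have hm0 : m = 0 := by omega
    subst hm0
    simp only [zero_mul, mul_zero] at hmain h2
    linarith
  have h3 : t < κ := by
    by_contra h
    push Not at h
    have h4 : m * σ ≤ m * (2 * t) := by
      refine mul_le_mul_of_nonneg_left ?_ hm
      linarith
    nlinarith
  refine ⟨h3, ?_⟩
  have h5 : 2 * e * t ≤ (3 * κ ^ 2 + 6 * κ + 6) * t := by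
    have h6 : 2 * e * t ≤ 6 * (m + t) * t := by nlinarith
    have h7 : 6 * m * t ≤ 3 * (σ ^ 2 - 1) := by nlinarith
    have h8 : 0 ≤ (t - 1) * (κ ^ 2 - 3 * t - 1) := by
      refine mul_nonneg (by linarith) ?_
      nlinarith
    rw [hσ] at h7
    nlinarith
  exact le_of_mul_le_mul_right h5 (by linarith)

theorem main {r : ℕ} {P : Fin (r + 4) → Fin 2 → ℂ}
    (hP : AlgebraicIndependent ℚ (fun ij : Fin (r + 4) × Fin 2 => P ij.1 ij.2)) {d : ℕ}
    {w : Fin (r + 4) → ℕ} (hI : Irr P d w) {k κ : ℤ} (hk : ip d w d w = -k) (hk0 : 0 < k)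
    (hκ : kk d w = -κ) : 3 ≤ κ ∧ ∃ (e : ℕ) (u : Fin (r + 4) → ℕ), Ch (cls d w) (cls e u) ∧
      Irr P e u ∧ Reduced e u ∧ e ≤ d ∧ ip e u e u = -k ∧ kk e u = -κ ∧
      2 * (e : ℤ) ≤ 3 * κ ^ 2 + 6 * κ + 6 ∧
      ∃ T : Finset (Fin (r + 4)), T.card = 9 ∧ (∀ i ∈ T, ∀ j, j ∉ T → u j ≤ u i) ∧
        κ + 1 ≤ ∑ j ∈ Tᶜ, (u j : ℤ) ∧ ∑ j ∈ Tᶜ, (u j : ℤ) ≤ 2 * κ - 1 ∧
        2 * ((Tᶜ.filter fun j => u j ≠ 0).card : ℤ) ≤ κ + 1 ∧
        k * ((Tᶜ.filter fun j => u j ≠ 0).card : ℤ) ≤ 2 * κ - 1 ∧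
        ∃ i0 ∈ T, 2 * (u i0 : ℤ) * (∑ j ∈ Tᶜ, (u j : ℤ) - κ) ≤ ∑ j ∈ Tᶜ, (u j : ℤ) ^ 2 - k := by
  classical
  obtain ⟨e, u, hch, hIu, hred, hed, hip, hkk⟩ := exists_std hP d w hI
  rw [hk] at hip
  rw [hκ] at hkk
  obtain ⟨G, g1, g2, g3⟩ := hIu.ex
  have hneg : ip e u e u < 0 := by
    rw [hip]
    linarith
  -- at least ten multiplicities are at least four
  have h10 : 10 ≤ (Finset.univ.filter fun j => 3 < u j).card := by
    by_contra hcon
    exact hIu.ne (T3.neg9 (by omega) hP g1 g2 g3 hneg)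
  have hs : 10 ≤ r + 4 := by
    refine h10.trans ((Finset.card_le_univ _).trans ?_)
    rw [Fintype.card_fin]
  obtain ⟨T, hT, htop⟩ := exists_top u 9 (by omega)
  have hTne : T.Nonempty := by
    rw [← Finset.card_pos]
    omega
  obtain ⟨i0, hi0, hmin⟩ := Finset.exists_min_image T u hTne
  have hTs : ∑ i ∈ T, u i ≤ 3 * e := red_sum hred 3 T (by rw [hT])
  have hmain := main_ineq hred hT hi0 hmin hTs
  obtain ⟨t, ht⟩ : ∃ t, ∑ i ∈ T, u i + t = 3 * e := ⟨3 * e - ∑ i ∈ T, u i, by omega⟩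
  have htZ : ∑ i ∈ T, (u i : ℤ) + t = 3 * e := by exact_mod_cast ht
  -- the sums over the complement
  have hsum : ∑ i ∈ T, (u i : ℤ) + ∑ j ∈ Tᶜ, (u j : ℤ) = 3 * e + κ := by
    rw [Finset.sum_add_sum_compl]
    unfold kk at hkk
    linarith
  have hsq : ∑ i ∈ T, (u i : ℤ) ^ 2 + ∑ j ∈ Tᶜ, (u j : ℤ) ^ 2 = (e : ℤ) ^ 2 + k := by
    rw [Finset.sum_add_sum_compl]
    unfold ip at hip
    have : ∑ j, (u j : ℤ) ^ 2 = ∑ j, (u j : ℤ) * u j := Finset.sum_congr rfl fun j _ => sq _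
    rw [this, pow_two]
    linarith
  obtain ⟨σ, hσ⟩ : ∃ σ, σ = ∑ j ∈ Tᶜ, (u j : ℤ) := ⟨_, rfl⟩
  obtain ⟨σ2, hσ2⟩ : ∃ σ2, σ2 = ∑ j ∈ Tᶜ, (u j : ℤ) ^ 2 := ⟨_, rfl⟩
  rw [← hσ] at hsum
  rw [← hσ2] at hsq
  have hσt : σ = t + κ := by linarith
  have hmain' : 2 * (u i0 : ℤ) * t ≤ σ2 - k := by
    have e1 : (3 * (e : ℤ) - ∑ i ∈ T, (u i : ℤ)) = t := by linarith
    rw [e1] at hmain
    linarith
  have h2 : σ2 ≤ (u i0 : ℤ) * σ := by
    rw [hσ, hσ2, Finset.mul_sum]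
    refine Finset.sum_le_sum fun j hj => ?_
    have h3 : u j ≤ u i0 := htop i0 hi0 j (Finset.mem_compl.1 hj)
    have h4 : (u j : ℤ) ≤ u i0 := by exact_mod_cast h3
    rw [pow_two]
    exact mul_le_mul_of_nonneg_right h4 (Int.natCast_nonneg _)
  have h22 : σ2 ≤ σ ^ 2 := by
    rw [hσ2, pow_two]
    nth_rewrite 1 [hσ]
    rw [Finset.sum_mul]
    refine Finset.sum_le_sum fun j hj => ?_
    rw [pow_two]
    refine mul_le_mul_of_nonneg_left ?_ (Int.natCast_nonneg _)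
    rw [hσ]
    exact Finset.single_le_sum (f := fun j => (u j : ℤ)) (fun j _ => Int.natCast_nonneg _) hj
  -- Xu's inequality
  have hxu : ∀ j, u j ≠ 0 → k ≤ u j := by
    intro j hj
    have hx := xu hP g1 g2 g3 (k := j) (by omega)
    have hx' : ((∑ j, u j ^ 2 : ℕ) : ℤ) ≤ ((e ^ 2 + u j : ℕ) : ℤ) := by exact_mod_cast hx
    have e1 : ip e u e u = (e : ℤ) ^ 2 - ((∑ j, u j ^ 2 : ℕ) : ℤ) := by
      unfold ip
      push_cast
      rw [pow_two]
      congr 1
      exact Finset.sum_congr rfl fun i _ => by ring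
    rw [e1] at hip
    push_cast at hx' hip
    linarith
  -- a point outside of `T` with a multiplicity at least four
  obtain ⟨j1, hj1, hj1T⟩ : ∃ j1, 3 < u j1 ∧ j1 ∉ T := by
    by_contra hcon
    push Not at hcon
    have : (Finset.univ.filter fun j => 3 < u j).card ≤ T.card :=
      Finset.card_le_card fun j hj => hcon j (Finset.mem_filter.1 hj).2
    omega
  have hσ4 : 4 ≤ σ := by
    rw [hσ]
    have h3 := Finset.single_le_sum (f := fun j => (u j : ℤ)) (s := Tᶜ)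
      (fun j _ => Int.natCast_nonneg _) (Finset.mem_compl.2 hj1T)
    have h4 : (4 : ℤ) ≤ u j1 := by exact_mod_cast hj1
    linarith
  -- `t` is positive
  have ht1 : 1 ≤ t := by
    by_contra hcon
    have ht0 : t = 0 := by omega
    subst ht0
    obtain ⟨m, hm1, hm2⟩ := all_eq hred hT (by omega)
    have h3 : ∑ i ∈ T, (u i : ℤ) ^ 2 = (e : ℤ) ^ 2 := by
      have h4 : ∀ i ∈ T, (u i : ℤ) ^ 2 = (m : ℤ) ^ 2 := fun i hi => by rw [hm2 i hi]
      rw [Finset.sum_congr rfl h4, Finset.sum_const, hT, hm1]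
      push_cast
      ring
    have h5 : σ2 = k := by linarith
    have h6 := hxu j1 (by omega)
    have h7 := Finset.single_le_sum (f := fun j => (u j : ℤ) ^ 2) (s := Tᶜ)
      (fun j _ => sq_nonneg _) (Finset.mem_compl.2 hj1T)
    rw [← hσ2, h5] at h7
    have h8 : (4 : ℤ) ≤ u j1 := by exact_mod_cast hj1
    nlinarith
  obtain ⟨hdeg, -⟩ := deg_le hred hT hi0 ht
  obtain ⟨n1, n2⟩ := num (κ := κ) (t := t) (m := u i0) (k := k) (e := e) (σ := σ) (σ2 := σ2)
    (Int.natCast_nonneg _) hk0 (by exact_mod_cast ht1) hσt hmain' h2 h22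
    (by exact_mod_cast hdeg)
  have hκ3 : 3 ≤ κ := by omega
  refine ⟨hκ3, e, u, hch, hIu, hred, hed, hip, hkk, n2, T, hT, htop, ?_, ?_, ?_, ?_, i0, hi0, ?_⟩
  · rw [← hσ]
    omega
  · rw [← hσ]
    omega
  · -- the number of nonzero multiplicities outside of `T`
    have hcl := CL.neg_cl hP g1 g2 g3 hneg hIu.ne
    have h3 : 4 * ((Tᶜ.filter fun j => u j ≠ 0).card : ℤ) ≤ σ + 3 := by
      have h4 : ∑ j ∈ Tᶜ.filter (fun j => u j ≠ 0), (u j : ℤ) = σ := by
        rw [hσ]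
        refine Finset.sum_subset (Finset.filter_subset _ _) fun j hj hj' => ?_
        have : u j = 0 := by
          by_contra h0
          exact hj' (Finset.mem_filter.2 ⟨hj, h0⟩)
        rw [this, Nat.cast_zero]
      rcases hcl with h5 | ⟨-, j0, h6, h7⟩
      · have h8 : ∑ _j ∈ Tᶜ.filter (fun j => u j ≠ 0), (4 : ℤ) ≤ σ := by
          rw [← h4]
          refine Finset.sum_le_sum fun j hj => ?_
          exact_mod_cast h5 j (Finset.mem_filter.1 hj).2
        rw [Finset.sum_const, nsmul_eq_mul] at h8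
        linarith
      · have h8 : ∑ j ∈ Tᶜ.filter (fun j => u j ≠ 0), ((4 : ℤ) - if j = j0 then 3 else 0) ≤ σ := by
          rw [← h4]
          refine Finset.sum_le_sum fun j hj => ?_
          by_cases hjj : j = j0
          · rw [if_pos hjj, hjj, h6]
            norm_num
          · rw [if_neg hjj, sub_zero]
            exact_mod_cast h7 j hjj (Finset.mem_filter.1 hj).2
        rw [Finset.sum_sub_distrib, Finset.sum_const, nsmul_eq_mul] at h8
        have h9 : ∑ j ∈ Tᶜ.filter (fun j => u j ≠ 0), (if j = j0 then (3 : ℤ) else 0) ≤ 3 := by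
          rw [Finset.sum_ite_eq']
          split_ifs <;> norm_num
        linarith
    omega
  · have h4 : ∑ j ∈ Tᶜ.filter (fun j => u j ≠ 0), (u j : ℤ) = σ := by
      rw [hσ]
      refine Finset.sum_subset (Finset.filter_subset _ _) fun j hj hj' => ?_
      have : u j = 0 := by
        by_contra h0
        exact hj' (Finset.mem_filter.2 ⟨hj, h0⟩)
      rw [this, Nat.cast_zero]
    have h8 : ∑ _j ∈ Tᶜ.filter (fun j => u j ≠ 0), k ≤ σ := by
      rw [← h4]
      exact Finset.sum_le_sum fun j hj => hxu j (Finset.mem_filter.1 hj).2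
    rw [Finset.sum_const, nsmul_eq_mul] at h8
    rw [mul_comm]
    omega
  · rw [← hσ, ← hσ2, hσt, add_sub_cancel_right]
    exact hmain'

/-- The finitely many possible standard forms. -/
theorem finite_shapes (κ : ℕ) : ∃ S : Finset (ℕ × Multiset ℕ), ∀ (r : ℕ) (P : Fin (r + 4) → Fin 2 → ℂ),
    AlgebraicIndependent ℚ (fun ij : Fin (r + 4) × Fin 2 => P ij.1 ij.2) →
    ∀ (d : ℕ) (w : Fin (r + 4) → ℕ), Irr P d w → ip d w d w < 0 → kk d w = -(κ : ℤ) →
      ∃ (e : ℕ) (u : Fin (r + 4) → ℕ), Ch (cls d w) (cls e u) ∧ Irr P e u ∧ Reduced e u ∧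
        (e, (Finset.univ.val.map u).filter (· ≠ 0)) ∈ S := by
  classical
  obtain ⟨B, hB⟩ : ∃ B, B = 3 * κ ^ 2 + 6 * κ + 6 := ⟨_, rfl⟩
  refine ⟨Finset.range (B + 1) ×ˢ ((10 + κ) • (Multiset.range (B + 1))).powerset.toFinset,
    fun r P hP d w hI hneg hκ => ?_⟩
  obtain ⟨-, e, u, h1, h2, h3, -, -, -, h4, T, h5, h6, -, -, h7, -⟩ := main hP hI
    (k := -ip d w d w) (neg_neg _).symm (by linarith) hκ
  refine ⟨e, u, h1, h2, h3, ?_⟩
  have he : e ≤ B := by
    have h8 : (2 * e : ℤ) ≤ (B : ℤ) := by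
      rw [hB]
      push_cast
      exact h4
    omega
  obtain ⟨G, g1, g2, g3⟩ := h2.ex
  have hle : ∀ j, u j ≤ e := fun j => van_le g1.ne_zero g2 (g3 j).1
  rw [Finset.mem_product]
  refine ⟨Finset.mem_range.2 (by show e < B + 1; omega), ?_⟩
  rw [Multiset.mem_toFinset, Multiset.mem_powerset, Multiset.le_iff_count]
  intro x
  show Multiset.count x ((Finset.univ.val.map u).filter (· ≠ 0)) ≤ _
  rw [Multiset.count_nsmul]
  by_cases hx : x ∈ (Finset.univ.val.map u).filter (· ≠ 0)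
  · rw [Multiset.mem_filter, Multiset.mem_map] at hx
    obtain ⟨⟨j, -, rfl⟩, -⟩ := hx
    have h8 : Multiset.count (u j) (Multiset.range (B + 1)) = 1 :=
      Multiset.count_eq_one_of_mem (Multiset.nodup_range _)
        (Multiset.mem_range.2 (by have := hle j; omega))
    rw [h8, mul_one]
    refine (Multiset.count_le_card _ _).trans ?_
    have h9 : Multiset.card ((Finset.univ.val.map u).filter (· ≠ 0)) =
        (Finset.univ.filter fun j => u j ≠ 0).card := by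
      rw [Multiset.filter_map, Multiset.card_map]
      rfl
    rw [h9]
    have h10 : (Finset.univ.filter fun j => u j ≠ 0) ⊆ T ∪ (Tᶜ.filter fun j => u j ≠ 0) := by
      intro j hj
      by_cases hjT : j ∈ T
      · exact Finset.mem_union_left _ hjT
      · exact Finset.mem_union_right _ (Finset.mem_filter.2
          ⟨Finset.mem_compl.2 hjT, (Finset.mem_filter.1 hj).2⟩)
    have h11 := (Finset.card_le_card h10).trans (Finset.card_union_le _ _)
    omega
  · rw [Multiset.count_eq_zero_of_notMem hx]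
    exact Nat.zero_le _

end Pool.Agent.R355.CanDeg
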