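import Pool.Agent.R355.CanDeg
import Pool.Agent.TH167.SH.Final

set_option autoImplicit false

/-!
# Prime divisors of given self-intersection and canonical degree
-/

namespace Pool.Agent.R355.CanDeg

open MvPolynomial Pool.Agent.W609 Pool.Agent.W609.CR Pool.Agent.TH167 Pool.Agent.TH167.SH

theorem pair_le' {K : Type} [Field K] [CharZero K] {s : ℕ} {P : Fin s → Fin 2 → K}
    (hP : AlgebraicIndependent ℚ (fun ij : Fin s × Fin 2 => P ij.1 ij.2))
    {G : MvPolynomial (Fin 3) K} {e : ℕ} {w : Fin s → ℕ} (hG : Irreducible G)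
    (hGe : G.IsHomogeneous e) (hGo : ∀ j, Ord (aff (P j)) (w j) G)
    (hne : ¬ (ip e w e w = -1 ∧ kk e w = 1)) {a b : Fin s} (hab : a ≠ b) : w a + w b ≤ e :=
  NegOrb.pair_le hP hG hGe hGo hne hab

/-- Reduction to the standard form, over any field, with the dimension. -/
theorem std_dim {K : Type} [Field K] [CharZero K] {r : ℕ} :
    ∀ (d : ℕ) (P : Fin (r + 4) → Fin 2 → K)
      (_ : AlgebraicIndependent ℚ (fun ij : Fin (r + 4) × Fin 2 => P ij.1 ij.2))
      (w : Fin (r + 4) → ℕ) (G : MvPolynomial (Fin 3) K) (_ : Irreducible G)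
      (_ : G.IsHomogeneous d) (_ : ∀ j, Ord (aff (P j)) (w j) G)
      (_ : ¬ (ip d w d w = -1 ∧ kk d w = 1)),
      ∃ (P1 : Fin (r + 4) → Fin 2 → K) (e : ℕ) (u : Fin (r + 4) → ℕ)
        (G1 : MvPolynomial (Fin 3) K),
        AlgebraicIndependent ℚ (fun ij : Fin (r + 4) × Fin 2 => P1 ij.1 ij.2) ∧
        Irreducible G1 ∧ G1.IsHomogeneous e ∧ (∀ j, Ord (aff (P1 j)) (u j) G1) ∧
        Relation.ReflTransGen Quad (d, w) (e, u) ∧ Reduced e u ∧ e ≤ d ∧
        Module.finrank K (VS (fun j => aff (P1 j)) u e) =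
          Module.finrank K (VS (fun j => aff (P j)) w d) := by
  intro d
  induction d using Nat.strong_induction_on with
  | _ d ih =>
    intro P hP w G hG hGe hord hne
    by_cases hred : Reduced d w
    · exact ⟨P, d, w, G, hP, hG, hGe, hord, Relation.ReflTransGen.refl, hred, le_rfl, rfl⟩
    · have hred' := hred
      unfold Reduced at hred'
      push Not at hred'
      obtain ⟨a, b, c, hab, hac, hbc, hlt⟩ := hred'
      have hi : Function.Injective ![a, b, c] := inj_cons hab hac hbc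
      have p : PS ![a, b, c] d w := ⟨pair_le' hP hG hGe hord hne hab,
        pair_le' hP hG hGe hord hne hac, pair_le' hP hG hGe hord hne hbc⟩
      have hc1 := cd_cast p
      unfold dl at hc1
      have e0 : w (![a, b, c] 0) = w a := rfl
      have e1 : w (![a, b, c] 1) = w b := rfl
      have e2 : w (![a, b, c] 2) = w c := rfl
      rw [e0, e1, e2] at hc1
      have hlt' : cd ![a, b, c] d w < d := by omega
      obtain ⟨P', hP', hr⟩ := exists_crel hP hi
      obtain ⟨G', hG', hGe', hord'⟩ := hr.irr hG hGe hord p.p01 p.p02 p.p12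
      have hdim := hr.dim p
      obtain ⟨P1, e, u, G1, h1, h2, h3, h4, h5, h6, h7, h8⟩ := ih _ hlt' P' hP' _ G' hG' hGe' hord'
        (by rw [ip_cr hi p p, kk_cr hi p]; exact hne)
      refine ⟨P1, e, u, G1, h1, h2, h3, h4, ?_, h6, by omega, by rw [h8, hdim]⟩
      exact Relation.ReflTransGen.head ⟨_, hi, p, rfl⟩ h5

/-- The sum over at most `3 n` indices. -/
theorem red_sum' {r e : ℕ} {u : Fin (r + 4) → ℕ} (hred : Reduced e u) : ∀ (n : ℕ)
    (Y : Finset (Fin (r + 4))), Y.card ≤ 3 * n → ∑ j ∈ Y, u j ≤ n * e := by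
  classical
  have h3 : ∀ X : Finset (Fin (r + 4)), X.card ≤ 3 → ∑ j ∈ X, u j ≤ e := by
    intro X hX
    obtain ⟨Y, hY, -, hYc⟩ := Finset.exists_subsuperset_card_eq
      (s := X) (t := Finset.univ) (n := 3) (Finset.subset_univ X) hX
      (by rw [Finset.card_univ, Fintype.card_fin]; omega)
    exact (Finset.sum_le_sum_of_subset hY).trans (red_three hred hYc)
  intro n
  induction n with
  | zero =>
    intro Y hY
    have : Y = ∅ := Finset.card_eq_zero.1 (by omega)
    rw [this]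
    simp
  | succ n ih =>
    intro Y hY
    rcases Nat.lt_or_ge Y.card 3 with hc | hc
    · have h1 := h3 Y hc.le
      have h2 : e ≤ (n + 1) * e := Nat.le_mul_of_pos_left e (by omega)
      omega
    · obtain ⟨X, hX, hXc⟩ := Finset.exists_subset_card_eq (s := Y) (n := 3) hc
      have h1 := h3 X hXc.le
      have h2 := ih (Y \ X) (by rw [Finset.card_sdiff_of_subset hX]; omega)
      rw [← Finset.sum_sdiff hX, Nat.succ_mul]
      omega

theorem num3 {a A c t m e σ σ2 : ℤ} (hA : a ≤ A) (hA0 : 0 ≤ A) (hc : 1 ≤ c) (ht : 1 ≤ t)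
    (hm : 0 ≤ m) (hσ : σ = t + c) (hmain : 2 * m * t ≤ a + σ2) (h1 : σ ≤ σ2) (h2 : σ2 ≤ m * σ)
    (h22 : σ2 ≤ σ ^ 2) (he : e ≤ 3 * (m + t)) :
    σ ≤ 2 * c + A ∧ 2 * e ≤ 3 * (A + (2 * c + A) ^ 2) + 6 * (c + A) := by
  have hm1 : 1 ≤ m := by
    by_contra h
    have hm0 : m = 0 := by omega
    subst hm0
    rw [zero_mul] at h2
    linarith
  have h3 : m * (t - c) ≤ A := by
    have : m * (2 * t - σ) ≤ a := by linarith
    have e1 : 2 * t - σ = t - c := by linarith
    rw [e1] at this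
    linarith
  have h4 : t ≤ c + A := by
    by_contra h
    push Not at h
    have h5 : t - c ≤ m * (t - c) := by
      have : 1 * (t - c) ≤ m * (t - c) := mul_le_mul_of_nonneg_right hm1 (by linarith)
      linarith
    linarith
  have h5 : σ ≤ 2 * c + A := by linarith
  refine ⟨h5, ?_⟩
  have h6 : 2 * m ≤ A + σ ^ 2 := by
    have h7 : 2 * m ≤ 2 * m * t := by nlinarith
    linarith
  have h7 : σ ^ 2 ≤ (2 * c + A) ^ 2 := by
    have : 0 ≤ σ := by linarith
    nlinarith
  linarith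

/-- The combinatorial part. -/
theorem red_finite {K : Type} [Field K] [CharZero K] [IsAlgClosed K] {r : ℕ}
    {P : Fin (r + 4) → Fin 2 → K}
    (hP : AlgebraicIndependent ℚ (fun ij : Fin (r + 4) × Fin 2 => P ij.1 ij.2)) {e : ℕ}
    {u : Fin (r + 4) → ℕ} {G : MvPolynomial (Fin 3) K} (hG : Irreducible G)
    (hGe : G.IsHomogeneous e) (hGo : ∀ j, Ord (aff (P j)) (u j) G)
    (hne : ¬ (ip e u e u = -1 ∧ kk e u = 1)) (hred : Reduced e u) {a A c : ℤ}
    (ha : ip e u e u = a) (hA : a ≤ A) (hA0 : 0 ≤ A) (hc : 1 ≤ c) (hcc : kk e u = -c) :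
    2 * (e : ℤ) ≤ 3 * (A + (2 * c + A) ^ 2) + 6 * (c + A) ∧
      ((Finset.univ.filter fun j => u j ≠ 0).card : ℤ) ≤ 9 + 2 * c + A := by
  classical
  have hs : 9 ≤ r + 4 := by
    by_contra hcon
    have h1 := red_sum' hred 3 Finset.univ (by
      rw [Finset.card_univ, Fintype.card_fin]
      omega)
    have h2 : ∑ j, (u j : ℤ) ≤ 3 * e := by exact_mod_cast h1
    unfold kk at hcc
    linarith
  obtain ⟨T, hT, htop⟩ := exists_top u 9 hs
  have hTne : T.Nonempty := by
    rw [← Finset.card_pos]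
    omega
  obtain ⟨i0, hi0, hmin⟩ := Finset.exists_min_image T u hTne
  have hTs : ∑ i ∈ T, u i ≤ 3 * e := red_sum hred 3 T (by rw [hT])
  have hmain := main_ineq hred hT hi0 hmin hTs
  obtain ⟨t, ht⟩ : ∃ t, ∑ i ∈ T, u i + t = 3 * e := ⟨3 * e - ∑ i ∈ T, u i, by omega⟩
  have htZ : ∑ i ∈ T, (u i : ℤ) + t = 3 * e := by exact_mod_cast ht
  have hsum : ∑ i ∈ T, (u i : ℤ) + ∑ j ∈ Tᶜ, (u j : ℤ) = 3 * e + c := by
    rw [Finset.sum_add_sum_compl]
    unfold kk at hcc
    linarith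
  have hsq : ∑ i ∈ T, (u i : ℤ) ^ 2 + ∑ j ∈ Tᶜ, (u j : ℤ) ^ 2 = (e : ℤ) ^ 2 - a := by
    rw [Finset.sum_add_sum_compl]
    unfold ip at ha
    have : ∑ j, (u j : ℤ) ^ 2 = ∑ j, (u j : ℤ) * u j := Finset.sum_congr rfl fun j _ => sq _
    rw [this, pow_two]
    linarith
  obtain ⟨σ, hσ⟩ : ∃ σ, σ = ∑ j ∈ Tᶜ, (u j : ℤ) := ⟨_, rfl⟩
  obtain ⟨σ2, hσ2⟩ : ∃ σ2, σ2 = ∑ j ∈ Tᶜ, (u j : ℤ) ^ 2 := ⟨_, rfl⟩
  rw [← hσ] at hsum
  rw [← hσ2] at hsq
  have hσt : σ = t + c := by linarith
  have hmain' : 2 * (u i0 : ℤ) * t ≤ a + σ2 := by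
    have e1 : (3 * (e : ℤ) - ∑ i ∈ T, (u i : ℤ)) = t := by linarith
    rw [e1] at hmain
    linarith
  have h2 : σ2 ≤ (u i0 : ℤ) * σ := by
    rw [hσ, hσ2, Finset.mul_sum]
    refine Finset.sum_le_sum fun j hj => ?_
    have h3 : u j ≤ u i0 := htop i0 hi0 j (Finset.mem_compl.1 hj)
    have h4 : (u j : ℤ) ≤ u i0 := by exact_mod_cast h3
    rw [pow_two]
    exact mul_le_mul_of_nonneg_right h4 (Int.natCast_nonneg _)
  have h12 : σ ≤ σ2 := by
    rw [hσ, hσ2]
    refine Finset.sum_le_sum fun j _ => ?_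
    rcases Nat.eq_zero_or_pos (u j) with h | h
    · rw [h]
      norm_num
    · have : (1 : ℤ) ≤ u j := by exact_mod_cast h
      nlinarith
  have h22 : σ2 ≤ σ ^ 2 := by
    rw [hσ2, pow_two]
    nth_rewrite 1 [hσ]
    rw [Finset.sum_mul]
    refine Finset.sum_le_sum fun j hj => ?_
    rw [pow_two]
    refine mul_le_mul_of_nonneg_left ?_ (Int.natCast_nonneg _)
    rw [hσ]
    exact Finset.single_le_sum (f := fun j => (u j : ℤ)) (fun j _ => Int.natCast_nonneg _) hj
  -- `t` is positive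
  have ht1 : 1 ≤ t := by
    by_contra hcon
    have ht0 : t = 0 := by omega
    subst ht0
    obtain ⟨m, hm1, hm2⟩ := all_eq hred hT (by omega)
    have h3 : ∑ i ∈ T, (u i : ℤ) ^ 2 = (e : ℤ) ^ 2 := by
      have h4 : ∀ i ∈ T, (u i : ℤ) ^ 2 = (m : ℤ) ^ 2 := fun i hi => by rw [hm2 i hi]
      rw [Finset.sum_congr rfl h4, Finset.sum_const, hT, hm1]
      push_cast
      ring
    have h5 : σ2 = -a := by linarith
    have hneg : ip e u e u < 0 := by
      rw [ha]
      have : 1 ≤ σ := by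
        rw [hσt]
        push_cast
        linarith
      linarith
    have h10 : 10 ≤ (Finset.univ.filter fun j => 3 < u j).card := by
      by_contra hcon'
      exact hne (T3.neg9 (by omega) hP hG hGe hGo hneg)
    obtain ⟨j1, hj1, hj1T⟩ : ∃ j1, 3 < u j1 ∧ j1 ∉ T := by
      by_contra hcon'
      push Not at hcon'
      have : (Finset.univ.filter fun j => 3 < u j).card ≤ T.card :=
        Finset.card_le_card fun j hj => hcon' j (Finset.mem_filter.1 hj).2
      omega
    have hx := NegOrb.xu hP hG hGe hGo (k := j1) (by omega)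
    have hx' : ((∑ j, u j ^ 2 : ℕ) : ℤ) ≤ ((e ^ 2 + u j1 : ℕ) : ℤ) := by exact_mod_cast hx
    push_cast at hx'
    rw [← Finset.sum_add_sum_compl T (fun j => (u j : ℤ) ^ 2), h3, ← hσ2] at hx'
    have h7 := Finset.single_le_sum (f := fun j => (u j : ℤ) ^ 2) (s := Tᶜ)
      (fun j _ => sq_nonneg _) (Finset.mem_compl.2 hj1T)
    rw [← hσ2] at h7
    have h8 : (4 : ℤ) ≤ u j1 := by exact_mod_cast hj1
    nlinarith
  obtain ⟨hdeg, -⟩ := deg_le hred hT hi0 ht
  obtain ⟨n1, n2⟩ := num3 (a := a) (A := A) (c := c) (t := t) (m := u i0) (e := e) (σ := σ)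
    (σ2 := σ2) hA hA0 hc (by exact_mod_cast ht1) (Int.natCast_nonneg _) hσt hmain' h12 h2 h22
    (by exact_mod_cast hdeg)
  refine ⟨n2, ?_⟩
  have h10 : (Finset.univ.filter fun j => u j ≠ 0) ⊆ T ∪ (Tᶜ.filter fun j => u j ≠ 0) := by
    intro j hj
    by_cases hjT : j ∈ T
    · exact Finset.mem_union_left _ hjT
    · exact Finset.mem_union_right _ (Finset.mem_filter.2
        ⟨Finset.mem_compl.2 hjT, (Finset.mem_filter.1 hj).2⟩)
  have h11 := (Finset.card_le_card h10).trans (Finset.card_union_le _ _)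
  have h12 : ((Tᶜ.filter fun j => u j ≠ 0).card : ℤ) ≤ σ := by
    have h4 : ∑ j ∈ Tᶜ.filter (fun j => u j ≠ 0), (u j : ℤ) = σ := by
      rw [hσ]
      refine Finset.sum_subset (Finset.filter_subset _ _) fun j hj hj' => ?_
      have : u j = 0 := by
        by_contra h0
        exact hj' (Finset.mem_filter.2 ⟨hj, h0⟩)
      rw [this, Nat.cast_zero]
    have h8 : ∑ _j ∈ Tᶜ.filter (fun j => u j ≠ 0), (1 : ℤ) ≤ σ := by
      rw [← h4]
      refine Finset.sum_le_sum fun j hj => ?_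
      have := (Finset.mem_filter.1 hj).2
      exact_mod_cast Nat.one_le_iff_ne_zero.2 this
    rw [Finset.sum_const, nsmul_eq_mul, mul_one] at h8
    exact h8
  have h13 : ((Finset.univ.filter fun j => u j ≠ 0).card : ℤ) ≤ T.card +
      (Tᶜ.filter fun j => u j ≠ 0).card := by exact_mod_cast h11
  rw [hT] at h13
  push_cast at h13
  linarith

/-- Membership in the finite set of shapes. -/
theorem shape_mem {r B N e : ℕ} {u : Fin (r + 4) → ℕ} (he : e ≤ B) (hle : ∀ j, u j ≤ e)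
    (hN : (Finset.univ.filter fun j => u j ≠ 0).card ≤ N) :
    (e, (Finset.univ.val.map u).filter (· ≠ 0)) ∈
      Finset.range (B + 1) ×ˢ (N • (Multiset.range (B + 1))).powerset.toFinset := by
  classical
  rw [Finset.mem_product]
  refine ⟨Finset.mem_range.2 (by show e < B + 1; omega), ?_⟩
  rw [Multiset.mem_toFinset, Multiset.mem_powerset, Multiset.le_iff_count]
  intro x
  show Multiset.count x ((Finset.univ.val.map u).filter (· ≠ 0)) ≤ _
  rw [Multiset.count_nsmul]
  by_cases hx : x ∈ (Finset.univ.val.map u).filter (· ≠ 0)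
  · rw [Multiset.mem_filter, Multiset.mem_map] at hx
    obtain ⟨⟨j, -, rfl⟩, -⟩ := hx
    have h8 : Multiset.count (u j) (Multiset.range (B + 1)) = 1 :=
      Multiset.count_eq_one_of_mem (Multiset.nodup_range _)
        (Multiset.mem_range.2 (by have := hle j; omega))
    rw [h8, mul_one]
    refine (Multiset.count_le_card _ _).trans ?_
    have h9 : Multiset.card ((Finset.univ.val.map u).filter (· ≠ 0)) =
        (Finset.univ.filter fun j => u j ≠ 0).card := by
      rw [Multiset.filter_map, Multiset.card_map]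
      rfl
    rw [h9]
    exact hN
  · rw [Multiset.count_eq_zero_of_notMem hx]
    exact Nat.zero_le _

end Pool.Agent.R355.CanDeg
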