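import Pool.Agent.R355.NegOrb
import Pool.Agent.TH545.CF.Main

set_option autoImplicit false

/-!
# The action of the quadratic transformations on the cone of curves
-/

namespace Pool.Agent.R355.ConeAct

open MvPolynomial Pool.Agent.W609 Pool.Agent.W609.CR Pool.Agent.TH167 Pool.Agent.TH167.SH

/-- The classes (in the coordinates degree, multiplicities) of the irreducible curves on the
blow-up of the plane at the points `(P i 0 : P i 1 : 1)`: the classes `(d; w)` of the proper
transforms of the irreducible plane curves of degree `d` with the multiplicities exactly `w i` at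
`P i`, and the classes `(0; -e_i)` of the exceptional curves. -/
def curveClasses {n : ℕ} (P : Fin n → Fin 2 → ℂ) : Set (ℝ × (Fin n → ℝ)) :=
  {v | ∃ (G : MvPolynomial (Fin 3) ℂ) (d : ℕ) (w : Fin n → ℕ), SHDefs.Curve P G d w ∧
    v = ((d : ℝ), fun i => (w i : ℝ))} ∪
  {v | ∃ i : Fin n, v = ((0 : ℝ), (Pi.single i (-1 : ℝ) : Fin n → ℝ))}

/-- The closed cone of curves. -/
def curvCone {n : ℕ} (P : Fin n → Fin 2 → ℂ) : Set (ℝ × (Fin n → ℝ)) :=
  closure ((Submodule.span {c : ℝ // 0 ≤ c} (curveClasses P) : Set (ℝ × (Fin n → ℝ))))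

/-- The intersection form. -/
def dot {n : ℕ} (a b : ℝ × (Fin n → ℝ)) : ℝ := a.1 * b.1 - ∑ l, a.2 l * b.2 l

/-- The reflection in the class `H - E (i 0) - E (i 1) - E (i 2)` of self-intersection `-2`: with
`δ = a.1 - a.2 (i 0) - a.2 (i 1) - a.2 (i 2)`, the numbers `a.1`, `a.2 (i 0)`, `a.2 (i 1)`,
`a.2 (i 2)` are increased by `δ`. -/
def refl {n : ℕ} (i : Fin 3 → Fin n) (a : ℝ × (Fin n → ℝ)) : ℝ × (Fin n → ℝ) :=
  (a.1 + (a.1 - a.2 (i 0) - a.2 (i 1) - a.2 (i 2)),
    fun l => a.2 l + if l = i 0 ∨ l = i 1 ∨ l = i 2 then a.1 - a.2 (i 0) - a.2 (i 1) - a.2 (i 2)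
      else 0)

/-- Finitely many reflections carry the class `a` to `b`. -/
def Carries {n : ℕ} (a b : ℝ × (Fin n → ℝ)) : Prop :=
  Relation.ReflTransGen
    (fun a b : ℝ × (Fin n → ℝ) => ∃ i : Fin 3 → Fin n, Function.Injective i ∧ b = refl i a) a b

/-- The class `√t H - ∑_{i ∈ T} E i`, `t` the number of elements of `T`. -/
noncomputable def nagata {n : ℕ} (T : Finset (Fin n)) : ℝ × (Fin n → ℝ) :=
  (Real.sqrt T.card, fun i => if i ∈ T then 1 else 0)

/-- The indicator of the base points. -/
def ind {n : ℕ} (i : Fin 3 → Fin n) (l : Fin n) : ℝ := if l = i 0 ∨ l = i 1 ∨ l = i 2 then 1 else 0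

/-- The change of the degree. -/
def del {n : ℕ} (i : Fin 3 → Fin n) (a : ℝ × (Fin n → ℝ)) : ℝ :=
  a.1 - a.2 (i 0) - a.2 (i 1) - a.2 (i 2)

theorem refl_fst {n : ℕ} (i : Fin 3 → Fin n) (a : ℝ × (Fin n → ℝ)) :
    (refl i a).1 = a.1 + del i a := rfl

theorem refl_snd {n : ℕ} (i : Fin 3 → Fin n) (a : ℝ × (Fin n → ℝ)) (l : Fin n) :
    (refl i a).2 l = a.2 l + del i a * ind i l := by
  show a.2 l + (if l = i 0 ∨ l = i 1 ∨ l = i 2 then a.1 - a.2 (i 0) - a.2 (i 1) - a.2 (i 2)
    else 0) = _
  unfold ind del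
  split_ifs <;> ring

theorem ind_base {n : ℕ} (i : Fin 3 → Fin n) : ind i (i 0) = 1 ∧ ind i (i 1) = 1 ∧
    ind i (i 2) = 1 := by
  unfold ind
  exact ⟨if_pos (Or.inl rfl), if_pos (Or.inr (Or.inl rfl)), if_pos (Or.inr (Or.inr rfl))⟩

theorem ind_sq {n : ℕ} (i : Fin 3 → Fin n) (l : Fin n) : ind i l * ind i l = ind i l := by
  unfold ind
  split_ifs <;> norm_num

theorem ind_eq {n : ℕ} (i : Fin 3 → Fin n) (l : Fin n) : ind i l = (ic i l : ℝ) := by
  unfold ind ic
  split_ifs <;> norm_num

theorem sum_ind {n : ℕ} {i : Fin 3 → Fin n} (hi : Function.Injective i) (x : Fin n → ℝ) :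
    ∑ l, ind i l * x l = x (i 0) + x (i 1) + x (i 2) := by
  classical
  have h1 : ∀ l, ind i l * x l = (if l = i 0 then x (i 0) else 0) +
      (if l = i 1 then x (i 1) else 0) + (if l = i 2 then x (i 2) else 0) := by
    intro l
    unfold ind
    have n10 := ne10 hi
    have n20 := ne20 hi
    have n21 := ne21 hi
    by_cases c0 : l = i 0
    · subst c0
      rw [if_pos (Or.inl rfl), if_pos rfl, if_neg n10.symm, if_neg n20.symm]
      ring
    · by_cases c1 : l = i 1
      · subst c1
        rw [if_pos (Or.inr (Or.inl rfl)), if_neg n10, if_pos rfl, if_neg n21.symm]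
        ring
      · by_cases c2 : l = i 2
        · subst c2
          rw [if_pos (Or.inr (Or.inr rfl)), if_neg n20, if_neg n21, if_pos rfl]
          ring
        · rw [if_neg (by tauto), if_neg c0, if_neg c1, if_neg c2]
          ring
  rw [Finset.sum_congr rfl fun l _ => h1 l, Finset.sum_add_distrib, Finset.sum_add_distrib,
    Finset.sum_ite_eq' Finset.univ, Finset.sum_ite_eq' Finset.univ,
    Finset.sum_ite_eq' Finset.univ]
  simp

theorem del_refl {n : ℕ} (i : Fin 3 → Fin n) (a : ℝ × (Fin n → ℝ)) :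
    del i (refl i a) = - del i a := by
  obtain ⟨h0, h1, h2⟩ := ind_base i
  have h : del i (refl i a) = (refl i a).1 - (refl i a).2 (i 0) - (refl i a).2 (i 1) -
      (refl i a).2 (i 2) := rfl
  rw [h, refl_fst, refl_snd, refl_snd, refl_snd, h0, h1, h2]
  unfold del
  ring

theorem refl_refl {n : ℕ} (i : Fin 3 → Fin n) (a : ℝ × (Fin n → ℝ)) : refl i (refl i a) = a := by
  refine Prod.ext ?_ ?_
  · rw [refl_fst, refl_fst, del_refl]
    ring
  · funext l
    rw [refl_snd, refl_snd, del_refl]
    ring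

theorem dot_refl {n : ℕ} {i : Fin 3 → Fin n} (hi : Function.Injective i)
    (a b : ℝ × (Fin n → ℝ)) : dot (refl i a) (refl i b) = dot a b := by
  unfold dot
  rw [refl_fst, refl_fst]
  have h1 : ∀ l, (refl i a).2 l * (refl i b).2 l = a.2 l * b.2 l +
      (del i b * (ind i l * a.2 l) + (del i a * (ind i l * b.2 l) +
        del i a * del i b * (ind i l * 1))) := by
    intro l
    rw [refl_snd, refl_snd]
    have := ind_sq i l
    linear_combination (del i a * del i b) * this
  rw [Finset.sum_congr rfl fun l _ => h1 l, Finset.sum_add_distrib, Finset.sum_add_distrib,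
    Finset.sum_add_distrib, ← Finset.mul_sum, ← Finset.mul_sum, ← Finset.mul_sum,
    sum_ind hi (fun l => a.2 l), sum_ind hi (fun l => b.2 l), sum_ind hi (fun _ => 1)]
  unfold del
  ring

/-- The intersection number with the canonical class. -/
def kap {n : ℕ} (a : ℝ × (Fin n → ℝ)) : ℝ := -3 * a.1 + ∑ l, a.2 l

theorem kap_refl {n : ℕ} {i : Fin 3 → Fin n} (hi : Function.Injective i)
    (a : ℝ × (Fin n → ℝ)) : kap (refl i a) = kap a := by
  unfold kap
  rw [refl_fst, Finset.sum_congr rfl fun l _ => refl_snd i a l, Finset.sum_add_distrib,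
    ← Finset.mul_sum]
  have h := sum_ind hi (fun _ => 1)
  simp only [mul_one] at h
  rw [h]
  ring

theorem kap_smul {n : ℕ} (c : ℝ) (a : ℝ × (Fin n → ℝ)) : kap (c • a) = c * kap a := by
  have h : ∑ l, (c • a).2 l = c * ∑ l, a.2 l := by
    rw [Finset.mul_sum]
    rfl
  unfold kap
  rw [h]
  show -3 * (c * a.1) + _ = _
  ring

/-! ## The cone of curves -/

theorem refl_nat {n : ℕ} {i : Fin 3 → Fin n} (hi : Function.Injective i) {d : ℕ} {w : Fin n → ℕ}
    (p : PS i d w) : refl i ((d : ℝ), fun l => (w l : ℝ)) =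
      (((cd i d w : ℕ) : ℝ), fun l => ((wcr d i w l : ℕ) : ℝ)) := by
  have h0 : del i ((d : ℝ), fun l => (w l : ℝ)) = (dl i d w : ℝ) := by
    unfold del dl
    push_cast
    rfl
  refine Prod.ext ?_ ?_
  · rw [refl_fst, h0]
    have := cd_cast p
    show (d : ℝ) + (dl i d w : ℝ) = ((cd i d w : ℕ) : ℝ)
    exact_mod_cast this.symm
  · funext l
    rw [refl_snd, h0, ind_eq]
    have := wcr_cast hi p l
    show (w l : ℝ) + (dl i d w : ℝ) * (ic i l : ℝ) = ((wcr d i w l : ℕ) : ℝ)
    exact_mod_cast this.symm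

theorem line_mem {n : ℕ} {P : Fin n → Fin 2 → ℂ}
    (hP : AlgebraicIndependent ℚ (fun ij : Fin n × Fin 2 => P ij.1 ij.2)) {a b : Fin n}
    (hab : a ≠ b) {v : ℝ × (Fin n → ℝ)} (h1 : v.1 = 1)
    (h2 : ∀ l, v.2 l = if l = a ∨ l = b then 1 else 0) : v ∈ curveClasses P := by
  left
  have hE := exc_line hP hab
  refine ⟨_, 1, _, curve_iff.2 ⟨hE.irr, hE.hom, hE.ord⟩, ?_⟩
  refine Prod.ext ?_ ?_
  · rw [h1]
    norm_num
  · funext l
    rw [h2]
    simp only
    split_ifs <;> norm_num

theorem gen_refl {n : ℕ} {P : Fin n → Fin 2 → ℂ}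
    (hP : AlgebraicIndependent ℚ (fun ij : Fin n × Fin 2 => P ij.1 ij.2))
    {i : Fin 3 → Fin n} (hi : Function.Injective i) {v : ℝ × (Fin n → ℝ)}
    (hv : v ∈ curveClasses P) : refl i v ∈ curveClasses P := by
  classical
  have n10 := ne10 hi
  have n20 := ne20 hi
  have n21 := ne21 hi
  obtain ⟨b0, b1, b2⟩ := ind_base i
  -- the line through two of the three points
  have hline : ∀ (a b c : Fin n), a ≠ b → (∀ l, ind i l = if l = a ∨ l = b ∨ l = c then 1 else 0) →
      c ≠ a → c ≠ b → (∀ x : ℝ × (Fin n → ℝ), del i x = x.1 - x.2 a - x.2 b - x.2 c) →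
      refl i ((1 : ℝ), fun l => ((if l = a ∨ l = b then 1 else 0 : ℕ) : ℝ)) ∈ curveClasses P := by
    intro a b c hab hind hca hcb hdel
    right
    have hδ : del i ((1 : ℝ), fun l => ((if l = a ∨ l = b then 1 else 0 : ℕ) : ℝ)) = -1 := by
      rw [hdel]
      show (1 : ℝ) - ((if a = a ∨ a = b then 1 else 0 : ℕ) : ℝ) -
        ((if b = a ∨ b = b then 1 else 0 : ℕ) : ℝ) - ((if c = a ∨ c = b then 1 else 0 : ℕ) : ℝ) = -1
      rw [if_pos (Or.inl rfl), if_pos (Or.inr rfl), if_neg (by tauto)]
      norm_num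
    refine ⟨c, Prod.ext ?_ ?_⟩
    · rw [refl_fst, hδ]
      norm_num
    · funext l
      rw [refl_snd, hδ, hind]
      simp only
      by_cases hla : l = a
      · subst hla
        rw [if_pos (Or.inl rfl), if_pos (Or.inl rfl), Pi.single_eq_of_ne hca.symm]
        norm_num
      · by_cases hlb : l = b
        · subst hlb
          rw [if_pos (Or.inr rfl), if_pos (Or.inr (Or.inl rfl)), Pi.single_eq_of_ne hcb.symm]
          norm_num
        · by_cases hlc : l = c
          · subst hlc
            rw [if_neg (by tauto), if_pos (Or.inr (Or.inr rfl)), Pi.single_eq_same]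
            norm_num
          · rw [if_neg (by tauto), if_neg (by tauto), Pi.single_eq_of_ne hlc]
            norm_num
  rcases hv with ⟨G, d, w, hG, rfl⟩ | ⟨j, rfl⟩
  · obtain ⟨g1, g2, g3⟩ := curve_iff.1 hG
    by_cases p01 : w (i 0) + w (i 1) ≤ d
    · by_cases p02 : w (i 0) + w (i 2) ≤ d
      · by_cases p12 : w (i 1) + w (i 2) ≤ d
        · have p : PS i d w := ⟨p01, p02, p12⟩
          left
          obtain ⟨P', hP', hr⟩ := exists_crel hP hi
          obtain ⟨G', a1, a2, a3⟩ := hr.irr g1 g2 g3 p.p01 p.p02 p.p12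
          obtain ⟨G'', c1, c2, c3⟩ := NegOrb.exists_conj hP' hP a1 a2 a3 (Equiv.refl _)
          exact ⟨G'', cd i d w, wcr d i w, curve_iff.2 ⟨c1, c2, c3⟩, refl_nat hi p⟩
        · push Not at p12
          obtain ⟨rfl, rfl⟩ := Pool.Agent.TH442.NF.line_of hP g1 g2 g3 n21.symm p12
          rw [Nat.cast_one]
          refine hline (i 1) (i 2) (i 0) n21.symm (fun l => ?_) n10.symm n20.symm fun x => ?_
          · unfold ind
            congr 1
            exact propext (by tauto)
          · unfold del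
            ring
      · push Not at p02
        obtain ⟨rfl, rfl⟩ := Pool.Agent.TH442.NF.line_of hP g1 g2 g3 n20.symm p02
        rw [Nat.cast_one]
        refine hline (i 0) (i 2) (i 1) n20.symm (fun l => ?_) n10 n21.symm fun x => ?_
        · unfold ind
          congr 1
          exact propext (by tauto)
        · unfold del
          ring
    · push Not at p01
      obtain ⟨rfl, rfl⟩ := Pool.Agent.TH442.NF.line_of hP g1 g2 g3 n10.symm p01
      rw [Nat.cast_one]
      exact hline (i 0) (i 1) (i 2) n10.symm (fun l => rfl) n20 n21 fun x => rfl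
  · by_cases j0 : j = i 0
    · subst j0
      refine line_mem hP n21.symm ?_ fun l => ?_
      · rw [refl_fst]
        unfold del
        simp only
        rw [Pi.single_eq_same, Pi.single_eq_of_ne n10, Pi.single_eq_of_ne n20]
        norm_num
      · have hδ : del i ((0 : ℝ), (Pi.single (i 0) (-1 : ℝ) : Fin n → ℝ)) = 1 := by
          unfold del
          simp only
          rw [Pi.single_eq_same, Pi.single_eq_of_ne n10, Pi.single_eq_of_ne n20]
          norm_num
        rw [refl_snd, hδ]
        unfold ind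
        simp only
        by_cases l0 : l = i 0
        · subst l0
          rw [Pi.single_eq_same, if_pos (Or.inl rfl), if_neg (by
            rintro (h | h)
            · exact n10 h.symm
            · exact n20 h.symm)]
          norm_num
        · rw [Pi.single_eq_of_ne l0]
          by_cases l12 : l = i 1 ∨ l = i 2
          · rw [if_pos (Or.inr l12), if_pos l12]
            norm_num
          · rw [if_neg (by tauto), if_neg l12]
            norm_num
    · by_cases j1 : j = i 1
      · subst j1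
        refine line_mem hP n20.symm ?_ fun l => ?_
        · rw [refl_fst]
          unfold del
          simp only
          rw [Pi.single_eq_same, Pi.single_eq_of_ne n10.symm, Pi.single_eq_of_ne n21]
          norm_num
        · have hδ : del i ((0 : ℝ), (Pi.single (i 1) (-1 : ℝ) : Fin n → ℝ)) = 1 := by
            unfold del
            simp only
            rw [Pi.single_eq_same, Pi.single_eq_of_ne n10.symm, Pi.single_eq_of_ne n21]
            norm_num
          rw [refl_snd, hδ]
          unfold ind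
          simp only
          by_cases l0 : l = i 1
          · subst l0
            rw [Pi.single_eq_same, if_pos (Or.inr (Or.inl rfl)), if_neg (by
              rintro (h | h)
              · exact n10 h
              · exact n21 h.symm)]
            norm_num
          · rw [Pi.single_eq_of_ne l0]
            by_cases l12 : l = i 0 ∨ l = i 2
            · rw [if_pos (by tauto), if_pos l12]
              norm_num
            · rw [if_neg (by tauto), if_neg l12]
              norm_num
      · by_cases j2 : j = i 2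
        · subst j2
          refine line_mem hP n10.symm ?_ fun l => ?_
          · rw [refl_fst]
            unfold del
            simp only
            rw [Pi.single_eq_same, Pi.single_eq_of_ne n20.symm, Pi.single_eq_of_ne n21.symm]
            norm_num
          · have hδ : del i ((0 : ℝ), (Pi.single (i 2) (-1 : ℝ) : Fin n → ℝ)) = 1 := by
              unfold del
              simp only
              rw [Pi.single_eq_same, Pi.single_eq_of_ne n20.symm, Pi.single_eq_of_ne n21.symm]
              norm_num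
            rw [refl_snd, hδ]
            unfold ind
            simp only
            by_cases l0 : l = i 2
            · subst l0
              rw [Pi.single_eq_same, if_pos (Or.inr (Or.inr rfl)), if_neg (by
                rintro (h | h)
                · exact n20 h
                · exact n21 h)]
              norm_num
            · rw [Pi.single_eq_of_ne l0]
              by_cases l12 : l = i 0 ∨ l = i 1
              · rw [if_pos (by tauto), if_pos l12]
                norm_num
              · rw [if_neg (by tauto), if_neg l12]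
                norm_num
        · right
          have hδ : del i ((0 : ℝ), (Pi.single j (-1 : ℝ) : Fin n → ℝ)) = 0 := by
            unfold del
            simp only
            rw [Pi.single_eq_of_ne (Ne.symm j0), Pi.single_eq_of_ne (Ne.symm j1),
              Pi.single_eq_of_ne (Ne.symm j2)]
            norm_num
          refine ⟨j, Prod.ext ?_ ?_⟩
          · rw [refl_fst, hδ]
            norm_num
          · funext l
            rw [refl_snd, hδ]
            norm_num

theorem refl_add {n : ℕ} (i : Fin 3 → Fin n) (a b : ℝ × (Fin n → ℝ)) :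
    refl i (a + b) = refl i a + refl i b := by
  have h : del i (a + b) = del i a + del i b := by
    unfold del
    simp only [Prod.fst_add, Prod.snd_add, Pi.add_apply]
    ring
  refine Prod.ext ?_ ?_
  · rw [Prod.fst_add, refl_fst, refl_fst, refl_fst, h, Prod.fst_add]
    ring
  · funext l
    rw [Prod.snd_add, Pi.add_apply, refl_snd, refl_snd, refl_snd, h, Prod.snd_add, Pi.add_apply]
    ring

theorem refl_smul {n : ℕ} (i : Fin 3 → Fin n) (c : ℝ) (a : ℝ × (Fin n → ℝ)) :
    refl i (c • a) = c • refl i a := by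
  have h : del i (c • a) = c * del i a := by
    unfold del
    simp only [Prod.smul_fst, Prod.smul_snd, Pi.smul_apply, smul_eq_mul]
    ring
  refine Prod.ext ?_ ?_
  · rw [Prod.smul_fst, refl_fst, refl_fst, h, Prod.smul_fst, smul_eq_mul, smul_eq_mul]
    ring
  · funext l
    rw [Prod.smul_snd, Pi.smul_apply, refl_snd, refl_snd, h, Prod.smul_snd, Pi.smul_apply,
      smul_eq_mul, smul_eq_mul]
    ring

theorem refl_cont {n : ℕ} (i : Fin 3 → Fin n) : Continuous (refl i) := by
  unfold refl
  refine Continuous.prodMk (by fun_prop) (continuous_pi fun l => ?_)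
  split_ifs <;> fun_prop

theorem cone_refl {n : ℕ} {P : Fin n → Fin 2 → ℂ}
    (hP : AlgebraicIndependent ℚ (fun ij : Fin n × Fin 2 => P ij.1 ij.2))
    {i : Fin 3 → Fin n} (hi : Function.Injective i) {x : ℝ × (Fin n → ℝ)}
    (hx : x ∈ curvCone P) : refl i x ∈ curvCone P := by
  refine map_mem_closure (refl_cont i) hx ?_
  intro y hy
  have hy' : y ∈ Submodule.span {c : ℝ // 0 ≤ c} (curveClasses P) := hy
  show refl i y ∈ Submodule.span {c : ℝ // 0 ≤ c} (curveClasses P)
  induction hy' using Submodule.span_induction with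
  | mem y h => exact Submodule.subset_span (gen_refl hP hi h)
  | zero =>
    have : refl i (0 : ℝ × (Fin n → ℝ)) = 0 := by
      have := refl_smul i 0 (0 : ℝ × (Fin n → ℝ))
      rwa [zero_smul, zero_smul] at this
    rw [this]
    exact Submodule.zero_mem _
  | add y z h1 h2 ih1 ih2 =>
    rw [refl_add]
    exact Submodule.add_mem _ (ih1 h1) (ih2 h2)
  | smul c y h1 ih1 =>
    have : refl i (c • y) = c • refl i y := refl_smul i c.1 y
    rw [this]
    exact Submodule.smul_mem _ _ (ih1 h1)

theorem cone_refl_iff {n : ℕ} {P : Fin n → Fin 2 → ℂ}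
    (hP : AlgebraicIndependent ℚ (fun ij : Fin n × Fin 2 => P ij.1 ij.2))
    {i : Fin 3 → Fin n} (hi : Function.Injective i) {x : ℝ × (Fin n → ℝ)} :
    refl i x ∈ curvCone P ↔ x ∈ curvCone P := by
  refine ⟨fun h => ?_, cone_refl hP hi⟩
  have := cone_refl hP hi h
  rwa [refl_refl] at this

theorem nef_of_gen {n : ℕ} {P : Fin n → Fin 2 → ℂ} {D : ℝ × (Fin n → ℝ)}
    (h : ∀ x ∈ curveClasses P, 0 ≤ dot D x) : ∀ x ∈ curvCone P, 0 ≤ dot D x := by
  have hc : IsClosed {x : ℝ × (Fin n → ℝ) | 0 ≤ dot D x} := by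
    refine isClosed_le continuous_const ?_
    unfold dot
    fun_prop
  have hs : (Submodule.span {c : ℝ // 0 ≤ c} (curveClasses P) : Set (ℝ × (Fin n → ℝ))) ⊆
      {x : ℝ × (Fin n → ℝ) | 0 ≤ dot D x} := by
    intro y hy
    have hy' : y ∈ Submodule.span {c : ℝ // 0 ≤ c} (curveClasses P) := hy
    show 0 ≤ dot D y
    induction hy' using Submodule.span_induction with
    | mem y h1 => exact h y h1
    | zero =>
      unfold dot
      simp
    | add y z h1 h2 ih1 ih2 =>
      have e : dot D (y + z) = dot D y + dot D z := by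
        unfold dot
        simp only [Prod.fst_add, Prod.snd_add, Pi.add_apply, mul_add, Finset.sum_add_distrib]
        ring
      rw [e]
      exact add_nonneg (ih1 h1) (ih2 h2)
    | smul c y h1 ih1 =>
      have e : dot D (c • y) = c.1 * dot D y := by
        have : c • y = c.1 • y := rfl
        rw [this]
        unfold dot
        simp only [Prod.smul_fst, Prod.smul_snd, Pi.smul_apply, smul_eq_mul]
        rw [mul_sub, Finset.mul_sum]
        congr 1
        · ring
        · exact Finset.sum_congr rfl fun l _ => by ring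
      rw [e]
      exact mul_nonneg c.2 (ih1 h1)
  exact fun x hx => hc.closure_subset_iff.2 hs hx

theorem nef_carries {n : ℕ} {P : Fin n → Fin 2 → ℂ}
    (hP : AlgebraicIndependent ℚ (fun ij : Fin n × Fin 2 => P ij.1 ij.2))
    {D D' : ℝ × (Fin n → ℝ)} (h : Carries D D') (hD : ∀ x ∈ curvCone P, 0 ≤ dot D x) :
    (∀ x ∈ curvCone P, 0 ≤ dot D' x) ∧ dot D' D' = dot D D ∧ kap D' = kap D := by
  unfold Carries at h
  induction h with
  | refl => exact ⟨hD, rfl, rfl⟩
  | @tail b c _ h2 ih =>
    obtain ⟨i, hi, rfl⟩ := h2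
    refine ⟨fun x hx => ?_, by rw [dot_refl hi]; exact ih.2.1, by rw [kap_refl hi]; exact ih.2.2⟩
    have h3 := ih.1 _ (cone_refl hP hi hx)
    rw [← dot_refl hi, refl_refl] at h3
    exact h3

/-! ## Nagata's theorem -/

/-- Algebraic independence over `ℚ` gives algebraic independence over the prime field (as in the
starting library). -/
theorem algInd_bot {σ : Type} {x : σ → ℂ} (h : AlgebraicIndependent ℚ x) :
    AlgebraicIndependent (⊥ : Subfield ℂ) x := by
  rw [algebraicIndependent_iff] at h ⊢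
  intro p hp
  have hsurj : Function.Surjective (algebraMap ℚ (⊥ : Subfield ℂ)) := by
    rintro ⟨z, hz⟩
    rw [Subfield.bot_eq_of_charZero] at hz
    obtain ⟨y, hy⟩ := hz
    exact ⟨y, Subtype.ext hy⟩
  obtain ⟨p', rfl⟩ := MvPolynomial.map_surjective _ hsurj p
  rw [MvPolynomial.aeval_map_algebraMap] at hp
  rw [h p' hp, map_zero]

theorem nagata_curve {n : ℕ} {P : Fin n → Fin 2 → ℂ}
    (hP : AlgebraicIndependent ℚ (fun ij : Fin n × Fin 2 => P ij.1 ij.2)) {T : Finset (Fin n)}
    (hT : 9 ≤ T.card) {G : MvPolynomial (Fin 3) ℂ} {d : ℕ} {w : Fin n → ℕ}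
    (hG : SHDefs.Curve P G d w) : ∑ i ∈ T, (w i : ℝ) ≤ Real.sqrt T.card * d := by
  obtain ⟨e, he⟩ : ∃ e : Fin T.card ≃ T, e = T.equivFin.symm := ⟨_, rfl⟩
  obtain ⟨σ, hσ⟩ : ∃ σ : Fin 3 → Fin 3, σ = ![1, 2, 0] := ⟨_, rfl⟩
  have hσi : Function.Injective σ := by
    rw [hσ]
    decide
  have hP' : AlgebraicIndependent ℚ (fun ij : Fin T.card × Fin 2 => P (e ij.1) ij.2) :=
    hP.comp (fun ij : Fin T.card × Fin 2 => ((e ij.1 : Fin n), ij.2)) (by
      intro a b h
      simp only [Prod.mk.injEq] at h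
      exact Prod.ext (e.injective (Subtype.ext h.1)) h.2)
  have h1 := Pool.Agent.TH545.CF.sum_le (k := ℂ) hT (P := fun i => P (e i)) (algInd_bot hP')
    (fun i => w (e i)) d (rename σ G) (hG.homogeneous.rename_isHomogeneous) (by
      intro h
      exact hG.irreducible.ne_zero (rename_injective σ hσi (h.trans (map_zero _).symm)))
    (fun i => by
      have h2 := (hG.mult (e i)).1
      have h3 := Ideal.mem_map_of_mem (rename σ : MvPolynomial (Fin 3) ℂ →ₐ[ℂ] _) h2
      rw [Ideal.map_pow] at h3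
      have h4 : Ideal.map (rename σ : MvPolynomial (Fin 3) ℂ →ₐ[ℂ] MvPolynomial (Fin 3) ℂ)
          (SHDefs.pt (P (e i))) = Ideal.span {X 1 - C (P (e i) 0) * X 0,
            X 2 - C (P (e i) 1) * X 0} := by
        unfold SHDefs.pt
        rw [Ideal.map_span, Set.image_pair]
        simp only [map_sub, map_mul, rename_X, rename_C, hσ]
        rfl
      rw [h4] at h3
      exact h3)
  have h5 : ∑ i : Fin T.card, (w (e i) : ℝ) = ∑ i ∈ T, (w i : ℝ) := by
    rw [← Finset.sum_coe_sort T (fun i => (w i : ℝ))]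
    exact Equiv.sum_comp e fun i : T => (w i : ℝ)
  rw [h5] at h1
  exact h1

theorem nagata_nef {n : ℕ} {P : Fin n → Fin 2 → ℂ}
    (hP : AlgebraicIndependent ℚ (fun ij : Fin n × Fin 2 => P ij.1 ij.2)) {T : Finset (Fin n)}
    (hT : 9 ≤ T.card) : ∀ x ∈ curvCone P, 0 ≤ dot (nagata T) x := by
  classical
  refine nef_of_gen ?_
  rintro x (⟨G, d, w, hG, rfl⟩ | ⟨j, rfl⟩)
  · have h1 := nagata_curve hP hT hG
    unfold dot nagata
    simp only
    have h2 : ∑ l, (if l ∈ T then (1 : ℝ) else 0) * (w l : ℝ) = ∑ l ∈ T, (w l : ℝ) := by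
      rw [← Finset.sum_filter_add_sum_filter_not Finset.univ (fun l => l ∈ T)]
      rw [Finset.sum_congr rfl (g := fun l => (w l : ℝ)) (fun l hl => by
        rw [Finset.mem_filter] at hl
        rw [if_pos hl.2, one_mul])]
      rw [Finset.sum_eq_zero (s := Finset.univ.filter fun l => ¬ l ∈ T) (fun l hl => by
        rw [Finset.mem_filter] at hl
        rw [if_neg hl.2, zero_mul])]
      rw [add_zero]
      congr 1
      ext l
      simp
    rw [h2]
    linarith
  · unfold dot nagata
    simp only [mul_zero, zero_sub]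
    rw [Finset.sum_eq_single j]
    · rw [Pi.single_eq_same]
      split_ifs <;> norm_num
    · intro l _ hl
      rw [Pi.single_eq_of_ne hl, mul_zero]
    · intro h
      exact absurd (Finset.mem_univ j) h

theorem nagata_self {n : ℕ} (T : Finset (Fin n)) : dot (nagata T) (nagata T) = 0 := by
  unfold dot nagata
  simp only [mul_ite, mul_one, mul_zero, ite_self]
  rw [Real.mul_self_sqrt (Nat.cast_nonneg _)]
  have : ∑ l : Fin n, (if l ∈ T then (if l ∈ T then (1 : ℝ) else 0) else 0) = T.card := by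
    rw [Finset.card_eq_sum_ones, Nat.cast_sum, Finset.sum_ite_mem, Finset.univ_inter]
    exact Finset.sum_congr rfl fun l hl => by rw [if_pos hl, Nat.cast_one]
  rw [this]
  ring

theorem nagata_kap {n : ℕ} (T : Finset (Fin n)) : kap (nagata T) = Real.sqrt T.card *
    (Real.sqrt T.card - 3) := by
  unfold kap nagata
  simp only
  have : ∑ l : Fin n, (if l ∈ T then (1 : ℝ) else 0) = T.card := by
    rw [Finset.card_eq_sum_ones, Nat.cast_sum, Finset.sum_ite_mem, Finset.univ_inter]
    exact Finset.sum_congr rfl fun l hl => by rw [Nat.cast_one]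
  rw [this]
  have h := Real.mul_self_sqrt (Nat.cast_nonneg (α := ℝ) T.card)
  linarith

/-! ## The growth of the degrees -/

theorem exists_growth {n : ℕ} (hn : 10 ≤ n) {D : ℝ × (Fin n → ℝ)} (hD : 0 < D.1)
    (hDD : 0 ≤ dot D D) : ∃ i : Fin 3 → Fin n, Function.Injective i ∧
      26 / 25 * D.1 ≤ (refl i D).1 := by
  by_contra hcon
  push Not at hcon
  obtain ⟨y, hy⟩ : ∃ y : Fin 10 → ℝ, y = fun k => D.2 (Fin.castLE hn k) := ⟨_, rfl⟩
  have h1 : ∀ k : Fin 10, 24 / 25 * D.1 < y k + y (k + 1) + y (k + 2) := by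
    intro k
    have hinj : Function.Injective ![Fin.castLE hn k, Fin.castLE hn (k + 1),
        Fin.castLE hn (k + 2)] := by
      refine inj_cons (fun h => ?_) (fun h => ?_) (fun h => ?_)
      · have h' : ∀ k : Fin 10, k ≠ k + 1 := by decide
        exact h' k (Fin.castLE_injective hn h)
      · have h' : ∀ k : Fin 10, k ≠ k + 2 := by decide
        exact h' k (Fin.castLE_injective hn h)
      · have h' : ∀ k : Fin 10, k + 1 ≠ k + 2 := by decide
        exact h' k (Fin.castLE_injective hn h)
    have h2 := hcon _ hinj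
    rw [refl_fst] at h2
    unfold del at h2
    rw [hy]
    simp only
    have e0 : D.2 ((![Fin.castLE hn k, Fin.castLE hn (k + 1), Fin.castLE hn (k + 2)] :
      Fin 3 → Fin n) 0) = D.2 (Fin.castLE hn k) := rfl
    have e1 : D.2 ((![Fin.castLE hn k, Fin.castLE hn (k + 1), Fin.castLE hn (k + 2)] :
      Fin 3 → Fin n) 1) = D.2 (Fin.castLE hn (k + 1)) := rfl
    have e2 : D.2 ((![Fin.castLE hn k, Fin.castLE hn (k + 1), Fin.castLE hn (k + 2)] :
      Fin 3 → Fin n) 2) = D.2 (Fin.castLE hn (k + 2)) := rfl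
    rw [e0, e1, e2] at h2
    linarith
  have h3 : ∑ k : Fin 10, (24 / 25 * D.1) < ∑ k : Fin 10, (y k + y (k + 1) + y (k + 2)) :=
    Finset.sum_lt_sum_of_nonempty Finset.univ_nonempty fun k _ => h1 k
  rw [Finset.sum_add_distrib, Finset.sum_add_distrib] at h3
  have h4 : ∑ k : Fin 10, y (k + 1) = ∑ k, y k := Equiv.sum_comp (Equiv.addRight (1 : Fin 10)) y
  have h5 : ∑ k : Fin 10, y (k + 2) = ∑ k, y k := Equiv.sum_comp (Equiv.addRight (2 : Fin 10)) y
  rw [h4, h5, Finset.sum_const, Finset.card_univ, Fintype.card_fin, nsmul_eq_mul] at h3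
  have h6 : (∑ k : Fin 10, y k) ^ 2 ≤ 10 * ∑ k : Fin 10, y k ^ 2 := by
    have := sq_sum_le_card_mul_sum_sq (s := (Finset.univ : Finset (Fin 10))) (f := y)
    rw [Finset.card_univ, Fintype.card_fin] at this
    exact_mod_cast this
  have h7 : ∑ k : Fin 10, y k ^ 2 ≤ ∑ l, D.2 l ^ 2 := by
    rw [hy]
    have e1 : ∑ k : Fin 10, D.2 (Fin.castLE hn k) ^ 2 =
        ∑ l ∈ Finset.univ.map (Fin.castLEEmb hn), D.2 l ^ 2 := by
      rw [Finset.sum_map]
      rfl
    rw [e1]
    exact Finset.sum_le_univ_sum_of_nonneg fun l => sq_nonneg _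
  have h8 : ∑ l, D.2 l ^ 2 ≤ D.1 ^ 2 := by
    unfold dot at hDD
    have : ∑ l, D.2 l ^ 2 = ∑ l, D.2 l * D.2 l := Finset.sum_congr rfl fun l _ => sq _
    rw [this]
    nlinarith
  have h9 : 16 / 5 * D.1 < ∑ k : Fin 10, y k := by
    push_cast at h3
    linarith
  nlinarith

theorem exists_large {n : ℕ} (hn : 10 ≤ n) {D : ℝ × (Fin n → ℝ)} (hD : 0 < D.1)
    (hDD : 0 ≤ dot D D) (M : ℝ) : ∃ D', Carries D D' ∧ M ≤ D'.1 := by
  have key : ∀ k : ℕ, ∃ D', Carries D D' ∧ (26 / 25) ^ k * D.1 ≤ D'.1 ∧ 0 ≤ dot D' D' := by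
    intro k
    induction k with
    | zero => exact ⟨D, Relation.ReflTransGen.refl, by simp, hDD⟩
    | succ k ih =>
      obtain ⟨D1, h1, h2, h3⟩ := ih
      have h4 : 0 < D1.1 := lt_of_lt_of_le (by positivity) h2
      obtain ⟨i, hi, h5⟩ := exists_growth hn h4 h3
      refine ⟨refl i D1, h1.tail ⟨i, hi, rfl⟩, ?_, by rw [dot_refl hi]; exact h3⟩
      rw [pow_succ]
      linarith
  obtain ⟨k, hk⟩ := pow_unbounded_of_one_lt (M / D.1) (show (1 : ℝ) < 26 / 25 by norm_num)
  obtain ⟨D', h1, h2, -⟩ := key k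
  refine ⟨D', h1, ?_⟩
  rw [div_lt_iff₀ hD] at hk
  linarith

/-! ## Irrationality -/

/-- The coordinates of a class are integers. -/
def IsInt {n : ℕ} (a : ℝ × (Fin n → ℝ)) : Prop :=
  ∃ (z : ℤ) (y : Fin n → ℤ), a.1 = z ∧ ∀ l, a.2 l = y l

theorem isInt_refl {n : ℕ} (i : Fin 3 → Fin n) {a : ℝ × (Fin n → ℝ)} (h : IsInt a) :
    IsInt (refl i a) := by
  obtain ⟨z, y, h1, h2⟩ := h
  refine ⟨z + (z - y (i 0) - y (i 1) - y (i 2)),
    fun l => y l + if l = i 0 ∨ l = i 1 ∨ l = i 2 then z - y (i 0) - y (i 1) - y (i 2) else 0,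
    ?_, fun l => ?_⟩
  · rw [refl_fst]
    unfold del
    rw [h1, h2, h2, h2]
    push_cast
    ring
  · rw [refl_snd]
    unfold del ind
    rw [h1, h2, h2, h2, h2]
    by_cases hc : l = i 0 ∨ l = i 1 ∨ l = i 2
    · simp only [if_pos hc]
      push_cast
      ring
    · simp only [if_neg hc]
      push_cast
      ring

theorem orbit_int {n : ℕ} (T : Finset (Fin n)) {D : ℝ × (Fin n → ℝ)} (h : Carries (nagata T) D) :
    ∃ A B : ℝ × (Fin n → ℝ), IsInt A ∧ IsInt B ∧ D = Real.sqrt T.card • A + B ∧ dot A A = 1 ∧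
      dot A B = 0 ∧ dot B B = -(T.card : ℝ) := by
  classical
  unfold Carries at h
  induction h with
  | refl =>
    refine ⟨((1 : ℝ), fun _ => (0 : ℝ)), ((0 : ℝ), fun i => if i ∈ T then (1 : ℝ) else 0),
      ⟨1, fun _ => 0, by norm_num, fun l => by norm_num⟩,
      ⟨0, fun i => if i ∈ T then 1 else 0, by norm_num, fun l => by
        show (if l ∈ T then (1 : ℝ) else 0) = ((if l ∈ T then 1 else 0 : ℤ) : ℝ)
        split_ifs <;> norm_num⟩, ?_, ?_, ?_, ?_⟩
    · refine Prod.ext ?_ ?_
      · simp [nagata]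
      · funext l
        simp [nagata]
    · simp [dot]
    · simp [dot]
    · unfold dot
      have : ∑ l : Fin n, (if l ∈ T then (1 : ℝ) else 0) * (if l ∈ T then (1 : ℝ) else 0) =
          T.card := by
        rw [Finset.card_eq_sum_ones, Nat.cast_sum]
        have e : ∀ l : Fin n, (if l ∈ T then (1 : ℝ) else 0) * (if l ∈ T then (1 : ℝ) else 0) =
            if l ∈ T then (1 : ℝ) else 0 := fun l => by split_ifs <;> norm_num
        rw [Finset.sum_congr rfl fun l _ => e l, Finset.sum_ite_mem, Finset.univ_inter]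
        exact Finset.sum_congr rfl fun l hl => by rw [Nat.cast_one]
      simp only [mul_zero, zero_sub]
      rw [this]
  | @tail b c _ h2 ih =>
    obtain ⟨i, hi, rfl⟩ := h2
    obtain ⟨A, B, h3, h4, h5, h6, h7, h8⟩ := ih
    exact ⟨refl i A, refl i B, isInt_refl i h3, isInt_refl i h4,
      by rw [h5, refl_add, refl_smul], by rw [dot_refl hi]; exact h6,
      by rw [dot_refl hi]; exact h7, by rw [dot_refl hi]; exact h8⟩

theorem sqrt_lin {t : ℕ} (ht : ¬ IsSquare t) {a b : ℚ} (h : Real.sqrt t * a = b) : a = 0 ∧ b = 0 := by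
  have hirr : Irrational (Real.sqrt t) := irrational_sqrt_natCast_iff.2 ht
  by_cases ha : a = 0
  · subst ha
    refine ⟨rfl, ?_⟩
    rw [Rat.cast_zero, mul_zero] at h
    exact_mod_cast h.symm
  · exfalso
    refine hirr ⟨b / a, ?_⟩
    push_cast
    have ha' : (a : ℝ) ≠ 0 := by exact_mod_cast ha
    rw [div_eq_iff ha']
    exact h.symm

theorem dot_smul {n : ℕ} (x y : ℝ) (a b : ℝ × (Fin n → ℝ)) : dot (x • a) (y • b) =
    x * y * dot a b := by
  unfold dot
  simp only [Prod.smul_fst, Prod.smul_snd, Pi.smul_apply, smul_eq_mul]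
  rw [mul_sub, Finset.mul_sum]
  congr 1
  · ring
  · exact Finset.sum_congr rfl fun l _ => by ring

/-- The coordinates. -/
def co {n : ℕ} (k : Option (Fin n)) (a : ℝ × (Fin n → ℝ)) : ℝ := k.elim a.1 a.2

theorem co_ext {n : ℕ} {a b : ℝ × (Fin n → ℝ)} (h : ∀ k, co k a = co k b) : a = b :=
  Prod.ext (h none) (funext fun l => h (some l))

theorem co_int {n : ℕ} {a : ℝ × (Fin n → ℝ)} (h : IsInt a) (k : Option (Fin n)) :
    ∃ z : ℚ, co k a = z := by
  obtain ⟨z, y, h1, h2⟩ := h
  cases k with
  | none => exact ⟨z, by simpa [co] using h1⟩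
  | some l => exact ⟨y l, by simpa [co] using h2 l⟩

/-- The classes of the orbit are not proportional to rational classes. -/
theorem orbit_irrational {n : ℕ} (T : Finset (Fin n)) (hT : ¬ IsSquare T.card)
    {D : ℝ × (Fin n → ℝ)} (h : Carries (nagata T) D) (c : ℝ) (R : ℚ × (Fin n → ℚ)) :
    D ≠ c • (((R.1 : ℚ) : ℝ), fun l => ((R.2 l : ℚ) : ℝ)) := by
  intro hD
  obtain ⟨A, B, h1, h2, h3, h4, h5, h6⟩ := orbit_int T h
  obtain ⟨S, hS⟩ : ∃ S : ℝ × (Fin n → ℝ), S = (((R.1 : ℚ) : ℝ), fun l => ((R.2 l : ℚ) : ℝ)) :=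
    ⟨_, rfl⟩
  rw [← hS] at hD
  have hSq : ∀ k, ∃ z : ℚ, co k S = z := by
    intro k
    cases k with
    | none => exact ⟨R.1, by rw [hS]; rfl⟩
    | some l => exact ⟨R.2 l, by rw [hS]; rfl⟩
  have hco : ∀ k, Real.sqrt T.card * co k A + co k B = c * co k S := by
    intro k
    have h7 : co k D = Real.sqrt T.card * co k A + co k B := by
      rw [h3]
      cases k <;> simp [co]
    have h8 : co k D = c * co k S := by
      rw [hD]
      cases k <;> simp [co]
    rw [← h7, h8]
  have hT0 : (T.card : ℝ) ≠ 0 := by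
    intro h0
    apply hT
    have : T.card = 0 := by exact_mod_cast h0
    rw [this]
    exact ⟨0, rfl⟩
  -- some coordinate of `S` is not zero
  have hS0 : ∃ k, co k S ≠ 0 := by
    by_contra hcon
    push Not at hcon
    have h9 : ∀ k, co k A = 0 := by
      intro k
      obtain ⟨a, ha⟩ := co_int h1 k
      obtain ⟨b, hb⟩ := co_int h2 k
      have h10 := hco k
      rw [hcon k, ha, hb, mul_zero] at h10
      have h11 := sqrt_lin hT (a := a) (b := -b) (by
        push_cast
        linarith)
      rw [ha, h11.1, Rat.cast_zero]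
    have h12 : A = 0 := co_ext fun k => by
      rw [h9 k]
      cases k <;> rfl
    rw [h12] at h4
    simp [dot] at h4
  obtain ⟨k, hk⟩ := hS0
  have hpar : ∀ j, co j A * co k S = co k A * co j S ∧ co j B * co k S = co k B * co j S := by
    intro j
    obtain ⟨a, ha⟩ := co_int h1 j
    obtain ⟨b, hb⟩ := co_int h2 j
    obtain ⟨a', ha'⟩ := co_int h1 k
    obtain ⟨b', hb'⟩ := co_int h2 k
    obtain ⟨s, hs⟩ := hSq j
    obtain ⟨s', hs'⟩ := hSq k
    have e1 := hco j
    have e2 := hco k
    rw [ha, hb, hs] at e1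
    rw [ha', hb', hs'] at e2
    have h11 := sqrt_lin hT (a := a * s' - a' * s) (b := b' * s - b * s') (by
      push_cast
      linear_combination (s' : ℝ) * e1 - (s : ℝ) * e2)
    rw [ha, hb, ha', hb', hs, hs']
    constructor
    · have := h11.1
      have h12 : a * s' = a' * s := by linarith
      exact_mod_cast h12
    · have h12 : b * s' = b' * s := by linarith [h11.2]
      exact_mod_cast h12
  have hA : co k S • A = co k A • S := co_ext fun j => by
    have := (hpar j).1
    cases j <;> simp [co] at this ⊢ <;> linarith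
  have hB : co k S • B = co k B • S := co_ext fun j => by
    have := (hpar j).2
    cases j <;> simp [co] at this ⊢ <;> linarith
  have d1 : co k S * co k S * dot A A = co k A * co k A * dot S S := by
    rw [← dot_smul, ← dot_smul, hA]
  have d2 : co k S * co k S * dot A B = co k A * co k B * dot S S := by
    rw [← dot_smul, ← dot_smul, hA, hB]
  have d3 : co k S * co k S * dot B B = co k B * co k B * dot S S := by
    rw [← dot_smul, ← dot_smul, hB]
  rw [h4, mul_one] at d1
  rw [h5, mul_zero] at d2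
  rw [h6] at d3
  have hk2 : co k S * co k S ≠ 0 := mul_ne_zero hk hk
  have hSS : dot S S ≠ 0 := by
    intro h0
    rw [h0, mul_zero] at d1
    exact hk2 d1
  have hkA : co k A ≠ 0 := by
    intro h0
    rw [h0, zero_mul, zero_mul] at d1
    exact hk2 d1
  have hkB : co k B = 0 := by
    rcases mul_eq_zero.1 d2.symm with h0 | h0
    · rcases mul_eq_zero.1 h0 with h00 | h00
      · exact absurd h00 hkA
      · exact h00
    · exact absurd h0 hSS
  rw [hkB, zero_mul, zero_mul] at d3
  rcases mul_eq_zero.1 d3 with h0 | h0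
  · exact hk2 h0
  · exact hT0 (neg_eq_zero.1 h0)

end Pool.Agent.R355.ConeAct
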