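import Pool.Agent.R355.NegCount
import Pool.Agent.R355.ConeAct

set_option autoImplicit false

/-!
# Polyhedral approximation of the cone of curves
-/

namespace Pool.Agent.R355.ConePoly

open Pool.Agent.TH167 Pool.Agent.R355.ConeAct Filter Topology

/-- The sum of a cone and the cone over finitely many vectors. -/
def Ks {V : Type} [AddCommGroup V] [Module ℝ V] (Q : Set V) (N : Finset V) : Set V :=
  {x | ∃ y ∈ Q, ∃ a : V → ℝ, (∀ c, 0 ≤ a c) ∧ x = y + ∑ c ∈ N, a c • c}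

theorem closed_step {V : Type} [NormedAddCommGroup V] [NormedSpace ℝ V]
    {K : Set V} (hK : IsClosed K) (A : V →L[ℝ] ℝ) (hA : ∀ x ∈ K, 0 ≤ A x) {c : V} (hc : 0 < A c) :
    IsClosed {x | ∃ y ∈ K, ∃ t : ℝ, 0 ≤ t ∧ x = y + t • c} := by
  refine isClosed_of_closure_subset fun x hx => ?_
  obtain ⟨u, hu, hlim⟩ := mem_closure_iff_seq_limit.1 hx
  choose y hy t ht hut using hu
  have h1 : Tendsto (fun k => A (u k)) atTop (𝓝 (A x)) := (A.continuous.tendsto x).comp hlim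
  obtain ⟨B, hB⟩ := h1.bddAbove_range
  have h2 : ∀ k, t k ∈ Set.Icc 0 (B / A c) := by
    intro k
    refine ⟨ht k, ?_⟩
    rw [le_div_iff₀ hc]
    have h3 : A (u k) ≤ B := hB (Set.mem_range_self k)
    rw [hut k, map_add, map_smul, smul_eq_mul] at h3
    have h4 := hA _ (hy k)
    linarith
  obtain ⟨t0, ht0, φ, hφ, hlt⟩ := isCompact_Icc.tendsto_subseq h2
  have h5 : Tendsto (fun k => u (φ k) - t (φ k) • c) atTop (𝓝 (x - t0 • c)) :=
    (hlim.comp hφ.tendsto_atTop).sub (hlt.smul_const c)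
  have h6 : x - t0 • c ∈ K := by
    refine hK.mem_of_tendsto h5 (Eventually.of_forall fun k => ?_)
    have h7 : u (φ k) - t (φ k) • c = y (φ k) := by
      rw [hut (φ k), add_sub_cancel_right]
    rw [h7]
    exact hy (φ k)
  exact ⟨_, h6, t0, ht0.1, by rw [sub_add_cancel]⟩

theorem ks_insert {V : Type} [AddCommGroup V] [Module ℝ V] [DecidableEq V] (Q : Set V)
    (N : Finset V) {c : V} (hc : c ∉ N) :
    Ks Q (insert c N) = {x | ∃ y ∈ Ks Q N, ∃ t : ℝ, 0 ≤ t ∧ x = y + t • c} := by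
  ext x
  constructor
  · rintro ⟨y, hy, a, ha, rfl⟩
    refine ⟨y + ∑ c ∈ N, a c • c, ⟨y, hy, a, ha, rfl⟩, a c, ha c, ?_⟩
    rw [Finset.sum_insert hc, add_comm (a c • c), add_assoc]
  · rintro ⟨z, ⟨y, hy, a, ha, rfl⟩, t, ht, rfl⟩
    refine ⟨y, hy, Function.update a c t, fun b => ?_, ?_⟩
    · by_cases h : b = c
      · rw [h, Function.update_self]
        exact ht
      · rw [Function.update_of_ne h]
        exact ha b
    · rw [Finset.sum_insert hc, Function.update_self, add_assoc, add_comm (t • c)]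
      congr 2
      exact Finset.sum_congr rfl fun b hb => by
        rw [Function.update_of_ne (by
          rintro rfl
          exact hc hb)]

theorem ks_closed {V : Type} [NormedAddCommGroup V] [NormedSpace ℝ V] {Q : Set V}
    (hQ : IsClosed Q) (A : V →L[ℝ] ℝ) (hA : ∀ x ∈ Q, 0 ≤ A x) (N : Finset V)
    (hN : ∀ c ∈ N, 0 < A c) : IsClosed (Ks Q N) ∧ ∀ x ∈ Ks Q N, 0 ≤ A x := by
  classical
  induction N using Finset.induction_on with
  | empty =>
    have h : Ks Q ∅ = Q := by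
      ext x
      constructor
      · rintro ⟨y, hy, a, ha, rfl⟩
        simpa using hy
      · exact fun hx => ⟨x, hx, fun _ => 0, fun _ => le_rfl, by simp⟩
    rw [h]
    exact ⟨hQ, hA⟩
  | insert c N hc ih =>
    obtain ⟨h1, h2⟩ := ih fun b hb => hN b (Finset.mem_insert_of_mem hb)
    have h3 := hN c (Finset.mem_insert_self c N)
    rw [ks_insert Q N hc]
    refine ⟨closed_step h1 A h2 h3, ?_⟩
    rintro x ⟨y, hy, t, ht, rfl⟩
    rw [map_add, map_smul, smul_eq_mul]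
    exact add_nonneg (h2 y hy) (mul_nonneg ht h3.le)

/-- The enlarged positive cone. -/
def Qs (n : ℕ) (T : ℝ) : Set (ℝ × (Fin n → ℝ)) :=
  {y | 0 ≤ y.1 ∧ T ^ 2 * ∑ l, y.2 l ^ 2 ≤ (T ^ 2 + 1) * y.1 ^ 2}

theorem qs_iff {n : ℕ} {T : ℝ} (hT : 0 < T) (y : ℝ × (Fin n → ℝ)) :
    y ∈ Qs n T ↔ T * ‖(WithLp.toLp 2 y.2 : EuclideanSpace ℝ (Fin n))‖ ≤
      Real.sqrt (T ^ 2 + 1) * y.1 := by
  have h1 : ‖(WithLp.toLp 2 y.2 : EuclideanSpace ℝ (Fin n))‖ ^ 2 = ∑ l, y.2 l ^ 2 := by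
    rw [EuclideanSpace.norm_sq_eq]
    exact Finset.sum_congr rfl fun l _ => by
      rw [Real.norm_eq_abs, sq_abs]
  have h2 : Real.sqrt (T ^ 2 + 1) ^ 2 = T ^ 2 + 1 := Real.sq_sqrt (by positivity)
  have h3 : 0 < Real.sqrt (T ^ 2 + 1) := Real.sqrt_pos.2 (by positivity)
  have h4 := norm_nonneg (WithLp.toLp 2 y.2 : EuclideanSpace ℝ (Fin n))
  unfold Qs
  rw [Set.mem_ofPred_eq, ← h1]
  constructor
  · rintro ⟨h5, h6⟩
    refine abs_le_of_sq_le_sq' ?_ (by positivity) |>.2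
    rw [mul_pow, mul_pow, h2]
    exact h6
  · intro h5
    have h6 : 0 ≤ y.1 := by
      by_contra hcon
      push Not at hcon
      have h7 : Real.sqrt (T ^ 2 + 1) * y.1 < 0 := mul_neg_of_pos_of_neg h3 hcon
      have h8 : 0 ≤ T * ‖(WithLp.toLp 2 y.2 : EuclideanSpace ℝ (Fin n))‖ := by positivity
      linarith
    refine ⟨h6, ?_⟩
    rw [← h2, ← mul_pow, ← mul_pow]
    exact pow_le_pow_left₀ (by positivity) h5 2

theorem qs_add {n : ℕ} {T : ℝ} (hT : 0 < T) {x y : ℝ × (Fin n → ℝ)} (hx : x ∈ Qs n T)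
    (hy : y ∈ Qs n T) : x + y ∈ Qs n T := by
  rw [qs_iff hT] at *
  have h1 : (WithLp.toLp 2 (x + y).2 : EuclideanSpace ℝ (Fin n)) =
      WithLp.toLp 2 x.2 + WithLp.toLp 2 y.2 := rfl
  rw [h1]
  have h2 := norm_add_le (WithLp.toLp 2 x.2 : EuclideanSpace ℝ (Fin n)) (WithLp.toLp 2 y.2)
  have h3 := mul_le_mul_of_nonneg_left h2 hT.le
  have h4 : (x + y).1 = x.1 + y.1 := rfl
  rw [h4]
  linarith

theorem qs_smul {n : ℕ} {T : ℝ} {c : ℝ} (hc : 0 ≤ c) {y : ℝ × (Fin n → ℝ)}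
    (hy : y ∈ Qs n T) : c • y ∈ Qs n T := by
  obtain ⟨h1, h2⟩ := hy
  refine ⟨mul_nonneg hc h1, ?_⟩
  have h3 : ∑ l, (c • y).2 l ^ 2 = c ^ 2 * ∑ l, y.2 l ^ 2 := by
    rw [Finset.mul_sum]
    exact Finset.sum_congr rfl fun l _ => by
      show (c * y.2 l) ^ 2 = _
      ring
  have h4 : (c • y).1 = c * y.1 := rfl
  rw [h3, h4]
  have := mul_le_mul_of_nonneg_left h2 (sq_nonneg c)
  linarith

theorem qs_closed (n : ℕ) (T : ℝ) : IsClosed (Qs n T) := by
  have h1 : IsClosed {y : ℝ × (Fin n → ℝ) | 0 ≤ y.1} := isClosed_le continuous_const continuous_fst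
  have h2 : IsClosed {y : ℝ × (Fin n → ℝ) |
      T ^ 2 * ∑ l, y.2 l ^ 2 ≤ (T ^ 2 + 1) * y.1 ^ 2} := isClosed_le (by fun_prop) (by fun_prop)
  exact h1.inter h2

/-- An ample class. -/
noncomputable def amp (n : ℕ) : (ℝ × (Fin n → ℝ)) →L[ℝ] ℝ :=
  (2 * (n : ℝ) + 1) • ContinuousLinearMap.fst ℝ ℝ (Fin n → ℝ) -
    ∑ l, (ContinuousLinearMap.proj (R := ℝ) (φ := fun _ : Fin n => ℝ) l).comp
      (ContinuousLinearMap.snd ℝ ℝ (Fin n → ℝ))

theorem amp_apply (n : ℕ) (x : ℝ × (Fin n → ℝ)) :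
    amp n x = (2 * n + 1) * x.1 - ∑ l, x.2 l := by
  simp [amp]

theorem amp_qs {n : ℕ} {T : ℝ} (hT : 1 ≤ T) {x : ℝ × (Fin n → ℝ)} (hx : x ∈ Qs n T) :
    0 ≤ amp n x := by
  obtain ⟨h1, h2⟩ := hx
  rw [amp_apply]
  have h3 : (∑ l, x.2 l) ^ 2 ≤ n * ∑ l, x.2 l ^ 2 := by
    have := sq_sum_le_card_mul_sum_sq (s := (Finset.univ : Finset (Fin n))) (f := x.2)
    rw [Finset.card_univ, Fintype.card_fin] at this
    exact this
  have h4 : ∑ l, x.2 l ^ 2 ≤ 2 * x.1 ^ 2 := by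
    have h5 : T ^ 2 * ∑ l, x.2 l ^ 2 ≤ T ^ 2 * (2 * x.1 ^ 2) := by
      have h6 : 1 ≤ T ^ 2 := by nlinarith
      nlinarith [sq_nonneg x.1]
    exact le_of_mul_le_mul_left h5 (by positivity)
  have h5 : (∑ l, x.2 l) ^ 2 ≤ ((2 * n + 1) * x.1) ^ 2 := by
    have h6 : (n : ℝ) * ∑ l, x.2 l ^ 2 ≤ n * (2 * x.1 ^ 2) :=
      mul_le_mul_of_nonneg_left h4 (Nat.cast_nonneg n)
    have h7 : (0 : ℝ) ≤ n := Nat.cast_nonneg n
    nlinarith [sq_nonneg x.1, mul_nonneg h7 (sq_nonneg x.1),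
      mul_nonneg (mul_nonneg h7 h7) (sq_nonneg x.1)]
  have h6 := abs_le_of_sq_le_sq' h5 (by positivity) |>.2
  linarith

theorem approx {s : ℕ} {P : Fin (s + 1) → Fin 2 → ℂ} (hP : Function.Injective P) {T : ℝ}
    (hT : 1 ≤ T) : ∃ N : Finset (ℝ × (Fin (s + 1) → ℝ)),
      (N.card : ℝ) ≤ 2 * (s + 1) * (2 * T + 1) ^ s + (s + 1) ∧
      (∀ c ∈ N, c ∈ curveClasses P ∧ dot c c < 0) ∧
      ∀ x ∈ curvCone P, ∃ (y : ℝ × (Fin (s + 1) → ℝ)) (a : ℝ × (Fin (s + 1) → ℝ) → ℝ),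
        (∀ c, 0 ≤ a c) ∧ x = y + ∑ c ∈ N, a c • c ∧ 0 ≤ y.1 ∧
        T ^ 2 * ∑ l, y.2 l ^ 2 ≤ (T ^ 2 + 1) * y.1 ^ 2 := by
  classical
  have hT0 : 0 < T := by linarith
  obtain ⟨hfin, hcard⟩ := NegCount.count hP hT
  obtain ⟨N1, hN1⟩ : ∃ N1 : Finset (ℝ × (Fin (s + 1) → ℝ)), N1 =
    hfin.toFinset.image (fun c : ℕ × (Fin (s + 1) → ℕ) =>
      ((c.1 : ℝ), fun i => (c.2 i : ℝ))) := ⟨_, rfl⟩
  obtain ⟨N2, hN2⟩ : ∃ N2 : Finset (ℝ × (Fin (s + 1) → ℝ)), N2 =
    Finset.univ.image (fun i : Fin (s + 1) =>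
      ((0 : ℝ), (Pi.single i (-1 : ℝ) : Fin (s + 1) → ℝ))) := ⟨_, rfl⟩
  have hdot : ∀ (d : ℕ) (w : Fin (s + 1) → ℕ), dot ((d : ℝ), fun i => (w i : ℝ))
      ((d : ℝ), fun i => (w i : ℝ)) = (SHDefs.inter d w d w : ℝ) := by
    intro d w
    unfold dot SHDefs.inter
    push_cast
    rfl
  have hmem1 : ∀ c ∈ N1, ∃ (G : MvPolynomial (Fin 3) ℂ) (d : ℕ) (w : Fin (s + 1) → ℕ),
      SHDefs.Curve P G d w ∧ c = ((d : ℝ), fun i => (w i : ℝ)) ∧ SHDefs.inter d w d w < 0 := by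
    intro c hc
    rw [hN1, Finset.mem_image] at hc
    obtain ⟨⟨d, w⟩, h1, rfl⟩ := hc
    rw [Set.Finite.mem_toFinset] at h1
    obtain ⟨G, h2, h3, -⟩ := h1
    exact ⟨G, d, w, h2, rfl, h3⟩
  have hmem2 : ∀ c ∈ N2, ∃ i : Fin (s + 1),
      c = ((0 : ℝ), (Pi.single i (-1 : ℝ) : Fin (s + 1) → ℝ)) := by
    intro c hc
    rw [hN2, Finset.mem_image] at hc
    obtain ⟨i, -, rfl⟩ := hc
    exact ⟨i, rfl⟩
  have hamp : ∀ c ∈ N1 ∪ N2, 0 < amp (s + 1) c := by
    intro c hc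
    rw [amp_apply]
    rcases Finset.mem_union.1 hc with h | h
    · obtain ⟨G, d, w, h1, rfl, -⟩ := hmem1 c h
      obtain ⟨g1, g2, g3⟩ := SH.curve_iff.1 h1
      have h2 : ∀ l, w l ≤ d := fun l => SH.van_le g1.ne_zero g2 (g3 l).1
      have h3 : 1 ≤ d := by
        by_contra h0
        have hd : d = 0 := by omega
        subst hd
        have h4 : G.totalDegree = 0 := g2.totalDegree g1.ne_zero
        rw [MvPolynomial.totalDegree_eq_zero_iff_eq_C] at h4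
        refine g1.not_isUnit ?_
        rw [h4]
        refine (isUnit_iff_ne_zero.2 fun h5 => g1.ne_zero ?_).map MvPolynomial.C
        rw [h4, h5, map_zero]
      have h4 : ∑ l : Fin (s + 1), (w l : ℝ) ≤ ∑ _l : Fin (s + 1), (d : ℝ) :=
        Finset.sum_le_sum fun l _ => by exact_mod_cast h2 l
      rw [Finset.sum_const, Finset.card_univ, Fintype.card_fin, nsmul_eq_mul] at h4
      have h5 : (1 : ℝ) ≤ d := by exact_mod_cast h3
      have h6 : (0 : ℝ) ≤ ((s + 1 : ℕ) : ℝ) := Nat.cast_nonneg _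
      show 0 < (2 * ((s + 1 : ℕ) : ℝ) + 1) * (d : ℝ) - ∑ l : Fin (s + 1), (w l : ℝ)
      nlinarith
    · obtain ⟨i, rfl⟩ := hmem2 c h
      simp only [mul_zero, zero_sub]
      rw [Finset.sum_eq_single i]
      · rw [Pi.single_eq_same]
        norm_num
      · intro l _ hl
        rw [Pi.single_eq_of_ne hl]
      · intro h
        exact absurd (Finset.mem_univ i) h
  refine ⟨N1 ∪ N2, ?_, ?_, ?_⟩
  · have h1 : ((N1 ∪ N2).card : ℝ) ≤ N1.card + N2.card := by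
      exact_mod_cast Finset.card_union_le N1 N2
    have h2 : (N1.card : ℝ) ≤ (NegCount.NegClasses P T).ncard := by
      rw [hN1, Set.ncard_eq_toFinset_card _ hfin]
      exact_mod_cast Finset.card_image_le
    have h3 : (N2.card : ℝ) ≤ (s + 1 : ℝ) := by
      have : N2.card ≤ s + 1 := by
        rw [hN2]
        refine Finset.card_image_le.trans ?_
        rw [Finset.card_univ, Fintype.card_fin]
      exact_mod_cast this
    rw [add_comm 1 (2 * T)] at hcard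
    linarith
  · intro c hc
    rcases Finset.mem_union.1 hc with h | h
    · obtain ⟨G, d, w, h1, rfl, h2⟩ := hmem1 c h
      refine ⟨Or.inl ⟨G, d, w, h1, rfl⟩, ?_⟩
      rw [hdot]
      exact_mod_cast h2
    · obtain ⟨i, rfl⟩ := hmem2 c h
      refine ⟨Or.inr ⟨i, rfl⟩, ?_⟩
      unfold dot
      simp only [mul_zero, zero_sub]
      rw [Finset.sum_eq_single i]
      · rw [Pi.single_eq_same]
        norm_num
      · intro l _ hl
        rw [Pi.single_eq_of_ne hl, mul_zero]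
      · intro h
        exact absurd (Finset.mem_univ i) h
  · obtain ⟨hcl, -⟩ := ks_closed (qs_closed (s + 1) T) (amp (s + 1)) (fun x hx => amp_qs hT hx)
      (N1 ∪ N2) hamp
    have hgen : ∀ v ∈ curveClasses P, v ∈ Ks (Qs (s + 1) T) (N1 ∪ N2) := by
      intro v hv
      have hin : v ∈ N1 ∪ N2 → v ∈ Ks (Qs (s + 1) T) (N1 ∪ N2) := by
        intro h
        refine ⟨0, ⟨le_rfl, by simp⟩, fun c => if c = v then 1 else 0, fun c => ?_, ?_⟩
        · show 0 ≤ (if c = v then (1 : ℝ) else 0)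
          split_ifs <;> norm_num
        · rw [zero_add, Finset.sum_eq_single v]
          · show v = (if v = v then (1 : ℝ) else 0) • v
            rw [if_pos rfl, one_smul]
          · intro c _ hcv
            show (if c = v then (1 : ℝ) else 0) • c = 0
            rw [if_neg hcv, zero_smul]
          · intro h'
            exact absurd h h'
      rcases hv with ⟨G, d, w, hG, rfl⟩ | ⟨i, rfl⟩
      · by_cases hneg : SHDefs.inter d w d w < 0 ∧
          (d : ℝ) ^ 2 ≤ T ^ 2 * -(SHDefs.inter d w d w : ℝ)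
        · refine hin (Finset.mem_union_left _ ?_)
          rw [hN1, Finset.mem_image]
          refine ⟨(d, w), ?_, rfl⟩
          rw [Set.Finite.mem_toFinset]
          exact ⟨G, hG, hneg.1, hneg.2⟩
        · refine ⟨((d : ℝ), fun i => (w i : ℝ)), ?_, fun _ => 0, fun _ => le_rfl, by simp⟩
          refine ⟨Nat.cast_nonneg d, ?_⟩
          have h1 : ∑ l, (w l : ℝ) ^ 2 = (d : ℝ) ^ 2 - (SHDefs.inter d w d w : ℝ) := by
            unfold SHDefs.inter
            push_cast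
            have : ∑ l, (w l : ℝ) ^ 2 = ∑ l, (w l : ℝ) * w l :=
              Finset.sum_congr rfl fun l _ => sq _
            rw [this]
            ring
          show T ^ 2 * ∑ l, (w l : ℝ) ^ 2 ≤ (T ^ 2 + 1) * (d : ℝ) ^ 2
          rw [h1]
          by_cases h2 : SHDefs.inter d w d w < 0
          · have h3 : ¬ (d : ℝ) ^ 2 ≤ T ^ 2 * -(SHDefs.inter d w d w : ℝ) := fun h => hneg ⟨h2, h⟩
            push Not at h3
            linarith
          · push Not at h2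
            have h3 : (0 : ℝ) ≤ (SHDefs.inter d w d w : ℝ) := by exact_mod_cast h2
            have h4 : 0 ≤ T ^ 2 * (SHDefs.inter d w d w : ℝ) := by positivity
            nlinarith [sq_nonneg (d : ℝ)]
      · refine hin (Finset.mem_union_right _ ?_)
        rw [hN2, Finset.mem_image]
        exact ⟨i, Finset.mem_univ i, rfl⟩
    have hspan : (Submodule.span {c : ℝ // 0 ≤ c} (curveClasses P) :
        Set (ℝ × (Fin (s + 1) → ℝ))) ⊆ Ks (Qs (s + 1) T) (N1 ∪ N2) := by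
      intro x hx
      have hx' : x ∈ Submodule.span {c : ℝ // 0 ≤ c} (curveClasses P) := hx
      clear hx
      induction hx' using Submodule.span_induction with
      | mem y h => exact hgen y h
      | zero => exact ⟨0, ⟨le_rfl, by simp⟩, fun _ => 0, fun _ => le_rfl, by simp⟩
      | add x y _ _ ih1 ih2 =>
        obtain ⟨y1, h1, a1, h2, rfl⟩ := ih1
        obtain ⟨y2, h3, a2, h4, rfl⟩ := ih2
        refine ⟨y1 + y2, qs_add hT0 h1 h3, fun c => a1 c + a2 c,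
          fun c => add_nonneg (h2 c) (h4 c), ?_⟩
        simp only [add_smul, Finset.sum_add_distrib]
        abel
      | smul c x _ ih =>
        obtain ⟨y1, h1, a1, h2, rfl⟩ := ih
        refine ⟨c.1 • y1, qs_smul c.2 h1, fun b => c.1 * a1 b,
          fun b => mul_nonneg c.2 (h2 b), ?_⟩
        have : c • (y1 + ∑ b ∈ N1 ∪ N2, a1 b • b) = c.1 • (y1 + ∑ b ∈ N1 ∪ N2, a1 b • b) := rfl
        rw [this, smul_add, Finset.smul_sum]
        congr 1
        exact Finset.sum_congr rfl fun b _ => by rw [smul_smul]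
    intro x hx
    obtain ⟨y, h1, a, h2, h3⟩ := hcl.closure_subset_iff.2 hspan hx
    exact ⟨y, a, h2, h3, h1.1, h1.2⟩

end Pool.Agent.R355.ConePoly
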