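import Pool.Agent.R523.Crit
import Pool.Agent.TH456.TM.E

/-!
# The polynomials which are small at `(x, t)` have a common irreducible factor
-/

set_option autoImplicit false

namespace Pool.Agent.R355.EPi

open Polynomial
open Pool.Agent.TH456.TM Pool.Agent.R523.Gel

/-- the polynomials of degree at most `m` in the first variable (`X` of the coefficients) and at most `n` in the
second variable, with coefficients at most `H`, whose value at `(x, t)` is smaller than `ε` -/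
def Near (x t : ℂ) (m n : ℕ) (H ε : ℝ) : Set ℤ[X][X] :=
  {P | P.natDegree ≤ n ∧ (∀ j, (P.coeff j).natDegree ≤ m) ∧ (∀ j k, |(((P.coeff j).coeff k : ℤ) : ℝ)| ≤ H) ∧
    ‖aevalAeval x t P‖ < ε}

/-- a factor of a small polynomial is small -/
lemma exists_factor (x t : ℂ) (m n : ℕ) (H r : ℝ) (hr : 0 < r) (hr1 : r ≤ 1) (P : ℤ[X][X]) (hP : P ≠ 0)
    (hPN : P ∈ Near x t m n H (r ^ (n + m))) :
    ∃ Q : ℤ[X][X], Irreducible Q ∧ Q ∣ P ∧ Q.natDegree ≤ n ∧ xd Q ≤ m ∧ 0 < Q.natDegree + xd Q ∧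
      ‖evR x t Q‖ < r ∧
      ∀ j k, |(((Q.coeff j).coeff k : ℤ) : ℝ)| ≤
        2 ^ (m + (m + 1) * n) * (((m + (m + 1) * n + 1 : ℕ) : ℝ) * H) := by
  obtain ⟨hPn, hPm, hPH, hPv⟩ := hPN
  have hxd : xd P ≤ m := xd_le P m hPm
  by_contra hno
  push Not at hno
  have hfac : ∀ Q, Q ∣ P → Q.natDegree ≤ n ∧ xd Q ≤ m ∧ ∀ j k, |(((Q.coeff j).coeff k : ℤ) : ℝ)| ≤
        2 ^ (m + (m + 1) * n) * (((m + (m + 1) * n + 1 : ℕ) : ℝ) * H) := by
    rintro Q ⟨R, rfl⟩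
    have hQ0 : Q ≠ 0 := left_ne_zero_of_mul hP
    have hR0 : R ≠ 0 := right_ne_zero_of_mul hP
    have h1 := MM_le m n _ hxd hPn H hPH
    rw [natDegree_mul hQ0 hR0] at hPn
    rw [xd_mul _ _ hQ0 hR0] at hxd
    refine ⟨by omega, by omega, fun j k => ?_⟩
    refine (coeff_le_MM m n Q (by omega) (by omega) j k).trans ?_
    rw [MM_mul] at h1
    have h2 := one_le_MM m R hR0 (by omega)
    have h3 := MM_nonneg m Q
    have h4 : MM m Q ≤ MM m Q * MM m R := by nlinarith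
    have h5 := h4.trans h1
    gcongr
  have h1 := Ph_ge (evR x t) m 0 le_rfl r hr hr1 P hP (fun Q hQ hQP hpos => by
    obtain ⟨h2, h3, h4⟩ := hfac Q hQP
    unfold Ph
    rw [Real.rpow_zero, mul_one]
    by_contra hlt
    push Not at hlt
    obtain ⟨j, k, hjk⟩ := hno Q hQ hQP h2 h3 hpos hlt
    exact absurd (h4 j k) (not_le.2 hjk))
  unfold Ph at h1
  rw [Real.rpow_zero, mul_one, evR_apply, vl_eq] at h1
  have h2 : r ^ (n + m) ≤ r ^ (P.natDegree + xd P) := pow_le_pow_of_le_one hr.le hr1 (by omega)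
  linarith

lemma xd_neg (Q : ℤ[X][X]) : xd (-Q) = xd Q := by
  unfold xd
  rw [map_neg, natDegree_neg]

/-- a normalised factor -/
lemma exists_normal (x t : ℂ) (D : ℕ) (Q : ℤ[X][X]) (hQ : Irreducible Q) (h1 : Q.natDegree ≤ D) (h2 : xd Q ≤ D) :
    ∃ Q' ∈ IR D, (∀ P, Q' ∣ P ↔ Q ∣ P) ∧ Q'.natDegree = Q.natDegree ∧ xd Q' = xd Q ∧
      ‖vl x t Q'‖ = ‖vl x t Q‖ ∧ ∀ j k, |(((Q'.coeff j).coeff k : ℤ) : ℝ)| = |(((Q.coeff j).coeff k : ℤ) : ℝ)| := by
  have hne : Q.leadingCoeff.leadingCoeff ≠ 0 := by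
    rw [Ne, leadingCoeff_eq_zero, leadingCoeff_eq_zero]
    exact hQ.ne_zero
  rcases lt_or_gt_of_ne hne with h | h
  · refine ⟨-Q, ⟨(Associated.refl Q).neg_right.irreducible hQ, by rw [natDegree_neg]; exact h1, fun j => ?_, ?_⟩, fun P => neg_dvd, natDegree_neg _,
      xd_neg Q, ?_, fun j k => ?_⟩
    · rw [coeff_neg, natDegree_neg]
      exact (coeff_le_xd Q j).trans h2
    · rw [leadingCoeff_neg, leadingCoeff_neg]
      omega
    · rw [← evR_apply, ← evR_apply, map_neg, norm_neg]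
    · rw [coeff_neg, coeff_neg, Int.cast_neg, abs_neg]
  · exact ⟨Q, ⟨hQ, h1, fun j => (coeff_le_xd Q j).trans h2, h⟩, fun P => Iff.rfl, rfl, rfl, rfl, fun j k => rfl⟩

lemma hgt_le (Q : ℤ[X][X]) (B : ℝ) (hB : 0 ≤ B) (h : ∀ j k, |(((Q.coeff j).coeff k : ℤ) : ℝ)| ≤ B) :
    (hgt Q : ℝ) ≤ B := by
  have h1 : hgt Q ≤ ⌊B⌋₊ := by
    unfold hgt
    refine Finset.sup_le fun j _ => Finset.sup_le fun k _ => ?_
    rw [Nat.le_floor_iff hB]
    refine le_trans (le_of_eq ?_) (h j k)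
    rw [← Int.cast_abs, Int.abs_eq_natAbs, Int.cast_natCast]
  exact (Nat.cast_le.2 h1).trans (Nat.floor_le hB)

/-- polynomials in the first variable only -/
lemma small_const (x : ℂ) (hx : MeasT x) (m : ℕ) : ∃ κ c : ℝ, 0 ≤ κ ∧ 0 < c ∧ ∀ (t : ℂ) (Q : ℤ[X][X]),
    Q ≠ 0 → Q.natDegree = 0 → (∀ j, (Q.coeff j).natDegree ≤ m) → ∀ B : ℝ, 1 ≤ B →
      (∀ j k, |(((Q.coeff j).coeff k : ℤ) : ℝ)| ≤ B) → c ≤ B ^ κ * ‖vl x t Q‖ := by
  obtain ⟨κ, c, hκ, hc, h⟩ := hx m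
  refine ⟨κ, c, hκ, hc, fun t Q hQ hQ0 hQm B hB hQB => ?_⟩
  obtain ⟨q, hq⟩ : ∃ q : ℤ[X], Q = C q := ⟨Q.coeff 0, eq_C_of_natDegree_eq_zero hQ0⟩
  have hq0 : q ≠ 0 := by
    rintro rfl
    exact hQ (by rw [hq, C_0])
  have h0 : Q.coeff 0 = q := by rw [hq, coeff_C_zero]
  have h1 := h q hq0 (by rw [← h0]; exact hQm 0) B hB (fun k => by rw [← h0]; exact hQB 0 k)
  have h2 : vl x t Q = aeval x q := by
    rw [← evR_apply, hq]
    unfold evR σx
    simp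
  rw [h2]
  exact h1

/-- the threshold: all powers are compared with the largest exponent -/
lemma threshold (κ κ' c c' B X : ℝ) (hκ : κ ≤ κ') (hc : 0 < c) (hcc : c' ≤ c) (_hc' : 0 < c') (hB : 1 ≤ B)
    (hX : 1 ≤ X) : c' * (B * X) ^ (-κ') ≤ c * (B * X) ^ (-κ) := by
  have h1 : 1 ≤ B * X := by nlinarith
  have h2 : (B * X) ^ (-κ') ≤ (B * X) ^ (-κ) := Real.rpow_le_rpow_of_exponent_le h1 (by linarith)
  have h3 : 0 ≤ (B * X) ^ (-κ') := by positivity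
  calc c' * (B * X) ^ (-κ') ≤ c * (B * X) ^ (-κ') := by gcongr
    _ ≤ _ := by gcongr

/-- **Common factor**, general form. The number `t` is arbitrary. The property `Good` holds for all irreducible
polynomials with very small value at `(x, t)`. -/
theorem common_gen (x : ℂ) (hx : MeasT x) (m n : ℕ) (Good : ℤ[X][X] → Prop) (κ₃ : ℝ) :
    ∃ κ : ℝ, 0 < κ ∧ ∀ T c₃ : ℝ, 0 < c₃ → ∃ c : ℝ, 0 < c ∧ ∀ t : ℂ, ‖t‖ ≤ T →
      (∀ Q : ℤ[X][X], Irreducible Q → Q.natDegree ≤ n → xd Q ≤ m → ∀ B : ℝ, 1 ≤ B →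
        (∀ j k, |(((Q.coeff j).coeff k : ℤ) : ℝ)| ≤ B) → ¬ Good Q → c₃ ≤ B ^ κ₃ * ‖vl x t Q‖) →
      (∃ F₀ : ℤ[X][X], Irreducible F₀ ∧ 0 < F₀.natDegree ∧ Good F₀) →
      ∀ X : ℝ, 1 ≤ X → ∃ F : ℤ[X][X], Irreducible F ∧ 0 < F.natDegree ∧ Good F ∧
        ∀ P ∈ Near x t m n X (c * X ^ (-κ)), F ∣ P := by
  classical
  obtain ⟨κ₁, hκ₁, hcore⟩ := core x hx (m + n + 1) (by omega)
  obtain ⟨κ₂, c₂, hκ₂, hc₂, hconst⟩ := small_const x hx m
  obtain ⟨κ', hκ'⟩ : ∃ κ' : ℝ, κ' = max (max κ₁ κ₂) κ₃ := ⟨_, rfl⟩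
  have hκ1 : κ₁ ≤ κ' := by rw [hκ']; exact (le_max_left _ _).trans (le_max_left _ _)
  have hκ2 : κ₂ ≤ κ' := by rw [hκ']; exact (le_max_right _ _).trans (le_max_left _ _)
  have hκ3 : κ₃ ≤ κ' := by rw [hκ']; exact le_max_right _ _
  have hκ'0 : 0 < κ' := by linarith
  refine ⟨κ' * (n + m + 1), by positivity, fun T c₃ hc₃ => ?_⟩
  obtain ⟨C₁, hC₁, hcore⟩ := hcore T
  obtain ⟨c', hc'⟩ : ∃ c' : ℝ, c' = min 1 (min C₁ (min c₂ c₃)) := ⟨_, rfl⟩
  have hc'0 : 0 < c' := by rw [hc']; positivity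
  have hc'1 : c' ≤ 1 := by rw [hc']; exact min_le_left _ _
  have hc'2 : c' ≤ C₁ := by rw [hc']; exact (min_le_right _ _).trans (min_le_left _ _)
  have hc'3 : c' ≤ c₂ := by
    rw [hc']; exact (min_le_right _ _).trans ((min_le_right _ _).trans (min_le_left _ _))
  have hc'4 : c' ≤ c₃ := by
    rw [hc']; exact (min_le_right _ _).trans ((min_le_right _ _).trans (min_le_right _ _))
  obtain ⟨B, hB⟩ : ∃ B : ℝ, B = 2 ^ (m + (m + 1) * n) * ((m + (m + 1) * n + 1 : ℕ) : ℝ) := ⟨_, rfl⟩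
  have hB1 : 1 ≤ B := by
    rw [hB]
    have h1 : (1 : ℝ) ≤ 2 ^ (m + (m + 1) * n) := one_le_pow₀ (by norm_num)
    have h2 : (1 : ℝ) ≤ ((m + (m + 1) * n + 1 : ℕ) : ℝ) := by
      push_cast
      have : (0 : ℝ) ≤ m + (m + 1) * n := by positivity
      linarith
    nlinarith
  have hB0 : 0 < B := by linarith
  refine ⟨(c' * B ^ (-κ')) ^ (n + m + 1), by positivity, fun t ht hgood hF₀ X hX => ?_⟩
  have hX0 : 0 < X := by linarith
  obtain ⟨r, hr⟩ : ∃ r : ℝ, r = c' * (B * X) ^ (-κ') := ⟨_, rfl⟩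
  have hBX : 1 ≤ B * X := by nlinarith
  have hr0 : 0 < r := by rw [hr]; positivity
  have hr1 : r ≤ 1 := by
    rw [hr]
    have h1 : (B * X) ^ (-κ') ≤ 1 := Real.rpow_le_one_of_one_le_of_nonpos hBX (by linarith)
    have h2 : 0 ≤ (B * X) ^ (-κ') := by positivity
    nlinarith
  have hthr : (c' * B ^ (-κ')) ^ (n + m + 1) * X ^ (-(κ' * (n + m + 1))) ≤ r ^ (n + m) := by
    have h1 : (c' * B ^ (-κ')) ^ (n + m + 1) * X ^ (-(κ' * (n + m + 1))) = r ^ (n + m + 1) := by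
      rw [hr, Real.mul_rpow hB0.le hX0.le]
      have h2 : X ^ (-(κ' * ((n : ℝ) + m + 1))) = (X ^ (-κ')) ^ (n + m + 1) := by
        rw [← Real.rpow_natCast, ← Real.rpow_mul hX0.le]
        congr 1
        push_cast
        ring
      rw [h2, ← mul_pow]
      congr 1
      ring
    rw [h1]
    exact pow_le_pow_of_le_one hr0.le hr1 (by omega)
  have hcancel : ∀ κ c : ℝ, (B * X) ^ κ * (c * (B * X) ^ (-κ)) = c := by
    intro κ c
    rw [mul_left_comm, ← Real.rpow_add (by linarith), add_neg_cancel, Real.rpow_zero, mul_one]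
  -- small factors
  have hsf : ∀ P ∈ Near x t m n X ((c' * B ^ (-κ')) ^ (n + m + 1) * X ^ (-(κ' * (n + m + 1)))), P ≠ 0 →
      ∃ Q ∈ IR (m + n + 1), Q ∣ P ∧ 0 < Q.natDegree ∧ Good Q ∧ ‖vl x t Q‖ < r ∧ (hgt Q : ℝ) ≤ B * X := by
    intro P hP hP0
    obtain ⟨Q, hQ, hQP, hQn, hQm, hpos, hQr, hQB⟩ := exists_factor x t m n X r hr0 hr1 P hP0
      ⟨hP.1, hP.2.1, hP.2.2.1, lt_of_lt_of_le hP.2.2.2 hthr⟩
    obtain ⟨Q', hQ', hd, hnd, hxd, hv, hco⟩ := exists_normal x t (m + n + 1) Q hQ (by omega) (by omega)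
    have hco' : ∀ j k, |(((Q'.coeff j).coeff k : ℤ) : ℝ)| ≤ B * X := by
      intro j k
      rw [hco]
      refine (hQB j k).trans (le_of_eq ?_)
      rw [hB]
      ring
    rw [evR_apply, ← hv] at hQr
    have hBp : ∀ κ : ℝ, 0 < (B * X) ^ κ := fun κ => by positivity
    refine ⟨Q', hQ', (hd P).2 hQP, ?_, ?_, hQr, hgt_le Q' (B * X) (by linarith) hco'⟩
    · by_contra h0
      have h1 := hconst t Q' hQ'.1.ne_zero (by omega)
        (fun j => (coeff_le_xd Q' j).trans (by rw [hxd]; exact hQm)) (B * X) hBX hco'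
      have h2 := threshold κ₂ κ' c₂ c' B X hκ2 hc₂ hc'3 hc'0 hB1 hX
      have h3 : (B * X) ^ κ₂ * ‖vl x t Q'‖ < (B * X) ^ κ₂ * (c₂ * (B * X) ^ (-κ₂)) := by
        rw [hr] at hQr
        have := hBp κ₂
        gcongr
        linarith
      rw [hcancel] at h3
      linarith
    · by_contra h0
      have h1 := hgood Q' hQ'.1 (by omega) (by omega) (B * X) hBX hco' h0
      have h2 := threshold κ₃ κ' c₃ c' B X hκ3 hc₃ hc'4 hc'0 hB1 hX
      have h3 : (B * X) ^ κ₃ * ‖vl x t Q'‖ < (B * X) ^ κ₃ * (c₃ * (B * X) ^ (-κ₃)) := by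
        rw [hr] at hQr
        have := hBp κ₃
        gcongr
        linarith
      rw [hcancel] at h3
      linarith
  by_cases hex : ∃ P ∈ Near x t m n X ((c' * B ^ (-κ')) ^ (n + m + 1) * X ^ (-(κ' * (n + m + 1)))), P ≠ 0
  · obtain ⟨P, hP, hP0⟩ := hex
    obtain ⟨F, hF, hFP, hF0, hFG, hFr, hFH⟩ := hsf P hP hP0
    refine ⟨F, hF.1, hF0, hFG, fun P' hP' => ?_⟩
    by_cases hP'0 : P' = 0
    · rw [hP'0]; exact dvd_zero _
    obtain ⟨Q, hQ, hQP, hQ0, hQG, hQr, hQH⟩ := hsf P' hP' hP'0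
    by_cases hne : F = Q
    · rw [hne]; exact hQP
    exfalso
    have h1 := hcore t ht F hF Q hQ hne (B * X) hFH hQH
    have h2 := threshold κ₁ κ' C₁ c' B X hκ1 hC₁ hc'2 hc'0 hB1 hX
    rw [← hr] at h2
    have h3 := max_lt hFr hQr
    linarith
  · push Not at hex
    obtain ⟨F₀, hF₀, hF₀1, hF₀2⟩ := hF₀
    refine ⟨F₀, hF₀, hF₀1, hF₀2, fun P hP => ?_⟩
    rw [hex P hP]
    exact dvd_zero _

/-- **Common factor**, for arbitrary `t`. -/
theorem common (x : ℂ) (hx : MeasT x) (m n : ℕ) : ∃ κ : ℝ, 0 < κ ∧ ∀ T : ℝ, ∃ c : ℝ, 0 < c ∧ ∀ t : ℂ, ‖t‖ ≤ T →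
    ∀ X : ℝ, 1 ≤ X → ∃ F : ℤ[X][X], Irreducible F ∧ 0 < F.natDegree ∧
      ∀ P ∈ Near x t m n X (c * X ^ (-κ)), F ∣ P := by
  obtain ⟨κ, hκ, h⟩ := common_gen x hx m n (fun _ => True) 0
  refine ⟨κ, hκ, fun T => ?_⟩
  obtain ⟨c, hc, h⟩ := h T 1 one_pos
  refine ⟨c, hc, fun t ht X hX => ?_⟩
  obtain ⟨F, h1, h2, -, h3⟩ := h t ht (fun Q _ _ _ B _ _ hno => absurd trivial hno)
    ⟨Polynomial.X, Polynomial.irreducible_X, by rw [natDegree_X]; exact one_pos, trivial⟩ X hX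
  exact ⟨F, h1, h2, h3⟩

/-- **Common factor**, for two numbers with transcendence measures. -/
theorem common2 (x y : ℂ) (hx : MeasT x) (hy : MeasT y) (m n : ℕ) : ∃ κ c : ℝ, 0 < κ ∧ 0 < c ∧
    ∀ X : ℝ, 1 ≤ X → ∃ F : ℤ[X][X], Irreducible F ∧ 0 < F.natDegree ∧ 0 < xd F ∧
      ∀ P ∈ Near x y m n X (c * X ^ (-κ)), F ∣ P := by
  obtain ⟨κ₃, c₃, hκ₃, hc₃, h3⟩ := small_const y hy n
  obtain ⟨κ, hκ, h⟩ := common_gen x hx m n (fun Q => 0 < xd Q) κ₃
  obtain ⟨c, hc, h⟩ := h ‖y‖ c₃ hc₃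
  refine ⟨κ, c, hκ, hc, fun X hX => ?_⟩
  refine h y le_rfl ?_ ?_ X hX
  · intro Q hQ hQn hQm B hB hQB hno
    have h1 := h3 x (Bivariate.swap Q) ((map_ne_zero_iff _ Bivariate.swap.injective).2 hQ.ne_zero)
      (by
        have : xd Q = 0 := by omega
        exact this)
      (fun j => by
        refine natDegree_le_iff_coeff_eq_zero.2 fun i hi => ?_
        rw [coeff_swap, coeff_eq_zero_of_natDegree_lt (lt_of_le_of_lt hQn hi), coeff_zero])
      B hB (fun j k => by rw [coeff_swap]; exact hQB k j)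
    rw [vl_swap] at h1
    exact h1
  · refine ⟨Polynomial.X - C Polynomial.X, irreducible_X_sub_C _, by rw [natDegree_X_sub_C]; exact one_pos, ?_⟩
    have h1 := coeff_le_xd (Polynomial.X - C Polynomial.X : ℤ[X][X]) 0
    rw [coeff_sub, coeff_X_zero, coeff_C_zero, zero_sub, natDegree_neg, natDegree_X] at h1
    exact h1

/-- **Dimension.** Multiples of one polynomial of positive degrees. -/
lemma dependent (x t : ℂ) (m n a b : ℕ) (H ε : ℝ) (F : ℤ[X][X]) (hF0 : F ≠ 0)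
    (hFn : b ≤ F.natDegree) (hFm : a ≤ xd F) (hF : ∀ P ∈ Near x t m n H ε, F ∣ P)
    (P : Fin ((m + 1 - a) * (n + 1 - b) + 1) → ℤ[X][X]) (hP : LinearIndependent ℤ P) :
    ∃ k, P k ∉ Near x t m n H ε := by
  by_contra hno
  push Not at hno
  choose G hG using fun k => hF (P k) (hno k)
  have hPne : ∀ k, P k ≠ 0 := fun k => hP.ne_zero k
  have hGne : ∀ k, G k ≠ 0 := fun k h0 => hPne k (by rw [hG k, h0, mul_zero])
  have hdn : ∀ k, (G k).natDegree ≤ n - b := by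
    intro k
    have h1 := (hno k).1
    rw [hG k, natDegree_mul hF0 (hGne k)] at h1
    omega
  have hdm : ∀ k, xd (G k) ≤ m - a := by
    intro k
    have h1 := xd_le _ _ (hno k).2.1
    rw [hG k, xd_mul _ _ hF0 (hGne k)] at h1
    omega
  have hb' : b ≤ n := by
    have h1 := (hno 0).1
    rw [hG 0, natDegree_mul hF0 (hGne 0)] at h1
    omega
  have ha' : a ≤ m := by
    have h1 := xd_le _ _ (hno 0).2.1
    rw [hG 0, xd_mul _ _ hF0 (hGne 0)] at h1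
    omega
  -- the coefficients of `G`
  obtain ⟨A, hA⟩ : ∃ A : Fin ((m + 1 - a) * (n + 1 - b) + 1) → (Fin (m + 1 - a) × Fin (n + 1 - b) → ℤ),
    A = fun k ij => ((G k).coeff ij.2).coeff ij.1 := ⟨_, rfl⟩
  have hAl : LinearIndependent ℤ A := by
    rw [Fintype.linearIndependent_iff] at hP ⊢
    intro g hg
    refine hP g ?_
    have h0 : ∑ k, g k • G k = 0 := by
      ext j i
      rw [finsetSum_coeff, finsetSum_coeff, coeff_zero, coeff_zero]
      by_cases hij : i < m + 1 - a ∧ j < n + 1 - b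
      · have h1 := congrFun hg (⟨i, hij.1⟩, ⟨j, hij.2⟩)
        rw [Finset.sum_apply] at h1
        simp only [Pi.smul_apply, hA, Pi.zero_apply] at h1
        rw [← h1]
        exact Finset.sum_congr rfl fun k _ => by simp
      · refine Finset.sum_eq_zero fun k _ => ?_
        have h2 : ((G k).coeff j).coeff i = 0 := by
          rw [not_and_or, not_lt, not_lt] at hij
          rcases hij with hi | hj
          · refine coeff_eq_zero_of_natDegree_lt (lt_of_le_of_lt ((coeff_le_xd _ _).trans (hdm k)) ?_)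
            omega
          · rw [coeff_eq_zero_of_natDegree_lt (lt_of_le_of_lt (hdn k) (by omega)), coeff_zero]
        rw [coeff_smul, coeff_smul, h2, smul_zero]
    calc ∑ k, g k • P k = F * ∑ k, g k • G k := by
          rw [Finset.mul_sum]
          exact Finset.sum_congr rfl fun k _ => by rw [hG k, mul_smul_comm]
      _ = 0 := by rw [h0, mul_zero]
  have h1 := hAl.fintype_card_le_finrank
  rw [Module.finrank_fintype_fun_eq_card, Fintype.card_prod, Fintype.card_fin, Fintype.card_fin,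
    Fintype.card_fin] at h1
  omega

/-- **Few factors.** -/
lemma few {α β : Type*} (ht val : α → ℝ) (good : β → α → Prop) (c κ ρ w : ℝ) (hc : 0 < c) (hκ : 0 ≤ κ)
    (hρ : 1 < ρ) (hw : ρ * κ < w)
    (h : ∀ X : ℝ, 1 ≤ X → ∃ F : β, ∀ a, ht a ≤ X → val a < c * X ^ (-κ) → good F a) :
    ∃ H₀ : ℝ, ∀ X : ℝ, 3 ≤ X → ∃ (N : ℕ) (F : Fin N → β), (N : ℝ) ≤ Real.log (Real.log X) / Real.log ρ + 1 ∧
      ∀ a, H₀ ≤ ht a → ht a ≤ X → val a ≤ ht a ^ (-w) → ∃ i, good (F i) a := by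
  classical
  have hlρ : 0 < Real.log ρ := Real.log_pos hρ
  have hρ0 : 0 < ρ := by linarith
  obtain ⟨H₀, hH3, hH0⟩ : ∃ H₀ : ℝ, 3 ≤ H₀ ∧ ∀ H : ℝ, H₀ ≤ H → 1 / c < H ^ (w - ρ * κ) := by
    have h1 := tendsto_rpow_atTop (show 0 < w - ρ * κ by linarith)
    have h2 := h1.eventually_gt_atTop (1 / c)
    obtain ⟨a, ha⟩ := Filter.eventually_atTop.1 h2
    exact ⟨max a 3, le_max_right _ _, fun H hH => ha H ((le_max_left _ _).trans hH)⟩
  have hlog3 : 1 < Real.log 3 := by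
    have h1 : Real.exp 1 < 3 := by
      have := Real.exp_one_lt_d9
      linarith
    have := Real.log_lt_log (Real.exp_pos 1) h1
    rwa [Real.log_exp] at this
  have hl1 : ∀ H : ℝ, 3 ≤ H → 1 < Real.log H := fun H hH =>
    hlog3.trans_le (Real.log_le_log (by norm_num) hH)
  have hll : ∀ H : ℝ, 3 ≤ H → 0 < Real.log (Real.log H) := fun H hH => Real.log_pos (hl1 H hH)
  have hex : ∀ i : ℕ, ∃ F : β, ∀ a, ht a ≤ Real.exp (ρ ^ (i + 1)) →
      val a < c * (Real.exp (ρ ^ (i + 1))) ^ (-κ) → good F a := fun i =>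
    h _ (Real.one_le_exp (by positivity))
  choose F hF using hex
  refine ⟨H₀, fun X hX => ?_⟩
  refine ⟨⌊Real.log (Real.log X) / Real.log ρ⌋₊ + 1, fun i => F i, ?_, ?_⟩
  · have h1 : 0 ≤ Real.log (Real.log X) / Real.log ρ := (div_pos (hll X hX) hlρ).le
    have h2 := Nat.floor_le h1
    push_cast
    linarith
  · intro a h1 h2 h3
    have h4 : 3 ≤ ht a := hH3.trans h1
    have h5 : 0 < ht a := by linarith
    have h6 := hl1 _ h4
    have h7 := hll _ h4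
    have h8 : 0 ≤ Real.log (Real.log (ht a)) / Real.log ρ := (div_pos h7 hlρ).le
    have h9 := Nat.floor_le h8
    have h10 := Nat.lt_floor_add_one (Real.log (Real.log (ht a)) / Real.log ρ)
    obtain ⟨i, hi⟩ : ∃ i : ℕ, i = ⌊Real.log (Real.log (ht a)) / Real.log ρ⌋₊ := ⟨_, rfl⟩
    have hiX : i < ⌊Real.log (Real.log X) / Real.log ρ⌋₊ + 1 := by
      rw [hi, Nat.lt_succ_iff]
      refine Nat.floor_le_floor ?_
      gcongr
    rw [← hi] at h9 h10
    rw [le_div_iff₀ hlρ, ← Real.log_pow] at h9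
    rw [div_lt_iff₀ hlρ] at h10
    have h11 : ((i : ℝ) + 1) * Real.log ρ = Real.log (ρ ^ (i + 1)) := by
      rw [Real.log_pow]
      push_cast
      ring
    rw [h11] at h10
    have h12 : ρ ^ i ≤ Real.log (ht a) :=
      (Real.log_le_log_iff (by positivity) (by linarith)).1 h9
    have h13 : Real.log (ht a) < ρ ^ (i + 1) :=
      (Real.log_lt_log_iff (by linarith) (by positivity)).1 h10
    obtain ⟨E, hE⟩ : ∃ E : ℝ, E = Real.exp (ρ ^ i) := ⟨_, rfl⟩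
    have hE0 : 0 < E := by rw [hE]; exact Real.exp_pos _
    have h14 : Real.exp (ρ ^ (i + 1)) = E ^ ρ := by
      rw [hE, ← Real.exp_mul, pow_succ]
    have h15 : E ≤ ht a := by
      rw [hE]
      exact (Real.le_log_iff_exp_le h5).1 h12
    refine ⟨⟨i, hiX⟩, hF i a ((Real.log_lt_iff_lt_exp h5).1 h13).le ?_⟩
    refine lt_of_le_of_lt h3 ?_
    rw [h14, ← Real.rpow_mul hE0.le]
    have h16 : (ht a) ^ (-(ρ * κ)) ≤ E ^ (ρ * -κ) := by
      have : ρ * -κ = -(ρ * κ) := by ring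
      rw [this]
      exact Real.rpow_le_rpow_of_nonpos hE0 h15 (by nlinarith)
    have h17 := hH0 (ht a) h1
    rw [div_lt_iff₀ hc] at h17
    have h18 : (ht a) ^ (-w) < c * (ht a) ^ (-(ρ * κ)) := by
      have h19 : (ht a) ^ (w - ρ * κ) * (ht a) ^ (-w) = (ht a) ^ (-(ρ * κ)) := by
        rw [← Real.rpow_add h5]
        congr 1
        ring
      have h20 : 0 < (ht a) ^ (-w) := by positivity
      calc (ht a) ^ (-w) = 1 * (ht a) ^ (-w) := (one_mul _).symm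
        _ < ((ht a) ^ (w - ρ * κ) * c) * (ht a) ^ (-w) := by gcongr
        _ = c * ((ht a) ^ (w - ρ * κ) * (ht a) ^ (-w)) := by ring
        _ = _ := by rw [h19]
    calc (ht a) ^ (-w) < c * (ht a) ^ (-(ρ * κ)) := h18
      _ ≤ c * E ^ (ρ * -κ) := by gcongr

end Pool.Agent.R355.EPi
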