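import Pool.Agent.R355.Round3
import Pool.Agent.TH442.NF.Std
import Pool.Agent.Y536.SH.Full

set_option autoImplicit false

/-!
# Emptiness of linear systems by the criterion for nef classes: points in general position
-/

namespace Pool.Agent.R355.Round

open MvPolynomial Pool.Agent.W609 Pool.Agent.W609.CR Pool.Agent.TH167 Pool.Agent.TH167.SH
open Pool.Agent.H932R3 (ExpDim)

/-- Generic complex points (as in the starting library). -/
theorem exists_indep (ι : Type) [Finite ι] : ∃ f : ι → ℂ, AlgebraicIndependent ℚ f := by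
  obtain ⟨s, hs⟩ := exists_isTranscendenceBasis ℚ ℂ
  have h1 := IsAlgClosed.cardinal_eq_cardinal_transcendence_basis_of_aleph0_lt
    (R := ℚ) (K := ℂ) (fun x : s => (x : ℂ)) hs
    (by simp) (by rw [Cardinal.mk_complex]; exact Cardinal.aleph0_lt_continuum)
  have h2 : Infinite s := by
    rw [Cardinal.infinite_iff]
    have : Cardinal.mk s = Cardinal.mk ℂ := by simpa using h1.symm
    rw [this, Cardinal.mk_complex]; exact Cardinal.aleph0_le_continuum
  obtain ⟨n, ⟨e⟩⟩ := Finite.exists_equiv_fin ι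
  have e2 : Fin n ↪ s := (Fin.valEmbedding.trans (Infinite.natEmbedding s))
  exact ⟨fun i => (e2 (e i) : ℂ), hs.1.comp (fun i => e2 (e i)) (e2.injective.comp e.injective)⟩

/-- From generic complex points to generic points over all fields of characteristic zero. -/
theorem transfer {n : ℕ} {d : ℕ} {w : Fin n → ℕ}
    (h : ∀ P : Fin n → Fin 2 → ℂ,
      AlgebraicIndependent ℚ (fun ij : Fin n × Fin 2 => P ij.1 ij.2) → ExpDim ℂ w P d)
    {K : Type} [Field K] [CharZero K] {P : Fin n → Fin 2 → K}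
    (hP : AlgebraicIndependent ℚ (fun ij : Fin n × Fin 2 => P ij.1 ij.2)) : ExpDim K w P d := by
  obtain ⟨g, F, hF, hF'⟩ := dim_gen w d
  obtain ⟨f, hf⟩ := exists_indep (Fin n × Fin 2)
  have h0 := h (fun i j => f (i, j)) hf
  rw [TH442.NF.expDim_iff, hF' ℂ (fun i j => f (i, j)) fun h0 =>
    hF (hf.eq_zero_of_aeval_eq_zero F h0)] at h0
  rw [TH442.NF.expDim_iff, hF' K P fun h0 => hF (hP.eq_zero_of_aeval_eq_zero F h0)]
  exact h0

theorem empty_exp {r : ℕ} {d : ℕ} {w : Fin (r + 4) → ℕ} (hred : Reduced d w)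
    {T : Finset (Fin (r + 4))} (hT : EmptyCrit d w T) {d' : ℕ} {w' : Fin (r + 4) → ℕ}
    (hc : ConeAct.Carries ((d : ℝ), fun i => (w i : ℝ)) ((d' : ℝ), fun i => (w' i : ℝ)))
    {K : Type} [Field K] [CharZero K] {P : Fin (r + 4) → Fin 2 → K}
    (hP : AlgebraicIndependent ℚ (fun ij : Fin (r + 4) × Fin 2 => P ij.1 ij.2)) :
    ExpDim K w' P d' := by
  refine transfer (fun P0 hP0 => ?_) hP
  obtain ⟨h1, h2⟩ := empty_crit hP0 hred hT hc
  rw [TH442.NF.expDim_iff, ← sys_eq, h1, finrank_bot]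
  rw [max_eq_left h2]
  rfl

end Pool.Agent.R355.Round
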