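import Pool.Agent.R355.CanDeg3
import Pool.Agent.R355.Round4

set_option autoImplicit false

/-!
# Standard classes of given level: finiteness
-/

namespace Pool.Agent.R355.Gen

open MvPolynomial Pool.Agent.W609 Pool.Agent.W609.CR Pool.Agent.TH167 Pool.Agent.TH167.SH
open Pool.Agent.R355.CanDeg (red_three red_sum exists_top main_ineq all_eq deg_le red_sum' shape_mem)

theorem numg {a c t m e σ σ2 : ℤ} (ha : a ≤ c - 2) (hc : 1 ≤ c) (ht : 1 ≤ t)
    (hm : 0 ≤ m) (hσ : σ = t + c) (hmain : 2 * m * t ≤ a + σ2) (h1 : σ ≤ σ2) (h2 : σ2 ≤ m * σ)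
    (h22 : σ2 ≤ σ ^ 2) (he : e ≤ 3 * (m + t)) :
    2 ≤ c ∧ σ ≤ 3 * c - 2 ∧ 2 * e ≤ 3 * c ^ 2 + 25 * c := by
  have hm1 : 1 ≤ m := by
    by_contra h
    have hm0 : m = 0 := by omega
    subst hm0
    rw [zero_mul] at h2
    linarith
  have h3 : m * (t - c) ≤ c - 2 := by
    have : m * (2 * t - σ) ≤ a := by linarith
    have e1 : 2 * t - σ = t - c := by linarith
    rw [e1] at this
    linarith
  have hc2 : 2 ≤ c := by
    by_contra h
    have hc1 : c = 1 := by omega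
    subst hc1
    have : 0 ≤ m * (t - 1) := mul_nonneg hm (by linarith)
    linarith
  have h4 : t ≤ 2 * c - 2 := by
    by_contra h
    push Not at h
    have h5 : 1 * (t - c) ≤ m * (t - c) := mul_le_mul_of_nonneg_right hm1 (by linarith)
    linarith
  refine ⟨hc2, by linarith, ?_⟩
  have h6 : 2 * e * t ≤ 3 * (c - 2 + (t + c) ^ 2) + 6 * t ^ 2 := by
    have h7 : 2 * e * t ≤ 6 * (m + t) * t := by nlinarith
    rw [hσ] at h22
    nlinarith
  have h7 : 2 * e * t ≤ (3 * c ^ 2 + 25 * c) * t := by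
    have h8 : 0 ≤ 9 * ((t - 1) * (2 * c - 2 - t)) :=
      mul_nonneg (by norm_num) (mul_nonneg (by linarith) (by linarith))
    have h9 : 0 ≤ (3 * c ^ 2 + c + 9) * (t - 1) := mul_nonneg (by nlinarith) (by linarith)
    nlinarith
  exact le_of_mul_le_mul_right h7 (by linarith)

/-- The classes of level `c`, but the multiples of `-K` with further multiplicities. -/
theorem level_finite {r : ℕ} {e : ℕ} {u : Fin (r + 4) → ℕ} (hred : Reduced e u) {c : ℤ}
    (hc : 1 ≤ c) (hcc : kk e u = -c) (hχ : chi e u ≤ 0) :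
    (2 ≤ c ∧ 2 * (e : ℤ) ≤ 3 * c ^ 2 + 25 * c ∧
      ((Finset.univ.filter fun j => u j ≠ 0).card : ℤ) ≤ 3 * c + 7) ∨
    ∃ (T : Finset (Fin (r + 4))) (m : ℕ), T.card = 9 ∧ e = 3 * m ∧ ∀ i ∈ T, u i = m := by
  classical
  have hs : 9 ≤ r + 4 := by
    by_contra hcon
    have h1 := red_sum' hred 3 Finset.univ (by
      rw [Finset.card_univ, Fintype.card_fin]
      omega)
    have h2 : ∑ j, (u j : ℤ) ≤ 3 * e := by exact_mod_cast h1
    unfold kk at hcc
    linarith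
  obtain ⟨T, hT, htop⟩ := exists_top u 9 hs
  have hTne : T.Nonempty := by
    rw [← Finset.card_pos]
    omega
  obtain ⟨i0, hi0, hmin⟩ := Finset.exists_min_image T u hTne
  have hTs : ∑ i ∈ T, u i ≤ 3 * e := red_sum hred 3 T (by rw [hT])
  have hmain := main_ineq hred hT hi0 hmin hTs
  obtain ⟨t, ht⟩ : ∃ t, ∑ i ∈ T, u i + t = 3 * e := ⟨3 * e - ∑ i ∈ T, u i, by omega⟩
  rcases Nat.eq_zero_or_pos t with ht0 | ht0
  · right
    obtain ⟨m, hm1, hm2⟩ := all_eq hred hT (by omega)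
    exact ⟨T, m, hT, hm1, hm2⟩
  left
  have htZ : ∑ i ∈ T, (u i : ℤ) + t = 3 * e := by exact_mod_cast ht
  obtain ⟨a, ha⟩ : ∃ a, a = ip e u e u := ⟨_, rfl⟩
  have ha2 : a ≤ c - 2 := by
    have := two_chi e u
    omega
  have hsum : ∑ i ∈ T, (u i : ℤ) + ∑ j ∈ Tᶜ, (u j : ℤ) = 3 * e + c := by
    rw [Finset.sum_add_sum_compl]
    unfold kk at hcc
    linarith
  have hsq : ∑ i ∈ T, (u i : ℤ) ^ 2 + ∑ j ∈ Tᶜ, (u j : ℤ) ^ 2 = (e : ℤ) ^ 2 - a := by
    rw [Finset.sum_add_sum_compl]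
    unfold ip at ha
    have : ∑ j, (u j : ℤ) ^ 2 = ∑ j, (u j : ℤ) * u j := Finset.sum_congr rfl fun j _ => sq _
    rw [this, pow_two]
    linarith
  obtain ⟨σ, hσ⟩ : ∃ σ, σ = ∑ j ∈ Tᶜ, (u j : ℤ) := ⟨_, rfl⟩
  obtain ⟨σ2, hσ2⟩ : ∃ σ2, σ2 = ∑ j ∈ Tᶜ, (u j : ℤ) ^ 2 := ⟨_, rfl⟩
  rw [← hσ] at hsum
  rw [← hσ2] at hsq
  have hσt : σ = t + c := by linarith
  have hmain' : 2 * (u i0 : ℤ) * t ≤ a + σ2 := by
    have e1 : (3 * (e : ℤ) - ∑ i ∈ T, (u i : ℤ)) = t := by linarith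
    rw [e1] at hmain
    linarith
  have h2 : σ2 ≤ (u i0 : ℤ) * σ := by
    rw [hσ, hσ2, Finset.mul_sum]
    refine Finset.sum_le_sum fun j hj => ?_
    have h3 : u j ≤ u i0 := htop i0 hi0 j (Finset.mem_compl.1 hj)
    have h4 : (u j : ℤ) ≤ u i0 := by exact_mod_cast h3
    rw [pow_two]
    exact mul_le_mul_of_nonneg_right h4 (Int.natCast_nonneg _)
  have h12 : σ ≤ σ2 := by
    rw [hσ, hσ2]
    refine Finset.sum_le_sum fun j _ => ?_
    rcases Nat.eq_zero_or_pos (u j) with h | h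
    · rw [h]
      norm_num
    · have : (1 : ℤ) ≤ u j := by exact_mod_cast h
      nlinarith
  have h22 : σ2 ≤ σ ^ 2 := by
    rw [hσ2, pow_two]
    nth_rewrite 1 [hσ]
    rw [Finset.sum_mul]
    refine Finset.sum_le_sum fun j hj => ?_
    rw [pow_two]
    refine mul_le_mul_of_nonneg_left ?_ (Int.natCast_nonneg _)
    rw [hσ]
    exact Finset.single_le_sum (f := fun j => (u j : ℤ)) (fun j _ => Int.natCast_nonneg _) hj
  obtain ⟨hdeg, -⟩ := deg_le hred hT hi0 ht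
  obtain ⟨k1, k2, k3⟩ := numg (a := a) (c := c) (t := t) (m := u i0) (e := e) (σ := σ) (σ2 := σ2)
    ha2 hc (by exact_mod_cast ht0) (Int.natCast_nonneg _) hσt hmain' h12 h2 h22
    (by exact_mod_cast hdeg)
  refine ⟨k1, k3, ?_⟩
  have h4 : ((Tᶜ.filter fun j => u j ≠ 0).card : ℤ) ≤ σ := by
    have h5 : ∑ _j ∈ Tᶜ.filter (fun j => u j ≠ 0), (1 : ℤ) ≤ σ := by
      have h6 : ∑ j ∈ Tᶜ.filter (fun j => u j ≠ 0), (u j : ℤ) ≤ σ := by
        rw [hσ]
        exact Finset.sum_le_sum_of_subset_of_nonneg (Finset.filter_subset _ _)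
          fun i _ _ => Int.natCast_nonneg _
      refine le_trans (Finset.sum_le_sum fun j hj => ?_) h6
      have := (Finset.mem_filter.1 hj).2
      have : 1 ≤ u j := by omega
      exact_mod_cast this
    rwa [Finset.sum_const, nsmul_eq_mul, mul_one] at h5
  have h10 : (Finset.univ.filter fun j => u j ≠ 0) ⊆ T ∪ (Tᶜ.filter fun j => u j ≠ 0) := by
    intro j hj
    by_cases hjT : j ∈ T
    · exact Finset.mem_union_left _ hjT
    · exact Finset.mem_union_right _ (Finset.mem_filter.2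
        ⟨Finset.mem_compl.2 hjT, (Finset.mem_filter.1 hj).2⟩)
  have h11 := (Finset.card_le_card h10).trans (Finset.card_union_le _ _)
  rw [hT] at h11
  have h13 : ((Finset.univ.filter fun j => u j ≠ 0).card : ℤ) ≤
      9 + ((Tᶜ.filter fun j => u j ≠ 0).card : ℤ) := by exact_mod_cast h11
  linarith

/-- The multiples of `-K` with further multiplicities are empty. -/
theorem family_empty {r : ℕ} {P : Fin (r + 4) → Fin 2 → ℂ}
    (hP : AlgebraicIndependent ℚ (fun ij : Fin (r + 4) × Fin 2 => P ij.1 ij.2)) {e : ℕ}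
    {u : Fin (r + 4) → ℕ} {T : Finset (Fin (r + 4))} {m : ℕ} (hT : T.card = 9) (he : e = 3 * m)
    (hu : ∀ i ∈ T, u i = m) (hk : kk e u < 0) : SHDefs.sys P e u = ⊥ := by
  classical
  have hsum : ∑ i ∈ T, (u i : ℤ) = 9 * m := by
    rw [Finset.sum_congr rfl fun i hi => by rw [hu i hi], Finset.sum_const, hT]
    norm_num
  obtain ⟨j, hjT, hj⟩ : ∃ j, j ∉ T ∧ 1 ≤ u j := by
    by_contra hcon
    push Not at hcon
    have h1 : ∑ i ∈ Tᶜ, (u i : ℤ) = 0 := Finset.sum_eq_zero fun i hi => by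
      have := hcon i (Finset.mem_compl.1 hi)
      have : u i = 0 := by omega
      rw [this, Nat.cast_zero]
    have h2 := Finset.sum_add_sum_compl T fun i => (u i : ℤ)
    unfold kk at hk
    rw [he] at hk
    push_cast at hk
    linarith
  obtain ⟨τ, hτ⟩ : ∃ τ : ℝ, τ = 1 / (2 * m + 1) := ⟨_, rfl⟩
  have hm0 : (0 : ℝ) ≤ m := Nat.cast_nonneg _
  have hτ0 : 0 < τ := by
    rw [hτ]
    positivity
  have hτ1 : τ ≤ 1 := by
    rw [hτ, div_le_one (by positivity)]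
    linarith
  have hτm : 2 * (m : ℝ) * τ + τ = 1 := by
    rw [hτ]
    field_simp
  obtain ⟨y, hy⟩ : ∃ y : Fin (r + 4) → ℝ, y = fun i => if i ∈ T then 1 else
      (if i = j then τ else 0) := ⟨_, rfl⟩
  have hyT : ∀ i ∈ T, y i = 1 := by
    intro i hi
    rw [hy]
    simp only
    rw [if_pos hi]
  have hyc : ∀ i ∈ Tᶜ, y i = if i = j then τ else 0 := by
    intro i hi
    rw [hy]
    simp only
    rw [if_neg (Finset.mem_compl.1 hi)]
  have hy0 : ∀ i, 0 ≤ y i := by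
    intro i
    rw [hy]
    simp only
    split_ifs <;> linarith
  have hjc := Finset.mem_compl.2 hjT
  have hy2 : ∑ i ∈ Tᶜ, y i ^ 2 = τ ^ 2 := by
    rw [Finset.sum_eq_single_of_mem j hjc fun i hi hij => by rw [hyc i hi, if_neg hij]; norm_num,
      hyc j hjc, if_pos rfl]
  have hN := ConeAct.nef_of_gen (Round.nine_weights hP hT hτ0 hτ1 hy0 hyT hy2)
  refine Round.nef_empty hN ?_
  obtain ⟨x, hx⟩ : ∃ x, x = Real.sqrt (9 + τ ^ 2 + 3 * τ ^ 3) := ⟨_, rfl⟩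
  rw [← hx]
  show x * (e : ℝ) - ∑ l, y l * (u l : ℝ) < 0
  have hx2 : x ^ 2 = 9 + τ ^ 2 + 3 * τ ^ 3 := by
    rw [hx]
    exact Real.sq_sqrt (by positivity)
  have hx0 : 0 ≤ x := by
    rw [hx]
    exact Real.sqrt_nonneg _
  have hx3 : 3 * x ≤ 9 + 2 * τ ^ 2 := by
    have h1 : (3 * x) ^ 2 ≤ (9 + 2 * τ ^ 2) ^ 2 := by
      have h2 : τ ^ 3 ≤ τ ^ 2 := by
        have : τ ^ 2 * τ ≤ τ ^ 2 * 1 := mul_le_mul_of_nonneg_left hτ1 (sq_nonneg τ)
        nlinarith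
      have h3 : 0 ≤ (τ ^ 2) ^ 2 := by positivity
      nlinarith
    exact (abs_le_of_sq_le_sq' h1 (by positivity)).2
  rw [← Finset.sum_add_sum_compl T]
  have h1 : ∑ l ∈ T, y l * (u l : ℝ) = 9 * m := by
    rw [Finset.sum_congr rfl fun i hi => by rw [hyT i hi, hu i hi, one_mul], Finset.sum_const, hT]
    norm_num
  have h2 : ∑ l ∈ Tᶜ, y l * (u l : ℝ) = τ * u j := by
    rw [Finset.sum_eq_single_of_mem j hjc fun i hi hij => by rw [hyc i hi, if_neg hij, zero_mul],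
      hyc j hjc, if_pos rfl]
  rw [h1, h2, he]
  push_cast
  have hj' : (1 : ℝ) ≤ u j := by exact_mod_cast hj
  have h3 : τ ≤ τ * u j := by nlinarith
  have h4 : (m : ℝ) * (3 * x) ≤ m * (9 + 2 * τ ^ 2) := mul_le_mul_of_nonneg_left hx3 hm0
  have h5 : 2 * (m : ℝ) * τ ^ 2 < τ := by
    have : 2 * (m : ℝ) * τ < 1 := by linarith
    nlinarith
  nlinarith

end Pool.Agent.R355.Gen
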