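import Pool.Agent.R355.GenA

set_option autoImplicit false

/-!
# Standard classes of given level: simple points
-/

namespace Pool.Agent.R355.Gen

open MvPolynomial Pool.Agent.W609 Pool.Agent.W609.CR Pool.Agent.TH167 Pool.Agent.TH167.SH

/-- `x` further simple points. -/
def ext {n : ℕ} (x : ℕ) (w : Fin n → ℕ) : Fin (n + x) → ℕ := Fin.append w fun _ => 1

theorem ext_left {n : ℕ} (x : ℕ) (w : Fin n → ℕ) (i : Fin n) : ext x w (Fin.castAdd x i) = w i :=
  Fin.append_left _ _ _

theorem ext_right {n : ℕ} (x : ℕ) (w : Fin n → ℕ) (i : Fin x) : ext x w (Fin.natAdd n i) = 1 :=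
  Fin.append_right _ _ _

theorem chi_ext {n : ℕ} (x d : ℕ) (w : Fin n → ℕ) : chi d (ext x w) = chi d w - x := by
  unfold chi
  rw [Fin.sum_univ_add]
  simp only [ext_left, ext_right]
  norm_num
  ring

theorem kk_ext {n : ℕ} (x d : ℕ) (w : Fin n → ℕ) : kk d (ext x w) = kk d w - x := by
  unfold kk
  rw [Fin.sum_univ_add]
  simp only [ext_left, ext_right]
  norm_num
  ring

/-- At least three multiplicities are positive. -/
def ThreePos {n : ℕ} (w : Fin n → ℕ) : Prop :=
  ∃ a b c : Fin n, a ≠ b ∧ a ≠ c ∧ b ≠ c ∧ 1 ≤ w a ∧ 1 ≤ w b ∧ 1 ≤ w c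

theorem reduced_ext {n : ℕ} {x d : ℕ} {w : Fin n → ℕ} (h : Reduced d w) (h3 : ThreePos w) :
    Reduced d (ext x w) := by
  obtain ⟨a, b, c, hab, hac, hbc, ha, hb, hc⟩ := h3
  have e3 : 3 ≤ d := by
    have := h a b c hab hac hbc
    omega
  -- one index and two simple points
  have e1 : ∀ i, w i + 2 ≤ d := by
    intro i
    by_cases hia : i = a
    · subst hia
      have := h i b c hab hac hbc
      omega
    · by_cases hib : i = b
      · subst hib
        have := h i a c hab.symm hbc hac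
        omega
      · have := h i a b hia hib hab
        omega
  have e2 : ∀ i j, i ≠ j → w i + w j + 1 ≤ d := by
    intro i j hij
    by_cases h1 : a ≠ i ∧ a ≠ j
    · have := h i j a hij h1.1.symm h1.2.symm
      omega
    · by_cases h2 : b ≠ i ∧ b ≠ j
      · have := h i j b hij h2.1.symm h2.2.symm
        omega
      · have h3 : c ≠ i ∧ c ≠ j := by
          rw [not_and_or, not_not, not_not] at h1 h2
          constructor
          · rintro rfl
            rcases h1 with h1 | h1
            · exact hac h1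
            · rcases h2 with h2 | h2
              · exact hbc h2
              · exact hab (h1.trans h2.symm)
          · rintro rfl
            rcases h1 with h1 | h1
            · rcases h2 with h2 | h2
              · exact hab (h1.trans h2.symm)
              · exact hbc h2
            · exact hac h1
        have := h i j c hij h3.1.symm h3.2.symm
        omega
  have hcast : ∀ {i j : Fin n}, Fin.castAdd x i ≠ Fin.castAdd x j → i ≠ j := by
    intro i j h1 h2
    exact h1 (by rw [h2])
  intro i j l hij hil hjl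
  induction i using Fin.addCases with
  | left i =>
    induction j using Fin.addCases with
    | left j =>
      induction l using Fin.addCases with
      | left l =>
        rw [ext_left, ext_left, ext_left]
        exact h i j l (hcast hij) (hcast hil) (hcast hjl)
      | right l =>
        rw [ext_left, ext_left, ext_right]
        exact e2 i j (hcast hij)
    | right j =>
      induction l using Fin.addCases with
      | left l =>
        rw [ext_left, ext_left, ext_right]
        have := e2 i l (hcast hil)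
        omega
      | right l =>
        rw [ext_left, ext_right, ext_right]
        have := e1 i
        omega
  | right i =>
    induction j using Fin.addCases with
    | left j =>
      induction l using Fin.addCases with
      | left l =>
        rw [ext_left, ext_left, ext_right]
        have := e2 j l (hcast hjl)
        omega
      | right l =>
        rw [ext_left, ext_right, ext_right]
        have := e1 j
        omega
    | right j =>
      induction l using Fin.addCases with
      | left l =>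
        rw [ext_left, ext_right, ext_right]
        have := e1 l
        omega
      | right l =>
        rw [ext_right, ext_right, ext_right]
        omega

theorem dim_ext {n x d : ℕ} {w : Fin n → ℕ} {Q : Fin (n + x) → Fin 2 → ℂ}
    (h : VS (fun j => aff (Q j)) (ext x w) d = ⊥) :
    Module.finrank ℂ ↥(VS (fun j => aff (Q (Fin.castAdd x j))) w d) ≤ x := by
  obtain ⟨L, hL⟩ : ∃ L : ↥(VS (fun j => aff (Q (Fin.castAdd x j))) w d) →ₗ[ℂ] (Fin x → ℂ),
      ∀ F j, L F j = MvPolynomial.eval (aff (Q (Fin.natAdd n j))) F.1 := by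
    refine ⟨{ toFun := fun F j => MvPolynomial.eval (aff (Q (Fin.natAdd n j))) F.1
              map_add' := fun F G => ?_
              map_smul' := fun c F => ?_ }, fun F j => rfl⟩
    · funext j
      simp
    · funext j
      simp
  have hinj : Function.Injective L := by
    rw [injective_iff_map_eq_zero]
    intro F hF
    have h1 : F.1 ∈ VS (fun j => aff (Q j)) (ext x w) d := by
      have hF2 := (mem_VS _ _ _ _).1 F.2
      rw [mem_VS]
      refine ⟨hF2.1, fun j => ?_⟩
      induction j using Fin.addCases with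
      | left i =>
        rw [ext_left]
        exact hF2.2 i
      | right i =>
        rw [ext_right, van_one, ← hL, hF]
        rfl
    rw [h, Submodule.mem_bot] at h1
    exact Subtype.ext h1
  have := LinearMap.finrank_le_finrank_of_injective hinj
  rwa [Module.finrank_fin_fun] at this

theorem vs_finite {s : ℕ} (v : Fin s → Fin 3 → ℂ) (w : Fin s → ℕ) (d : ℕ) :
    Module.Finite ℂ ↥(VS v w d) := by
  have hfin : Module.Finite ℂ ↥(homogeneousSubmodule (Fin 3) ℂ d) :=
    Module.Finite.iff_fg.2 (homogeneousSubmodule_fg _ _ d)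
  have hle : VS v w d ≤ homogeneousSubmodule (Fin 3) ℂ d := fun f hf =>
    (mem_homogeneousSubmodule _ _).2 ((mem_VS _ _ _ _).1 hf).1
  exact Module.Finite.of_injective (Submodule.inclusion hle) (Submodule.inclusion_injective hle)

/-- General points and generic points. -/
theorem gen_iff {n : ℕ} (d : ℕ) (w : Fin n → ℕ) (k : ℤ) :
    (∃ F : MvPolynomial (Fin n × Fin 2) ℂ, F ≠ 0 ∧ ∀ P : Fin n → Fin 2 → ℂ,
      eval (fun ij : Fin n × Fin 2 => P ij.1 ij.2) F ≠ 0 →
        (Module.finrank ℂ ↥(SHDefs.sys P d w) : ℤ) = k) ↔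
    ∀ P : Fin n → Fin 2 → ℂ, AlgebraicIndependent ℚ (fun ij : Fin n × Fin 2 => P ij.1 ij.2) →
      (Module.finrank ℂ ↥(SHDefs.sys P d w) : ℤ) = k := by
  obtain ⟨g, F0, hF0, hg⟩ := dim_gen w d
  have hgP : ∀ P : Fin n → Fin 2 → ℂ,
      MvPolynomial.aeval (fun ij : Fin n × Fin 2 => P ij.1 ij.2) F0 ≠ 0 →
        (Module.finrank ℂ ↥(SHDefs.sys P d w) : ℤ) = g := by
    intro P hP
    rw [sys_eq, hg ℂ P hP]
  have hF1 : F0.map (algebraMap ℚ ℂ) ≠ 0 := map_ne hF0
  have hev : ∀ P : Fin n → Fin 2 → ℂ,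
      eval (fun ij : Fin n × Fin 2 => P ij.1 ij.2) (F0.map (algebraMap ℚ ℂ)) =
        MvPolynomial.aeval (fun ij : Fin n × Fin 2 => P ij.1 ij.2) F0 := by
    intro P
    rw [eval_map]
    rfl
  constructor
  · rintro ⟨F, hF, h⟩ P hP
    obtain ⟨z, hz⟩ : ∃ z : Fin n × Fin 2 → ℂ, eval z (F * F0.map (algebraMap ℚ ℂ)) ≠ 0 := by
      by_contra hcon
      push Not at hcon
      refine mul_ne_zero hF hF1 (MvPolynomial.funext fun z => ?_)
      rw [hcon z, map_zero]
    rw [map_mul] at hz
    obtain ⟨R, hR⟩ : ∃ R : Fin n → Fin 2 → ℂ, (fun ij : Fin n × Fin 2 => R ij.1 ij.2) = z :=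
      ⟨fun i j => z (i, j), rfl⟩
    rw [← hR] at hz
    have h1 := h R (left_ne_zero_of_mul hz)
    have h2 := hgP R (fun h0 => right_ne_zero_of_mul hz ((hev R).trans h0))
    have h3 := hgP P fun h0 => hF0 (hP.eq_zero_of_aeval_eq_zero F0 h0)
    exact h3.trans (h2.symm.trans h1)
  · intro h
    obtain ⟨f, hf⟩ := Round.exists_indep (Fin n × Fin 2)
    obtain ⟨R, hR⟩ : ∃ R : Fin n → Fin 2 → ℂ, R = fun i j => f (i, j) := ⟨_, rfl⟩
    have hRi : AlgebraicIndependent ℚ (fun ij : Fin n × Fin 2 => R ij.1 ij.2) := by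
      rw [hR]
      exact hf
    have h1 := h R hRi
    have h2 := hgP R fun h0 => hF0 (hRi.eq_zero_of_aeval_eq_zero F0 h0)
    refine ⟨F0.map (algebraMap ℚ ℂ), hF1, fun P hP => ?_⟩
    have h3 := hgP P (fun h0 => hP ((hev P).trans h0))
    exact h3.trans (h2.symm.trans h1)

theorem chi_pos_case {n : ℕ} {d x : ℕ} {w : Fin n → ℕ} (hx : chi d w = x)
    (h : ∀ Q : Fin (n + x) → Fin 2 → ℂ,
      AlgebraicIndependent ℚ (fun ij : Fin (n + x) × Fin 2 => Q ij.1 ij.2) →
      (Module.finrank ℂ ↥(SHDefs.sys Q d (ext x w)) : ℤ) = 0) {P : Fin n → Fin 2 → ℂ}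
    (hP : AlgebraicIndependent ℚ (fun ij : Fin n × Fin 2 => P ij.1 ij.2)) :
    (Module.finrank ℂ ↥(SHDefs.sys P d w) : ℤ) = x := by
  obtain ⟨f, hf⟩ := Round.exists_indep (Fin (n + x) × Fin 2)
  obtain ⟨Q, hQ⟩ : ∃ Q : Fin (n + x) → Fin 2 → ℂ, Q = fun i j => f (i, j) := ⟨_, rfl⟩
  have hQi : AlgebraicIndependent ℚ (fun ij : Fin (n + x) × Fin 2 => Q ij.1 ij.2) := by
    rw [hQ]
    exact hf
  have h1 := h Q hQi
  have hfin := vs_finite (fun j => aff (Q j)) (ext x w) d
  rw [sys_eq] at h1
  have h1' : Module.finrank ℂ ↥(VS (fun j => aff (Q j)) (ext x w) d) = 0 := by exact_mod_cast h1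
  have h2 : VS (fun j => aff (Q j)) (ext x w) d = ⊥ := Submodule.finrank_eq_zero.1 h1'
  have h3 := dim_ext h2
  obtain ⟨R, hR⟩ : ∃ R : Fin n → Fin 2 → ℂ, R = fun j => Q (Fin.castAdd x j) := ⟨_, rfl⟩
  have hRi : AlgebraicIndependent ℚ (fun ij : Fin n × Fin 2 => R ij.1 ij.2) := by
    have := hQi.comp (fun ij : Fin n × Fin 2 => (Fin.castAdd x ij.1, ij.2)) (by
      intro a b h
      simp only [Prod.mk.injEq] at h
      exact Prod.ext (Fin.castAdd_injective _ _ h.1) h.2)
    rw [hR]
    exact this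
  have h3' : Module.finrank ℂ ↥(VS (fun j => aff (R j)) w d) ≤ x := by
    rw [hR]
    exact h3
  obtain ⟨g, F0, hF0, hg⟩ := dim_gen w d
  have h4 := hg ℂ R fun h0 => hF0 (hRi.eq_zero_of_aeval_eq_zero F0 h0)
  have h5 := hg ℂ P fun h0 => hF0 (hP.eq_zero_of_aeval_eq_zero F0 h0)
  have h6 := chi_le_dim P d w
  rw [hx] at h6
  rw [h4] at h3'
  have h7 : (Module.finrank ℂ ↥(SHDefs.sys P d w) : ℤ) = g := by
    rw [sys_eq, h5]
  have h8 : (x : ℤ) ≤ g := by
    rw [h5] at h6
    exact h6
  have h9 : (g : ℤ) ≤ x := by exact_mod_cast h3'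
  rw [h7]
  exact le_antisymm h9 h8

theorem kk_neg {r : ℕ} {d : ℕ} {w : Fin (r + 4) → ℕ} (hred : Reduced d w) (h : chi d w ≤ 0) :
    kk d w < 0 := by
  by_contra hcon
  have hle : ∀ j, w j ≤ d := by
    intro j
    obtain ⟨a, b, c, hab, hac, hbc, ya, yb, yc⟩ := Round.top_three (n := r + 4) (by omega)
      fun i => (w i : ℝ)
    have h1 := hred a b c hab hac hbc
    have h2 : w j ≤ w a := by exact_mod_cast ya j
    omega
  have h7 : ∑ j, w j ≤ 3 * d := by
    unfold kk at hcon
    have : ((∑ j, w j : ℕ) : ℤ) ≤ ((3 * d : ℕ) : ℤ) := by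
      push_cast
      linarith
    exact_mod_cast this
  have := red_ip hred hle h7
  have := two_chi d w
  omega

theorem threePos_of {r : ℕ} {d : ℕ} {w : Fin (r + 4) → ℕ} (hred : Reduced d w)
    (h : kk d w < 0) : ThreePos w := by
  obtain ⟨a, b, c, hab, hac, hbc, ya, yb, yc⟩ := Round.top_three (n := r + 4) (by omega)
    fun i => (w i : ℝ)
  have ya' : ∀ l, w l ≤ w a := fun l => by exact_mod_cast ya l
  have yb' : ∀ l, l ≠ a → w l ≤ w b := fun l hl => by exact_mod_cast yb l hl
  have yc' : ∀ l, l ≠ a → l ≠ b → w l ≤ w c := fun l hl hl' => by exact_mod_cast yc l hl hl'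
  have h1 := hred a b c hab hac hbc
  by_cases hc : 1 ≤ w c
  · have := yb' c hac.symm
    have := ya' b
    exact ⟨a, b, c, hab, hac, hbc, by omega, by omega, hc⟩
  · exfalso
    have h0 : ∀ l, l ∉ ({a, b} : Finset (Fin (r + 4))) → w l = 0 := by
      intro l hl
      rw [Finset.mem_insert, Finset.mem_singleton, not_or] at hl
      have := yc' l hl.1 hl.2
      omega
    have h2 : ∑ l, w l = w a + w b := by
      rw [← Finset.sum_subset (Finset.subset_univ {a, b}) fun l _ hl => h0 l hl,
        Finset.sum_pair hab]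
    have h3 : ∑ l, (w l : ℤ) = w a + w b := by exact_mod_cast h2
    unfold kk at h
    omega

/-- The level: the arithmetic genus if `χ ≥ 0`, and `K D` if `χ ≤ 0`. -/
def level {n : ℕ} (d : ℕ) (w : Fin n → ℕ) : ℤ := -kk d w + max 0 (chi d w)

/-- Emptiness at generic points of the classes `(d; w)` of level `c` with `χ ≤ 0`. -/
def EmptyLevel (c : ℤ) : Prop := ∀ n : ℕ, 4 ≤ n → ∀ (d : ℕ) (w : Fin n → ℕ), Reduced d w →
  kk d w = -c → chi d w ≤ 0 → ∀ P : Fin n → Fin 2 → ℂ,
    AlgebraicIndependent ℚ (fun ij : Fin n × Fin 2 => P ij.1 ij.2) →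
      (Module.finrank ℂ ↥(SHDefs.sys P d w) : ℤ) = 0

theorem level_pos {n : ℕ} (hn : 4 ≤ n) {d : ℕ} {w : Fin n → ℕ} (hred : Reduced d w)
    (h3 : ThreePos w) : 1 ≤ level d w := by
  rcases le_or_gt (chi d w) 0 with h | h
  · obtain ⟨r, rfl⟩ : ∃ r, n = r + 4 := ⟨n - 4, by omega⟩
    have := kk_neg hred h
    unfold level
    rw [max_eq_left h]
    omega
  · obtain ⟨x, hx⟩ : ∃ x : ℕ, chi d w = x := ⟨(chi d w).toNat, by omega⟩
    have h1 := reduced_ext (x := x) hred h3
    have h2 := chi_ext x d w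
    have h4 := kk_ext x d w
    obtain ⟨r, hr⟩ : ∃ r, n + x = r + 4 := ⟨n + x - 4, by omega⟩
    have h5 : kk d (ext x w) < 0 := by
      revert h1 h2
      generalize ext x w = v
      revert v
      rw [hr]
      intro v h1 h2
      exact kk_neg h1 (by omega)
    unfold level
    rw [max_eq_right h.le]
    omega

/-- The main step. -/
theorem of_emptyLevel {c : ℤ} (hc : EmptyLevel c) {n : ℕ} (hn : 4 ≤ n) {d : ℕ} {w : Fin n → ℕ}
    (hred : Reduced d w) (h3 : ThreePos w) (hl : level d w = c) {P : Fin n → Fin 2 → ℂ}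
    (hP : AlgebraicIndependent ℚ (fun ij : Fin n × Fin 2 => P ij.1 ij.2)) :
    (Module.finrank ℂ ↥(SHDefs.sys P d w) : ℤ) = max 0 (chi d w) := by
  unfold level at hl
  rcases le_or_gt (chi d w) 0 with h | h
  · rw [max_eq_left h] at hl ⊢
    exact hc n hn d w hred (by omega) h P hP
  · obtain ⟨x, hx⟩ : ∃ x : ℕ, chi d w = x := ⟨(chi d w).toNat, by omega⟩
    rw [max_eq_right h.le] at hl ⊢
    rw [hx]
    refine chi_pos_case hx (fun Q hQ => ?_) hP
    refine hc (n + x) (by omega) d (ext x w) (reduced_ext hred h3) ?_ ?_ Q hQ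
    · rw [kk_ext]
      omega
    · rw [chi_ext]
      omega

theorem emptyLevel_one : EmptyLevel 1 := by
  intro n hn d w hred hk hχ P hP
  obtain ⟨r, rfl⟩ : ∃ r, n = r + 4 := ⟨n - 4, by omega⟩
  rcases level_finite hred le_rfl hk hχ with ⟨h, -⟩ | ⟨T, m, hT, he, hu⟩
  · omega
  · rw [family_empty hP hT he hu (by omega), finrank_bot]
    rfl

end Pool.Agent.R355.Gen
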