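import Mathlib
import Pool.Agent.R355.Dirichlet

/-!
# Near relations of rank `m` between `m + d` numbers and simultaneous approximation

If `m` linearly independent integral linear forms in `m + d` real numbers `y i` are small, there are integers `q` such
that all the numbers `q y i` are near to integers, roughly of the quality given by Dirichlet's theorem for `d` numbers.
-/

set_option autoImplicit false

namespace Pool.Agent.R355.QR

open Finset Matrix Nat

/-- a nonzero maximal minor -/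
lemma exists_minor {m : ℕ} {ι : Type*} [Fintype ι] [DecidableEq ι] (A : Matrix (Fin m) ι ℤ)
    (hA : LinearIndependent ℤ (fun k => A k)) :
    ∃ a : Fin m → ι, Function.Injective a ∧ (A.submatrix id a).det ≠ 0 := by
  classical
  obtain ⟨B, hB⟩ : ∃ B : Matrix (Fin m) ι ℚ, B = A.map (Int.cast : ℤ → ℚ) := ⟨_, rfl⟩
  have hrow : LinearIndependent ℚ B.row := by
    rw [← LinearIndependent.iff_fractionRing (R := ℤ) (K := ℚ)]
    let f0 : (ι → ℤ) →ₗ[ℤ] (ι → ℚ) :=
      { toFun := fun x i => (x i : ℚ)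
        map_add' := fun x y => by funext i; simp
        map_smul' := fun c x => by funext i; simp }
    have hf0 : LinearMap.ker f0 = ⊥ := by
      rw [LinearMap.ker_eq_bot]
      intro x y h
      funext i
      have h2 : ((x i : ℤ) : ℚ) = (y i : ℚ) := congrFun h i
      exact_mod_cast h2
    have h1 := hA.map' f0 hf0
    rw [hB]
    exact h1
  have hrank : B.rank = m := by
    rw [hrow.rank_matrix, Fintype.card_fin]
  rw [Matrix.rank_eq_finrank_span_cols] at hrank
  obtain ⟨κ, a, ha, hspan, hli⟩ := exists_linearIndependent' ℚ B.col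
  have : Finite κ := Finite.of_injective a ha
  have := Fintype.ofFinite κ
  have hcard : Fintype.card κ = m := by
    have h1 := finrank_span_eq_card hli
    rw [hspan] at h1
    exact h1.symm.trans hrank
  obtain ⟨e⟩ : Nonempty (Fin m ≃ κ) := Fintype.card_eq.1 (by rw [Fintype.card_fin, hcard])
  refine ⟨a ∘ e, ha.comp e.injective, ?_⟩
  have h2 : LinearIndependent ℚ (B.submatrix id (a ∘ e)).col := hli.comp e e.injective
  rw [Matrix.linearIndependent_cols_iff_isUnit, Matrix.isUnit_iff_isUnit_det] at h2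
  intro hcon
  apply h2.ne_zero
  have h4 : B.submatrix id (a ∘ e) = (A.submatrix id (a ∘ e)).map (Int.castRingHom ℚ) := by
    rw [hB]
    rfl
  rw [h4, ← RingHom.mapMatrix_apply, ← RingHom.map_det, hcon, map_zero]

lemma det_bound {m : ℕ} (M : Matrix (Fin m) (Fin m) ℤ) (X : ℝ) (hM : ∀ i j, |(M i j : ℝ)| ≤ X) :
    |(M.det : ℝ)| ≤ (m ! : ℝ) * X ^ m := by
  have h1 := Matrix.det_le (A := M.map (Int.castRingHom ℝ)) (abv := AbsoluteValue.abs) (x := X)
    (fun i j => by simpa using hM i j)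
  rw [← RingHom.mapMatrix_apply, ← RingHom.map_det] at h1
  simpa using h1

lemma adj_sum_bound {m : ℕ} (M : Matrix (Fin m) (Fin m) ℤ) (X : ℝ) (hX : 1 ≤ X)
    (hM : ∀ i j, |(M i j : ℝ)| ≤ X) (i : Fin m) :
    X * ∑ k, |(M.adjugate i k : ℝ)| ≤ (m ! : ℝ) * X ^ m := by
  rcases m with _ | m
  · exact i.elim0
  · have h1 : ∀ k, |(M.adjugate i k : ℝ)| ≤ (m ! : ℝ) * X ^ m := by
      intro k
      rw [Matrix.adjugate_fin_succ_eq_det_submatrix, Int.cast_mul, Int.cast_pow, Int.cast_neg, Int.cast_one,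
        abs_mul, abs_pow, abs_neg, abs_one, one_pow, one_mul]
      exact det_bound _ X (fun i j => hM _ _)
    calc X * ∑ k, |(M.adjugate i k : ℝ)| ≤ X * ∑ _k : Fin (m + 1), (m ! : ℝ) * X ^ m := by
          gcongr with k
          exact h1 k
      _ = ((m + 1)! : ℝ) * X ^ (m + 1) := by
          rw [Finset.sum_const, Finset.card_univ, Fintype.card_fin, nsmul_eq_mul, Nat.factorial_succ]
          push_cast
          ring

/-- **Small linear forms give simultaneous approximations.** -/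
lemma approx_all {m d : ℕ} {ι : Type*} [Fintype ι] [DecidableEq ι] (hcard : Fintype.card ι = m + d)
    (A : Matrix (Fin m) ι ℤ) (hA : LinearIndependent ℤ (fun k => A k)) (X : ℝ) (hX : 1 ≤ X)
    (hAX : ∀ k i, |(A k i : ℝ)| ≤ X)
    (y : ι → ℝ) (δ : ℝ) (hδ0 : 0 ≤ δ) (hδ : ∀ k, |∑ i, (A k i : ℝ) * y i| ≤ δ) (Q : ℕ) (hQ : 1 ≤ Q) :
    ∃ q : ℕ, 1 ≤ q ∧ (q : ℝ) ≤ (m ! : ℝ) * X ^ m * (Q : ℝ) ^ d ∧
      ∀ i, ∃ p : ℤ, |(q : ℝ) * y i - p| ≤ (m ! : ℝ) * X ^ m * ((Q : ℝ) ^ d * δ + (d + 1) / Q) := by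
  classical
  obtain ⟨a, ha, hdet⟩ := exists_minor A hA
  obtain ⟨M, hM⟩ : ∃ M : Matrix (Fin m) (Fin m) ℤ, M = A.submatrix id a := ⟨_, rfl⟩
  rw [← hM] at hdet
  have hMX : ∀ i j, |(M i j : ℝ)| ≤ X := fun i j => by rw [hM]; exact hAX _ _
  -- the other columns
  have hc : Fintype.card ((Set.range a)ᶜ : Set ι) = d := by
    rw [Fintype.card_compl_set, Set.card_range_of_injective ha, Fintype.card_fin, hcard]
    omega
  obtain ⟨ec⟩ : Nonempty (Fin d ≃ ((Set.range a)ᶜ : Set ι)) :=
    Fintype.card_eq.1 (by rw [Fintype.card_fin, hc])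
  obtain ⟨e, he⟩ : ∃ e : Fin m ⊕ Fin d ≃ ι, ∀ k, e (Sum.inl k) = a k :=
    ⟨(Equiv.sumCongr (Equiv.ofInjective a ha) ec).trans (Equiv.Set.sumCompl (Set.range a)), fun k => by simp⟩
  obtain ⟨b, hb⟩ : ∃ b : Fin d → ι, b = fun l => e (Sum.inr l) := ⟨_, rfl⟩
  have hsplit : ∀ f : ι → ℝ, ∑ i, f i = ∑ k, f (a k) + ∑ l, f (b l) := by
    intro f
    rw [← e.sum_comp, Fintype.sum_sum_type, hb]
    simp only [he]
  have hQ0 : (0 : ℝ) < Q := by exact_mod_cast hQ
  obtain ⟨q', hq1, hqQ, hp⟩ := dirichlet (fun l => y (b l)) hQ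
  choose p hp using hp
  -- sign
  obtain ⟨D, hD⟩ : ∃ D : ℤ, D = M.det := ⟨_, rfl⟩
  obtain ⟨s, hs, hsD⟩ : ∃ s : ℤ, (s = 1 ∨ s = -1) ∧ (D.natAbs : ℤ) = s * D := by
    rcases Int.natAbs_eq D with h1 | h1
    · exact ⟨1, Or.inl rfl, by rw [one_mul]; exact h1.symm⟩
    · exact ⟨-1, Or.inr rfl, by omega⟩
  have hs1 : |(s : ℝ)| = 1 := by
    rcases hs with h1 | h1 <;> rw [h1] <;> simp
  have hqD : (D.natAbs : ℝ) = s * D := by
    have h := congrArg (fun z : ℤ => (z : ℝ)) hsD
    simp only [Int.cast_natCast, Int.cast_mul] at h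
    exact h
  have hDabs : (D.natAbs : ℝ) = |(D : ℝ)| := by
    rw [Nat.cast_natAbs, Int.cast_abs]
  have hDb := det_bound M X hMX
  rw [← hD] at hDb hdet
  have hqQR : (q' : ℝ) ≤ (Q : ℝ) ^ d := by exact_mod_cast hqQ
  have hG0 : (0 : ℝ) ≤ (m ! : ℝ) * X ^ m := by positivity
  refine ⟨D.natAbs * q', Nat.mul_pos (Int.natAbs_pos.2 hdet) hq1, ?_, fun i => ?_⟩
  · rw [Nat.cast_mul, hDabs]
    have : (0 : ℝ) ≤ q' := by positivity
    gcongr
  · obtain ⟨x, hx⟩ := e.surjective i
    rcases x with k0 | l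
    · -- a column of the minor
      rw [he] at hx
      rw [← hx]
      refine ⟨s * -(∑ k, M.adjugate k0 k * ∑ l, A k (b l) * p l), ?_⟩
      have hcr : (D : ℝ) * y (a k0) = ∑ k, (M.adjugate k0 k : ℝ) * ∑ k', (M k k' : ℝ) * y (a k') := by
        have h1 : ∀ k', ∑ k, (M.adjugate k0 k : ℝ) * (M k k' : ℝ) = if k0 = k' then (D : ℝ) else 0 := by
          intro k'
          have h2 := congrFun (congrFun (Matrix.adjugate_mul M) k0) k'
          rw [← hD, Matrix.mul_apply, Matrix.smul_apply, Matrix.one_apply, smul_eq_mul, mul_ite, mul_one,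
            mul_zero] at h2
          have h3 : ((∑ j, M.adjugate k0 j * M j k' : ℤ) : ℝ) = ((if k0 = k' then D else 0 : ℤ) : ℝ) := by
            rw [h2]
          push_cast at h3
          exact h3
        calc (D : ℝ) * y (a k0) = ∑ k', (if k0 = k' then (D : ℝ) else 0) * y (a k') := by
              simp [ite_mul]
          _ = ∑ k', (∑ k, (M.adjugate k0 k : ℝ) * (M k k' : ℝ)) * y (a k') := by
              exact Finset.sum_congr rfl fun k' _ => by rw [h1]
          _ = ∑ k, (M.adjugate k0 k : ℝ) * ∑ k', (M k k' : ℝ) * y (a k') := by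
              simp only [Finset.sum_mul, Finset.mul_sum]
              rw [Finset.sum_comm]
              exact Finset.sum_congr rfl fun k _ => Finset.sum_congr rfl fun k' _ => by ring
      have hS : ∀ k, ∑ k', (M k k' : ℝ) * y (a k') =
          ∑ i, (A k i : ℝ) * y i - ∑ l, (A k (b l) : ℝ) * y (b l) := by
        intro k
        rw [hsplit (fun i => (A k i : ℝ) * y i), hM]
        simp
      have key : ((D.natAbs * q' : ℕ) : ℝ) * y (a k0) -
          ((s * -(∑ k, M.adjugate k0 k * ∑ l, A k (b l) * p l) : ℤ) : ℝ) =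
          s * ∑ k, (M.adjugate k0 k : ℝ) *
            ((q' : ℝ) * ∑ i, (A k i : ℝ) * y i - ∑ l, (A k (b l) : ℝ) * ((q' : ℝ) * y (b l) - p l)) := by
        rw [Nat.cast_mul, hqD]
        push_cast
        have h1 : (s : ℝ) * D * q' * y (a k0) = s * q' * (D * y (a k0)) := by ring
        rw [h1, hcr, mul_neg, sub_neg_eq_add, mul_assoc, ← mul_add]
        congr 1
        rw [Finset.mul_sum, ← Finset.sum_add_distrib]
        refine Finset.sum_congr rfl fun k _ => ?_
        rw [hS k]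
        have h2 : ∑ l, (A k (b l) : ℝ) * ((q' : ℝ) * y (b l) - p l) =
            q' * ∑ l, (A k (b l) : ℝ) * y (b l) - ∑ l, (A k (b l) : ℝ) * p l := by
          rw [Finset.mul_sum, ← Finset.sum_sub_distrib]
          exact Finset.sum_congr rfl fun l _ => by ring
        rw [h2]
        ring
      rw [key, abs_mul, hs1, one_mul]
      have hone : ∀ k, |(q' : ℝ) * ∑ i, (A k i : ℝ) * y i -
          ∑ l, (A k (b l) : ℝ) * ((q' : ℝ) * y (b l) - p l)| ≤ X * ((Q : ℝ) ^ d * δ + (d + 1) / Q) := by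
        intro k
        have h1 : |(q' : ℝ) * ∑ i, (A k i : ℝ) * y i| ≤ (Q : ℝ) ^ d * δ := by
          rw [abs_mul, Nat.abs_cast]
          gcongr
          exact hδ k
        have h2 : |∑ l, (A k (b l) : ℝ) * ((q' : ℝ) * y (b l) - p l)| ≤ X * (d / Q) := by
          calc |∑ l, (A k (b l) : ℝ) * ((q' : ℝ) * y (b l) - p l)|
              ≤ ∑ l, |(A k (b l) : ℝ) * ((q' : ℝ) * y (b l) - p l)| := Finset.abs_sum_le_sum_abs _ _
            _ ≤ ∑ _l : Fin d, X * (1 / Q) := by
                refine Finset.sum_le_sum fun l _ => ?_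
                rw [abs_mul]
                have h3 := hAX k (b l)
                have h4 := (hp l).le
                gcongr
            _ = X * (d / Q) := by
                rw [Finset.sum_const, Finset.card_univ, Fintype.card_fin, nsmul_eq_mul]
                ring
        have h3 : (0 : ℝ) ≤ (Q : ℝ) ^ d * δ := by positivity
        have h4 : X * ((d : ℝ) / Q) ≤ X * ((d + 1) / Q) := by
          gcongr
          linarith
        calc |(q' : ℝ) * ∑ i, (A k i : ℝ) * y i - ∑ l, (A k (b l) : ℝ) * ((q' : ℝ) * y (b l) - p l)|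
            ≤ _ := abs_sub _ _
          _ ≤ (Q : ℝ) ^ d * δ + X * (d / Q) := add_le_add h1 h2
          _ ≤ X * ((Q : ℝ) ^ d * δ + (d + 1) / Q) := by nlinarith
      calc |∑ k, (M.adjugate k0 k : ℝ) *
            ((q' : ℝ) * ∑ i, (A k i : ℝ) * y i - ∑ l, (A k (b l) : ℝ) * ((q' : ℝ) * y (b l) - p l))|
          ≤ ∑ k, |(M.adjugate k0 k : ℝ) *
            ((q' : ℝ) * ∑ i, (A k i : ℝ) * y i - ∑ l, (A k (b l) : ℝ) * ((q' : ℝ) * y (b l) - p l))| :=
            Finset.abs_sum_le_sum_abs _ _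
        _ ≤ ∑ k, |(M.adjugate k0 k : ℝ)| * (X * ((Q : ℝ) ^ d * δ + (d + 1) / Q)) := by
            refine Finset.sum_le_sum fun k _ => ?_
            rw [abs_mul]
            have := hone k
            gcongr
        _ = (X * ∑ k, |(M.adjugate k0 k : ℝ)|) * ((Q : ℝ) ^ d * δ + (d + 1) / Q) := by
            rw [← Finset.sum_mul]
            ring
        _ ≤ _ := by
            have h1 := adj_sum_bound M X hX hMX k0
            have h3 : (0 : ℝ) ≤ (Q : ℝ) ^ d * δ + (d + 1) / Q := by positivity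
            gcongr
    · -- another column
      have hx' : i = b l := by rw [hb, ← hx]
      rw [hx']
      refine ⟨s * D * p l, ?_⟩
      have key : ((D.natAbs * q' : ℕ) : ℝ) * y (b l) - ((s * D * p l : ℤ) : ℝ) =
          s * (D * ((q' : ℝ) * y (b l) - p l)) := by
        rw [Nat.cast_mul, hqD]
        push_cast
        ring
      rw [key, abs_mul, hs1, one_mul, abs_mul]
      have h1 : |(q' : ℝ) * y (b l) - p l| ≤ (Q : ℝ) ^ d * δ + (d + 1) / Q := by
        have h2 := (hp l).le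
        have h3 : (0 : ℝ) ≤ (Q : ℝ) ^ d * δ := by positivity
        have h4 : (1 : ℝ) / Q ≤ (d + 1) / Q := by
          gcongr
          linarith [Nat.cast_nonneg (α := ℝ) d]
        linarith
      gcongr

end Pool.Agent.R355.QR
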