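import Pool.Agent.TH647.NR.Rank

/-!
# Near relations between numbers which span a space of dimension at least `m`, quantitatively

`Meas2 y w c`: of two linearly independent integer vectors of norm at most `H`, one has a value `a · y` of absolute
value at least `c H ^ (-w)`. Such a bound passes to near relations modulo arbitrary real numbers `t_1, …, t_r`.
-/

set_option autoImplicit false

namespace Pool.Agent.R355.NR2

open Real Set Pool.Agent.W472.AC Pool.Agent.TH647.NR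

/-- among two linearly independent integer vectors one has a value at least `c H ^ (-w)` -/
def Meas2 {m : ℕ} (y : Fin (m + 1) → ℝ) (w c : ℝ) : Prop :=
  ∀ a b : Fin (m + 1) → ℤ, LinearIndependent ℤ ![a, b] → ∀ H : ℝ, 1 ≤ H →
    (∀ j, |(a j : ℝ)| ≤ H) → (∀ j, |(b j : ℝ)| ≤ H) →
    c ≤ H ^ w * max |∑ j, (a j : ℝ) * y j| |∑ j, (b j : ℝ) * y j|

/-- an integer combination without second component, which does not use the vector `p` -/
lemma exists_comb_avoid {m r : ℕ} (X : ℝ) (hX : 1 ≤ X)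
    (v : Fin (r + 2) → (Fin (m + 1) → ℤ) × (Fin r → ℤ)) (hv : ∀ k, ‖v k‖ ≤ X) (p : Fin (r + 2)) :
    ∃ l : Fin (r + 2) → ℤ, l ≠ 0 ∧ l p = 0 ∧ (∀ j, ∑ k, l k * (v k).2 j = 0) ∧
      ∀ k, |(l k : ℝ)| ≤ (((r + 1 : ℕ) : ℝ) * X) ^ r := by
  obtain ⟨l, hl0, hl, hb⟩ := exists_comb X hX (fun k => v (p.succAbove k)) (fun k => hv _)
  refine ⟨p.insertNth 0 l, ?_, by simp, ?_, ?_⟩
  · intro h
    apply hl0
    funext k
    have := congrFun h (p.succAbove k)
    simpa using this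
  · intro j
    rw [Fin.sum_univ_succAbove _ p]
    simpa using hl j
  · intro k
    rcases Fin.eq_self_or_eq_succAbove p k with rfl | ⟨k', rfl⟩
    · simp only [Fin.insertNth_apply_same, Int.cast_zero, abs_zero]
      positivity
    · simpa using hb k'

/-- the value of a combination without second component -/
lemma value_comb {m r : ℕ} (θ : Fin (m + 1) → ℝ) (t : Fin r → ℝ)
    (v : Fin (r + 2) → (Fin (m + 1) → ℤ) × (Fin r → ℤ)) (l : Fin (r + 2) → ℤ)
    (hl : ∀ j, ∑ k, l k * (v k).2 j = 0) :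
    ∑ i, ((∑ k, l k * (v k).1 i : ℤ) : ℝ) * θ i = ∑ k, (l k : ℝ) * linr θ t (v k) := by
  unfold linr
  simp only [mul_add, Finset.sum_add_distrib]
  have h1 : ∑ k, (l k : ℝ) * ∑ j, ((v k).2 j : ℝ) * t j = 0 := by
    simp only [Finset.mul_sum]
    rw [Finset.sum_comm]
    refine Finset.sum_eq_zero fun j _ => ?_
    have h2 : ∑ k, (l k : ℝ) * (((v k).2 j : ℝ) * t j) = (∑ k, (l k : ℝ) * ((v k).2 j : ℝ)) * t j := by
      rw [Finset.sum_mul]
      exact Finset.sum_congr rfl fun k _ => by ring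
    rw [h2]
    have h3 := hl j
    have h4 : ∑ k, (l k : ℝ) * ((v k).2 j : ℝ) = 0 := by exact_mod_cast h3
    rw [h4, zero_mul]
  rw [h1, add_zero]
  simp only [Finset.mul_sum]
  rw [Finset.sum_comm]
  refine Finset.sum_congr rfl fun i _ => ?_
  push_cast
  rw [Finset.sum_mul]
  exact Finset.sum_congr rfl fun k _ => by ring

/-- **Rank of the near relations**, codimension two: among `r + 2` linearly independent integer vectors of norm at
most `X` one has a value of absolute value `≥ c' X ^ (-(r + (r + 1) μ))`, for all `t_1, …, t_r`. -/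
theorem rank_bound2 {m : ℕ} (θ : Fin (m + 1) → ℝ) (μ c : ℝ) (hc : 0 < c)
    (hθ : Meas2 θ μ c) (r : ℕ) :
    ∃ c' : ℝ, 0 < c' ∧ ∀ (t : Fin r → ℝ) (X : ℝ), 1 ≤ X →
      ∀ v : Fin (r + 2) → (Fin (m + 1) → ℤ) × (Fin r → ℤ), LinearIndependent ℤ v →
        (∀ k, ‖v k‖ ≤ X) → ∃ k, c' * X ^ (-((r : ℝ) + (r + 1) * μ)) ≤ |linr θ t (v k)| := by
  have hR1 : (1 : ℝ) ≤ ((r + 2 : ℕ) : ℝ) := by push_cast; linarith [Nat.cast_nonneg (α := ℝ) r]
  obtain ⟨R, hR⟩ : ∃ R : ℝ, R = ((r + 2 : ℕ) : ℝ) := ⟨_, rfl⟩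
  rw [← hR] at hR1
  have hR0 : 0 < R := by linarith
  have hRr : ((r + 1 : ℕ) : ℝ) ≤ R := by rw [hR]; push_cast; linarith
  refine ⟨c / (2 * (R ^ ((r + 1 : ℝ) * μ) * (R * R ^ r))), by positivity, ?_⟩
  intro t X hX v hv hvX
  have hX0 : 0 < X := by linarith
  have hpw : (((r + 1 : ℕ) : ℝ) * X) ^ r ≤ (R * X) ^ r := by gcongr
  obtain ⟨l, hl0, -, hl, hlb⟩ := exists_comb_avoid X hX v hvX 0
  obtain ⟨p, hp⟩ : ∃ p, l p ≠ 0 := by
    by_contra hcon
    push Not at hcon
    exact hl0 (funext hcon)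
  obtain ⟨l', hl0', hlp', hl', hlb'⟩ := exists_comb_avoid X hX v hvX p
  replace hlb : ∀ k, |(l k : ℝ)| ≤ (R * X) ^ r := fun k => (hlb k).trans hpw
  replace hlb' : ∀ k, |(l' k : ℝ)| ≤ (R * X) ^ r := fun k => (hlb' k).trans hpw
  -- linear independence
  rw [Fintype.linearIndependent_iff] at hv
  have hind : LinearIndependent ℤ ![(fun i => ∑ k, l k * (v k).1 i : Fin (m + 1) → ℤ),
      (fun i => ∑ k, l' k * (v k).1 i : Fin (m + 1) → ℤ)] := by
    rw [LinearIndependent.pair_iff]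
    intro s u hsu
    have key : ∀ k, s * l k + u * l' k = 0 := by
      refine hv (fun k => s * l k + u * l' k) ?_
      refine Prod.ext ?_ ?_
      · rw [Prod.fst_sum]
        funext i
        rw [Finset.sum_apply]
        simp only [Prod.smul_fst, Pi.smul_apply, smul_eq_mul, Prod.fst_zero, Pi.zero_apply]
        have h1 := congrFun hsu i
        simp only [Pi.add_apply, Pi.smul_apply, smul_eq_mul, Pi.zero_apply] at h1
        rw [← h1, Finset.mul_sum, Finset.mul_sum, ← Finset.sum_add_distrib]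
        exact Finset.sum_congr rfl fun k _ => by ring
      · rw [Prod.snd_sum]
        funext j
        rw [Finset.sum_apply]
        simp only [Prod.smul_snd, Pi.smul_apply, smul_eq_mul, Prod.snd_zero, Pi.zero_apply]
        have h1 := hl j
        have h2 := hl' j
        calc ∑ k, (s * l k + u * l' k) * (v k).2 j
            = s * ∑ k, l k * (v k).2 j + u * ∑ k, l' k * (v k).2 j := by
              rw [Finset.mul_sum, Finset.mul_sum, ← Finset.sum_add_distrib]
              exact Finset.sum_congr rfl fun k _ => by ring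
          _ = 0 := by rw [h1, h2]; ring
    have h1 := key p
    rw [hlp', mul_zero, add_zero] at h1
    have hs : s = 0 := (mul_eq_zero.1 h1).resolve_right hp
    refine ⟨hs, ?_⟩
    by_contra hu
    apply hl0'
    funext k
    have h2 := key k
    rw [hs, zero_mul, zero_add] at h2
    exact (mul_eq_zero.1 h2).resolve_left hu
  have hcast : ∀ n : ℤ, ‖n‖ = |(n : ℝ)| := fun n => rfl
  have hbd : ∀ l : Fin (r + 2) → ℤ, (∀ k, |(l k : ℝ)| ≤ (R * X) ^ r) →
      ∀ i, |((∑ k, l k * (v k).1 i : ℤ) : ℝ)| ≤ (R * X) ^ (r + 1) := by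
    intro l hlb i
    push_cast
    calc |∑ k, (l k : ℝ) * ((v k).1 i : ℝ)| ≤ ∑ k, |(l k : ℝ) * ((v k).1 i : ℝ)| :=
          Finset.abs_sum_le_sum_abs _ _
      _ ≤ ∑ _k : Fin (r + 2), (R * X) ^ r * X := by
          refine Finset.sum_le_sum fun k _ => ?_
          rw [abs_mul]
          have h1 : |((v k).1 i : ℝ)| ≤ X := by
            rw [← hcast]
            exact (norm_fst_apply_le (v k) i).trans (hvX k)
          have h2 := hlb k
          gcongr
      _ = (R * X) ^ (r + 1) := by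
          rw [Finset.sum_const, Finset.card_univ, Fintype.card_fin, nsmul_eq_mul, ← hR]
          ring
  have hRX : 1 ≤ (R * X) ^ (r + 1) := one_le_pow₀ (by nlinarith)
  have hm := hθ _ _ hind ((R * X) ^ (r + 1)) hRX (hbd l hlb) (hbd l' hlb')
  by_contra hcon
  push Not at hcon
  obtain ⟨B, hB⟩ : ∃ B : ℝ, B = c / (2 * (R ^ ((r + 1 : ℝ) * μ) * (R * R ^ r))) *
    X ^ (-((r : ℝ) + (r + 1) * μ)) := ⟨_, rfl⟩
  rw [← hB] at hcon
  have hB0 : 0 < B := by rw [hB]; positivity
  have hup : ∀ l : Fin (r + 2) → ℤ, (∀ j, ∑ k, l k * (v k).2 j = 0) →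
      (∀ k, |(l k : ℝ)| ≤ (R * X) ^ r) →
      |∑ i, ((∑ k, l k * (v k).1 i : ℤ) : ℝ) * θ i| ≤ R * ((R * X) ^ r * B) := by
    intro l hl hlb
    rw [value_comb θ t v l hl]
    calc |∑ k, (l k : ℝ) * linr θ t (v k)| ≤ ∑ k, |(l k : ℝ) * linr θ t (v k)| :=
          Finset.abs_sum_le_sum_abs _ _
      _ ≤ ∑ _k : Fin (r + 2), (R * X) ^ r * B := by
          refine Finset.sum_le_sum fun k _ => ?_
          rw [abs_mul]
          have h2 := hlb k
          have h3 := (hcon k).le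
          gcongr
      _ = _ := by
          rw [Finset.sum_const, Finset.card_univ, Fintype.card_fin, nsmul_eq_mul, ← hR]
  have hmax := max_le (hup l hl hlb) (hup l' hl' hlb')
  have hpow : ((R * X) ^ (r + 1)) ^ μ = R ^ ((r + 1 : ℝ) * μ) * X ^ ((r + 1 : ℝ) * μ) := by
    rw [← Real.rpow_natCast (R * X) (r + 1), ← Real.rpow_mul (by positivity),
      Real.mul_rpow hR0.le hX0.le]
    push_cast
    rfl
  have h5 : c ≤ R ^ ((r + 1 : ℝ) * μ) * X ^ ((r + 1 : ℝ) * μ) * (R * ((R * X) ^ r * B)) := by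
    rw [← hpow]
    refine hm.trans ?_
    gcongr
  have h6 : R ^ ((r + 1 : ℝ) * μ) * X ^ ((r + 1 : ℝ) * μ) * (R * ((R * X) ^ r * B)) = c / 2 := by
    have h7 : X ^ ((r + 1 : ℝ) * μ) * (X ^ r * X ^ (-((r : ℝ) + (r + 1) * μ))) = 1 := by
      rw [← Real.rpow_natCast X r, ← Real.rpow_add hX0, ← Real.rpow_add hX0]
      have : (r + 1 : ℝ) * μ + ((r : ℝ) + -((r : ℝ) + (r + 1) * μ)) = 0 := by ring
      rw [this, Real.rpow_zero]
    rw [hB, mul_pow]
    calc R ^ ((r + 1 : ℝ) * μ) * X ^ ((r + 1 : ℝ) * μ) *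
          (R * (R ^ r * X ^ r * (c / (2 * (R ^ ((r + 1 : ℝ) * μ) * (R * R ^ r))) *
            X ^ (-((r : ℝ) + (r + 1) * μ)))))
        = (R ^ ((r + 1 : ℝ) * μ) * (R * R ^ r)) * (c / (2 * (R ^ ((r + 1 : ℝ) * μ) * (R * R ^ r)))) *
          (X ^ ((r + 1 : ℝ) * μ) * (X ^ r * X ^ (-((r : ℝ) + (r + 1) * μ)))) := by ring
      _ = c / 2 := by
          rw [h7, mul_one]
          field_simp
  rw [h6] at h5
  linarith

end Pool.Agent.R355.NR2
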