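import Pool.Agent.R355.NR2F

/-!
# Covering the near relations by few sublattices of small rank
-/

set_option autoImplicit false

namespace Pool.Agent.R355.NR2

open Real Set

/-- **Few sublattices.** Suppose that among `D + 1` independent vectors of norm at most `X` one has a value at least
`c X ^ (-κ)`. Then the vectors `v` of norm between `H₀` and `X` with `|L v| ≤ ‖v‖ ^ (-w)` are contained in
`log log X / log ρ + 1` sets without `D + 1` linearly independent vectors, if `1 < ρ` and `ρ κ < w`. -/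
theorem cover {M : Type*} [SeminormedAddCommGroup M] (D : ℕ) (c κ ρ w : ℝ) (hc : 0 < c) (hκ : 0 ≤ κ)
    (hρ : 1 < ρ) (hw : ρ * κ < w) :
    ∃ H₀ : ℝ, ∀ L : M → ℝ,
      (∀ X : ℝ, 1 ≤ X → ∀ v : Fin (D + 1) → M, LinearIndependent ℤ v → (∀ k, ‖v k‖ ≤ X) →
        ∃ k, c * X ^ (-κ) ≤ |L (v k)|) →
      ∀ X : ℝ, 3 ≤ X → ∃ (n : ℕ) (W : Fin n → Set M), (n : ℝ) ≤ log (log X) / log ρ + 1 ∧
        (∀ i, ∀ u : Fin (D + 1) → M, (∀ k, u k ∈ W i) → ¬ LinearIndependent ℤ u) ∧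
        ∀ v : M, H₀ ≤ ‖v‖ → ‖v‖ ≤ X → |L v| ≤ ‖v‖ ^ (-w) → ∃ i, v ∈ W i := by
  have hlρ : 0 < log ρ := Real.log_pos hρ
  have hρ0 : 0 < ρ := by linarith
  obtain ⟨H₀, hH3, hH0⟩ : ∃ H₀ : ℝ, 3 ≤ H₀ ∧ ∀ H : ℝ, H₀ ≤ H → 1 / c < H ^ (w - ρ * κ) := by
    have h1 := tendsto_rpow_atTop (show 0 < w - ρ * κ by linarith)
    have h2 := h1.eventually_gt_atTop (1 / c)
    obtain ⟨a, ha⟩ := Filter.eventually_atTop.1 h2
    exact ⟨max a 3, le_max_right _ _, fun H hH => ha H ((le_max_left _ _).trans hH)⟩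
  have hlog3 : 1 < log 3 := by
    have h1 : Real.exp 1 < 3 := by
      have := Real.exp_one_lt_d9
      linarith
    have := Real.log_lt_log (Real.exp_pos 1) h1
    rwa [Real.log_exp] at this
  have hl1 : ∀ H : ℝ, 3 ≤ H → 1 < log H := fun H hH =>
    hlog3.trans_le (Real.log_le_log (by norm_num) hH)
  have hll : ∀ H : ℝ, 3 ≤ H → 0 < log (log H) := fun H hH => Real.log_pos (hl1 H hH)
  refine ⟨H₀, fun L hL X hX => ?_⟩
  refine ⟨⌊log (log X) / log ρ⌋₊ + 1, fun i => {v | H₀ ≤ ‖v‖ ∧ |L v| ≤ ‖v‖ ^ (-w) ∧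
    ⌊log (log ‖v‖) / log ρ⌋₊ = (i : ℕ)}, ?_, ?_, ?_⟩
  · have h1 : 0 ≤ log (log X) / log ρ := (div_pos (hll X hX) hlρ).le
    have h2 := Nat.floor_le h1
    push_cast
    linarith
  · intro i u hu hind
    obtain ⟨E, hE⟩ : ∃ E : ℝ, E = Real.exp (ρ ^ (i : ℕ)) := ⟨_, rfl⟩
    have hE0 : 0 < E := by rw [hE]; exact Real.exp_pos _
    have hE1 : 1 ≤ E := by rw [hE]; exact Real.one_le_exp (by positivity)
    -- the range of the norms
    have hrange : ∀ k, E ≤ ‖u k‖ ∧ ‖u k‖ ≤ E ^ ρ := by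
      intro k
      obtain ⟨h1, h2, h3⟩ := hu k
      have h4 : 3 ≤ ‖u k‖ := hH3.trans h1
      have h5 : 0 < ‖u k‖ := by linarith
      have h6 := hl1 _ h4
      have h7 : 0 < log (log ‖u k‖) := hll _ h4
      have h8 : 0 ≤ log (log ‖u k‖) / log ρ := (div_pos h7 hlρ).le
      have h9 := Nat.floor_le h8
      have h10 := Nat.lt_floor_add_one (log (log ‖u k‖) / log ρ)
      rw [h3] at h9 h10
      rw [le_div_iff₀ hlρ, ← Real.log_pow] at h9
      rw [div_lt_iff₀ hlρ] at h10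
      have h11 : ((i : ℕ) + 1 : ℝ) * log ρ = log (ρ ^ ((i : ℕ) + 1)) := by
        rw [Real.log_pow]
        push_cast
        ring
      rw [h11] at h10
      have h12 : ρ ^ (i : ℕ) ≤ log ‖u k‖ :=
        (Real.log_le_log_iff (by positivity) (by linarith)).1 h9
      have h13 : log ‖u k‖ < ρ ^ ((i : ℕ) + 1) :=
        (Real.log_lt_log_iff (by linarith) (by positivity)).1 h10
      constructor
      · rw [hE]
        exact (Real.le_log_iff_exp_le h5).1 h12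
      · have h14 : E ^ ρ = Real.exp (ρ ^ ((i : ℕ) + 1)) := by
          rw [hE, ← Real.exp_mul, pow_succ]
        rw [h14]
        exact ((Real.log_lt_iff_lt_exp h5).1 h13).le
    have hEρ : 1 ≤ E ^ ρ := Real.one_le_rpow hE1 hρ0.le
    obtain ⟨k, hk⟩ := hL (E ^ ρ) hEρ u hind (fun k => (hrange k).2)
    obtain ⟨h1, h2, -⟩ := hu k
    obtain ⟨H, hHdef⟩ : ∃ H : ℝ, H = ‖u k‖ := ⟨_, rfl⟩
    have hHE : E ≤ H := by rw [hHdef]; exact (hrange k).1
    rw [← hHdef] at h1 h2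
    have hHpos : 0 < H := by linarith
    have h3 : c * H ^ (-(ρ * κ)) ≤ H ^ (-w) := by
      calc c * H ^ (-(ρ * κ)) ≤ c * E ^ (-(ρ * κ)) := by
            gcongr c * ?_
            exact Real.rpow_le_rpow_of_nonpos hE0 hHE (by nlinarith)
        _ = c * (E ^ ρ) ^ (-κ) := by
            rw [← Real.rpow_mul hE0.le]
            congr 2
            ring
        _ ≤ |L (u k)| := hk
        _ ≤ H ^ (-w) := h2
    have h4 := hH0 H h1
    rw [div_lt_iff₀ hc] at h4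
    have h5 : H ^ (w - ρ * κ) * c ≤ 1 := by
      have h6 : H ^ w * (c * H ^ (-(ρ * κ))) ≤ H ^ w * H ^ (-w) := by gcongr
      rw [← Real.rpow_add hHpos, add_neg_cancel, Real.rpow_zero] at h6
      calc H ^ (w - ρ * κ) * c = H ^ w * (c * H ^ (-(ρ * κ))) := by
            rw [sub_eq_add_neg, Real.rpow_add hHpos]
            ring
        _ ≤ 1 := h6
    linarith
  · intro v h1 h2 h3
    have h4 : 3 ≤ ‖v‖ := hH3.trans h1
    have h5 : ⌊log (log ‖v‖) / log ρ⌋₊ ≤ ⌊log (log X) / log ρ⌋₊ := by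
      refine Nat.floor_le_floor ?_
      gcongr
      have := hl1 _ h4
      linarith
    exact ⟨⟨_, Nat.lt_succ_of_le h5⟩, h1, h3, rfl⟩

end Pool.Agent.R355.NR2
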