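import Pool.Agent.R355.NR2P
import Pool.Agent.TH550.NRZ.Unif

/-!
# Near relations: from the two measures to the four statements
-/

set_option autoImplicit false

namespace Pool.Agent.R355.NR2

open Real Set Pool.Agent.W472.AC Pool.Agent.TH647.NR

/-- an irrationality exponent as a bound for linear forms -/
theorem lin_of_exp (z μ : ℝ) (hμ : 1 ≤ μ) (c : ℝ) (hc : 0 < c)
    (h : ∀ (p : ℤ) (q : ℕ), 0 < q → c / (q : ℝ) ^ μ ≤ |z - (p : ℝ) / q|)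
    (a b : ℤ) (hb : b ≠ 0) (H : ℝ) (hbH : |(b : ℝ)| ≤ H) :
    c * H ^ (-(μ - 1)) ≤ |(a : ℝ) + b * z| := by
  have hq : 0 < b.natAbs := Int.natAbs_pos.2 hb
  obtain ⟨B, hB⟩ : ∃ B : ℝ, B = |(b : ℝ)| := ⟨_, rfl⟩
  have hbR : 0 < B := by
    have : (b : ℝ) ≠ 0 := by exact_mod_cast hb
    rw [hB]
    positivity
  obtain ⟨p, hp⟩ : ∃ p : ℤ, p = -a * b.sign := ⟨_, rfl⟩
  have h1 := h p b.natAbs hq
  have e1 : ((b.natAbs : ℕ) : ℝ) = B := by
    rw [Nat.cast_natAbs, Int.cast_abs, hB]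
  rw [e1] at h1
  rw [← hB] at hbH
  have e2 : B * |z - (p : ℝ) / B| = |(a : ℝ) + b * z| := by
    have e3 : B * |z - (p : ℝ) / B| = |B * z - p| := by
      rw [← abs_of_pos hbR, ← abs_mul, abs_of_pos hbR]
      congr 1
      field_simp
    rw [e3, hp, hB]
    rcases lt_or_gt_of_ne hb with hb' | hb'
    · have h2 : (b : ℝ) < 0 := by exact_mod_cast hb'
      rw [abs_of_neg h2, Int.sign_eq_neg_one_of_neg hb']
      rw [← abs_neg]
      congr 1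
      push_cast
      ring
    · have h2 : (0 : ℝ) < b := by exact_mod_cast hb'
      rw [abs_of_pos h2, Int.sign_eq_one_of_pos hb']
      congr 1
      push_cast
      ring
  rw [← e2]
  calc c * H ^ (-(μ - 1)) ≤ c * B ^ (-(μ - 1)) := by
        gcongr c * ?_
        exact Real.rpow_le_rpow_of_nonpos hbR hbH (by linarith)
    _ = B * (c / B ^ μ) := by
        have e4 : B ^ μ = B ^ (μ - 1) * B := by
          nth_rewrite 3 [← Real.rpow_one B]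
          rw [← Real.rpow_add hbR, sub_add_cancel]
        have e5 : 0 < B ^ (μ - 1) := by positivity
        rw [e4, Real.rpow_neg hbR.le]
        field_simp
    _ ≤ B * |z - (p : ℝ) / B| := by gcongr

/-- an irrationality exponent as a measure for `1, z` -/
theorem meas_of_exp (z μ : ℝ) (hμ : 1 ≤ μ) (c : ℝ) (hc : 0 < c)
    (h : ∀ (p : ℤ) (q : ℕ), 0 < q → c / (q : ℝ) ^ μ ≤ |z - (p : ℝ) / q|) :
    Meas (![1, z] : Fin (1 + 1) → ℝ) (μ - 1) (min c 1) := by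
  intro a ha H hH hb
  have hH0 : 0 < H := by linarith
  have hval : ∑ j, (a j : ℝ) * (![1, z] : Fin (1 + 1) → ℝ) j = a 0 + a 1 * z := by
    rw [Fin.sum_univ_two]
    simp
  rw [hval]
  have hp : 0 < H ^ (μ - 1) := by positivity
  by_cases h1 : a 1 = 0
  · have h0 : a 0 ≠ 0 := by
      intro h0
      apply ha
      funext i
      fin_cases i
      · exact h0
      · exact h1
    rw [h1, Int.cast_zero, zero_mul, add_zero]
    have h4 : (1 : ℝ) ≤ |(a 0 : ℝ)| := by exact_mod_cast Int.one_le_abs h0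
    have h5 : (1 : ℝ) ≤ H ^ (μ - 1) := Real.one_le_rpow hH (by linarith)
    calc min c 1 ≤ 1 := min_le_right _ _
      _ = 1 * 1 := (one_mul 1).symm
      _ ≤ H ^ (μ - 1) * |(a 0 : ℝ)| := by gcongr
  · have h2 := lin_of_exp z μ hμ c hc h (a 0) (a 1) h1 H (hb 1)
    calc min c 1 ≤ c := min_le_left _ _
      _ = H ^ (μ - 1) * (c * H ^ (-(μ - 1))) := by
          rw [mul_left_comm, ← Real.rpow_add hH0, add_neg_cancel, Real.rpow_zero, mul_one]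
      _ ≤ H ^ (μ - 1) * |(a 0 : ℝ) + a 1 * z| := by gcongr

/-- the value of a polynomial of degree at most `m + 1` -/
theorem aeval_split (m : ℕ) (z : ℝ) (P : Polynomial ℤ) (h : P.natDegree ≤ m + 1) :
    Polynomial.aeval z P = (P.coeff 0 : ℝ) + P.coeff 1 * z +
      ∑ j : Fin m, (P.coeff ((j : ℕ) + 2) : ℝ) * z ^ ((j : ℕ) + 2) := by
  have h1 : Polynomial.aeval z P = ∑ i ∈ Finset.range (m + 2), (P.coeff i : ℝ) * z ^ i := by
    rw [Polynomial.aeval_eq_sum_range' (show P.natDegree < m + 2 by omega)]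
    exact Finset.sum_congr rfl fun i _ => by rw [zsmul_eq_mul]
  rw [h1, Finset.sum_range_succ', Finset.sum_range_succ', Finset.sum_range]
  have h2 : ∑ j : Fin m, (P.coeff ((j : ℕ) + 2) : ℝ) * z ^ ((j : ℕ) + 2) =
      ∑ j : Fin m, (P.coeff ((j : ℕ) + 1 + 1) : ℝ) * z ^ ((j : ℕ) + 1 + 1) := rfl
  rw [h2, pow_zero, mul_one, zero_add, pow_one]
  ring

/-- near relations between `1, z` and arbitrary numbers -/
theorem near_one (z μ : ℝ) (hμ : 1 ≤ μ) (c : ℝ) (hc : 0 < c)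
    (h : ∀ (p : ℤ) (q : ℕ), 0 < q → c / (q : ℝ) ^ μ ≤ |z - (p : ℝ) / q|) (r : ℕ) :
    ∃ c : ℝ, 0 < c ∧ ∀ (t : Fin r → ℝ) (X : ℝ), 1 ≤ X →
      ∀ v : Fin (r + 1) → (Fin 2 → ℤ) × (Fin r → ℤ), LinearIndependent ℤ v →
        (∀ k, ‖v k‖ ≤ X) →
        ∃ k, c * X ^ (-(μ * (r : ℝ) + (μ - 1))) ≤
          |((v k).1 0 : ℝ) + (v k).1 1 * z + ∑ j, ((v k).2 j : ℝ) * t j| := by
  obtain ⟨c', hc', h'⟩ := rank_bound _ (μ - 1) (min c 1) (by positivity)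
    (meas_of_exp z μ hμ c hc h) r
  refine ⟨c', hc', fun t X hX v hv hvX => ?_⟩
  obtain ⟨k, hk⟩ := h' t X hX v hv hvX
  refine ⟨k, ?_⟩
  have e1 : linr (![1, z] : Fin (1 + 1) → ℝ) t (v k) =
      ((v k).1 0 : ℝ) + (v k).1 1 * z + ∑ j, ((v k).2 j : ℝ) * t j := by
    unfold linr
    rw [Fin.sum_univ_two]
    simp
  rw [e1] at hk
  refine le_trans (le_of_eq ?_) hk
  congr 2
  ring

/-- polynomials in `z` -/
theorem near_poly (z μ : ℝ) (hμ : 1 ≤ μ) (c : ℝ) (hc : 0 < c)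
    (h : ∀ (p : ℤ) (q : ℕ), 0 < q → c / (q : ℝ) ^ μ ≤ |z - (p : ℝ) / q|) (m : ℕ) :
    ∃ c : ℝ, 0 < c ∧ ∀ X : ℝ, 1 ≤ X →
      ∀ P : Fin (m + 1) → Polynomial ℤ, LinearIndependent ℤ P → (∀ k, (P k).natDegree ≤ m + 1) →
        (∀ k i, |((P k).coeff i : ℝ)| ≤ X) →
        ∃ k, c * X ^ (-(μ * ((m : ℝ) + 1) - 1)) ≤ |Polynomial.aeval z (P k)| := by
  obtain ⟨c, hc, h⟩ := near_one z μ hμ c hc h m
  refine ⟨c, hc, fun X hX P hP hdeg hX' => ?_⟩
  obtain ⟨v, hv⟩ : ∃ v : Fin (m + 1) → (Fin 2 → ℤ) × (Fin m → ℤ), v = fun k =>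
    ((fun i : Fin 2 => (P k).coeff (i : ℕ)), (fun j : Fin m => (P k).coeff ((j : ℕ) + 2))) :=
    ⟨_, rfl⟩
  have hv1 : ∀ k i, (v k).1 i = (P k).coeff (i : ℕ) := fun k i => by rw [hv]
  have hv2 : ∀ k j, (v k).2 j = (P k).coeff ((j : ℕ) + 2) := fun k j => by rw [hv]
  have hvl : LinearIndependent ℤ v := by
    rw [Fintype.linearIndependent_iff] at hP ⊢
    intro g hg
    refine hP g ?_
    have hcoe : ∀ i : ℕ, ∑ k, g k * (P k).coeff i = 0 := by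
      intro i
      rcases lt_or_ge i 2 with h2 | h2
      · have h3 := congrFun (congrArg Prod.fst hg) ⟨i, h2⟩
        rw [Prod.fst_sum, Finset.sum_apply] at h3
        simp only [Prod.smul_fst, Pi.smul_apply, smul_eq_mul, hv1, Prod.fst_zero,
          Pi.zero_apply] at h3
        exact h3
      · rcases lt_or_ge i (m + 2) with h4 | h4
        · have h3 := congrFun (congrArg Prod.snd hg) ⟨i - 2, by omega⟩
          rw [Prod.snd_sum, Finset.sum_apply] at h3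
          have h5 : i - 2 + 2 = i := by omega
          simp only [Prod.smul_snd, Pi.smul_apply, smul_eq_mul, hv2, h5, Prod.snd_zero,
            Pi.zero_apply] at h3
          exact h3
        · refine Finset.sum_eq_zero fun k _ => ?_
          rw [Polynomial.coeff_eq_zero_of_natDegree_lt (by have := hdeg k; omega), mul_zero]
    ext i
    simpa [Polynomial.finsetSum_coeff] using hcoe i
  have hvn : ∀ k, ‖v k‖ ≤ X := by
    intro k
    have hX0 : 0 ≤ X := by linarith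
    have hcast : ∀ n : ℤ, ‖n‖ = |(n : ℝ)| := fun n => rfl
    rw [Prod.norm_def, max_le_iff]
    refine ⟨(pi_norm_le_iff_of_nonneg hX0).2 fun i => ?_,
      (pi_norm_le_iff_of_nonneg hX0).2 fun i => ?_⟩
    · rw [hv1, hcast]
      exact hX' k _
    · rw [hv2, hcast]
      exact hX' k _
  obtain ⟨k, hk⟩ := h (fun j => z ^ ((j : ℕ) + 2)) X hX v hvl hvn
  refine ⟨k, ?_⟩
  have e1 : Polynomial.aeval z (P k) = ((v k).1 0 : ℝ) + (v k).1 1 * z +
      ∑ j, ((v k).2 j : ℝ) * z ^ ((j : ℕ) + 2) := by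
    simp only [aeval_split m z (P k) (hdeg k), hv1, hv2]
    rfl
  rw [e1]
  refine le_trans (le_of_eq ?_) hk
  congr 2
  ring

/-- near relations between `1, x, y, z` and arbitrary numbers -/
theorem near_four (x y z c : ℝ) (N : ℕ) (h : Away x y z c N) (hc : 0 < c) (r : ℕ) :
    ∃ c : ℝ, 0 < c ∧ ∀ (t : Fin r → ℝ) (X : ℝ), 1 ≤ X →
      ∀ v : Fin (r + 2) → (Fin 4 → ℤ) × (Fin r → ℤ), LinearIndependent ℤ v →
        (∀ k, ‖v k‖ ≤ X) →
        ∃ k, c * X ^ (-((2 * N + 2) * (r : ℝ) + (2 * N + 1))) ≤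
          |((v k).1 0 : ℝ) + (v k).1 1 * x + (v k).1 2 * y + (v k).1 3 * z +
            ∑ j, ((v k).2 j : ℝ) * t j| := by
  obtain ⟨c1, hc1, h1⟩ := meas2_of_away h hc
  obtain ⟨c', hc', h'⟩ := rank_bound2 _ (2 * N + 1) c1 hc1 h1 r
  refine ⟨c', hc', fun t X hX v hv hvX => ?_⟩
  obtain ⟨k, hk⟩ := h' t X hX v hv hvX
  refine ⟨k, ?_⟩
  have e1 : linr (![1, x, y, z] : Fin (3 + 1) → ℝ) t (v k) =
      ((v k).1 0 : ℝ) + (v k).1 1 * x + (v k).1 2 * y + (v k).1 3 * z +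
        ∑ j, ((v k).2 j : ℝ) * t j := by
    unfold linr
    rw [Fin.sum_univ_four]
    simp
  rw [e1] at hk
  refine le_trans (le_of_eq ?_) hk
  congr 2
  ring

lemma finite_ball4 (X : ℝ) : {v : Fin 4 → ℤ | ‖v‖ ≤ X}.Finite := by
  have h1 : {v : Fin 4 → ℤ | ‖v‖ ≤ X} = Metric.closedBall 0 X := by
    ext v; simp
  rw [h1]
  exact (isCompact_closedBall (0 : Fin 4 → ℤ) X).finite_of_discrete

/-- near relations between `1, x, y, z` are sparse -/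
theorem sparse_four (x y z c : ℝ) (N : ℕ) (h : Away x y z c N) (hc : 0 < c) (w ρ : ℝ)
    (hρ : 1 < ρ) (hρw : ρ * (2 * N + 1) < w) :
    ∃ C : ℝ, ∀ S : Set (Fin 4 → ℤ),
      (∀ v ∈ S, |(v 0 : ℝ) + v 1 * x + v 2 * y + v 3 * z| ≤ ‖v‖ ^ (-w)) →
      (∀ v ∈ S, ∀ v' ∈ S, v ≠ v' → LinearIndependent ℤ ![v, v']) →
      ∀ X : ℝ, 3 ≤ X → {v ∈ S | ‖v‖ ≤ X}.Finite ∧
        ({v ∈ S | ‖v‖ ≤ X}.ncard : ℝ) ≤ log (log X) / log ρ + C := by
  obtain ⟨c1, hc1, h1⟩ := meas2_of_away h hc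
  have hN : (0 : ℝ) < 2 * N + 1 := by positivity
  obtain ⟨μ, hμ⟩ : ∃ μ : ℝ, μ = 2 * N + 1 := ⟨_, rfl⟩
  rw [← hμ] at h1 hρw hN
  have hγ : ρ < w / μ := by rw [lt_div_iff₀ hN]; exact hρw
  have hw : 0 < w := by nlinarith
  obtain ⟨C', hC'⟩ := Pool.Agent.TH550.NRZ.count_unif (fun v : Fin 4 → ℤ => ‖v‖) finite_ball4
    (c1 ^ (1 / μ)) (w / μ) ρ (by positivity) hρ hγ
  refine ⟨C', fun S hS hind X hX => hC' S ?_ X hX⟩
  intro v hv v' hv' hne hle h1v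
  have hv0 : 0 < ‖v‖ := by linarith
  have hv0' : 0 < ‖v'‖ := by linarith
  have hcast : ∀ n : ℤ, ‖n‖ = |(n : ℝ)| := fun n => rfl
  have hb : ∀ (u : Fin 4 → ℤ) j, |(u j : ℝ)| ≤ ‖u‖ := by
    intro u j
    rw [← hcast]
    exact norm_le_pi_norm u j
  have hval : ∀ a : Fin (3 + 1) → ℤ, ∑ j, (a j : ℝ) * (![1, x, y, z] : Fin (3 + 1) → ℝ) j =
      a 0 + a 1 * x + a 2 * y + a 3 * z := by
    intro a
    rw [Fin.sum_univ_four]
    simp
  have h2 := h1 v v' (hind v hv v' hv' hne) ‖v'‖ (by linarith) (fun j => (hb v j).trans hle)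
    (fun j => hb v' j)
  rw [hval v, hval v'] at h2
  have h3 : max |(v 0 : ℝ) + v 1 * x + v 2 * y + v 3 * z| |(v' 0 : ℝ) + v' 1 * x + v' 2 * y + v' 3 * z| ≤
      ‖v‖ ^ (-w) := by
    refine max_le (hS v hv) ((hS v' hv').trans ?_)
    exact Real.rpow_le_rpow_of_nonpos hv0 hle (by linarith)
  have h4 : c1 ≤ ‖v'‖ ^ μ * ‖v‖ ^ (-w) := h2.trans (by gcongr)
  have h5 : c1 * ‖v‖ ^ w ≤ ‖v'‖ ^ μ := by
    rw [Real.rpow_neg hv0.le] at h4
    have h6 : 0 < ‖v‖ ^ w := by positivity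
    calc c1 * ‖v‖ ^ w ≤ (‖v'‖ ^ μ * (‖v‖ ^ w)⁻¹) * ‖v‖ ^ w := by gcongr
      _ = ‖v'‖ ^ μ := by field_simp
  have h6 : (c1 * ‖v‖ ^ w) ^ (1 / μ) ≤ (‖v'‖ ^ μ) ^ (1 / μ) :=
    Real.rpow_le_rpow (by positivity) h5 (by positivity)
  rw [Real.mul_rpow hc1.le (by positivity), ← Real.rpow_mul hv0.le, ← Real.rpow_mul hv0'.le,
    mul_one_div, mul_one_div, div_self hN.ne', Real.rpow_one] at h6
  exact h6

end Pool.Agent.R355.NR2
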