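import Pool.Agent.R355.NR2

/-!
# From the distance to rational lines to two independent near relations
-/

set_option autoImplicit false

namespace Pool.Agent.R355.NR2

open Real Set Pool.Agent.W472.AC Pool.Agent.TH647.NR

/-- the three numbers `x, y, z` are not simultaneously close to a rational line -/
def Away (x y z c : ℝ) (N : ℕ) : Prop :=
  ∀ (q : ℕ) (p1 p2 p3 b1 b2 b3 : ℤ) (θ H : ℝ), 0 < q → (q : ℝ) ≤ H → |(b1 : ℝ)| ≤ H → |(b2 : ℝ)| ≤ H →
    |(b3 : ℝ)| ≤ H →
    c / H ^ N ≤ |x - ((p1 : ℝ) + θ * b1) / q| ∨ c / H ^ N ≤ |y - ((p2 : ℝ) + θ * b2) / q| ∨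
      c / H ^ N ≤ |z - ((p3 : ℝ) + θ * b3) / q|

lemma Away.swap12 {x y z c : ℝ} {N : ℕ} (h : Away x y z c N) : Away y x z c N := by
  intro q p1 p2 p3 b1 b2 b3 θ H hq hqH h1 h2 h3
  rcases h q p2 p1 p3 b2 b1 b3 θ H hq hqH h2 h1 h3 with h | h | h
  · exact Or.inr (Or.inl h)
  · exact Or.inl h
  · exact Or.inr (Or.inr h)

lemma Away.swap23 {x y z c : ℝ} {N : ℕ} (h : Away x y z c N) : Away x z y c N := by
  intro q p1 p2 p3 b1 b2 b3 θ H hq hqH h1 h2 h3
  rcases h q p1 p3 p2 b1 b3 b2 θ H hq hqH h1 h3 h2 with h | h | h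
  · exact Or.inl h
  · exact Or.inr (Or.inr h)
  · exact Or.inr (Or.inl h)

lemma det_le (a b c d : ℤ) (H : ℝ) (ha : |(a : ℝ)| ≤ H) (hb : |(b : ℝ)| ≤ H) (hc : |(c : ℝ)| ≤ H)
    (hd : |(d : ℝ)| ≤ H) : |((a * b - c * d : ℤ) : ℝ)| ≤ 2 * H ^ 2 := by
  push_cast
  calc |(a : ℝ) * b - c * d| ≤ |(a : ℝ) * b| + |(c : ℝ) * d| := abs_sub _ _
    _ ≤ H * H + H * H := by
        rw [abs_mul, abs_mul]
        have h0 : (0 : ℝ) ≤ |(a : ℝ)| := abs_nonneg _
        have h1 : (0 : ℝ) ≤ |(c : ℝ)| := abs_nonneg _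
        have h2 : 0 ≤ H := h0.trans ha
        gcongr
    _ = 2 * H ^ 2 := by ring

lemma comb_le (a b : ℤ) (A B H : ℝ) (ha : |(a : ℝ)| ≤ H) (hb : |(b : ℝ)| ≤ H) :
    |(a : ℝ) * A - b * B| ≤ 2 * H * max |A| |B| := by
  have h0 : (0 : ℝ) ≤ |(a : ℝ)| := abs_nonneg _
  have h2 : 0 ≤ H := h0.trans ha
  calc |(a : ℝ) * A - b * B| ≤ |(a : ℝ) * A| + |(b : ℝ) * B| := abs_sub _ _
    _ ≤ H * max |A| |B| + H * max |A| |B| := by
        rw [abs_mul, abs_mul]
        have h1 : |A| ≤ max |A| |B| := le_max_left _ _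
        have h3 : |B| ≤ max |A| |B| := le_max_right _ _
        gcongr
    _ = _ := by ring

/-- the case of independent linear parts -/
lemma case_det {x y z c : ℝ} {N : ℕ} (h : Away x y z c N) (a0 a1 a2 a3 b0 b1 b2 b3 : ℤ) (H : ℝ)
    (hH : 1 ≤ H) (hc : 0 < c)
    (ha1 : |(a1 : ℝ)| ≤ H) (ha2 : |(a2 : ℝ)| ≤ H) (ha3 : |(a3 : ℝ)| ≤ H)
    (hb1 : |(b1 : ℝ)| ≤ H) (hb2 : |(b2 : ℝ)| ≤ H) (hb3 : |(b3 : ℝ)| ≤ H)
    (hD : a1 * b2 - a2 * b1 ≠ 0) :
    c / 2 ^ (N + 1) ≤ H ^ (2 * N + 1) *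
      max |(a0 : ℝ) + a1 * x + a2 * y + a3 * z| |(b0 : ℝ) + b1 * x + b2 * y + b3 * z| := by
  obtain ⟨D, hDd⟩ : ∃ D : ℤ, D = a1 * b2 - a2 * b1 := ⟨_, rfl⟩
  rw [← hDd] at hD
  obtain ⟨A, hA⟩ : ∃ A : ℝ, A = (a0 : ℝ) + a1 * x + a2 * y + a3 * z := ⟨_, rfl⟩
  obtain ⟨B, hB⟩ : ∃ B : ℝ, B = (b0 : ℝ) + b1 * x + b2 * y + b3 * z := ⟨_, rfl⟩
  rw [← hA, ← hB]
  have hH0 : 0 < H := by linarith
  obtain ⟨q, hq⟩ : ∃ q : ℕ, q = D.natAbs := ⟨_, rfl⟩
  have hq0 : 0 < q := by rw [hq]; exact Int.natAbs_pos.2 hD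
  have hqR : (1 : ℝ) ≤ q := by exact_mod_cast hq0
  -- sign
  obtain ⟨s, hs, hsD⟩ : ∃ s : ℤ, (s = 1 ∨ s = -1) ∧ (q : ℤ) = s * D := by
    rcases Int.natAbs_eq D with h1 | h1
    · exact ⟨1, Or.inl rfl, by rw [hq, one_mul]; exact h1.symm⟩
    · refine ⟨-1, Or.inr rfl, ?_⟩
      rw [hq]
      omega
  have hs1 : |(s : ℝ)| = 1 := by
    rcases hs with h1 | h1 <;> rw [h1] <;> simp
  have hss : (s : ℝ) * s = 1 := by
    rcases hs with h1 | h1 <;> rw [h1] <;> norm_num
  have hqD : (q : ℝ) = s * D := by exact_mod_cast hsD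
  have hDR : (D : ℝ) = a1 * b2 - a2 * b1 := by rw [hDd]; push_cast; ring
  have hqH : (q : ℝ) ≤ 2 * H ^ 2 := by
    have h1 : (q : ℝ) = |(D : ℝ)| := by rw [hq, Nat.cast_natAbs]; push_cast; rfl
    rw [h1, hDd]
    exact det_le a1 b2 a2 b1 H ha1 hb2 ha2 hb1
  have habs : ∀ e : ℤ, |((s * e : ℤ) : ℝ)| = |(e : ℝ)| := by
    intro e
    push_cast
    rw [abs_mul, hs1, one_mul]
  have h1 := h q (-(s * (a0 * b2 - b0 * a2))) (-(s * (a1 * b0 - b1 * a0))) 0
    (-(s * (a3 * b2 - b3 * a2))) (-(s * (a1 * b3 - b1 * a3))) q z (2 * H ^ 2) hq0 hqH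
    (by rw [Int.cast_neg, abs_neg, habs]; exact det_le a3 b2 b3 a2 H ha3 hb2 hb3 ha2)
    (by rw [Int.cast_neg, abs_neg, habs]; exact det_le a1 b3 b1 a3 H ha1 hb3 hb1 ha3)
    (by rw [Int.cast_natCast, Nat.abs_cast]; exact hqH)
  have hq0' : (q : ℝ) ≠ 0 := by linarith
  have hM : 0 ≤ max |A| |B| := le_max_of_le_left (abs_nonneg _)
  have hfin : c / (2 * H ^ 2) ^ N ≤ 2 * H * max |A| |B| →
      c / 2 ^ (N + 1) ≤ H ^ (2 * N + 1) * max |A| |B| := by
    intro h2
    rw [div_le_iff₀ (by positivity)] at h2 ⊢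
    calc c ≤ 2 * H * max |A| |B| * (2 * H ^ 2) ^ N := h2
      _ = H ^ (2 * N + 1) * max |A| |B| * 2 ^ (N + 1) := by
          rw [mul_pow, ← pow_mul]
          ring
  have hfrac : ∀ u : ℝ, |u / q| ≤ |u| := by
    intro u
    rw [abs_div, Nat.abs_cast]
    exact div_le_self (abs_nonneg _) hqR
  rcases h1 with h1 | h1 | h1
  · apply hfin
    refine h1.trans ?_
    have e : x - (((-(s * (a0 * b2 - b0 * a2)) : ℤ) : ℝ) + z * ((-(s * (a3 * b2 - b3 * a2)) : ℤ) : ℝ)) / q =
        (s * ((b2 : ℝ) * A - a2 * B)) / q := by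
      rw [eq_div_iff hq0', sub_mul, div_mul_cancel₀ _ hq0']
      rw [hqD, hDR, hA, hB]
      push_cast
      ring
    rw [e]
    refine (hfrac _).trans ?_
    rw [abs_mul, hs1, one_mul]
    exact comb_le b2 a2 A B H hb2 ha2
  · apply hfin
    refine h1.trans ?_
    have e : y - (((-(s * (a1 * b0 - b1 * a0)) : ℤ) : ℝ) + z * ((-(s * (a1 * b3 - b1 * a3)) : ℤ) : ℝ)) / q =
        (s * ((a1 : ℝ) * B - b1 * A)) / q := by
      rw [eq_div_iff hq0', sub_mul, div_mul_cancel₀ _ hq0']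
      rw [hqD, hDR, hA, hB]
      push_cast
      ring
    rw [e]
    refine (hfrac _).trans ?_
    rw [abs_mul, hs1, one_mul, max_comm]
    exact comb_le a1 b1 B A H ha1 hb1
  · exfalso
    have e : z - (((0 : ℤ) : ℝ) + z * (((q : ℕ) : ℤ) : ℝ)) / q = 0 := by
      rw [Int.cast_zero, zero_add, Int.cast_natCast, mul_div_assoc, div_self hq0', mul_one, sub_self]
    rw [e, abs_zero] at h1
    have : 0 < c / (2 * H ^ 2) ^ N := by positivity
    linarith

/-- **From the distance to rational lines to near relations.** -/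
theorem meas2_of_away {x y z c : ℝ} {N : ℕ} (h : Away x y z c N) (hc : 0 < c) :
    ∃ c' : ℝ, 0 < c' ∧ Meas2 (![1, x, y, z] : Fin (3 + 1) → ℝ) (2 * N + 1) c' := by
  refine ⟨min (c / 2 ^ (N + 1)) (1 / 2), by positivity, ?_⟩
  intro a b hab H hH ha hb
  have hH0 : 0 < H := by linarith
  have hval : ∀ a : Fin (3 + 1) → ℤ, ∑ j, (a j : ℝ) * (![1, x, y, z] : Fin (3 + 1) → ℝ) j =
      a 0 + a 1 * x + a 2 * y + a 3 * z := by
    intro a
    rw [Fin.sum_univ_four]
    simp
  rw [hval a, hval b]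
  have hpw : H ^ (2 * (N : ℝ) + 1) = H ^ (2 * N + 1) := by
    rw [← Real.rpow_natCast H (2 * N + 1)]
    push_cast
    rfl
  rw [hpw]
  obtain ⟨A, hA⟩ : ∃ A : ℝ, A = (a 0 : ℝ) + a 1 * x + a 2 * y + a 3 * z := ⟨_, rfl⟩
  obtain ⟨B, hB⟩ : ∃ B : ℝ, B = (b 0 : ℝ) + b 1 * x + b 2 * y + b 3 * z := ⟨_, rfl⟩
  by_cases h12 : a 1 * b 2 - a 2 * b 1 = 0
  · by_cases h13 : a 1 * b 3 - a 3 * b 1 = 0
    · by_cases h23 : a 2 * b 3 - a 3 * b 2 = 0
      · -- proportional linear parts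
        rw [LinearIndependent.pair_iff] at hab
        rw [← hA, ← hB]
        have hM : 0 ≤ max |A| |B| := le_max_of_le_left (abs_nonneg _)
        have hH1 : 1 ≤ H ^ (2 * N) := one_le_pow₀ hH
        have hfin : ∀ e : ℤ, e ≠ 0 → |(e : ℝ)| ≤ 2 * H * max |A| |B| →
            min (c / 2 ^ (N + 1)) (1 / 2) ≤ H ^ (2 * N + 1) * max |A| |B| := by
          intro e he hle
          have h1 : (1 : ℝ) ≤ |(e : ℝ)| := by exact_mod_cast Int.one_le_abs he
          have h2 : (1 : ℝ) / 2 ≤ H * max |A| |B| := by linarith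
          have h3 : 0 ≤ H * max |A| |B| := by positivity
          calc min (c / 2 ^ (N + 1)) (1 / 2) ≤ 1 / 2 := min_le_right _ _
            _ ≤ H * max |A| |B| := h2
            _ ≤ H ^ (2 * N) * (H * max |A| |B|) := by nlinarith
            _ = H ^ (2 * N + 1) * max |A| |B| := by ring
        have hprop : ∀ i : Fin 4, i ≠ 0 → ∀ j : Fin 4, j ≠ 0 → a i * b j - b i * a j = 0 := by
          intro i hi j hj
          fin_cases i <;> fin_cases j <;> simp at hi hj ⊢ <;> linarith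
        by_cases hi : ∃ i : Fin 4, i ≠ 0 ∧ a i ≠ 0
        · obtain ⟨i, hi0, hi⟩ := hi
          refine hfin (a i * b 0 - b i * a 0) ?_ ?_
          · intro hcon
            have h1 := hab (-(b i)) (a i) ?_
            · exact hi h1.2
            · funext j
              simp only [Pi.add_apply, Pi.smul_apply, smul_eq_mul, Pi.zero_apply]
              by_cases hj : j = 0
              · rw [hj]
                linarith
              · have := hprop i hi0 j hj
                linarith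
          · have e : ((a i * b 0 - b i * a 0 : ℤ) : ℝ) = (a i : ℝ) * B - b i * A := by
              have e1 : (a i : ℝ) * b 1 = b i * a 1 := by
                have := hprop i hi0 1 (by decide)
                exact_mod_cast (sub_eq_zero.1 this)
              have e2 : (a i : ℝ) * b 2 = b i * a 2 := by
                have := hprop i hi0 2 (by decide)
                exact_mod_cast (sub_eq_zero.1 this)
              have e3 : (a i : ℝ) * b 3 = b i * a 3 := by
                have := hprop i hi0 3 (by decide)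
                exact_mod_cast (sub_eq_zero.1 this)
              rw [hA, hB]
              push_cast
              linear_combination (-x) * e1 + (-y) * e2 + (-z) * e3
            rw [e, max_comm]
            exact comb_le (a i) (b i) B A H (ha i) (hb i)
        · push Not at hi
          have h0 : a 0 ≠ 0 := by
            intro h0
            have h1 := hab 1 0 ?_
            · exact one_ne_zero h1.1
            · funext j
              simp only [Pi.add_apply, Pi.smul_apply, smul_eq_mul, Pi.zero_apply]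
              by_cases hj : j = 0
              · rw [hj, h0]
                ring
              · rw [hi j hj]
                ring
          refine hfin (a 0) h0 ?_
          have e : A = (a 0 : ℝ) := by
            rw [hA, hi 1 (by decide), hi 2 (by decide), hi 3 (by decide)]
            simp
          rw [← e]
          have h1 : |A| ≤ max |A| |B| := le_max_left _ _
          have h2 : 0 ≤ max |A| |B| := hM
          nlinarith
      · have h1 := case_det (h.swap12.swap23) (a 0) (a 2) (a 3) (a 1) (b 0) (b 2) (b 3) (b 1) H hH hc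
          (ha 2) (ha 3) (ha 1) (hb 2) (hb 3) (hb 1) h23
        refine (min_le_left _ _).trans (h1.trans (le_of_eq ?_))
        congr 2
        · congr 1
          ring
        · congr 1
          ring
    · have h1 := case_det (h.swap23) (a 0) (a 1) (a 3) (a 2) (b 0) (b 1) (b 3) (b 2) H hH hc
        (ha 1) (ha 3) (ha 2) (hb 1) (hb 3) (hb 2) h13
      refine (min_le_left _ _).trans (h1.trans (le_of_eq ?_))
      congr 2
      · congr 1
        ring
      · congr 1
        ring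
  · have h1 := case_det h (a 0) (a 1) (a 2) (a 3) (b 0) (b 1) (b 2) (b 3) H hH hc
      (ha 1) (ha 2) (ha 3) (hb 1) (hb 2) (hb 3) h12
    exact (min_le_left _ _).trans h1

end Pool.Agent.R355.NR2
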