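import Pool.Agent.TH167.SH.Fam
import Pool.Agent.H977R3.CM.Aut
import Pool.Agent.W944.En.Auto

set_option autoImplicit false

/-!
# Automorphisms of the complex numbers and irreducible plane curves at generic points
-/

namespace Pool.Agent.R355.NegOrb

open MvPolynomial Pool.Agent.W609 Pool.Agent.W609.CR Pool.Agent.TH167 Pool.Agent.TH167.SH

/-- A permutation of algebraically independent numbers is induced by an automorphism. -/
theorem exists_aut_perm {ι : Type} {x : ι → ℂ} (hx : AlgebraicIndependent ℚ x)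
    (σ : Equiv.Perm ι) : ∃ τ : ℂ ≃+* ℂ, ∀ i, τ (x i) = x (σ i) := by
  have hinj : Function.Injective (aeval x : MvPolynomial ι ℚ →ₐ[ℚ] ℂ) := hx
  obtain ⟨j, hj⟩ : ∃ j : FractionRing (MvPolynomial ι ℚ) →+* ℂ,
      j = IsFractionRing.lift (A := MvPolynomial ι ℚ) (g := (aeval x : MvPolynomial ι ℚ →ₐ[ℚ] ℂ).toRingHom)
        hinj := ⟨_, rfl⟩
  obtain ⟨g, hg⟩ : ∃ g : FractionRing (MvPolynomial ι ℚ) ≃+* FractionRing (MvPolynomial ι ℚ),
      g = IsFractionRing.ringEquivOfRingEquiv (renameEquiv ℚ σ).toRingEquiv := ⟨_, rfl⟩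
  obtain ⟨τ, hτ⟩ := Pool.Agent.H977R3.CM.exists_aut j g
  refine ⟨τ, fun i => ?_⟩
  have h1 : ∀ f : MvPolynomial ι ℚ, j (algebraMap _ _ f) = aeval x f := fun f => by
    rw [hj, IsFractionRing.lift_algebraMap]
    rfl
  have h2 := hτ (algebraMap (MvPolynomial ι ℚ) _ (X i))
  rw [h1, aeval_X, hg, IsFractionRing.ringEquivOfRingEquiv_algebraMap] at h2
  rw [h2]
  have h3 : (renameEquiv ℚ σ).toRingEquiv (X i) = (X (σ i) : MvPolynomial ι ℚ) := by
    simp
  rw [h3, h1, aeval_X]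

/-- A family independent over two given ones. -/
theorem exists_indep_two {ι : Type} [Finite ι] {x y : ι → ℂ} (hx : AlgebraicIndependent ℚ x)
    (hy : AlgebraicIndependent ℚ y) : ∃ z : ι → ℂ,
      AlgebraicIndependent ℚ (Sum.elim z x) ∧ AlgebraicIndependent ℚ (Sum.elim z y) := by
  obtain ⟨k, hk⟩ : ∃ k : Subfield ℂ, k = Subfield.closure (Set.range x ∪ Set.range y) := ⟨_, rfl⟩
  have hc : Countable k := by
    have h1 : (Set.range x ∪ Set.range y).Countable :=
      (Set.countable_range x).union (Set.countable_range y)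
    rw [← Cardinal.mk_le_aleph0_iff, hk]
    refine (Subfield.cardinalMk_closure_le_max _).trans ?_
    rw [max_le_iff]
    exact ⟨Cardinal.mk_le_aleph0_iff.2 h1.to_subtype, le_rfl⟩
  obtain ⟨z, hz⟩ := Pool.Agent.W944.En.exists_indep k ι
  have hr : ∀ {v : ι → ℂ}, Set.range v ⊆ Set.range x ∪ Set.range y →
      Set.range v ⊆ Set.range (algebraMap k ℂ) := by
    intro v hv a ha
    refine ⟨⟨a, ?_⟩, rfl⟩
    rw [hk]
    exact Subfield.subset_closure (hv ha)
  exact ⟨z, hx.sumElim_of_tower (S := k) (hr Set.subset_union_left) hz,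
    hy.sumElim_of_tower (S := k) (hr Set.subset_union_right) hz⟩

/-- Two finite families of algebraically independent numbers are conjugate. -/
theorem exists_aut_two {ι : Type} [Finite ι] {x y : ι → ℂ} (hx : AlgebraicIndependent ℚ x)
    (hy : AlgebraicIndependent ℚ y) : ∃ τ : ℂ ≃+* ℂ, ∀ i, τ (x i) = y i := by
  obtain ⟨z, h1, h2⟩ := exists_indep_two hx hy
  obtain ⟨τ1, t1⟩ := exists_aut_perm h1 (Equiv.sumComm ι ι)
  obtain ⟨τ2, t2⟩ := exists_aut_perm h2 (Equiv.sumComm ι ι)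
  refine ⟨τ1.trans τ2, fun i => ?_⟩
  have a := t1 (Sum.inr i)
  have b := t2 (Sum.inl i)
  simp only [Equiv.sumComm_apply, Sum.swap_inr, Sum.swap_inl, Sum.elim_inl, Sum.elim_inr] at a b
  rw [RingEquiv.trans_apply, a, b]

/-- Orders of vanishing and automorphisms of the field. -/
theorem van_map (τ : ℂ ≃+* ℂ) (v : Fin 3 → ℂ) (m : ℕ) (f : MvPolynomial (Fin 3) ℂ) :
    Van (fun i => τ (v i)) m (mapEquiv (Fin 3) τ f) ↔ Van v m f := by
  unfold Van
  obtain ⟨φ, hφ⟩ : ∃ φ, φ = mapEquiv (Fin 3) τ := ⟨_, rfl⟩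
  rw [← hφ]
  have h1 : RingHom.ker (eval fun i => τ (v i)) =
      Ideal.map (φ : MvPolynomial (Fin 3) ℂ →+* MvPolynomial (Fin 3) ℂ)
        (RingHom.ker (eval v)) := by
    rw [Ideal.map_comap_of_equiv]
    ext g
    rw [Ideal.mem_comap, RingHom.mem_ker, RingHom.mem_ker]
    obtain ⟨h, rfl⟩ := φ.surjective g
    have h2 : eval (fun i => τ (v i)) (φ h) = τ (eval v h) := by
      rw [hφ]
      have e1 : (mapEquiv (Fin 3) τ) h = map (τ : ℂ →+* ℂ) h := rfl
      have e3 := eval₂_comp_left (τ : ℂ →+* ℂ) (RingHom.id ℂ) v h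
      rw [eval₂_id, RingHom.comp_id] at e3
      rw [e1, eval_map]
      exact e3.symm
    rw [h2]
    simp
  rw [h1, ← Ideal.map_pow]
  constructor
  · intro h
    obtain ⟨g, hg, hgf⟩ := (Ideal.mem_map_of_equiv φ _).1 h
    rwa [← φ.injective hgf]
  · exact fun h => Ideal.mem_map_of_mem _ h

/-- The conjugate of an irreducible curve, with a permutation of the points. -/
theorem exists_conj {s : ℕ} {P1 P : Fin s → Fin 2 → ℂ}
    (hP1 : AlgebraicIndependent ℚ (fun ij : Fin s × Fin 2 => P1 ij.1 ij.2))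
    (hP : AlgebraicIndependent ℚ (fun ij : Fin s × Fin 2 => P ij.1 ij.2))
    {G : MvPolynomial (Fin 3) ℂ} {e : ℕ} {u : Fin s → ℕ} (hG : Irreducible G)
    (hGe : G.IsHomogeneous e) (hGo : ∀ j, Ord (aff (P1 j)) (u j) G) (σ : Equiv.Perm (Fin s)) :
    ∃ G' : MvPolynomial (Fin 3) ℂ, Irreducible G' ∧ G'.IsHomogeneous e ∧
      ∀ j, Ord (aff (P j)) (u (σ j)) G' := by
  have hPσ : AlgebraicIndependent ℚ (fun ij : Fin s × Fin 2 => P (σ.symm ij.1) ij.2) :=
    hP.comp (fun ij : Fin s × Fin 2 => (σ.symm ij.1, ij.2)) (by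
      intro a b h
      simp only [Prod.mk.injEq] at h
      exact Prod.ext (σ.symm.injective h.1) h.2)
  obtain ⟨τ, hτ⟩ := exists_aut_two hP1 hPσ
  refine ⟨mapEquiv (Fin 3) τ G, (MulEquiv.irreducible_iff (mapEquiv (Fin 3) τ)).2 hG, ?_,
    fun j => ?_⟩
  · have e1 : (mapEquiv (Fin 3) τ) G = map (τ : ℂ →+* ℂ) G := rfl
    rw [e1]
    exact hGe.map _
  · have h1 : (fun i => τ (aff (P1 (σ j)) i)) = aff (P j) := by
      have h2 : ∀ b, τ (P1 (σ j) b) = P j b := fun b => by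
        have h3 := hτ (σ j, b)
        simp only [Equiv.symm_apply_apply] at h3
        exact h3
      funext i
      fin_cases i
      · exact h2 0
      · exact h2 1
      · exact map_one τ
    unfold CR.Ord
    rw [← h1, van_map, van_map]
    exact hGo (σ j)

end Pool.Agent.R355.NegOrb
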