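import Pool.Agent.R355.NegAut
import Pool.Agent.R355.NegCount
import Pool.Agent.TH442.NF.Nef
import Pool.Agent.H248R6.Move
import Pool.Agent.H248R6.Der

set_option autoImplicit false

/-!
# The Weyl group orbit of a negative curve
-/

namespace Pool.Agent.R355.NegOrb

open MvPolynomial Pool.Agent.W609 Pool.Agent.W609.CR Pool.Agent.TH167 Pool.Agent.TH167.SH
open Pool.Agent.TH442.NF (cls refl Step refl_cls line_of ip_line)
open Pool.Agent.H248R5 (forms mem_forms tau)
open Pool.Agent.H248R6 (dG move back dG_homog exists_der)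

/-! ## The inequality of Xu and Ein-Lazarsfeld (as in the starting library) -/

theorem exists_pderiv {K : Type} [Field K] [CharZero K] {m : ℕ} {f : MvPolynomial (Fin 2) K}
    (hf : f.IsHomogeneous (m + 1)) (h0 : f ≠ 0) : ∃ a, pderiv a f ≠ 0 := by
  by_contra hcon
  push Not at hcon
  have h1 := hf.sum_X_mul_pderiv
  have h2 : ∑ i, X i * pderiv i f = 0 := Finset.sum_eq_zero fun i _ => by rw [hcon i, mul_zero]
  rw [h2] at h1
  have h3 : ((m + 1 : ℕ) : K) • f = 0 := by
    rw [Nat.cast_smul_eq_nsmul]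
    exact h1.symm
  rcases smul_eq_zero.1 h3 with h | h
  · rw [Nat.cast_add, Nat.cast_one] at h
    exact Nat.cast_add_one_ne_zero m h
  · exact h0 h

theorem xu {K : Type} [Field K] [CharZero K] {s : ℕ} {P : Fin s → Fin 2 → K}
    (hP : AlgebraicIndependent ℚ (fun ij : Fin s × Fin 2 => P ij.1 ij.2))
    {G : MvPolynomial (Fin 3) K} {e : ℕ} {u : Fin s → ℕ} (hG : Irreducible G)
    (hGe : G.IsHomogeneous e) (hGo : ∀ j, Ord (aff (P j)) (u j) G) {k : Fin s} (hk : 1 ≤ u k) :
    ∑ j, u j ^ 2 ≤ e ^ 2 + u k := by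
  classical
  obtain ⟨m, hm⟩ : ∃ m, u k = m + 1 := ⟨u k - 1, by omega⟩
  have hGf : G ∈ forms u P e := by
    rw [← vs_eq_forms]
    exact (mem_VS _ _ _ _).2 ⟨hGe, fun j => (hGo j).1⟩
  have hlead : homogeneousComponent (m + 1) (tau (P k) G) ≠ 0 := by
    intro h0
    have h1 : G ∈ forms (Function.update u k (m + 2)) P e := by
      refine back (w := Function.update u k (m + 2)) (k := k) (m := m + 1) ?_ ?_ h0
      · rw [Function.update_self]
      · rw [Function.update_idem, ← hm, Function.update_eq_self]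
        exact hGf
    rw [← vs_eq_forms, mem_VS] at h1
    have h2 := h1.2 k
    rw [Function.update_self] at h2
    refine (hGo k).2 ?_
    rw [hm]
    exact h2
  obtain ⟨a, ha⟩ := exists_pderiv (homogeneousComponent_isHomogeneous (m + 1) _) hlead
  obtain ⟨D, hD⟩ := exists_der _ hP (k, a)
  have hD' : ∀ i b, D (P i b) = if i = k ∧ b = a then 1 else 0 := by
    intro i b
    by_cases h : i = k ∧ b = a
    · rw [if_pos h]
      exact (hD (i, b)).1 (by rw [h.1, h.2])
    · rw [if_neg h]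
      refine (hD (i, b)).2 fun h1 => h ?_
      have h2 := congrArg Prod.fst h1
      have h3 := congrArg Prod.snd h1
      exact ⟨h2.symm, h3.symm⟩
  obtain ⟨h1, h2⟩ := move hm D hD' hGf
  obtain ⟨H, hH⟩ : ∃ H, H = dG D G := ⟨_, rfl⟩
  rw [← hH] at h1 h2
  have hHc : homogeneousComponent m (tau (P k) H) ≠ 0 := by
    rw [h2]
    exact neg_ne_zero.2 ha
  have hH0 : H ≠ 0 := by
    rintro rfl
    exact hHc (by rw [map_zero, map_zero])
  have hHh : H.IsHomogeneous e := by
    rw [hH]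
    exact dG_homog D hGe
  have hnd : ¬ G ∣ H := by
    rintro ⟨Q, hQ⟩
    have hQ0 : Q ≠ 0 := by
      rintro rfl
      exact hH0 (by rw [hQ, mul_zero])
    have hQd : Q.totalDegree = 0 := by
      have t1 : H.totalDegree = e := hHh.totalDegree hH0
      have t2 : G.totalDegree = e := hGe.totalDegree hG.ne_zero
      rw [hQ, MvPolynomial.totalDegree_mul_of_isDomain hG.ne_zero hQ0, t2] at t1
      omega
    obtain ⟨c, hc⟩ : ∃ c : K, Q = C c := ⟨coeff 0 Q, (MvPolynomial.totalDegree_eq_zero_iff_eq_C).1 hQd⟩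
    have h3 : H ∈ forms u P e := by
      have e3 : H = c • G := by
        rw [hQ, hc, mul_comm, MvPolynomial.smul_eq_C_mul]
      rw [e3]
      exact Submodule.smul_mem _ _ hGf
    have h4 := (mem_forms.1 h3).2 k
    rw [mem_pow_idealOfVars_iff', hm] at h4
    apply hHc
    ext s
    rw [coeff_homogeneousComponent, coeff_zero]
    split_ifs with hs
    · exact h4 s (by omega)
    · rfl
  have hvan : ∀ j, Van (aff (P j)) (Function.update u k m j) H := by
    have h3 : H ∈ VS (fun j => aff (P j)) (Function.update u k m) e := by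
      rw [vs_eq_forms]
      exact h1
    exact ((mem_VS _ _ _ _).1 h3).2
  have hb := bez (inj_of_alg hP) hG hGe (fun j => (hGo j).1) hH0 hHh hvan hnd
  have hs : ∑ j, u j ^ 2 = ∑ j, u j * Function.update u k m j + u k := by
    have h3 : ∑ j, u j ^ 2 = ∑ j, (u j * Function.update u k m j + if j = k then u k else 0) := by
      refine Finset.sum_congr rfl fun j _ => ?_
      by_cases hj : j = k
      · subst hj
        rw [Function.update_self, if_pos rfl]
        rw [hm]
        ring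
      · rw [Function.update_of_ne hj, if_neg hj]
        ring
    rw [h3, Finset.sum_add_distrib, Finset.sum_ite_eq' Finset.univ k, if_pos (Finset.mem_univ k)]
  rw [hs]
  have e2 : e ^ 2 = e * e := sq e
  omega

/-! ## The intersection form and the reflections -/

/-- The intersection form. -/
def bil {s : ℕ} (a b : ℤ × (Fin s → ℤ)) : ℤ := a.1 * b.1 - ∑ l, a.2 l * b.2 l

theorem bil_cls {s : ℕ} (d e : ℕ) (w u : Fin s → ℕ) : bil (cls d w) (cls e u) = ip d w e u := rfl

/-- The change of the coordinates. -/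
def del {s : ℕ} (i : Fin 3 → Fin s) (a : ℤ × (Fin s → ℤ)) : ℤ :=
  a.1 - a.2 (i 0) - a.2 (i 1) - a.2 (i 2)

theorem refl_fst {s : ℕ} (i : Fin 3 → Fin s) (a : ℤ × (Fin s → ℤ)) :
    (refl i a).1 = a.1 + del i a := rfl

theorem refl_snd {s : ℕ} (i : Fin 3 → Fin s) (a : ℤ × (Fin s → ℤ)) (l : Fin s) :
    (refl i a).2 l = a.2 l + del i a * ic i l := by
  show a.2 l + (if l = i 0 ∨ l = i 1 ∨ l = i 2 then a.1 - a.2 (i 0) - a.2 (i 1) - a.2 (i 2)
    else 0) = _
  unfold ic del
  split_ifs <;> ring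

theorem del_refl {s : ℕ} (i : Fin 3 → Fin s) (a : ℤ × (Fin s → ℤ)) :
    del i (refl i a) = - del i a := by
  obtain ⟨h0, h1, h2⟩ := ic_base i
  have h : del i (refl i a) = (refl i a).1 - (refl i a).2 (i 0) - (refl i a).2 (i 1) -
      (refl i a).2 (i 2) := rfl
  rw [h, refl_fst, refl_snd, refl_snd, refl_snd, h0, h1, h2]
  unfold del
  ring

theorem refl_refl {s : ℕ} (i : Fin 3 → Fin s) (a : ℤ × (Fin s → ℤ)) : refl i (refl i a) = a := by
  refine Prod.ext ?_ ?_
  · rw [refl_fst, refl_fst, del_refl]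
    ring
  · funext l
    rw [refl_snd, refl_snd, del_refl]
    ring

theorem bil_refl {s : ℕ} {i : Fin 3 → Fin s} (hi : Function.Injective i)
    (a b : ℤ × (Fin s → ℤ)) : bil (refl i a) (refl i b) = bil a b := by
  unfold bil
  rw [refl_fst, refl_fst]
  have h1 : ∀ l, (refl i a).2 l * (refl i b).2 l = a.2 l * b.2 l +
      (del i b * (ic i l * a.2 l) + (del i a * (ic i l * b.2 l) +
        del i a * del i b * (ic i l * 1))) := by
    intro l
    rw [refl_snd, refl_snd]
    have := ic_sq i l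
    linear_combination (del i a * del i b) * this
  rw [Finset.sum_congr rfl fun l _ => h1 l, Finset.sum_add_distrib, Finset.sum_add_distrib,
    Finset.sum_add_distrib, ← Finset.mul_sum, ← Finset.mul_sum, ← Finset.mul_sum,
    sum_ic hi (fun l => a.2 l), sum_ic hi (fun l => b.2 l), sum_ic hi (fun _ => 1)]
  unfold del
  ring

theorem bil_self_refl {s : ℕ} {i : Fin 3 → Fin s} (hi : Function.Injective i)
    (a : ℤ × (Fin s → ℤ)) : bil a (refl i a) = bil a a + del i a ^ 2 := by
  unfold bil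
  rw [refl_fst]
  have h1 : ∀ l, a.2 l * (refl i a).2 l = a.2 l * a.2 l + del i a * (ic i l * a.2 l) := by
    intro l
    rw [refl_snd]
    ring
  rw [Finset.sum_congr rfl fun l _ => h1 l, Finset.sum_add_distrib, ← Finset.mul_sum,
    sum_ic hi (fun l => a.2 l)]
  unfold del
  ring

/-- Two classes are carried into each other by finitely many reflections. -/
def Ch {s : ℕ} (a b : ℤ × (Fin s → ℤ)) : Prop := Relation.ReflTransGen Step a b

theorem step_symm {s : ℕ} {a b : ℤ × (Fin s → ℤ)} (h : Step a b) : Step b a := by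
  obtain ⟨i, hi, rfl⟩ := h
  exact ⟨i, hi, (refl_refl i a).symm⟩

theorem Ch.symm {s : ℕ} {a b : ℤ × (Fin s → ℤ)} (h : Ch a b) : Ch b a := by
  unfold Ch at *
  induction h with
  | refl => exact Relation.ReflTransGen.refl
  | tail _ h2 ih => exact (Relation.ReflTransGen.single (step_symm h2)).trans ih

/-- The chain, applied to another class. -/
theorem Ch.par {s : ℕ} {a b : ℤ × (Fin s → ℤ)} (h : Ch a b) (c : ℤ × (Fin s → ℤ)) :
    ∃ c', Ch c c' ∧ bil b c' = bil a c := by
  unfold Ch at *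
  induction h with
  | refl => exact ⟨c, Relation.ReflTransGen.refl, rfl⟩
  | tail _ h2 ih =>
    obtain ⟨c1, h3, h4⟩ := ih
    obtain ⟨i, hi, rfl⟩ := h2
    refine ⟨refl i c1, h3.tail ⟨i, hi, rfl⟩, ?_⟩
    rw [bil_refl hi, h4]

/-! ## The orbit of an irreducible curve -/

theorem pair_le {K : Type} [Field K] [CharZero K] {s : ℕ} {P : Fin s → Fin 2 → K}
    (hP : AlgebraicIndependent ℚ (fun ij : Fin s × Fin 2 => P ij.1 ij.2))
    {G : MvPolynomial (Fin 3) K} {e : ℕ} {w : Fin s → ℕ} (hG : Irreducible G)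
    (hGe : G.IsHomogeneous e) (hGo : ∀ j, Ord (aff (P j)) (w j) G)
    (hne : ¬ (ip e w e w = -1 ∧ kk e w = 1)) {a b : Fin s} (hab : a ≠ b) : w a + w b ≤ e := by
  by_contra hlt
  push Not at hlt
  obtain ⟨rfl, rfl⟩ := line_of hP hG hGe hGo hab hlt
  have hE := exc_line hP hab
  exact hne ⟨self_iff.1 hE.self, can_iff.1 hE.can⟩

/-- The data of an irreducible curve which is not a `(-1)`-curve. -/
structure Irr {s : ℕ} (P : Fin s → Fin 2 → ℂ) (e : ℕ) (u : Fin s → ℕ) : Prop where
  ex : ∃ G : MvPolynomial (Fin 3) ℂ, Irreducible G ∧ G.IsHomogeneous e ∧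
    ∀ j, Ord (aff (P j)) (u j) G
  ne : ¬ (ip e u e u = -1 ∧ kk e u = 1)

theorem Irr.ps {s : ℕ} {P : Fin s → Fin 2 → ℂ}
    (hP : AlgebraicIndependent ℚ (fun ij : Fin s × Fin 2 => P ij.1 ij.2)) {e : ℕ}
    {u : Fin s → ℕ} (h : Irr P e u) {i : Fin 3 → Fin s} (hi : Function.Injective i) :
    PS i e u := by
  obtain ⟨G, h1, h2, h3⟩ := h.ex
  exact ⟨pair_le hP h1 h2 h3 h.ne (ne10 hi).symm, pair_le hP h1 h2 h3 h.ne (ne20 hi).symm,
    pair_le hP h1 h2 h3 h.ne (ne21 hi).symm⟩

theorem Irr.step {s : ℕ} {P : Fin s → Fin 2 → ℂ}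
    (hP : AlgebraicIndependent ℚ (fun ij : Fin s × Fin 2 => P ij.1 ij.2)) {e : ℕ}
    {u : Fin s → ℕ} (h : Irr P e u) {i : Fin 3 → Fin s} (hi : Function.Injective i) :
    Irr P (cd i e u) (wcr e i u) := by
  have p := h.ps hP hi
  obtain ⟨G, h1, h2, h3⟩ := h.ex
  obtain ⟨P', hP', hr⟩ := exists_crel hP hi
  obtain ⟨G', a1, a2, a3⟩ := hr.irr h1 h2 h3 p.p01 p.p02 p.p12
  obtain ⟨G'', b1, b2, b3⟩ := exists_conj hP' hP a1 a2 a3 (Equiv.refl _)
  refine ⟨⟨G'', b1, b2, b3⟩, ?_⟩
  rw [ip_cr hi p p, kk_cr hi p]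
  exact h.ne

theorem Irr.orbit {s : ℕ} {P : Fin s → Fin 2 → ℂ}
    (hP : AlgebraicIndependent ℚ (fun ij : Fin s × Fin 2 => P ij.1 ij.2)) {d : ℕ}
    {w : Fin s → ℕ} (h : Irr P d w) {b : ℤ × (Fin s → ℤ)} (hb : Ch (cls d w) b) :
    ∃ (e : ℕ) (u : Fin s → ℕ), b = cls e u ∧ Irr P e u ∧ ip e u e u = ip d w d w := by
  unfold Ch at hb
  induction hb with
  | refl => exact ⟨d, w, rfl, h, rfl⟩
  | @tail b c _ hbc ih =>
    obtain ⟨e, u, rfl, h1, h2⟩ := ih
    obtain ⟨i, hi, rfl⟩ := hbc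
    have p := h1.ps hP hi
    exact ⟨cd i e u, wcr e i u, refl_cls hi p, h1.step hP hi, by rw [ip_cr hi p p, h2]⟩

/-- Every `(-1)`-curve is carried to a line through two points. -/
theorem exc_chain {r : ℕ} : ∀ (e : ℕ) (P : Fin (r + 4) → Fin 2 → ℂ)
    (_ : AlgebraicIndependent ℚ (fun ij : Fin (r + 4) × Fin 2 => P ij.1 ij.2))
    (G : MvPolynomial (Fin 3) ℂ) (u : Fin (r + 4) → ℕ) (_ : Exc P G e u),
    ∃ i j : Fin (r + 4), i ≠ j ∧
      Ch (cls e u) (cls 1 fun l => if l = i ∨ l = j then 1 else 0) := by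
  intro e
  induction e using Nat.strong_induction_on with
  | _ e ih =>
    intro P hP G u hG
    by_cases hpair : ∃ i j : Fin (r + 4), i ≠ j ∧ e < u i + u j
    · obtain ⟨i, j, hij, hlt⟩ := hpair
      obtain ⟨rfl, rfl⟩ := line_of hP hG.irr hG.hom hG.ord hij hlt
      exact ⟨i, j, hij, Relation.ReflTransGen.refl⟩
    · push Not at hpair
      have hnr : ¬ Reduced e u := by
        intro hred
        have h1 := red_ip hred (fun j => van_le hG.irr.ne_zero hG.hom (hG.ord j).1)
          (by have := hG.can; omega)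
        have h2 := self_iff.1 hG.self
        omega
      unfold Reduced at hnr
      push Not at hnr
      obtain ⟨a, b, c, hab, hac, hbc, hlt⟩ := hnr
      have hi : Function.Injective ![a, b, c] := inj_cons hab hac hbc
      have p : PS ![a, b, c] e u := ⟨hpair a b hab, hpair a c hac, hpair b c hbc⟩
      obtain ⟨P', hP', hr⟩ := exists_crel hP hi
      obtain ⟨G', hG'⟩ := hG.cr hr p
      have hlt' : cd ![a, b, c] e u < e := by
        have h1 := cd_cast p
        unfold dl at h1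
        have e0 : u (![a, b, c] 0) = u a := rfl
        have e1 : u (![a, b, c] 1) = u b := rfl
        have e2 : u (![a, b, c] 2) = u c := rfl
        rw [e0, e1, e2] at h1
        omega
      obtain ⟨i, j, hij, hch⟩ := ih _ hlt' P' hP' G' _ hG'
      refine ⟨i, j, hij, ?_⟩
      unfold Ch at hch ⊢
      exact Relation.ReflTransGen.head ⟨_, hi, (refl_cls hi p).symm⟩ hch

end Pool.Agent.R355.NegOrb
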