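import Pool.Agent.TH167.DD.Adj2

set_option autoImplicit false

/-!
# Restriction of a linear system to an irreducible curve

The bound `h^0 (D) ≤ h^0 (D - G) + D G + 1 - p_a (G)` for an irreducible curve `G` with
`D G > 2 p_a (G) - 2`, from the residue duality of the starting library.
-/

namespace Pool.Agent.R355.Nine

open MvPolynomial Pool.Agent.W609 Pool.Agent.W609.CR Pool.Agent.TH167 Pool.Agent.TH167.SH
  Pool.Agent.TH167.DD

theorem two_c2 (v : ℕ) : 2 * v.choose 2 = v * (v - 1) := by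
  rw [Nat.choose_two_right]
  exact Nat.mul_div_cancel' (Nat.even_mul_pred_self v).two_dvd

/-- The multiples of `G` in a linear system. -/
theorem mem_mulVS {K : Type} [Field K] {s : ℕ} {P : Fin s → Fin 2 → K} {v u : Fin s → ℕ} {m e : ℕ}
    {G F : MvPolynomial (Fin 3) K} (hGe : G.IsHomogeneous e)
    (hu : ∀ i, Ord (aff (P i)) (u i) G)
    (hF : F ∈ VS (fun j => aff (P j)) v m) (hd : G ∣ F) :
    F ∈ (VS (fun j => aff (P j)) (fun j => v j - u j) (m - e)).map (LinearMap.mulLeft K G) := by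
  obtain ⟨H, hH⟩ := hd
  by_cases hF0 : F = 0
  · refine ⟨0, Submodule.zero_mem _, ?_⟩
    rw [map_zero]
    exact hF0.symm
  rw [mem_VS] at hF
  have hH0 : H ≠ 0 := fun h => hF0 (by rw [hH, h, mul_zero])
  have hHd := Pool.Agent.Chud.homog_of_dvd hF.1 hF0 (Dvd.intro_left G hH.symm)
  have h6 := hGe.mul hHd
  rw [← hH] at h6
  have h7 := h6.inj_right hF.1 hF0
  refine ⟨H, ?_, hH.symm⟩
  rw [SetLike.mem_coe, mem_VS]
  refine ⟨?_, fun j => ?_⟩
  · have h8 : H.totalDegree = m - e := by omega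
    rwa [h8] at hHd
  · by_cases hw : v j - u j = 0
    · rw [hw]
      exact van_zero _ _
    · refine van_of_mul (hu j) ?_
      rw [← hH]
      have h9 : u j + (v j - u j) = v j := by omega
      rw [h9]
      exact hF.2 j

/-- Restriction to an irreducible curve. -/
theorem rr_step {K : Type} [Field K] [CharZero K] [IsAlgClosed K] {s : ℕ}
    {G : MvPolynomial (Fin 3) K} {e : ℕ} (hG : Irreducible G) (hGe : G.IsHomogeneous e)
    (he : 2 ≤ e) {P : Fin s → Fin 2 → K} (hP : Function.Injective P) {u : Fin s → ℕ}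
    (hu : ∀ i, Ord (aff (P i)) (u i) G) (v : Fin s → ℕ) (m : ℕ)
    (hc : e * e + ∑ j, u j * v j < e * m + 3 * e + ∑ j, u j * (u j - 1)) :
    2 * (Module.finrank K ↥(VS (fun j => aff (P j)) v m) : ℤ) ≤
      2 * (Module.finrank K ↥(VS (fun j => aff (P j)) (fun j => v j - u j) (m - e)) : ℤ) +
        (2 * e * m + 3 * e - e * e - 2 * ∑ j, (u j : ℤ) * v j + ∑ j, (u j : ℤ) * (u j - 1)) := by
  classical
  have hG0 := hG.ne_zero
  obtain ⟨p1, hp1, hp1P⟩ : ∃ p1 : Fin 2 → K, eval (aff p1) G ≠ 0 ∧ ∀ j, P j ≠ p1 := by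
    obtain ⟨H, hH0, hHh, hHP⟩ : ∃ H : MvPolynomial (Fin 3) K, H ≠ 0 ∧
        H.IsHomogeneous H.totalDegree ∧ ∀ j, eval (aff (P j)) H = 0 := by
      refine ⟨∏ j, mf 0 (P j), Finset.prod_ne_zero_iff.2 fun j _ => mf_ne 0 _, ?_, fun j => ?_⟩
      · have h1 : (∏ j, mf 0 (P j)).IsHomogeneous (∑ j : Fin s, 1) :=
          IsHomogeneous.prod _ _ _ fun j _ => mf_hom 0 _
        have h2 := h1.totalDegree (Finset.prod_ne_zero_iff.2 fun j _ => mf_ne 0 _)
        rwa [← h2] at h1
      · rw [map_prod]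
        exact Finset.prod_eq_zero (Finset.mem_univ j) (by rw [eval_mf, sub_self])
    obtain ⟨p1, hp1⟩ := TT.exists_pt (hGe.mul hHh) (mul_ne_zero hG0 hH0)
    rw [map_mul] at hp1
    refine ⟨p1, left_ne_zero_of_mul hp1, fun j h => ?_⟩
    apply right_ne_zero_of_mul hp1
    rw [← h]
    exact hHP j
  obtain ⟨N, hN⟩ : ∃ N, N = m + e + 5 := ⟨_, rfl⟩
  let w' : Fin (s + 1) → ℕ := Fin.cons 0 u
  let r' : Fin (s + 1) → ℕ := Fin.cons N v
  let P1 : Fin (s + 1) → Fin 2 → K := Fin.cons p1 P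
  have hP1 : Function.Injective P1 := by
    rw [Fin.cons_injective_iff]
    refine ⟨?_, hP⟩
    rintro ⟨j, hj⟩
    exact hp1P j hj
  have hw1 : ∀ i, Ord (aff (P1 i)) (w' i) G := by
    intro i
    refine Fin.cases ?_ (fun j => ?_) i
    · show Ord (aff p1) 0 G
      refine ⟨van_zero _ _, fun h => hp1 ?_⟩
      exact van_one'.1 h
    · exact hu j
  obtain ⟨Ls, Q, hC, hlen⟩ := exists_cfg hG hGe he hP1 hw1 _ r' rfl
  obtain ⟨k, hk⟩ : ∃ k, k = Ls.length := ⟨_, rfl⟩
  have hk2 : k = N + ∑ j, v j := by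
    rw [hk, hlen, Fin.sum_univ_succ]
    rfl
  have hcard : Q.card + ∑ j, u j * v j = e * k := by
    have h1 := hC.card
    rw [Fin.sum_univ_succ, ← hk] at h1
    have h2 : w' 0 * r' 0 = 0 := by
      show 0 * N = 0
      rw [zero_mul]
    rw [h2, zero_add] at h1
    exact h1
  obtain ⟨x, hx⟩ : ∃ x, k = x + 3 + m := ⟨k - 3 - m, by omega⟩
  let A := VS (fun j => aff (P j)) v m
  let B := VS (fun j => aff (P j)) (fun j => u j - 1) (e + x)
  have hAf : Module.Finite K ↥A := vs_fin (fun j => aff (P j)) v m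
  have hBf : Module.Finite K ↥B := vs_fin (fun j => aff (P j)) (fun j => u j - 1) (e + x)
  have hQP : ∀ j, P j ∉ Q := fun j => hC.disj j.succ
  have hdual := hC.dual hGe hG0 hw1 (a := m) (b := e + x) (by rw [← hk]; omega) A B
    (fun f hf => ((mem_VS _ _ _ _).1 hf).1) (fun f hf => ((mem_VS _ _ _ _).1 hf).1) (by
    intro f hf g hg i
    refine Fin.cases ?_ (fun j => ?_) i
    · intro h
      exact absurd rfl h
    · intro hj
      show Van (aff (P j)) (u j + v j - 1) (f * g)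
      have hj' : u j ≠ 0 := hj
      have h1 := van_mul (((mem_VS _ _ _ _).1 hf).2 j) (((mem_VS _ _ _ _).1 hg).2 j)
      have h2 : v j + (u j - 1) = u j + v j - 1 := by omega
      rwa [h2] at h1)
  have hVf : Module.Finite K ↥(VS (fun j => aff (P j)) (fun j => v j - u j) (m - e)) :=
    vs_fin (fun j => aff (P j)) _ (m - e)
  let M := (VS (fun j => aff (P j)) (fun j => v j - u j) (m - e)).map (LinearMap.mulLeft K G)
  have hMf : Module.Finite K ↥M := by
    show Module.Finite K ↥((VS (fun j => aff (P j)) (fun j => v j - u j) (m - e)).map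
      (LinearMap.mulLeft K G))
    infer_instance
  have hM2 := mult_finite G x
  have hdA := ev_dim Q A M (by
    intro f hf hfQ
    have hf' := (mem_VS _ _ _ _).1 hf
    refine mem_mulVS hGe hu hf ?_
    by_contra hnd
    have hf0 : f ≠ 0 := fun h => hnd (by rw [h]; exact dvd_zero _)
    have h1 := bezQ hP hG hGe (fun j => (hu j).1) hf0 hf'.1 hf'.2 hnd hQP hC.zQ hfQ
    have h2 : e * k ≤ e * m := by omega
    have h3 : k ≤ m := Nat.le_of_mul_le_mul_left h2 (by omega)
    omega)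
  have hdB := ev_dim Q B (mult G x) (by
    intro f hf hfQ
    have hf' := (mem_VS _ _ _ _).1 hf
    refine mem_mult hGe hG0 hf'.1 ?_ fun _ => by omega
    by_contra hnd
    have hf0 : f ≠ 0 := fun h => hnd (by rw [h]; exact dvd_zero _)
    have h1 := bezQ hP hG hGe (fun j => (hu j).1) hf0 hf'.1 hf'.2 hnd hQP hC.zQ hfQ
    have h3 : e * k = e * x + 3 * e + e * m := by
      rw [hx]
      ring
    have h4 : e * (e + x) = e * e + e * x := by ring
    omega)
  have hMle : Module.finrank K ↥M ≤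
      Module.finrank K ↥(VS (fun j => aff (P j)) (fun j => v j - u j) (m - e)) :=
    Submodule.finrank_map_le _ _
  rw [mult_finrank hG0] at hdB
  have hdim := le_dim (fun j => u j - 1) P (e + x)
  rw [← vs_eq_forms] at hdim
  have hdim' : (e + x + 2).choose 2 ≤ Module.finrank K ↥B + ∑ j, (u j - 1 + 1).choose 2 := hdim
  have hsum : 2 * ∑ j, (u j - 1 + 1).choose 2 = ∑ j, u j * (u j - 1) := by
    rw [Finset.mul_sum]
    refine Finset.sum_congr rfl fun j _ => ?_
    rcases Nat.eq_zero_or_pos (u j) with h | h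
    · rw [h]
      rfl
    · rw [Nat.sub_add_cancel h, two_c2]
  have hsumZ : ((∑ j, u j * (u j - 1) : ℕ) : ℤ) = ∑ j, (u j : ℤ) * (u j - 1) := by
    push_cast
    refine Finset.sum_congr rfl fun j _ => ?_
    rcases Nat.eq_zero_or_pos (u j) with h | h
    · rw [h]
      simp
    · push_cast [h]
      ring
  have hcardZ : (Q.card : ℤ) + ∑ j, (u j : ℤ) * v j = e * k := by exact_mod_cast hcard
  have c1 : 2 * (e + x + 2).choose 2 = (e + x + 1) * (e + x + 2) := H932R7.two_choose (e + x)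
  have c2 : 2 * (x + 2).choose 2 = (x + 1) * (x + 2) := H932R7.two_choose x
  have c1' : (2 : ℤ) * ((e + x + 2).choose 2 : ℕ) = (e + x + 1) * (e + x + 2) := by exact_mod_cast c1
  have c2' : (2 : ℤ) * ((x + 2).choose 2 : ℕ) = (x + 1) * (x + 2) := by exact_mod_cast c2
  have d1 : (Module.finrank K ↥A : ℤ) ≤ Module.finrank K ↥M +
      Module.finrank K ↥(A.map (ev Q)) := by exact_mod_cast hdA
  have d2 : (Module.finrank K ↥B : ℤ) ≤ ((x + 2).choose 2 : ℕ) +
      Module.finrank K ↥(B.map (ev Q)) := by exact_mod_cast hdB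
  have d3 : (Module.finrank K ↥(A.map (ev Q)) : ℤ) + Module.finrank K ↥(B.map (ev Q)) ≤ Q.card := by
    exact_mod_cast hdual
  have d4 : (Module.finrank K ↥M : ℤ) ≤
      Module.finrank K ↥(VS (fun j => aff (P j)) (fun j => v j - u j) (m - e)) := by
    exact_mod_cast hMle
  have d5 : (((e + x + 2).choose 2 : ℕ) : ℤ) ≤ Module.finrank K ↥B +
      ((∑ j, (u j - 1 + 1).choose 2 : ℕ) : ℤ) := by exact_mod_cast hdim'
  have d6 : 2 * ((∑ j, (u j - 1 + 1).choose 2 : ℕ) : ℤ) = ∑ j, (u j : ℤ) * (u j - 1) := by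
    rw [← hsumZ]
    exact_mod_cast hsum
  have hxZ : (k : ℤ) = x + 3 + m := by exact_mod_cast hx
  rw [hxZ] at hcardZ
  show 2 * (Module.finrank K ↥A : ℤ) ≤ _
  nlinarith

end Pool.Agent.R355.Nine
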