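import Pool.Agent.R355.NineA
import Pool.Agent.R355.NineB
import Pool.Agent.TH167.TT.Fin9

set_option autoImplicit false

/-!
# Curves of degree one on the anticanonical class of nine points
-/

namespace Pool.Agent.R355.Nine

open MvPolynomial Pool.Agent.W609 Pool.Agent.W609.CR Pool.Agent.TH167 Pool.Agent.TH167.SH
  Pool.Agent.TH167.TT

/-- The indicator function. -/
def ind {n : ℕ} (T : Finset (Fin n)) (k : ℕ) (j : Fin n) : ℕ := if j ∈ T then k else 0

theorem sum_ind {n : ℕ} (T : Finset (Fin n)) (k : ℕ) (f : ℕ → ℕ) (hf : f 0 = 0) :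
    ∑ j, f (ind T k j) = T.card * f k := by
  classical
  have h1 : ∀ j, f (ind T k j) = if j ∈ T then f k else 0 := by
    intro j
    unfold ind
    split_ifs
    · rfl
    · exact hf
  rw [Finset.sum_congr rfl fun j _ => h1 j, Finset.sum_ite_mem, Finset.univ_inter,
    Finset.sum_const, smul_eq_mul]

/-- The multiples of the anticanonical class have dimension one. -/
theorem dim_cub {K : Type} [Field K] [CharZero K] {r : ℕ} {P : Fin (r + 4) → Fin 2 → K}
    (hP : AlgebraicIndependent ℚ (fun ij : Fin (r + 4) × Fin 2 => P ij.1 ij.2))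
    {T : Finset (Fin (r + 4))} (hT : T.card = 9) (k : ℕ) :
    Module.finrank K ↥(VS (fun j => aff (P j)) (ind T k) (3 * k)) = 1 := by
  have hle : ∀ j, ind T k j ≤ k := by
    intro j
    unfold ind
    split_ifs <;> omega
  have hred : Reduced (3 * k) (ind T k) := by
    intro a b c _ _ _
    have := hle a
    have := hle b
    have := hle c
    omega
  have h1 := anti hP hred (by
    have := sum_ind T k (fun x => x) rfl
    beta_reduce at this
    rw [this, hT]
    omega)
  have h2 := two_chi (3 * k) (ind T k)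
  have h3 : ∑ j, (ind T k j : ℤ) * ind T k j = 9 * (k * k) := by
    have := sum_ind T k (fun x => x * x) rfl
    rw [hT] at this
    exact_mod_cast this
  have h4 : ∑ j, (ind T k j : ℤ) = 9 * k := by
    have := sum_ind T k (fun x => x) rfl
    rw [hT] at this
    exact_mod_cast this
  unfold ip kk at h2
  rw [h3, h4] at h2
  push_cast at h2
  have h5 : chi (3 * k) (ind T k) = 1 := by nlinarith
  rw [h5] at h1
  exact_mod_cast h1

/-- Irreducible curves and nine points. -/
theorem irr_nine {K : Type} [Field K] [CharZero K] {r : ℕ} {P : Fin (r + 4) → Fin 2 → K}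
    (hP : AlgebraicIndependent ℚ (fun ij : Fin (r + 4) × Fin 2 => P ij.1 ij.2))
    {T : Finset (Fin (r + 4))} (hT : T.card = 9) {G : MvPolynomial (Fin 3) K} {e : ℕ}
    (hG : Irreducible G) (hGe : G.IsHomogeneous e) {u : Fin (r + 4) → ℕ}
    (hu : ∀ i ∈ T, Ord (aff (P i)) (u i) G) :
    0 ≤ 3 * (e : ℤ) - ∑ i ∈ T, (u i : ℤ) ∧
      (3 * (e : ℤ) = ∑ i ∈ T, (u i : ℤ) → ∀ i ∈ T, 3 * u i = e) := by
  classical
  obtain ⟨m, hm⟩ : ∃ m, m + 4 = 9 := ⟨5, rfl⟩
  have hTm : T.card = m + 4 := hT.trans hm.symm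
  obtain ⟨ι, hι, hιT⟩ : ∃ ι : Fin (m + 4) ↪ Fin (r + 4), Finset.map ι Finset.univ = T ∧
      ∀ j, ι j ∈ T := by
    refine ⟨(T.orderEmbOfFin hTm).toEmbedding,
      Finset.map_orderEmbOfFin_univ T hTm, fun j => ?_⟩
    exact Finset.orderEmbOfFin_mem T hTm j
  have hsum : ∀ f : Fin (r + 4) → ℤ, ∑ i ∈ T, f i = ∑ j : Fin (m + 4), f (ι j) := by
    intro f
    rw [← hι, Finset.sum_map]
  have hP' : AlgebraicIndependent ℚ
      (fun ij : Fin (m + 4) × Fin 2 => (fun j => P (ι j)) ij.1 ij.2) := by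
    have := hP.comp (fun ij : Fin (m + 4) × Fin 2 => (ι ij.1, ij.2)) (by
      intro a b h
      simp only [Prod.mk.injEq] at h
      exact Prod.ext (ι.injective h.1) h.2)
    exact this
  have hcard : (Finset.univ : Finset (Fin (m + 4))).card ≤ 9 := by
    rw [Finset.card_univ, Fintype.card_fin]
    omega
  have hprime := prime9 (r := m) (e := e) (S := (Finset.univ : Finset (Fin (m + 4))))
    (w := fun j => u (ι j)) hcard (fun j hj => absurd (Finset.mem_univ j) hj) (K := K)
    (P := fun j => P (ι j)) hP' (G := G) hG hGe (fun j => hu (ι j) (hιT j))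
  have h2 := hprime.2
  have h3 : (e : ℤ) * e - ∑ i ∈ T, (u i : ℤ) * u i = ip e (fun j => u (ι j)) e (fun j => u (ι j)) := by
    rw [hsum]
    rfl
  have h4 : 3 * (e : ℤ) - ∑ i ∈ T, (u i : ℤ) = kk e (fun j => u (ι j)) := by
    rw [hsum]
    rfl
  have h5 : ∑ i ∈ T, (3 * (u i : ℤ) - e) * (3 * (u i : ℤ) - e) =
      9 * ∑ i ∈ T, (u i : ℤ) * u i - 6 * e * ∑ i ∈ T, (u i : ℤ) + 9 * (e * e) := by
    have : ∀ i ∈ T, (3 * (u i : ℤ) - e) * (3 * (u i : ℤ) - e) =
        9 * ((u i : ℤ) * u i) - 6 * e * (u i : ℤ) + e * e := fun i _ => by ring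
    rw [Finset.sum_congr rfl this, Finset.sum_add_distrib, Finset.sum_sub_distrib,
      ← Finset.mul_sum, ← Finset.mul_sum, Finset.sum_const, hT]
    norm_num
  have h6 : 0 ≤ ∑ i ∈ T, (3 * (u i : ℤ) - e) * (3 * (u i : ℤ) - e) :=
    Finset.sum_nonneg fun i _ => mul_self_nonneg _
  have he : 0 < (e : ℤ) := by exact_mod_cast deg_pos hG hGe
  have h7 : (∑ i ∈ T, (u i : ℤ)) * (∑ i ∈ T, (u i : ℤ)) ≤ 9 * ∑ i ∈ T, (u i : ℤ) * u i := by
    have := sq_sum_le_card_mul_sum_sq (s := T) (f := fun i => (u i : ℤ))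
    rw [hT] at this
    calc (∑ i ∈ T, (u i : ℤ)) * (∑ i ∈ T, (u i : ℤ)) = (∑ i ∈ T, (u i : ℤ)) ^ 2 := by ring
      _ ≤ _ := this
      _ = _ := by
        push_cast
        congr 1
        exact Finset.sum_congr rfl fun i _ => by ring
  have hnn : 0 ≤ ∑ i ∈ T, (u i : ℤ) := Finset.sum_nonneg fun i _ => Int.natCast_nonneg _
  constructor
  · rcases lt_or_ge (ip e (fun j => u (ι j)) e (fun j => u (ι j))) 0 with h | h
    · have := (h2 h).2
      omega
    · by_contra hcon
      push Not at hcon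
      nlinarith
  · intro heq
    rcases lt_or_ge (ip e (fun j => u (ι j)) e (fun j => u (ι j))) 0 with h | h
    · have := (h2 h).2
      omega
    · have h8 : ∑ i ∈ T, (3 * (u i : ℤ) - e) * (3 * (u i : ℤ) - e) = 0 := by
        refine le_antisymm ?_ h6
        rw [h5, ← heq]
        nlinarith
      intro i hi
      have h9 := (Finset.sum_eq_zero_iff_of_nonneg fun i _ => mul_self_nonneg _).1 h8 i hi
      have h10 := mul_self_eq_zero.1 h9
      omega

/-- The cubic divides the irreducible curves of degree zero. -/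
theorem irr_pos {K : Type} [Field K] [CharZero K] {r : ℕ} {P : Fin (r + 4) → Fin 2 → K}
    (hP : AlgebraicIndependent ℚ (fun ij : Fin (r + 4) × Fin 2 => P ij.1 ij.2))
    {T : Finset (Fin (r + 4))} (hT : T.card = 9) {g : MvPolynomial (Fin 3) K}
    (hg : g ∈ VS (fun j => aff (P j)) (ind T 1) 3) (hg0 : g ≠ 0)
    {G : MvPolynomial (Fin 3) K} {e : ℕ} (hG : Irreducible G) (hGe : G.IsHomogeneous e)
    (hgG : ¬ g ∣ G) {u : Fin (r + 4) → ℕ} (hu : ∀ i ∈ T, Ord (aff (P i)) (u i) G) :
    1 ≤ 3 * (e : ℤ) - ∑ i ∈ T, (u i : ℤ) := by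
  classical
  obtain ⟨h1, h2⟩ := irr_nine hP hT hG hGe hu
  by_contra hcon
  have h3 : 3 * (e : ℤ) = ∑ i ∈ T, (u i : ℤ) := by omega
  have h4 := h2 h3
  obtain ⟨i0, hi0⟩ : T.Nonempty := by
    rw [← Finset.card_pos]
    omega
  obtain ⟨k, hk⟩ : ∃ k, e = 3 * k := ⟨u i0, (h4 i0 hi0).symm⟩
  subst hk
  have hk0 : 0 < k := by
    have := deg_pos hG hGe
    omega
  have hGm : G ∈ VS (fun j => aff (P j)) (ind T k) (3 * k) := by
    rw [mem_VS]
    refine ⟨hGe, fun j => ?_⟩
    unfold ind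
    split_ifs with hj
    · have h5 := h4 j hj
      have h6 : u j = k := by omega
      rw [← h6]
      exact (hu j hj).1
    · exact van_zero _ _
  have hgk : g ^ k ∈ VS (fun j => aff (P j)) (ind T k) (3 * k) := by
    rw [mem_VS] at hg ⊢
    refine ⟨hg.1.pow k, fun j => ?_⟩
    have h5 : ∀ l : ℕ, Van (aff (P j)) (l * ind T 1 j) (g ^ l) := by
      intro l
      induction l with
      | zero =>
        rw [Nat.zero_mul]
        exact van_zero _ _
      | succ l ih =>
        rw [pow_succ, Nat.succ_mul]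
        exact van_mul ih (hg.2 j)
    have h6 : ind T k j = k * ind T 1 j := by
      unfold ind
      split_ifs <;> simp
    rw [h6]
    exact h5 k
  obtain ⟨⟨v, hv⟩, hv0, hv1⟩ := finrank_eq_one_iff'.1 (dim_cub hP hT k)
  obtain ⟨a, ha⟩ := hv1 ⟨G, hGm⟩
  obtain ⟨b, hb⟩ := hv1 ⟨g ^ k, hgk⟩
  have ha' : a • v = G := congrArg Subtype.val ha
  have hb' : b • v = g ^ k := congrArg Subtype.val hb
  have hb0 : b ≠ 0 := by
    rintro rfl
    rw [zero_smul] at hb'
    exact pow_ne_zero k hg0 hb'.symm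
  apply hgG
  have h7 : G = C (a * b⁻¹) * g ^ k := by
    rw [← hb', ← ha', ← C_mul', ← C_mul', ← mul_assoc, ← C_mul, mul_assoc,
      inv_mul_cancel₀ hb0, mul_one]
  rw [h7]
  exact Dvd.dvd.mul_left (dvd_pow_self g hk0.ne') _

/-- Effective forms which are not divisible by the cubic. -/
theorem eff_pos {K : Type} [Field K] [CharZero K] {r : ℕ} {P : Fin (r + 4) → Fin 2 → K}
    (hP : AlgebraicIndependent ℚ (fun ij : Fin (r + 4) × Fin 2 => P ij.1 ij.2))
    {T : Finset (Fin (r + 4))} (hT : T.card = 9) {g : MvPolynomial (Fin 3) K}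
    (hg : g ∈ VS (fun j => aff (P j)) (ind T 1) 3) (hg0 : g ≠ 0) :
    ∀ (N : ℕ) (h : MvPolynomial (Fin 3) K), h ≠ 0 → h.IsHomogeneous N → ¬ g ∣ h →
      ∀ o : Fin (r + 4) → ℕ, (∀ i ∈ T, Ord (aff (P i)) (o i) h) →
        0 ≤ 3 * (N : ℤ) - ∑ i ∈ T, (o i : ℤ) ∧ (0 < N → 1 ≤ 3 * (N : ℤ) - ∑ i ∈ T, (o i : ℤ)) ∧
          (0 < N → 3 * (N : ℤ) - ∑ i ∈ T, (o i : ℤ) ≤ 1 → Irreducible h) := by
  classical
  intro N
  induction N using Nat.strong_induction_on with
  | _ N ih =>
    intro h h0 hN hgh o ho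
    rcases Nat.eq_zero_or_pos N with rfl | hpos
    · have h1 : ∑ i ∈ T, (o i : ℤ) = 0 := by
        refine Finset.sum_eq_zero fun i hi => ?_
        have := van_le h0 hN (ho i hi).1
        omega
      rw [h1]
      refine ⟨by norm_num, fun h => absurd h (lt_irrefl _), fun h => absurd h (lt_irrefl _)⟩
    · have hnu : ¬ IsUnit h := by
        intro hu
        have h1 := MvPolynomial.isUnit_iff_totalDegree_of_isReduced.1 hu
        have h2 := hN.totalDegree h0
        omega
      obtain ⟨G, hG, hGh⟩ := WfDvdMonoid.exists_irreducible_factor hnu h0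
      obtain ⟨k, hk⟩ := hGh
      have hk0 : k ≠ 0 := fun h1 => h0 (by rw [hk, h1, mul_zero])
      have hGe := Pool.Agent.Chud.homog_of_dvd hN h0 ⟨k, hk⟩
      have hke := Pool.Agent.Chud.homog_of_dvd hN h0 ⟨G, by rw [hk, mul_comm]⟩
      have hdeg : G.totalDegree + k.totalDegree = N := by
        have h1 := hGe.mul hke
        rw [← hk] at h1
        exact h1.inj_right hN h0
      have he := deg_pos hG hGe
      have hou := fun i : Fin (r + 4) => exists_ord (p := P i) hG.ne_zero hGe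
      choose u hu using hou
      have hov := fun i : Fin (r + 4) => exists_ord (p := P i) hk0 hke
      choose v hv using hov
      have hsum : ∀ i ∈ T, o i = u i + v i := by
        intro i hi
        have h1 := ord_mul (hu i) (hv i)
        rw [← hk] at h1
        exact ord_unique (ho i hi) h1
      have hs : ∑ i ∈ T, (o i : ℤ) = ∑ i ∈ T, (u i : ℤ) + ∑ i ∈ T, (v i : ℤ) := by
        rw [← Finset.sum_add_distrib]
        refine Finset.sum_congr rfl fun i hi => ?_
        rw [hsum i hi]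
        push_cast
        rfl
      have hgG : ¬ g ∣ G := fun h1 => hgh (h1.trans ⟨k, hk⟩)
      have hgk : ¬ g ∣ k := fun h1 => hgh (h1.trans ⟨G, by rw [hk, mul_comm]⟩)
      have h1 := irr_pos hP hT hg hg0 hG hGe hgG (fun i _ => hu i)
      obtain ⟨h2, h3, -⟩ := ih k.totalDegree (by omega) k hk0 hke hgk v (fun i _ => hv i)
      have hdZ : (G.totalDegree : ℤ) + k.totalDegree = N := by exact_mod_cast hdeg
      refine ⟨by rw [hs]; linarith, fun _ => by rw [hs]; linarith, fun _ hle => ?_⟩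
      have h4 : k.totalDegree = 0 := by
        by_contra hcon
        have := h3 (Nat.pos_of_ne_zero hcon)
        rw [hs] at hle
        linarith
      have h5 : IsUnit k := by
        rw [MvPolynomial.totalDegree_eq_zero_iff_eq_C] at h4
        rw [h4]
        refine IsUnit.map C (isUnit_iff_ne_zero.2 fun h6 => hk0 ?_)
        rw [h4, h6, C_0]
      rw [hk]
      exact (irreducible_mul_isUnit h5).2 hG

end Pool.Agent.R355.Nine
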