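import Pool.Agent.R355.NineC

set_option autoImplicit false

/-!
# Existence of irreducible curves of degree one on the anticanonical class
-/

namespace Pool.Agent.R355.Nine

open MvPolynomial Pool.Agent.W609 Pool.Agent.W609.CR Pool.Agent.TH167 Pool.Agent.TH167.SH
  Pool.Agent.TH167.TT

/-- The multiplicities of the family. -/
def fam {n : ℕ} (T : Finset (Fin n)) (y w : Fin n → ℕ) (b : ℕ) (j : Fin n) : ℕ :=
  if j ∈ T then b + y j else w j

theorem fam_mem {n : ℕ} {T : Finset (Fin n)} (y w : Fin n → ℕ) (b : ℕ) {j : Fin n} (hj : j ∈ T) :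
    fam T y w b j = b + y j := if_pos hj

theorem fam_not {n : ℕ} {T : Finset (Fin n)} (y w : Fin n → ℕ) (b : ℕ) {j : Fin n} (hj : j ∉ T) :
    fam T y w b j = w j := if_neg hj

/-- The number of conditions outside of `T`. -/
def tau {n : ℕ} (T : Finset (Fin n)) (w : Fin n → ℕ) : ℕ := ∑ j ∈ Tᶜ, (w j + 1).choose 2

theorem exists_tau {K : Type} [Field K] {r : ℕ} (P : Fin (r + 4) → Fin 2 → K)
    {T : Finset (Fin (r + 4))} (hT : T.card = 9) {e0 : ℕ} {y : Fin (r + 4) → ℕ}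
    (hk : 3 * e0 = ∑ i ∈ T, y i + 1)
    (hχ : ∑ i ∈ T, (y i + 1).choose 2 + 1 ≤ (e0 + 2).choose 2) (w : Fin (r + 4) → ℕ) :
    VS (fun j => aff (P j)) (fam T y w (tau T w)) (3 * tau T w + e0) ≠ ⊥ := by
  classical
  intro hbot
  have h1 := le_dim (fam T y w (tau T w)) P (3 * tau T w + e0)
  rw [← vs_eq_forms, hbot, finrank_bot, zero_add] at h1
  have h2 := Finset.sum_add_sum_compl T fun j => (fam T y w (tau T w) j + 1).choose 2
  have h3 : ∑ j ∈ Tᶜ, (fam T y w (tau T w) j + 1).choose 2 = tau T w := by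
    unfold tau
    refine Finset.sum_congr rfl fun j hj => ?_
    rw [fam_not _ _ _ (Finset.mem_compl.1 hj)]
  have h4 : ∑ j ∈ T, (fam T y w (tau T w) j + 1).choose 2 =
      ∑ j ∈ T, (tau T w + y j + 1).choose 2 := by
    refine Finset.sum_congr rfl fun j hj => ?_
    rw [fam_mem _ _ _ hj]
  obtain ⟨t, ht⟩ : ∃ t, tau T w = t := ⟨_, rfl⟩
  rw [ht] at h1 h2 h3 h4
  have h5 : ∀ a : ℕ, 2 * (a + 1).choose 2 = a * a + a := by
    intro a
    rw [two_c2, Nat.add_sub_cancel]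
    ring
  have h6 : 2 * ∑ j ∈ T, (t + y j + 1).choose 2 =
      9 * (t * t) + 9 * t + 2 * t * ∑ i ∈ T, y i + 2 * ∑ i ∈ T, (y i + 1).choose 2 := by
    rw [Finset.mul_sum, Finset.mul_sum, Finset.mul_sum]
    have : ∀ j ∈ T, 2 * (t + y j + 1).choose 2 =
        (t * t + t) + (2 * t * y j + 2 * (y j + 1).choose 2) := by
      intro j _
      rw [h5, h5]
      ring
    rw [Finset.sum_congr rfl this]
    simp only [Finset.sum_add_distrib, Finset.sum_const, hT, smul_eq_mul]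
    ring
  have h7 : 2 * (3 * t + e0 + 2).choose 2 = (3 * t + e0 + 1) * (3 * t + e0 + 2) :=
    H932R7.two_choose (3 * t + e0)
  have h8 : 2 * (e0 + 2).choose 2 = (e0 + 1) * (e0 + 2) := H932R7.two_choose e0
  have h9 : t * (3 * e0) = t * ∑ i ∈ T, y i + t := by
    rw [hk]
    ring
  nlinarith

/-- The irreducible curves used for the restriction. -/
theorem exists_curve {K : Type} [Field K] [CharZero K] {r : ℕ} {P : Fin (r + 4) → Fin 2 → K}
    (hP : AlgebraicIndependent ℚ (fun ij : Fin (r + 4) × Fin 2 => P ij.1 ij.2))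
    {T : Finset (Fin (r + 4))} (hT : T.card = 9) {e0 : ℕ} (he0 : 0 < e0) (he3 : e0 ≤ 3)
    {y : Fin (r + 4) → ℕ} (hk : 3 * e0 = ∑ i ∈ T, y i + 1)
    (hχ : ∑ i ∈ T, (y i + 1).choose 2 + 1 ≤ (e0 + 2).choose 2) {w : Fin (r + 4) → ℕ}
    (hw : ∃ j, j ∉ T ∧ 1 ≤ w j) :
    ∃ (b : ℕ) (G : MvPolynomial (Fin 3) K) (u : Fin (r + 4) → ℕ), b ≤ tau T w ∧ Irreducible G ∧
      G.IsHomogeneous (3 * b + e0) ∧ (∀ j, Ord (aff (P j)) (u j) G) ∧
      (∀ j ∈ T, u j = b + y j) ∧ ∀ j, j ∉ T → w j ≤ u j := by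
  classical
  have hex : ∃ b, VS (fun j => aff (P j)) (fam T y w b) (3 * b + e0) ≠ ⊥ :=
    ⟨_, exists_tau P hT hk hχ w⟩
  obtain ⟨b, hb⟩ : ∃ b, b = Nat.find hex := ⟨_, rfl⟩
  have hb1 : VS (fun j => aff (P j)) (fam T y w b) (3 * b + e0) ≠ ⊥ := by
    rw [hb]
    exact Nat.find_spec hex
  have hb2 : b ≤ tau T w := by
    rw [hb]
    exact Nat.find_min' hex (exists_tau P hT hk hχ w)
  have hb3 : ∀ c < b, VS (fun j => aff (P j)) (fam T y w c) (3 * c + e0) = ⊥ := by
    intro c hc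
    by_contra h
    exact Nat.find_min hex (hb ▸ hc) h
  obtain ⟨f, hf, hf0⟩ := Submodule.exists_mem_ne_zero_of_ne_bot hb1
  have hfm := (mem_VS _ _ _ _).1 hf
  -- the cubic
  have hc1 := dim_cub hP hT 1
  obtain ⟨g, hg, hg0⟩ := exists_mem (P := P) (w := ind T 1) (d := 3 * 1) (by rw [hc1]; exact one_pos)
  have hgo := exact_ord hP hc1 hg hg0
  have hgm := (mem_VS _ _ _ _).1 hg
  have hgf : ¬ g ∣ f := by
    rintro ⟨h, hh⟩
    have hh0 : h ≠ 0 := fun h1 => hf0 (by rw [hh, h1, mul_zero])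
    have hhe := Pool.Agent.Chud.homog_of_dvd hfm.1 hf0 ⟨g, by rw [hh, mul_comm]⟩
    have hdeg : 3 * 1 + h.totalDegree = 3 * b + e0 := by
      have h1 := hgm.1.mul hhe
      rw [← hh] at h1
      exact h1.inj_right hfm.1 hf0
    obtain ⟨j0, hj0, hj0w⟩ := hw
    have hoff : ∀ j, j ∉ T → Van (aff (P j)) (w j) h := by
      intro j hj
      refine van_of_mul (hgo j) ?_
      rw [← hh]
      have h1 := hfm.2 j
      rw [fam_not _ _ _ hj] at h1
      have h2 : ind T 1 j = 0 := if_neg hj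
      rw [h2, zero_add]
      exact h1
    rcases Nat.eq_zero_or_pos b with hb0 | hb0
    · have h1 := van_le hh0 hhe (hoff j0 hj0)
      omega
    · have h1 := hb3 (b - 1) (by omega)
      have h2 : h ∈ VS (fun j => aff (P j)) (fam T y w (b - 1)) (3 * (b - 1) + e0) := by
        rw [mem_VS]
        refine ⟨?_, fun j => ?_⟩
        · have h3 : h.totalDegree = 3 * (b - 1) + e0 := by omega
          rwa [h3] at hhe
        · by_cases hj : j ∈ T
          · rw [fam_mem _ _ _ hj]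
            refine van_of_mul (hgo j) ?_
            rw [← hh]
            have h4 := hfm.2 j
            rw [fam_mem _ _ _ hj] at h4
            have h5 : ind T 1 j = 1 := if_pos hj
            rw [h5]
            have h6 : 1 + (b - 1 + y j) = b + y j := by omega
            rw [h6]
            exact h4
          · rw [fam_not _ _ _ hj]
            exact hoff j hj
      rw [h1, Submodule.mem_bot] at h2
      exact hh0 h2
  have hou := fun i : Fin (r + 4) => exists_ord (p := P i) hf0 hfm.1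
  choose u hu using hou
  have hge : ∀ j, fam T y w b j ≤ u j := by
    intro j
    by_contra hcon
    push Not at hcon
    exact (hu j).2 (van_mono (by omega) (hfm.2 j))
  obtain ⟨h1, h2, h3⟩ := eff_pos hP hT hg hg0 (3 * b + e0) f hf0 hfm.1 hgf u (fun i _ => hu i)
  have hge' : ∀ j ∈ T, b + y j ≤ u j := by
    intro j hj
    have := hge j
    rwa [fam_mem _ _ _ hj] at this
  have hs : ∑ i ∈ T, (b + y i) = 9 * b + ∑ i ∈ T, y i := by
    rw [Finset.sum_add_distrib, Finset.sum_const, hT, smul_eq_mul]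
  have hs2 : ∑ i ∈ T, (b + y i) ≤ ∑ i ∈ T, u i := Finset.sum_le_sum hge'
  have h4 := h2 (by omega)
  have h5 : ((∑ i ∈ T, u i : ℕ) : ℤ) = ∑ i ∈ T, (u i : ℤ) := by push_cast; rfl
  rw [← h5] at h3 h4
  have h6 : ∑ i ∈ T, (b + y i) = ∑ i ∈ T, u i := by omega
  have h7 := (Finset.sum_eq_sum_iff_of_le hge').1 h6
  refine ⟨b, f, u, hb2, h3 (by omega) (by omega), hfm.1, hu, fun j hj => (h7 j hj).symm,
    fun j hj => ?_⟩
  have := hge j
  rwa [fam_not _ _ _ hj] at this

end Pool.Agent.R355.Nine
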