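import Pool.Agent.R355.NineD
import Pool.Agent.TH442.NF.Orbit2

set_option autoImplicit false

/-!
# Standard classes with nine large multiplicities
-/

namespace Pool.Agent.R355.Nine

open MvPolynomial Pool.Agent.W609 Pool.Agent.W609.CR Pool.Agent.TH167 Pool.Agent.TH167.SH
  Pool.Agent.TH167.TT

theorem der_mem {K : Type} [Field K] (I : Ideal (MvPolynomial (Fin 3) K)) (l : Fin 3) :
    ∀ (m : ℕ) (f : MvPolynomial (Fin 3) K), f ∈ I ^ m → pderiv l f ∈ I ^ (m - 1) := by
  intro m
  induction m with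
  | zero =>
    intro f _
    simp
  | succ m ih =>
    intro f hf
    rw [Nat.add_sub_cancel]
    rw [pow_succ] at hf
    refine Submodule.mul_induction_on hf ?_ ?_
    · intro a ha b hb
      rw [Derivation.leibniz, smul_eq_mul, smul_eq_mul]
      refine Ideal.add_mem _ (Ideal.mul_mem_right _ _ ha) ?_
      have h1 := ih a ha
      rcases Nat.eq_zero_or_pos m with h | h
      · rw [h, pow_zero, Ideal.one_eq_top]
        exact Submodule.mem_top
      · have h2 : I ^ m = I * I ^ (m - 1) := by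
          rw [← pow_succ']
          congr 1
          omega
        rw [h2]
        exact Ideal.mul_mem_mul hb h1
    · intro a b ha hb
      rw [map_add]
      exact Ideal.add_mem _ ha hb

/-- The inequality of Bezout for an irreducible curve and a polar curve. -/
theorem polar {K : Type} [Field K] [CharZero K] {s : ℕ} {P : Fin s → Fin 2 → K}
    (hP : Function.Injective P) {u : Fin s → ℕ} {G : MvPolynomial (Fin 3) K} {e : ℕ}
    (hG : Irreducible G) (hGe : G.IsHomogeneous e) (hu : ∀ j, Van (aff (P j)) (u j) G) :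
    ∑ j, u j * (u j - 1) ≤ e * (e - 1) := by
  have he := deg_pos hG hGe
  obtain ⟨l, hl⟩ : ∃ l : Fin 3, pderiv l G ≠ 0 := by
    by_contra hcon
    push Not at hcon
    have h1 := hGe.sum_X_mul_pderiv
    rw [Finset.sum_eq_zero fun l _ => by rw [hcon l, mul_zero]] at h1
    have h2 : (e : ℕ) • G ≠ 0 := by
      rw [nsmul_eq_mul]
      refine mul_ne_zero ?_ hG.ne_zero
      exact_mod_cast he.ne'
    exact h2 h1.symm
  have hhom : (pderiv l G).IsHomogeneous (e - 1) := hGe.pderiv
  refine bez hP hG hGe hu hl hhom (fun j => der_mem _ l _ _ (hu j)) ?_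
  rintro ⟨H, hH⟩
  have hH0 : H ≠ 0 := fun h => hl (by rw [hH, h, mul_zero])
  have h1 := hhom.totalDegree hl
  rw [hH, totalDegree_mul_of_isDomain hG.ne_zero hH0, hGe.totalDegree hG.ne_zero] at h1
  omega

theorem exists_third {n : ℕ} {T : Finset (Fin n)} (hT : 3 ≤ T.card) (a b : Fin n) :
    ∃ c ∈ T, c ≠ a ∧ c ≠ b := by
  classical
  obtain ⟨c, hc, hcn⟩ := Finset.exists_mem_notMem_of_card_lt_card
    (s := ({a, b} : Finset (Fin n))) (t := T) (lt_of_le_of_lt Finset.card_le_two (by omega))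
  rw [Finset.mem_insert, Finset.mem_singleton, not_or] at hcn
  exact ⟨c, hc, hcn.1, hcn.2⟩

theorem red_of_T {n : ℕ} {T : Finset (Fin n)} (hT : 3 ≤ T.card) {d : ℕ} {v : Fin n → ℕ}
    (hoff : ∀ j, j ∉ T → v j = 0)
    (h3 : ∀ a ∈ T, ∀ b ∈ T, ∀ c ∈ T, a ≠ b → a ≠ c → b ≠ c → v a + v b + v c ≤ d) :
    Reduced d v := by
  have h2 : ∀ a ∈ T, ∀ b ∈ T, a ≠ b → v a + v b ≤ d := by
    intro a ha b hb hab
    obtain ⟨c, hc, hca, hcb⟩ := exists_third hT a b
    have := h3 a ha b hb c hc hab hca.symm hcb.symm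
    omega
  have h1 : ∀ a ∈ T, v a ≤ d := by
    intro a ha
    obtain ⟨c, hc, hca, -⟩ := exists_third hT a a
    have := h2 a ha c hc hca.symm
    omega
  intro a b c hab hac hbc
  by_cases ha : a ∈ T
  · by_cases hb : b ∈ T
    · by_cases hc : c ∈ T
      · exact h3 a ha b hb c hc hab hac hbc
      · rw [hoff c hc]
        exact h2 a ha b hb hab
    · by_cases hc : c ∈ T
      · rw [hoff b hb]
        exact h2 a ha c hc hac
      · rw [hoff b hb, hoff c hc]
        exact h1 a ha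
  · rw [hoff a ha, zero_add]
    by_cases hb : b ∈ T
    · by_cases hc : c ∈ T
      · exact h2 b hb c hc hbc
      · rw [hoff c hc]
        exact h1 b hb
    · by_cases hc : c ∈ T
      · rw [hoff b hb, zero_add]
        exact h1 c hc
      · rw [hoff b hb, hoff c hc]
        exact Nat.zero_le _

/-- The restriction argument. -/
theorem by_curve {K : Type} [Field K] [CharZero K] [IsAlgClosed K] {r : ℕ}
    {P : Fin (r + 4) → Fin 2 → K}
    (hP : AlgebraicIndependent ℚ (fun ij : Fin (r + 4) × Fin 2 => P ij.1 ij.2))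
    {T : Finset (Fin (r + 4))} {G : MvPolynomial (Fin 3) K} {e : ℕ} (he : 2 ≤ e)
    (hG : Irreducible G) (hGe : G.IsHomogeneous e) {u : Fin (r + 4) → ℕ}
    (hu : ∀ j, Ord (aff (P j)) (u j) G) {d : ℕ} {w : Fin (r + 4) → ℕ}
    (hed : e ≤ d) (huw : ∀ j ∈ T, u j ≤ w j) (hwu : ∀ j, j ∉ T → w j ≤ u j)
    (hred : Reduced (d - e) (fun j => if j ∈ T then w j - u j else 0))
    (hkk : 3 * e + ∑ j ∈ T, w j ≤ 3 * d + ∑ j ∈ T, u j)
    (hc : e * e + ∑ j ∈ T, u j * w j + ∑ j ∈ Tᶜ, u j <
      e * d + 3 * e + ∑ j ∈ T, u j * (u j - 1)) :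
    (Module.finrank K ↥(VS (fun j => aff (P j)) w d) : ℤ) = chi d w := by
  classical
  obtain ⟨v, hv⟩ : ∃ v : Fin (r + 4) → ℕ, v = fun j => if j ∈ T then w j else u j := ⟨_, rfl⟩
  have hvT : ∀ j ∈ T, v j = w j := fun j hj => by rw [hv]; exact if_pos hj
  have hvn : ∀ j, j ∉ T → v j = u j := fun j hj => by rw [hv]; exact if_neg hj
  have huv : ∀ j, u j ≤ v j := by
    intro j
    by_cases hj : j ∈ T
    · rw [hvT j hj]
      exact huw j hj
    · rw [hvn j hj]
  have hwv : ∀ j, w j ≤ v j := by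
    intro j
    by_cases hj : j ∈ T
    · rw [hvT j hj]
    · rw [hvn j hj]
      exact hwu j hj
  have hvu : (fun j => v j - u j) = fun j => if j ∈ T then w j - u j else 0 := by
    funext j
    by_cases hj : j ∈ T
    · rw [hvT j hj, if_pos hj]
    · rw [hvn j hj, if_neg hj, Nat.sub_self]
  have s1 := Finset.sum_add_sum_compl T fun j => u j * v j
  have s2 := Finset.sum_add_sum_compl T fun j => u j * (u j - 1)
  have s3 : ∑ j ∈ T, u j * v j = ∑ j ∈ T, u j * w j :=
    Finset.sum_congr rfl fun j hj => by rw [hvT j hj]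
  have s4 : ∑ j ∈ Tᶜ, u j * v j = ∑ j ∈ Tᶜ, u j * (u j - 1) + ∑ j ∈ Tᶜ, u j := by
    rw [← Finset.sum_add_distrib]
    refine Finset.sum_congr rfl fun j hj => ?_
    rw [hvn j (Finset.mem_compl.1 hj)]
    rcases Nat.eq_zero_or_pos (u j) with h | h
    · rw [h]
    · obtain ⟨x, hx⟩ : ∃ x, u j = x + 1 := ⟨u j - 1, by omega⟩
      rw [hx, Nat.add_sub_cancel]
      ring
  have h1 := rr_step hG hGe he (inj_of_alg hP) hu v d (by omega)
  have h2 : (Module.finrank K ↥(VS (fun j => aff (P j)) (fun j => v j - u j) (d - e)) : ℤ) =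
      chi (d - e) (fun j => v j - u j) := by
    rw [hvu]
    refine anti hP hred ?_
    have h3 : ∑ j, (if j ∈ T then w j - u j else 0) = ∑ j ∈ T, (w j - u j) := by
      rw [Finset.sum_ite_mem, Finset.univ_inter]
    have h4 : ∑ j ∈ T, (w j - u j) + ∑ j ∈ T, u j = ∑ j ∈ T, w j := by
      rw [← Finset.sum_add_distrib]
      exact Finset.sum_congr rfl fun j hj => Nat.sub_add_cancel (huw j hj)
    rw [h3]
    omega
  have h3 := two_chi (d - e) (fun j => v j - u j)
  have h4 := two_chi d v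
  have h5 : ip (d - e) (fun j => v j - u j) (d - e) (fun j => v j - u j) =
      ((d : ℤ) - e) * (d - e) - ∑ j, ((v j : ℤ) - u j) * (v j - u j) := by
    unfold ip
    push_cast [hed]
    congr 1
    refine Finset.sum_congr rfl fun j _ => ?_
    push_cast [huv j]
    ring
  have h6 : kk (d - e) (fun j => v j - u j) = 3 * ((d : ℤ) - e) - ∑ j, ((v j : ℤ) - u j) := by
    unfold kk
    push_cast [hed]
    congr 1
    refine Finset.sum_congr rfl fun j _ => ?_
    push_cast [huv j]
    ring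
  have h7 : ∑ j, ((v j : ℤ) - u j) * (v j - u j) + ∑ j, ((v j : ℤ) - u j) =
      ∑ j, (v j : ℤ) * v j + ∑ j, (v j : ℤ) - 2 * ∑ j, (u j : ℤ) * v j +
        ∑ j, (u j : ℤ) * (u j - 1) := by
    rw [Finset.mul_sum, ← Finset.sum_add_distrib, ← Finset.sum_add_distrib,
      ← Finset.sum_sub_distrib, ← Finset.sum_add_distrib]
    refine Finset.sum_congr rfl fun j _ => ?_
    ring
  have h8 : (Module.finrank K ↥(VS (fun j => aff (P j)) v d) : ℤ) = chi d v := by
    have h9 := chi_le_dim P d v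
    rw [h5, h6] at h3
    unfold ip kk at h4
    rw [h2] at h1
    have h10 : 2 * (Module.finrank K ↥(VS (fun j => aff (P j)) v d) : ℤ) ≤ 2 * chi d v := by
      nlinarith
    omega
  have h9 : 0 ≤ chi d v := by
    rw [← h8]
    exact Int.natCast_nonneg _
  have h10 : Pool.Agent.H932R3.ExpDim K v P d := by
    rw [TH442.NF.expDim_iff, h8, max_eq_right h9]
  have h11 : ∑ i, (v i + 1).choose 2 ≤ (d + 2).choose 2 := by
    rw [chi_cast] at h9
    omega
  have h12 := TH442.NF.exp_mono h10 h11 hwv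
  rw [TH442.NF.expDim_iff] at h12
  rw [h12, max_eq_right]
  have h13 : ∑ i, (w i + 1).choose 2 ≤ ∑ i, (v i + 1).choose 2 :=
    Finset.sum_le_sum fun i _ => Nat.choose_le_choose 2 (Nat.add_le_add_right (hwv i) 1)
  rw [chi_cast]
  omega

end Pool.Agent.R355.Nine
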