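import Pool.Agent.R355.NineF
import Pool.Agent.R355.GenB

set_option autoImplicit false

/-!
# Nine arbitrary multiplicities: the bound for the degree of a standard special class
-/

namespace Pool.Agent.R355.Nine

open MvPolynomial Pool.Agent.W609 Pool.Agent.W609.CR Pool.Agent.TH167 Pool.Agent.TH167.SH
  Pool.Agent.TH167.TT

/-- Eight multiplicities of a standard class. -/
theorem eight {n : ℕ} {d : ℕ} {w : Fin n → ℕ} (hred : Reduced d w) {T : Finset (Fin n)}
    (hT : T.card = 8) : 3 * ∑ j ∈ T, w j ≤ 8 * d := by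
  classical
  obtain ⟨ι, hι⟩ : ∃ ι : Fin 8 ↪ Fin n, Finset.map ι Finset.univ = T :=
    ⟨(T.orderEmbOfFin hT).toEmbedding, Finset.map_orderEmbOfFin_univ T hT⟩
  have h1 : ∀ i j k : Fin 8, i ≠ j → i ≠ k → j ≠ k → w (ι i) + w (ι j) + w (ι k) ≤ d := by
    intro i j k hij hik hjk
    exact hred _ _ _ (fun h => hij (ι.injective h)) (fun h => hik (ι.injective h))
      (fun h => hjk (ι.injective h))
  rw [← hι, Finset.sum_map, Fin.sum_univ_eight]
  have a0 := h1 0 1 2 (by decide) (by decide) (by decide)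
  have a1 := h1 1 2 3 (by decide) (by decide) (by decide)
  have a2 := h1 2 3 4 (by decide) (by decide) (by decide)
  have a3 := h1 3 4 5 (by decide) (by decide) (by decide)
  have a4 := h1 4 5 6 (by decide) (by decide) (by decide)
  have a5 := h1 5 6 7 (by decide) (by decide) (by decide)
  have a6 := h1 6 7 0 (by decide) (by decide) (by decide)
  have a7 := h1 7 0 1 (by decide) (by decide) (by decide)
  omega

/-- The standard classes of degree zero on the anticanonical class of nine points. -/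
theorem const_of_eq {r : ℕ} {d : ℕ} {w : Fin (r + 4) → ℕ} (hred : Reduced d w)
    {T : Finset (Fin (r + 4))} (hT : T.card = 9) (h : ∑ j ∈ T, w j = 3 * d) :
    ∃ m, d = 3 * m ∧ ∀ i ∈ T, w i = m := by
  classical
  have h3 : ∀ a ∈ T, ∀ b ∈ T, ∀ c ∈ T, a ≠ b → a ≠ c → b ≠ c → w a + w b + w c = d := by
    intro a ha b hb c hc hab hac hbc
    have h1 := hred a b c hab hac hbc
    have e1 := Finset.add_sum_erase T w ha
    have e2 := Finset.add_sum_erase (T.erase a) w (Finset.mem_erase.2 ⟨hab.symm, hb⟩)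
    have e3 := Finset.add_sum_erase ((T.erase a).erase b) w
      (Finset.mem_erase.2 ⟨hbc.symm, Finset.mem_erase.2 ⟨hac.symm, hc⟩⟩)
    have e4 : (((T.erase a).erase b).erase c).card ≤ 3 * 2 := by
      rw [Finset.card_erase_of_mem
        (Finset.mem_erase.2 ⟨hbc.symm, Finset.mem_erase.2 ⟨hac.symm, hc⟩⟩),
        Finset.card_erase_of_mem (Finset.mem_erase.2 ⟨hab.symm, hb⟩),
        Finset.card_erase_of_mem ha, hT]
    have e5 := red_sum hred 2 _ e4
    omega
  have heq : ∀ a ∈ T, ∀ b ∈ T, w a = w b := by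
    intro a ha b hb
    by_cases hab : a = b
    · rw [hab]
    obtain ⟨c, hc, hca, hcb⟩ := exists_third (T := T) (by omega) a b
    obtain ⟨l, hl, hlT⟩ : ∃ l ∈ T, l ∉ ({a, b, c} : Finset (Fin (r + 4))) :=
      Finset.exists_mem_notMem_of_card_lt_card
        (lt_of_le_of_lt Finset.card_le_three (by omega))
    rw [Finset.mem_insert, Finset.mem_insert, Finset.mem_singleton, not_or, not_or] at hlT
    have h1 := h3 a ha c hc l hl hca.symm (Ne.symm hlT.1) (Ne.symm hlT.2.2)
    have h2 := h3 b hb c hc l hl hcb.symm (Ne.symm hlT.2.1) (Ne.symm hlT.2.2)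
    omega
  obtain ⟨i0, hi0⟩ : T.Nonempty := by
    rw [← Finset.card_pos]
    omega
  refine ⟨w i0, ?_, fun i hi => heq i hi i0 hi0⟩
  have h1 : ∑ j ∈ T, w j = 9 * w i0 := by
    rw [Finset.sum_congr rfl fun i hi => heq i hi i0 hi0, Finset.sum_const, hT, smul_eq_mul]
  omega

theorem sum_sq_le {ι : Type} [DecidableEq ι] (S : Finset ι) (w : ι → ℕ) :
    ∑ j ∈ S, w j * w j ≤ (∑ j ∈ S, w j) * ∑ j ∈ S, w j := by
  rw [Finset.sum_mul]
  refine Finset.sum_le_sum fun j hj => Nat.mul_le_mul_left _ ?_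
  exact Finset.single_le_sum (f := w) (fun _ _ => Nat.zero_le _) hj

/-- Dropping the points of multiplicity zero. -/
theorem vs_drop {K : Type} [Field K] {n n' : ℕ} (P : Fin n → Fin 2 → K) (w : Fin n → ℕ) (d : ℕ)
    (ι : Fin n' ↪ Fin n) (h : ∀ j, (∀ i, ι i ≠ j) → w j = 0) :
    VS (fun j => aff (P (ι j))) (fun j => w (ι j)) d = VS (fun j => aff (P j)) w d := by
  ext f
  rw [mem_VS, mem_VS]
  refine ⟨fun hf => ⟨hf.1, fun j => ?_⟩, fun hf => ⟨hf.1, fun j => hf.2 (ι j)⟩⟩
  by_cases hj : ∃ i, ι i = j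
  · obtain ⟨i, rfl⟩ := hj
    exact hf.2 i
  · push Not at hj
    rw [h j hj]
    exact van_zero _ _

theorem two_tau {n : ℕ} (T : Finset (Fin n)) (w : Fin n → ℕ) :
    2 * tau T w ≤ (∑ j ∈ Tᶜ, w j) * (∑ j ∈ Tᶜ, w j) + ∑ j ∈ Tᶜ, w j := by
  classical
  have h1 := sum_sq_le Tᶜ w
  have h2 : 2 * tau T w = ∑ j ∈ Tᶜ, w j * w j + ∑ j ∈ Tᶜ, w j := by
    unfold tau
    rw [Finset.mul_sum, ← Finset.sum_add_distrib]
    refine Finset.sum_congr rfl fun j _ => ?_
    rw [two_c2, Nat.add_sub_cancel]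
    ring
  omega

/-- Nine arbitrary multiplicities: standard classes of large degree are nonspecial. -/
theorem nine_main {r : ℕ} {P : Fin (r + 4) → Fin 2 → ℂ}
    (hP : AlgebraicIndependent ℚ (fun ij : Fin (r + 4) × Fin 2 => P ij.1 ij.2))
    {T : Finset (Fin (r + 4))} (hT : T.card = 9) {d : ℕ} {w : Fin (r + 4) → ℕ}
    (hred : Reduced d w) {q : ℕ} (hq : ∑ j ∈ Tᶜ, w j ≤ q)
    (hd : 15 * q ^ 2 + 27 * q + 15 < 2 * d) :
    (Module.finrank ℂ ↥(VS (fun j => aff (P j)) w d) : ℤ) = max 0 (chi d w) := by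
  classical
  have hsumT : ∑ j ∈ T, w j ≤ 3 * d := red_sum hred 3 T (by omega)
  have hall := Finset.sum_add_sum_compl T w
  rcases Nat.lt_or_ge (3 * d) (∑ j, w j) with hkk | hkk
  swap
  · have h1 := anti hP hred hkk
    rw [h1, max_eq_right]
    rw [← h1]
    exact Int.natCast_nonneg _
  rcases Nat.eq_or_lt_of_le hsumT with ha | ha
  · obtain ⟨m, hm, hw⟩ := const_of_eq hred hT ha
    have h1 : kk d w < 0 := by
      rw [kk_cast]
      have : ((∑ j, w j : ℕ) : ℤ) > ((3 * d : ℕ) : ℤ) := by exact_mod_cast hkk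
      push_cast at this ⊢
      linarith
    have h2 := Gen.family_empty hP hT hm hw h1
    rw [sys_eq] at h2
    have h3 := chi_le_dim P d w
    rw [h2, finrank_bot] at h3 ⊢
    have h4 : chi d w ≤ 0 := by exact_mod_cast h3
    rw [max_eq_left h4]
    rfl
  · -- the main case
    have hoff : ∃ j, j ∉ T ∧ 1 ≤ w j := by
      by_contra hcon
      push Not at hcon
      have h1 : ∑ j ∈ Tᶜ, w j = 0 := Finset.sum_eq_zero fun j hj => by
        have := hcon j (Finset.mem_compl.1 hj)
        omega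
      omega
    obtain ⟨i0, hi0, hmin⟩ := Finset.exists_min_image T w (by
      rw [← Finset.card_pos]
      omega)
    have h8 := eight hred (T := T.erase i0) (by rw [Finset.card_erase_of_mem hi0, hT])
    have e1 := Finset.add_sum_erase T w hi0
    have hlarge : 5 * q ^ 2 + 7 * q + 8 ≤ 2 * w i0 := by
      by_contra hcon
      push Not at hcon
      omega
    -- dropping the zeros
    obtain ⟨U, hU⟩ : ∃ U : Finset (Fin (r + 4)), U = T ∪ Tᶜ.filter (fun j => w j ≠ 0) := ⟨_, rfl⟩
    have hTU : T ⊆ U := by rw [hU]; exact Finset.subset_union_left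
    have hUw : ∀ j, j ∉ U → w j = 0 := by
      intro j hj
      rw [hU, Finset.mem_union, Finset.mem_filter, Finset.mem_compl] at hj
      push Not at hj
      by_contra h
      exact h (hj.2 hj.1)
    have hUc : U.card = 9 + (Tᶜ.filter (fun j => w j ≠ 0)).card := by
      rw [hU, Finset.card_union_of_disjoint, hT]
      exact Finset.disjoint_left.2 fun j hj hj' =>
        Finset.mem_compl.1 (Finset.mem_filter.1 hj').1 hj
    have hcq : (Tᶜ.filter (fun j => w j ≠ 0)).card ≤ ∑ j ∈ Tᶜ, w j := by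
      rw [Finset.card_filter]
      refine Finset.sum_le_sum fun j _ => ?_
      split_ifs with h <;> omega
    obtain ⟨s, hs⟩ : ∃ s, U.card = s + 4 := ⟨U.card - 4, by omega⟩
    obtain ⟨ι, hι⟩ : ∃ ι : Fin (s + 4) ↪ Fin (r + 4), Finset.map ι Finset.univ = U :=
      ⟨(U.orderEmbOfFin hs).toEmbedding, Finset.map_orderEmbOfFin_univ U hs⟩
    have hιU : ∀ j, ι j ∈ U := fun j => by
      rw [← hι]
      exact Finset.mem_map_of_mem _ (Finset.mem_univ j)
    have hUι : ∀ j ∈ U, ∃ i, ι i = j := by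
      intro j hj
      rw [← hι, Finset.mem_map] at hj
      obtain ⟨i, -, hi⟩ := hj
      exact ⟨i, hi⟩
    have hvs := vs_drop P w d ι (fun j hj => hUw j fun h => by
      obtain ⟨i, hi⟩ := hUι j h
      exact hj i hi)
    have hsum : ∀ f : Fin (r + 4) → ℕ, ∑ j : Fin (s + 4), f (ι j) = ∑ j ∈ U, f j := by
      intro f
      rw [← hι, Finset.sum_map]
    obtain ⟨T', hT'⟩ : ∃ T' : Finset (Fin (s + 4)), T' = Finset.univ.filter (fun j => ι j ∈ T) :=
      ⟨_, rfl⟩
    have hmT : T'.map ι = T := by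
      ext j
      rw [Finset.mem_map]
      constructor
      · rintro ⟨i, hi, rfl⟩
        rw [hT', Finset.mem_filter] at hi
        exact hi.2
      · intro hj
        obtain ⟨i, hi⟩ := hUι j (hTU hj)
        refine ⟨i, ?_, hi⟩
        rw [hT', Finset.mem_filter]
        exact ⟨Finset.mem_univ _, hi ▸ hj⟩
    have hmem' : ∀ i, i ∈ T' ↔ ι i ∈ T := fun i => by
      rw [hT', Finset.mem_filter]
      simp
    have hmC : T'ᶜ.map ι ⊆ Tᶜ := by
      intro j hj
      rw [Finset.mem_map] at hj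
      obtain ⟨i, hi, rfl⟩ := hj
      rw [Finset.mem_compl] at hi ⊢
      exact fun h => hi ((hmem' i).2 h)
    have hT'c : T'.card = 9 := by
      rw [← hT, ← hmT, Finset.card_map]
    have hP' : AlgebraicIndependent ℚ
        (fun ij : Fin (s + 4) × Fin 2 => (fun j => P (ι j)) ij.1 ij.2) := by
      have := hP.comp (fun ij : Fin (s + 4) × Fin 2 => (ι ij.1, ij.2)) (by
        intro a b h
        simp only [Prod.mk.injEq] at h
        exact Prod.ext (ι.injective h.1) h.2)
      exact this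
    have hred' : Reduced d (fun j => w (ι j)) := by
      intro a b c hab hac hbc
      exact hred _ _ _ (fun h => hab (ι.injective h)) (fun h => hac (ι.injective h))
        (fun h => hbc (ι.injective h))
    obtain ⟨k0, hk0⟩ := hUι i0 (hTU hi0)
    have hsT : ∑ j ∈ T', w (ι j) = ∑ j ∈ T, w j := by
      rw [← hmT, Finset.sum_map]
    have htau : tau T' (fun j => w (ι j)) ≤ tau T w := by
      unfold tau
      have : ∑ j ∈ T'ᶜ, (w (ι j) + 1).choose 2 = ∑ j ∈ T'ᶜ.map ι, (w j + 1).choose 2 := by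
        rw [Finset.sum_map]
      rw [this]
      exact Finset.sum_le_sum_of_subset hmC
    have htau2 := two_tau T w
    obtain ⟨p, hp⟩ : ∃ p, ∑ j ∈ Tᶜ, w j = p := ⟨_, rfl⟩
    rw [hp] at htau2 hcq hq
    have hpq : p * p ≤ q ^ 2 := by nlinarith
    have z1 : ∀ i ∈ T', w (ι k0) ≤ w (ι i) := by
      intro i hi
      rw [hk0]
      exact hmin _ ((hmem' i).1 hi)
    have z2 : ∃ j, j ∉ T' ∧ 1 ≤ w (ι j) := by
      obtain ⟨j, hj, hj1⟩ := hoff
      have hjU : j ∈ U := by
        by_contra h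
        have := hUw j h
        omega
      obtain ⟨i, hi⟩ := hUι j hjU
      exact ⟨i, fun h => hj (hi ▸ (hmem' i).1 h), by rw [hi]; exact hj1⟩
    have z3 : ∑ j ∈ T', w (ι j) < 3 * d := by
      rw [hsT]
      exact ha
    have z4 : 5 * tau T' (fun j => w (ι j)) + s ≤ w (ι k0) + 1 := by
      rw [hk0]
      omega
    have hmain := nine_large (K := ℂ) (r := s) (P := fun j => P (ι j)) hP' (T := T') hT'c (d := d)
      (w := fun j => w (ι j)) hred' (i0 := k0) ((hmem' k0).2 (hk0 ▸ hi0)) z1 z2 z3 z4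
    rw [hvs] at hmain
    have hchi : chi d (fun j => w (ι j)) = chi d w := by
      rw [chi_cast, chi_cast]
      have h1 : ∑ j : Fin (s + 4), (w (ι j) + 1).choose 2 = ∑ j, (w j + 1).choose 2 := by
        rw [hsum fun j => (w j + 1).choose 2]
        refine Finset.sum_subset (Finset.subset_univ _) fun j _ hj => ?_
        rw [hUw j hj]
        rfl
      rw [h1]
    rw [hmain, hchi, max_eq_right]
    rw [← hchi, ← hmain]
    exact Int.natCast_nonneg _

end Pool.Agent.R355.Nine
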