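import Pool.Agent.R355.NineG
import Pool.Agent.TH167.TT.Conv9
import Pool.Agent.R355.Round4

set_option autoImplicit false

/-!
# Nine arbitrary multiplicities: all classes
-/

namespace Pool.Agent.R355.Nine

open MvPolynomial Pool.Agent.W609 Pool.Agent.W609.CR Pool.Agent.TH167 Pool.Agent.TH167.SH
  Pool.Agent.TH167.TT

/-- The standard classes with at most the given sum outside of `T` are nonspecial. -/
def StdNonsp {n : ℕ} (T : Finset (Fin n)) (q : ℕ) : Prop :=
  ∀ (d : ℕ) (w : Fin n → ℕ), Reduced d w → ∑ j ∈ Tᶜ, w j ≤ q →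
    ∀ P : Fin n → Fin 2 → ℂ, AlgebraicIndependent ℚ (fun ij : Fin n × Fin 2 => P ij.1 ij.2) →
      (Module.finrank ℂ ↥(VS (fun j => aff (P j)) w d) : ℤ) = max 0 (chi d w)

theorem hhq {r : ℕ} {T : Finset (Fin (r + 4))} {q : ℕ} (hstd : StdNonsp T q) (d : ℕ)
    (w : Fin (r + 4) → ℕ) (hq : ∑ j ∈ Tᶜ, w j ≤ q) :
    ∃ F : MvPolynomial (Fin (r + 4) × Fin 2) ℚ, F ≠ 0 ∧ ∀ (K : Type) [Field K] [CharZero K]
      (P : Fin (r + 4) → Fin 2 → K), evP P F ≠ 0 → Special P d w → MSpecial P d w := by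
  classical
  obtain ⟨g, Fg, hFg, hg⟩ := dim_gen w d
  obtain ⟨K0, i1, i2, P0, hP0⟩ := exists_generic (r + 4)
  rcases Nat.eq_zero_or_pos g with hg0 | hg0
  · refine ⟨Fg, hFg, fun K _ _ P hP hs => ?_⟩
    exfalso
    rw [special_iff, hg K P hP, hg0] at hs
    omega
  · have hg1 := hg K0 P0 (evP_ne hP0 hFg)
    obtain ⟨d', w', k, C0, e, u, N, hD, hdim, P1, d1, w1, hP1, hchain, hle, hdle, hred, hdim1⟩ :=
      main2 d P0 hP0 w (by rw [hg1]; exact hg0)
    have hns : (Module.finrank K0 ↥(VS (fun j => aff (P1 j)) w1 d1) : ℤ) = chi d1 w1 := by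
      have h1 : ∑ j ∈ Tᶜ, w1 j ≤ q := (Finset.sum_le_sum fun j _ => hle j).trans hq
      have h2 := Round.transfer (d := d1) (w := w1) (fun P hP => by
        rw [TH442.NF.expDim_iff]
        exact hstd d1 w1 hred h1 P hP) hP1
      rw [TH442.NF.expDim_iff] at h2
      have h3 : 0 < Module.finrank K0 ↥(VS (fun j => aff (P1 j)) w1 d1) := by
        rw [hdim1, hdim, hg1]
        exact hg0
      omega
    have hspr := fun a => exc_spread (e a) (u a) ⟨K0, i1, i2, P0, C0 a, hP0, hD.exc a⟩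
    choose Fa hFa hFa' using hspr
    refine ⟨Fg * ∏ a, Fa a, mul_ne_zero hFg
      (Finset.prod_ne_zero_iff.2 fun a _ => hFa a), fun K _ _ P hP hs => ?_⟩
    rw [map_mul, map_prod] at hP
    have q0 := hg K P (left_ne_zero_of_mul hP)
    have q3 := Finset.prod_ne_zero_iff.1 (right_ne_zero_of_mul hP)
    choose C hC using fun a => hFa' a K P (q3 a (Finset.mem_univ a))
    have hDcp : Dcp P d w d' w' C e u N := ⟨hC, hD.pos, hD.orth, hD.deg, hD.mul, hD.zero⟩
    obtain ⟨c1, c2, c3⟩ := quad_inv hchain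
    simp only at c1 c2 c3
    rw [special_iff, q0] at hs
    rw [hdim1, hdim, hg1] at hns
    refine ⟨d', w', k, C, e, u, N, hDcp, by omega, ?_⟩
    by_contra hcon
    push Not at hcon
    have h2 := hDcp.chi_one hcon
    omega

/-- Standard classes are not `(-1)`-special. -/
theorem not_mspecial {r : ℕ} {K : Type} [Field K] {P : Fin (r + 4) → Fin 2 → K} {d : ℕ}
    {w : Fin (r + 4) → ℕ} (hred : Reduced d w) : ¬ MSpecial P d w := by
  rintro ⟨d', w', k, C, e, u, N, hD, -, a, ha⟩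
  have h1 := hD.neg a
  have h2 := hD.exc a
  have h3 := red_ip hred (fun j => van_le h2.irr.ne_zero h2.hom (h2.ord j).1) (by
    have := h2.can
    omega)
  omega

end Pool.Agent.R355.Nine
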