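import Pool.Agent.R355.NineS

set_option autoImplicit false

/-!
# Restriction to several curves
-/

namespace Pool.Agent.R355.Nine

open MvPolynomial Pool.Agent.W609 Pool.Agent.W609.CR Pool.Agent.TH167 Pool.Agent.TH167.SH
  Pool.Agent.TH167.TT

theorem red_small {n : ℕ} {T : Finset (Fin n)} (hT : 3 ≤ T.card) {d : ℕ} {v : Fin n → ℕ}
    (hoff : ∀ j, j ∉ T → ∀ i ∈ T, v j ≤ v i)
    (h3 : ∀ a ∈ T, ∀ b ∈ T, ∀ c ∈ T, a ≠ b → a ≠ c → b ≠ c → v a + v b + v c ≤ d) :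
    Reduced d v := by
  have l1 : ∀ a ∈ T, ∀ b ∈ T, a ≠ b → ∀ c, a ≠ c → b ≠ c → v a + v b + v c ≤ d := by
    intro a ha b hb hab c hac hbc
    by_cases hc : c ∈ T
    · exact h3 a ha b hb c hc hab hac hbc
    · obtain ⟨x, hx, hxa, hxb⟩ := exists_third hT a b
      have h1 := hoff c hc x hx
      have h2 := h3 a ha b hb x hx hab hxa.symm hxb.symm
      omega
  have l2 : ∀ a ∈ T, ∀ b c, a ≠ b → a ≠ c → b ≠ c → v a + v b + v c ≤ d := by
    intro a ha b c hab hac hbc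
    by_cases hb : b ∈ T
    · exact l1 a ha b hb hab c hac hbc
    · obtain ⟨x, hx, hxa, hxc⟩ := exists_third hT a c
      have h1 := hoff b hb x hx
      have h2 := l1 a ha x hx hxa.symm c hac hxc
      omega
  intro a b c hab hac hbc
  by_cases ha : a ∈ T
  · exact l2 a ha b c hab hac hbc
  · obtain ⟨x, hx, hxb, hxc⟩ := exists_third hT b c
    have h1 := hoff a ha x hx
    have h2 := l2 x hx b c hxb hxc hbc
    omega

/-- A vector with a given sum below a given vector. -/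
theorem exists_sub {n : ℕ} (S : Finset (Fin n)) (w : Fin n → ℕ) :
    ∀ k ≤ ∑ j ∈ S, w j, ∃ z : Fin n → ℕ, (∀ j, z j ≤ w j) ∧ ∑ j ∈ S, z j = k := by
  classical
  intro k
  induction k with
  | zero => exact fun _ => ⟨fun _ => 0, fun _ => Nat.zero_le _, Finset.sum_const_zero⟩
  | succ k ih =>
    intro hk
    obtain ⟨z, hz, hzs⟩ := ih (by omega)
    obtain ⟨j, hj, hlt⟩ := Finset.exists_lt_of_sum_lt (s := S) (f := z) (g := w) (by omega)
    refine ⟨fun i => if i = j then z j + 1 else z i, fun i => ?_, ?_⟩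
    · show (if i = j then z j + 1 else z i) ≤ w i
      split_ifs with h
      · rw [h]
        exact hlt
      · exact hz i
    · rw [← Finset.add_sum_erase S _ hj] at hzs ⊢
      have h1 : ∑ i ∈ S.erase j, (if i = j then z j + 1 else z i) = ∑ i ∈ S.erase j, z i :=
        Finset.sum_congr rfl fun i hi => if_neg (Finset.ne_of_mem_erase hi)
      beta_reduce
      rw [h1, if_pos rfl]
      omega

/-- The restriction argument, in general. -/
theorem by_curve' {K : Type} [Field K] [CharZero K] [IsAlgClosed K] {r : ℕ}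
    {P : Fin (r + 4) → Fin 2 → K}
    (hP : AlgebraicIndependent ℚ (fun ij : Fin (r + 4) × Fin 2 => P ij.1 ij.2))
    {T : Finset (Fin (r + 4))} {G : MvPolynomial (Fin 3) K} {e : ℕ} (he : 2 ≤ e)
    (hG : Irreducible G) (hGe : G.IsHomogeneous e) {u : Fin (r + 4) → ℕ}
    (hu : ∀ j, Ord (aff (P j)) (u j) G) {d : ℕ} {w : Fin (r + 4) → ℕ}
    (hed : e ≤ d) (huw : ∀ j ∈ T, u j ≤ w j)
    (hsub : (Module.finrank K ↥(VS (fun j => aff (P j)) (fun j => w j - u j) (d - e)) : ℤ) =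
      chi (d - e) (fun j => w j - u j))
    (hc : e * e + ∑ j ∈ T, u j * w j + ∑ j ∈ Tᶜ, u j * (w j - u j + 1) <
      e * d + 3 * e + ∑ j ∈ T, u j * (u j - 1)) :
    (Module.finrank K ↥(VS (fun j => aff (P j)) w d) : ℤ) = chi d w := by
  classical
  obtain ⟨v, hv⟩ : ∃ v : Fin (r + 4) → ℕ, v = fun j => max (w j) (u j) := ⟨_, rfl⟩
  have hvT : ∀ j ∈ T, v j = w j := fun j hj => by
    rw [hv]
    exact max_eq_left (huw j hj)
  have huv : ∀ j, u j ≤ v j := fun j => by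
    rw [hv]
    exact le_max_right _ _
  have hwv : ∀ j, w j ≤ v j := fun j => by
    rw [hv]
    exact le_max_left _ _
  have hvu : (fun j => v j - u j) = fun j => w j - u j := by
    funext j
    rw [hv]
    show max (w j) (u j) - u j = w j - u j
    omega
  have s1 := Finset.sum_add_sum_compl T fun j => u j * v j
  have s2 := Finset.sum_add_sum_compl T fun j => u j * (u j - 1)
  have s3 : ∑ j ∈ T, u j * v j = ∑ j ∈ T, u j * w j :=
    Finset.sum_congr rfl fun j hj => by rw [hvT j hj]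
  have s4 : ∑ j ∈ Tᶜ, u j * v j = ∑ j ∈ Tᶜ, u j * (u j - 1) +
      ∑ j ∈ Tᶜ, u j * (w j - u j + 1) := by
    rw [← Finset.sum_add_distrib]
    refine Finset.sum_congr rfl fun j _ => ?_
    have h1 : v j = u j + (w j - u j) := by
      rw [hv]
      show max (w j) (u j) = _
      omega
    rw [h1, ← mul_add]
    rcases Nat.eq_zero_or_pos (u j) with h | h
    · rw [h, zero_mul, zero_mul]
    · congr 1
      omega
  have h1 := rr_step hG hGe he (inj_of_alg hP) hu v d (by omega)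
  have h2 : (Module.finrank K ↥(VS (fun j => aff (P j)) (fun j => v j - u j) (d - e)) : ℤ) =
      chi (d - e) (fun j => v j - u j) := by
    rw [hvu]
    exact hsub
  have h3 := two_chi (d - e) (fun j => v j - u j)
  have h4 := two_chi d v
  have h5 : ip (d - e) (fun j => v j - u j) (d - e) (fun j => v j - u j) =
      ((d : ℤ) - e) * (d - e) - ∑ j, ((v j : ℤ) - u j) * (v j - u j) := by
    unfold ip
    push_cast [hed]
    congr 1
    refine Finset.sum_congr rfl fun j _ => ?_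
    push_cast [huv j]
    ring
  have h6 : kk (d - e) (fun j => v j - u j) = 3 * ((d : ℤ) - e) - ∑ j, ((v j : ℤ) - u j) := by
    unfold kk
    push_cast [hed]
    congr 1
    refine Finset.sum_congr rfl fun j _ => ?_
    push_cast [huv j]
    ring
  have h7 : ∑ j, ((v j : ℤ) - u j) * (v j - u j) + ∑ j, ((v j : ℤ) - u j) =
      ∑ j, (v j : ℤ) * v j + ∑ j, (v j : ℤ) - 2 * ∑ j, (u j : ℤ) * v j +
        ∑ j, (u j : ℤ) * (u j - 1) := by
    rw [Finset.mul_sum, ← Finset.sum_add_distrib, ← Finset.sum_add_distrib,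
      ← Finset.sum_sub_distrib, ← Finset.sum_add_distrib]
    refine Finset.sum_congr rfl fun j _ => ?_
    ring
  have h8 : (Module.finrank K ↥(VS (fun j => aff (P j)) v d) : ℤ) = chi d v := by
    have h9 := chi_le_dim P d v
    rw [h5, h6] at h3
    unfold ip kk at h4
    rw [h2] at h1
    have h10 : 2 * (Module.finrank K ↥(VS (fun j => aff (P j)) v d) : ℤ) ≤ 2 * chi d v := by
      nlinarith
    omega
  have h9 : 0 ≤ chi d v := by
    rw [← h8]
    exact Int.natCast_nonneg _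
  have h10 : Pool.Agent.H932R3.ExpDim K v P d := by
    rw [TH442.NF.expDim_iff, h8, max_eq_right h9]
  have h11 : ∑ i, (v i + 1).choose 2 ≤ (d + 2).choose 2 := by
    rw [chi_cast] at h9
    omega
  have h12 := TH442.NF.exp_mono h10 h11 hwv
  rw [TH442.NF.expDim_iff] at h12
  rw [h12, max_eq_right]
  have h13 : ∑ i, (w i + 1).choose 2 ≤ ∑ i, (v i + 1).choose 2 :=
    Finset.sum_le_sum fun i _ => Nat.choose_le_choose 2 (Nat.add_le_add_right (hwv i) 1)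
  rw [chi_cast]
  omega

theorem castpred (x : ℕ) : ((x * (x - 1) : ℕ) : ℤ) = (x : ℤ) * x - x := by
  rcases Nat.eq_zero_or_pos x with h | h
  · rw [h]
    simp
  · push_cast [h]
    ring

/-- The sum over `T` of `u (u - 1)`. -/
theorem sumT {n : ℕ} {T : Finset (Fin n)} (hT : T.card = 9) {b : ℕ} {u y : Fin n → ℕ}
    (huy : ∀ j ∈ T, u j = b + y j) :
    ((∑ j ∈ T, u j * (u j - 1) : ℕ) : ℤ) = 9 * ((b : ℤ) * b) - 9 * b +
      2 * b * ∑ j ∈ T, (y j : ℤ) + ∑ j ∈ T, (y j : ℤ) * y j - ∑ j ∈ T, (y j : ℤ) := by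
  rw [Nat.cast_sum]
  have : ∀ j ∈ T, ((u j * (u j - 1) : ℕ) : ℤ) = ((b : ℤ) * b - b) + 2 * b * y j +
      (y j : ℤ) * y j - y j := by
    intro j hj
    rw [castpred, huy j hj]
    push_cast
    ring
  rw [Finset.sum_congr rfl this]
  simp only [Finset.sum_add_distrib, Finset.sum_sub_distrib, Finset.sum_const, hT,
    ← Finset.mul_sum]
  norm_num

/-- The numerical condition. -/
theorem cond2 {n : ℕ} {T : Finset (Fin n)} (hT : T.card = 9) {e0 b d m S : ℕ}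
    {u y w : Fin n → ℕ} (huy : ∀ j ∈ T, u j = b + y j)
    (hy1 : 3 * e0 = ∑ j ∈ T, y j + 1)
    (hy2 : (e0 : ℤ) * e0 - ∑ j ∈ T, (y j : ℤ) * y j ≤ 1)
    (ha : ∑ j ∈ T, w j < 3 * d) (hm : m + ∑ j ∈ T, y j * w j ≤ e0 * d) (hS : S + b < m) :
    (3 * b + e0) * (3 * b + e0) + ∑ j ∈ T, u j * w j + S <
      (3 * b + e0) * d + 3 * (3 * b + e0) + ∑ j ∈ T, u j * (u j - 1) := by
  have s2 := sumT hT huy
  have s3 : ((∑ j ∈ T, u j * w j : ℕ) : ℤ) = b * ∑ j ∈ T, (w j : ℤ) +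
      ∑ j ∈ T, (y j : ℤ) * w j := by
    rw [Nat.cast_sum, Finset.mul_sum, ← Finset.sum_add_distrib]
    refine Finset.sum_congr rfl fun j hj => ?_
    rw [huy j hj]
    push_cast
    ring
  have hy1' : (3 : ℤ) * e0 = ∑ j ∈ T, (y j : ℤ) + 1 := by exact_mod_cast hy1
  have ha' : ∑ j ∈ T, (w j : ℤ) + 1 ≤ 3 * d := by exact_mod_cast ha
  have hm' : (m : ℤ) + ∑ j ∈ T, (y j : ℤ) * w j ≤ e0 * d := by exact_mod_cast hm
  have hS' : (S : ℤ) + b + 1 ≤ m := by exact_mod_cast hS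
  have g1 : (b : ℤ) * ∑ j ∈ T, (w j : ℤ) + b ≤ b * (3 * d) := by
    have hb : (0 : ℤ) ≤ b := Int.natCast_nonneg _
    nlinarith
  have g2 : (b : ℤ) * (3 * e0) = b * ∑ j ∈ T, (y j : ℤ) + b := by
    rw [hy1']
    ring
  have goal : (((3 * b + e0) * (3 * b + e0) + ∑ j ∈ T, u j * w j + S : ℕ) : ℤ) <
      (((3 * b + e0) * d + 3 * (3 * b + e0) + ∑ j ∈ T, u j * (u j - 1) : ℕ) : ℤ) := by
    rw [Nat.cast_add, Nat.cast_add, Nat.cast_add, Nat.cast_add, s2, s3]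
    push_cast
    nlinarith
  exact_mod_cast goal

/-- The sum outside of `T`. -/
theorem off_bound {r : ℕ} {T : Finset (Fin (r + 4))} (hT : T.card = 9) (hr : 6 ≤ r) {e0 b p Q : ℕ}
    {u y w : Fin (r + 4) → ℕ} (huy : ∀ j ∈ T, u j = b + y j)
    (hy1 : 3 * e0 = ∑ j ∈ T, y j + 1) (hδ : e0 * (e0 - 1) ≤ ∑ j ∈ T, y j * (y j - 1) + 6)
    (hpol : ∑ j, u j * (u j - 1) ≤ (3 * b + e0) * (3 * b + e0 - 1)) (hp : 1 ≤ p)
    (hb : b ≤ p * p) (hQ : ∑ j ∈ Tᶜ, w j ≤ Q) :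
    ∑ j ∈ Tᶜ, u j * (w j - u j + 1) + 2 ≤ 5 * p * Q + 4 * (p * p) + r := by
  classical
  have s1 := Finset.sum_add_sum_compl T fun j => u j * (u j - 1)
  have s2 := sumT hT huy
  have s4 : ((∑ j ∈ T, y j * (y j - 1) : ℕ) : ℤ) = ∑ j ∈ T, (y j : ℤ) * y j -
      ∑ j ∈ T, (y j : ℤ) := by
    rw [Nat.cast_sum, ← Finset.sum_sub_distrib]
    exact Finset.sum_congr rfl fun j _ => castpred _
  have hy1' : (3 : ℤ) * e0 = ∑ j ∈ T, (y j : ℤ) + 1 := by exact_mod_cast hy1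
  have hδ2' : ((e0 * (e0 - 1) : ℕ) : ℤ) ≤ ((∑ j ∈ T, y j * (y j - 1) : ℕ) : ℤ) + 6 := by
    exact_mod_cast hδ
  rw [castpred, s4] at hδ2'
  have hpol' : ((∑ j, u j * (u j - 1) : ℕ) : ℤ) ≤
      (((3 * b + e0) * (3 * b + e0 - 1) : ℕ) : ℤ) := by exact_mod_cast hpol
  rw [castpred] at hpol'
  push_cast at hpol'
  have s1' : ((∑ j ∈ T, u j * (u j - 1) : ℕ) : ℤ) + ((∑ j ∈ Tᶜ, u j * (u j - 1) : ℕ) : ℤ) =
      ((∑ j, u j * (u j - 1) : ℕ) : ℤ) := by exact_mod_cast s1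
  rw [s2] at s1'
  push_cast at s1'
  have g2 : (b : ℤ) * (3 * e0) = b * ∑ j ∈ T, (y j : ℤ) + b := by
    rw [hy1']
    ring
  -- the sum of `u (u - 1)`
  obtain ⟨X, hX⟩ : ∃ X, X = ∑ j ∈ Tᶜ, u j * (u j - 1) := ⟨_, rfl⟩
  have hXb : X ≤ 8 * b + 6 := by
    have : (X : ℤ) ≤ 8 * b + 6 := by
      rw [hX]
      push_cast
      nlinarith
    exact_mod_cast this
  have s5 : 2 * ∑ j ∈ Tᶜ, u j ≤ X + 2 * (r - 5) := by
    have hcard : Tᶜ.card = r - 5 := by
      rw [Finset.card_compl, Fintype.card_fin, hT]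
      omega
    have h2 : ∑ j ∈ Tᶜ, 2 = 2 * (r - 5) := by
      rw [Finset.sum_const, hcard, smul_eq_mul, mul_comm]
    rw [← h2, hX, Finset.mul_sum, ← Finset.sum_add_distrib]
    refine Finset.sum_le_sum fun j _ => ?_
    rcases Nat.lt_or_ge (u j) 3 with h | h
    · interval_cases u j <;> omega
    · obtain ⟨x, hx⟩ : ∃ x, u j = x + 3 := ⟨u j - 3, by omega⟩
      rw [hx]
      have : x + 3 - 1 = x + 2 := by omega
      rw [this]
      nlinarith
  have s6 : ∑ j ∈ Tᶜ, u j * (w j - u j + 1) ≤ ∑ j ∈ Tᶜ, u j + ∑ j ∈ Tᶜ, w j +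
      ∑ j ∈ Tᶜ, (u j - 1) * w j := by
    rw [← Finset.sum_add_distrib, ← Finset.sum_add_distrib]
    refine Finset.sum_le_sum fun j _ => ?_
    rcases Nat.eq_zero_or_pos (u j) with h | h
    · rw [h]
      simp
    · obtain ⟨x, hx⟩ : ∃ x, u j = x + 1 := ⟨u j - 1, by omega⟩
      rw [hx, Nat.add_sub_cancel]
      have h1 : w j - (x + 1) + 1 ≤ w j + 1 := by omega
      calc (x + 1) * (w j - (x + 1) + 1) ≤ (x + 1) * (w j + 1) := Nat.mul_le_mul_left _ h1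
        _ = x + 1 + w j + x * w j := by ring
  have s7 : ∑ j ∈ Tᶜ, (u j - 1) * w j ≤ 4 * p * Q := by
    have h1 := Finset.sum_mul_sq_le_sq_mul_sq Tᶜ (fun j => u j - 1) w
    have h2 : ∑ j ∈ Tᶜ, (u j - 1) ^ 2 ≤ X := by
      rw [hX]
      refine Finset.sum_le_sum fun j _ => ?_
      rw [sq]
      exact Nat.mul_le_mul_right _ (Nat.sub_le _ _)
    have h3 : ∑ j ∈ Tᶜ, w j ^ 2 ≤ Q ^ 2 := by
      have h4 := sum_sq_le Tᶜ w
      have h5 : ∑ j ∈ Tᶜ, w j ^ 2 = ∑ j ∈ Tᶜ, w j * w j :=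
        Finset.sum_congr rfl fun j _ => sq _
      rw [h5]
      calc _ ≤ (∑ j ∈ Tᶜ, w j) * ∑ j ∈ Tᶜ, w j := h4
        _ ≤ Q * Q := Nat.mul_le_mul hQ hQ
        _ = Q ^ 2 := (sq Q).symm
    have h4 : X ≤ 16 * p ^ 2 := by nlinarith
    have h5 : (∑ j ∈ Tᶜ, (u j - 1) * w j) ^ 2 ≤ (4 * p * Q) ^ 2 := by
      calc _ ≤ (∑ j ∈ Tᶜ, (u j - 1) ^ 2) * ∑ j ∈ Tᶜ, w j ^ 2 := h1
        _ ≤ (16 * p ^ 2) * Q ^ 2 := Nat.mul_le_mul (h2.trans h4) h3
        _ = (4 * p * Q) ^ 2 := by ring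
    exact (Nat.pow_le_pow_iff_left two_ne_zero).1 h5
  have s8 : Q ≤ p * Q := Nat.le_mul_of_pos_left _ hp
  have s9 : 4 * p * Q = 4 * (p * Q) := by ring
  have s10 : 5 * p * Q = 5 * (p * Q) := by ring
  rw [s9] at s7
  rw [s10]
  omega

end Pool.Agent.R355.Nine
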