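import Pool.Agent.R355.NineM

set_option autoImplicit false

/-!
# Nine arbitrary multiplicities: the quadratic criterion
-/

namespace Pool.Agent.R355.Nine

open MvPolynomial Pool.Agent.W609 Pool.Agent.W609.CR Pool.Agent.TH167 Pool.Agent.TH167.SH
  Pool.Agent.TH167.TT

/-- Repeated restriction. -/
theorem multi {K : Type} [Field K] [CharZero K] [IsAlgClosed K] {r : ℕ}
    {P : Fin (r + 4) → Fin 2 → K}
    (hP : AlgebraicIndependent ℚ (fun ij : Fin (r + 4) × Fin 2 => P ij.1 ij.2))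
    {T : Finset (Fin (r + 4))} (hT : T.card = 9) (hr : 6 ≤ r) {p Q : ℕ} (hp : 1 ≤ p) :
    ∀ (a d : ℕ) (w : Fin (r + 4) → ℕ), Reduced d w → ∑ j ∈ T, w j + a = 3 * d → 1 ≤ a →
      ∑ j ∈ Tᶜ, w j ≤ a * p → ∑ j ∈ Tᶜ, w j ≤ Q →
      (∀ i ∈ T, 5 * p * Q + 5 * (p * p) + r + a * (p * p + 1) ≤ w i) →
      (Module.finrank K ↥(VS (fun j => aff (P j)) w d) : ℤ) = chi d w := by
  classical
  intro a
  induction a with
  | zero => exact fun _ _ _ _ h => absurd h (by omega)
  | succ a ih =>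
    intro d w hred hsum _ hqp hQ hl
    have hall := Finset.sum_add_sum_compl T w
    rcases Nat.lt_or_ge (a + 1) (∑ j ∈ Tᶜ, w j) with hq | hq
    swap
    · exact anti hP hred (by omega)
    obtain ⟨i0, hi0, hmin⟩ := Finset.exists_min_image T w (by
      rw [← Finset.card_pos]
      omega)
    obtain ⟨k, hk⟩ : ∃ k, k = min (∑ j ∈ Tᶜ, w j) p := ⟨_, rfl⟩
    have hkq : k ≤ ∑ j ∈ Tᶜ, w j := by rw [hk]; exact min_le_left _ _
    have hkp : k ≤ p := by rw [hk]; exact min_le_right _ _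
    have hk1 : 1 ≤ k := by rw [hk]; exact le_min (by omega) hp
    obtain ⟨z, hz, hzs⟩ := exists_sub Tᶜ w k hkq
    have hoff : ∃ j, j ∉ T ∧ 1 ≤ z j := by
      by_contra hcon
      push Not at hcon
      have h1 : ∑ j ∈ Tᶜ, z j = 0 := Finset.sum_eq_zero fun j hj => by
        have := hcon j (Finset.mem_compl.1 hj)
        omega
      omega
    have htau := two_tau T z
    rw [hzs] at htau
    have hkk : k * k ≤ p * p := Nat.mul_le_mul hkp hkp
    have hpp : p ≤ p * p := Nat.le_mul_of_pos_left _ hp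
    have htau2 : tau T z ≤ p * p := by omega
    have hi := hl i0 hi0
    have hap : (a + 1) * (p * p + 1) = a * (p * p + 1) + (p * p + 1) := by ring
    obtain ⟨b, e0, y, u, G, hs⟩ := step_curve hP hT hred hi0 hmin hoff (by omega) (by
      rw [hap] at hi
      omega)
    have hb : b ≤ p * p := hs.b_le.trans htau2
    have huw : ∀ j ∈ T, u j ≤ w j := by
      intro j hj
      have h1 := hs.on_T j hj
      have h2 := hs.y_le j hj
      have h3 := hl j hj
      rw [hap] at h3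
      omega
    have hwu : ∀ j ∈ T, 5 * p * Q + 5 * (p * p) + r + a * (p * p + 1) ≤ w j - u j := by
      intro j hj
      have h1 := hs.on_T j hj
      have h2 := hs.y_le j hj
      have h3 := hl j hj
      rw [hap] at h3
      omega
    have hsu : ∑ j ∈ T, u j + 1 = 3 * (3 * b + e0) := by
      have h1 : ∑ j ∈ T, u j = 9 * b + ∑ j ∈ T, y j := by
        rw [Finset.sum_congr rfl hs.on_T, Finset.sum_add_distrib, Finset.sum_const, hT,
          smul_eq_mul]
      have h2 := hs.one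
      omega
    have hsw : ∑ j ∈ T, (w j - u j) + ∑ j ∈ T, u j = ∑ j ∈ T, w j := by
      rw [← Finset.sum_add_distrib]
      exact Finset.sum_congr rfl fun j hj => Nat.sub_add_cancel (huw j hj)
    have hed := hs.le_d
    have hsum' : ∑ j ∈ T, (w j - u j) + a = 3 * (d - (3 * b + e0)) := by omega
    have hqz : ∑ j ∈ Tᶜ, (w j - u j) + k ≤ ∑ j ∈ Tᶜ, w j := by
      rw [← hzs, ← Finset.sum_add_distrib]
      refine Finset.sum_le_sum fun j hj => ?_
      have h1 := hs.off_T j (Finset.mem_compl.1 hj)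
      have h2 := hz j
      omega
    have hQ1 : Q ≤ 5 * p * Q := by
      have h1 : Q ≤ p * Q := Nat.le_mul_of_pos_left _ hp
      have h2 : 5 * p * Q = 5 * (p * Q) := by ring
      omega
    have hred' : Reduced (d - (3 * b + e0)) (fun j => w j - u j) := by
      refine red_small (T := T) (by omega) ?_ hs.tri
      intro j hj i hi
      have h1 := hwu i hi
      have h2 := Finset.single_le_sum (f := w) (fun _ _ => Nat.zero_le _)
        (Finset.mem_compl.2 hj)
      show w j - u j ≤ w i - u i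
      omega
    have hall' := Finset.sum_add_sum_compl T fun j => w j - u j
    have hsub : (Module.finrank K ↥(VS (fun j => aff (P j)) (fun j => w j - u j)
        (d - (3 * b + e0))) : ℤ) = chi (d - (3 * b + e0)) (fun j => w j - u j) := by
      rcases Nat.lt_or_ge a (∑ j ∈ Tᶜ, (w j - u j)) with ha | ha
      · have hap1 : (a + 1) * p = a * p + p := by ring
        rw [hap1] at hqp
        have h5 : ∑ j ∈ Tᶜ, (w j - u j) ≤ a * p := by
          rcases Nat.lt_or_ge (∑ j ∈ Tᶜ, w j) p with h | h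
          · rw [min_eq_left h.le] at hk
            omega
          · rw [min_eq_right h] at hk
            omega
        have ha1 : 1 ≤ a := by
          by_contra h
          have h0 : a = 0 := by omega
          rw [h0, zero_mul] at h5
          omega
        exact ih _ _ hred' hsum' ha1 h5 (by omega) hwu
      · exact anti hP hred' (by omega)
    have hoffb := off_bound hT hr hs.on_T hs.one hs.gen
      (polar (inj_of_alg hP) hs.irr hs.hom fun j => (hs.ord j).1) hp hb hQ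
    refine by_curve' hP hs.two_le hs.irr hs.hom hs.ord hed huw hsub ?_
    refine cond2 hT hs.on_T hs.one hs.self (by omega) hs.deg ?_
    omega

/-- Dropping the zeros. -/
theorem drop_zeros {r : ℕ} {P : Fin (r + 4) → Fin 2 → ℂ}
    (hP : AlgebraicIndependent ℚ (fun ij : Fin (r + 4) × Fin 2 => P ij.1 ij.2))
    {T : Finset (Fin (r + 4))} (hT : T.card = 9) {d : ℕ} {w : Fin (r + 4) → ℕ}
    (hred : Reduced d w) : ∃ (s : ℕ) (P' : Fin (s + 4) → Fin 2 → ℂ) (T' : Finset (Fin (s + 4)))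
      (w' : Fin (s + 4) → ℕ),
      AlgebraicIndependent ℚ (fun ij : Fin (s + 4) × Fin 2 => P' ij.1 ij.2) ∧ T'.card = 9 ∧
      Reduced d w' ∧ Module.finrank ℂ ↥(VS (fun j => aff (P' j)) w' d) =
        Module.finrank ℂ ↥(VS (fun j => aff (P j)) w d) ∧ chi d w' = chi d w ∧
      ∑ j ∈ T', w' j = ∑ j ∈ T, w j ∧ ∑ j ∈ T'ᶜ, w' j ≤ ∑ j ∈ Tᶜ, w j ∧
      s ≤ 5 + ∑ j ∈ Tᶜ, w j ∧ (1 ≤ ∑ j ∈ Tᶜ, w j → 6 ≤ s) ∧
      ∀ m, (∀ i ∈ T, m ≤ w i) → ∀ i ∈ T', m ≤ w' i := by
  classical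
  obtain ⟨U, hU⟩ : ∃ U : Finset (Fin (r + 4)), U = T ∪ Tᶜ.filter (fun j => w j ≠ 0) := ⟨_, rfl⟩
  have hTU : T ⊆ U := by rw [hU]; exact Finset.subset_union_left
  have hUw : ∀ j, j ∉ U → w j = 0 := by
    intro j hj
    rw [hU, Finset.mem_union, Finset.mem_filter, Finset.mem_compl] at hj
    push Not at hj
    by_contra h
    exact h (hj.2 hj.1)
  have hUc : U.card = 9 + (Tᶜ.filter (fun j => w j ≠ 0)).card := by
    rw [hU, Finset.card_union_of_disjoint, hT]
    exact Finset.disjoint_left.2 fun j hj hj' =>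
      Finset.mem_compl.1 (Finset.mem_filter.1 hj').1 hj
  have hcq : (Tᶜ.filter (fun j => w j ≠ 0)).card ≤ ∑ j ∈ Tᶜ, w j := by
    rw [Finset.card_filter]
    refine Finset.sum_le_sum fun j _ => ?_
    split_ifs with h <;> omega
  have hc1 : 1 ≤ ∑ j ∈ Tᶜ, w j → 1 ≤ (Tᶜ.filter (fun j => w j ≠ 0)).card := by
    intro h
    by_contra hcon
    have h1 : (Tᶜ.filter (fun j => w j ≠ 0)) = ∅ := Finset.card_eq_zero.1 (by omega)
    rw [Finset.filter_eq_empty_iff] at h1
    have h2 : ∑ j ∈ Tᶜ, w j = 0 := Finset.sum_eq_zero fun j hj => by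
      have := h1 hj
      omega
    omega
  obtain ⟨s, hs⟩ : ∃ s, U.card = s + 4 := ⟨U.card - 4, by omega⟩
  obtain ⟨ι, hι⟩ : ∃ ι : Fin (s + 4) ↪ Fin (r + 4), Finset.map ι Finset.univ = U :=
    ⟨(U.orderEmbOfFin hs).toEmbedding, Finset.map_orderEmbOfFin_univ U hs⟩
  have hUι : ∀ j ∈ U, ∃ i, ι i = j := by
    intro j hj
    rw [← hι, Finset.mem_map] at hj
    obtain ⟨i, -, hi⟩ := hj
    exact ⟨i, hi⟩
  have hvs := vs_drop P w d ι (fun j hj => hUw j fun h => by
    obtain ⟨i, hi⟩ := hUι j h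
    exact hj i hi)
  have hsum : ∀ f : Fin (r + 4) → ℕ, ∑ j : Fin (s + 4), f (ι j) = ∑ j ∈ U, f j := by
    intro f
    rw [← hι, Finset.sum_map]
  obtain ⟨T', hT'⟩ : ∃ T' : Finset (Fin (s + 4)), T' = Finset.univ.filter (fun j => ι j ∈ T) :=
    ⟨_, rfl⟩
  have hmT : T'.map ι = T := by
    ext j
    rw [Finset.mem_map]
    constructor
    · rintro ⟨i, hi, rfl⟩
      rw [hT', Finset.mem_filter] at hi
      exact hi.2
    · intro hj
      obtain ⟨i, hi⟩ := hUι j (hTU hj)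
      refine ⟨i, ?_, hi⟩
      rw [hT', Finset.mem_filter]
      exact ⟨Finset.mem_univ _, hi ▸ hj⟩
  have hmem' : ∀ i, i ∈ T' ↔ ι i ∈ T := fun i => by
    rw [hT', Finset.mem_filter]
    simp
  have hmC : T'ᶜ.map ι ⊆ Tᶜ := by
    intro j hj
    rw [Finset.mem_map] at hj
    obtain ⟨i, hi, rfl⟩ := hj
    rw [Finset.mem_compl] at hi ⊢
    exact fun h => hi ((hmem' i).2 h)
  refine ⟨s, fun j => P (ι j), T', fun j => w (ι j), ?_, ?_, ?_, ?_, ?_, ?_, ?_, ?_, ?_, ?_⟩
  · have := hP.comp (fun ij : Fin (s + 4) × Fin 2 => (ι ij.1, ij.2)) (by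
      intro a b h
      simp only [Prod.mk.injEq] at h
      exact Prod.ext (ι.injective h.1) h.2)
    exact this
  · rw [← hT, ← hmT, Finset.card_map]
  · intro a b c hab hac hbc
    exact hred _ _ _ (fun h => hab (ι.injective h)) (fun h => hac (ι.injective h))
      (fun h => hbc (ι.injective h))
  · rw [hvs]
  · rw [chi_cast, chi_cast]
    have h1 : ∑ j : Fin (s + 4), (w (ι j) + 1).choose 2 = ∑ j, (w j + 1).choose 2 := by
      rw [hsum fun j => (w j + 1).choose 2]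
      refine Finset.sum_subset (Finset.subset_univ _) fun j _ hj => ?_
      rw [hUw j hj]
      rfl
    rw [h1]
  · rw [← hmT, Finset.sum_map]
  · have : ∑ j ∈ T'ᶜ, w (ι j) = ∑ j ∈ T'ᶜ.map ι, w j := by
      rw [Finset.sum_map]
    rw [this]
    exact Finset.sum_le_sum_of_subset hmC
  · omega
  · intro h
    have := hc1 h
    omega
  · intro m hm i hi
    exact hm _ ((hmem' i).1 hi)

/-- The Hodge index inequality for the nine points. -/
theorem hodge9 {n : ℕ} {T : Finset (Fin n)} (hT : T.card = 9) {d : ℕ} {w : Fin n → ℕ} {i0 : Fin n}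
    (hi0 : i0 ∈ T) :
    (d : ℤ) * d - ∑ j ∈ T, (w j : ℤ) * w j ≤
      (3 * (d : ℤ) - ∑ j ∈ T, (w j : ℤ)) * (3 * (d : ℤ) - ∑ j ∈ T, (w j : ℤ)) +
        2 * w i0 * (3 * (d : ℤ) - ∑ j ∈ T, (w j : ℤ)) := by
  classical
  obtain ⟨m, hm⟩ : ∃ m : ℤ, m = w i0 := ⟨_, rfl⟩
  rw [← hm]
  have hc : (T.erase i0).card = 8 := by rw [Finset.card_erase_of_mem hi0, hT]
  obtain ⟨X, hX⟩ : ∃ X : ℤ, X = ∑ j ∈ T.erase i0, ((w j : ℤ) - m) := ⟨_, rfl⟩
  obtain ⟨Y, hY⟩ : ∃ Y : ℤ, Y = ∑ j ∈ T.erase i0, ((w j : ℤ) - m) * ((w j : ℤ) - m) := ⟨_, rfl⟩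
  have h1 : ∑ j ∈ T, (w j : ℤ) = X + 9 * m := by
    rw [← Finset.add_sum_erase T _ hi0, hX, Finset.sum_sub_distrib, Finset.sum_const, hc, ← hm]
    norm_num
    ring
  have h2 : ∑ j ∈ T, (w j : ℤ) * w j = Y + 2 * m * X + 9 * (m * m) := by
    rw [← Finset.add_sum_erase T _ hi0, hX, hY, ← hm, Finset.mul_sum]
    have h3 : ∀ j ∈ T.erase i0, (w j : ℤ) * w j = ((w j : ℤ) - m) * ((w j : ℤ) - m) +
        2 * m * ((w j : ℤ) - m) + m * m := fun j _ => by ring
    rw [Finset.sum_congr rfl h3, Finset.sum_add_distrib, Finset.sum_add_distrib,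
      Finset.sum_const, hc]
    norm_num
    ring
  have h4 : X * X ≤ 8 * Y := by
    have := sq_sum_le_card_mul_sum_sq (s := T.erase i0) (f := fun j => (w j : ℤ) - m)
    rw [hc] at this
    calc X * X = (∑ j ∈ T.erase i0, ((w j : ℤ) - m)) ^ 2 := by rw [hX]; ring
      _ ≤ _ := this
      _ = _ := by
        rw [hY]
        push_cast
        congr 1
        exact Finset.sum_congr rfl fun j _ => by ring
  rw [h1, h2]
  nlinarith [mul_self_nonneg (8 * ((d : ℤ) - 3 * m) - 3 * X)]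

/-- The quadratic criterion. -/
theorem nine_sq {r : ℕ} {P : Fin (r + 4) → Fin 2 → ℂ}
    (hP : AlgebraicIndependent ℚ (fun ij : Fin (r + 4) × Fin 2 => P ij.1 ij.2))
    {T : Finset (Fin (r + 4))} (hT : T.card = 9) {d : ℕ} {w : Fin (r + 4) → ℕ}
    (hred : Reduced d w) (h : 63 * (∑ j ∈ Tᶜ, w j) ^ 2 + ∑ j ∈ T, w j * w j ≤ d * d) :
    (Module.finrank ℂ ↥(VS (fun j => aff (P j)) w d) : ℤ) = chi d w := by
  classical
  have hsumT : ∑ j ∈ T, w j ≤ 3 * d := red_sum hred 3 T (by omega)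
  have hall := Finset.sum_add_sum_compl T w
  obtain ⟨a, ha⟩ : ∃ a, a = 3 * d - ∑ j ∈ T, w j := ⟨_, rfl⟩
  obtain ⟨q, hq⟩ : ∃ q, ∑ j ∈ Tᶜ, w j = q := ⟨_, rfl⟩
  rw [hq] at h
  rcases Nat.lt_or_ge a q with haq | haq
  swap
  · exact anti hP hred (by omega)
  obtain ⟨i0, hi0, hmin⟩ := Finset.exists_min_image T w (by
    rw [← Finset.card_pos]
    omega)
  obtain ⟨m, hm⟩ : ∃ m, m = w i0 := ⟨_, rfl⟩
  have hA : 31 * (q * q) ≤ a * m := by
    have h1 := hodge9 hT (d := d) (w := w) hi0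
    have haZ : (a : ℤ) = 3 * (d : ℤ) - ∑ j ∈ T, (w j : ℤ) := by
      have h2 : a + ∑ j ∈ T, w j = 3 * d := by omega
      have h3 : (a : ℤ) + ∑ j ∈ T, (w j : ℤ) = 3 * d := by exact_mod_cast h2
      linarith
    rw [← haZ, ← hm] at h1
    have h2 : 63 * (q : ℤ) ^ 2 + ∑ j ∈ T, (w j : ℤ) * w j ≤ d * d := by exact_mod_cast h
    have h3 : (a : ℤ) + 1 ≤ q := by exact_mod_cast haq
    have h4 : (0 : ℤ) ≤ a := Int.natCast_nonneg _
    have h5 : (a : ℤ) * a ≤ q * q := by nlinarith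
    have h6 : 31 * ((q : ℤ) * q) ≤ a * m := by nlinarith
    exact_mod_cast h6
  have ha1 : 1 ≤ a := by
    by_contra hcon
    have h0 : a = 0 := by omega
    rw [h0, zero_mul] at hA
    have : 1 ≤ q * q := Nat.mul_pos (by omega) (by omega)
    omega
  obtain ⟨s, P', T', w', b1, b2, b3, b4, b5, b6, b7, b8, b9, b10⟩ := drop_zeros hP hT hred
  rw [hq] at b7 b8 b9
  obtain ⟨p, hp⟩ : ∃ p, p = (q + a - 1) / a := ⟨_, rfl⟩
  have hp1 : a * p ≤ q + a - 1 := by
    rw [hp]
    exact Nat.mul_div_le _ _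
  have hp2 : q ≤ a * p := by
    have h1 := Nat.div_add_mod (q + a - 1) a
    have h2 := Nat.mod_lt (q + a - 1) (show 0 < a by omega)
    rw [← hp] at h1
    omega
  have hp3 : p ≤ q := by
    rw [hp]
    refine Nat.div_le_of_le_mul ?_
    obtain ⟨a', rfl⟩ : ∃ a', a = a' + 1 := ⟨a - 1, by omega⟩
    obtain ⟨q', rfl⟩ : ∃ q', q = q' + 1 := ⟨q - 1, by omega⟩
    have : q' + 1 + (a' + 1) - 1 = q' + a' + 1 := by omega
    rw [this]
    nlinarith
  have hp4 : 1 ≤ p := by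
    by_contra hcon
    have h0 : p = 0 := by omega
    rw [h0, mul_zero] at hp2
    omega
  have hap : a * p ≤ 2 * q := by omega
  have hreq : 5 * p * q + 5 * (p * p) + s + a * (p * p + 1) ≤ m := by
    have h1 : a * (5 * p * q + 5 * (p * p) + s + a * (p * p + 1)) ≤ a * m := by
      have e1 : (a * p) * q ≤ 2 * q * q := Nat.mul_le_mul_right _ hap
      have e2 : (a * p) * p ≤ 2 * q * q := Nat.mul_le_mul hap hp3
      have e3 : a * s ≤ q * (6 * q) := Nat.mul_le_mul haq.le (by omega)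
      have e4 : (a * p) * (a * p) ≤ (2 * q) * (2 * q) := Nat.mul_le_mul hap hap
      have e5 : a * a ≤ q * q := Nat.mul_le_mul haq.le haq.le
      nlinarith
    exact Nat.le_of_mul_le_mul_left h1 (by omega)
  have hmain := multi b1 b2 (b9 (by omega)) (p := p) (Q := q) hp4 a d w' b3 (by omega) ha1
    (b7.trans hp2) b7 (b10 _ fun i hi => hreq.trans (by rw [hm]; exact hmin i hi))
  rw [b4, b5] at hmain
  exact hmain

end Pool.Agent.R355.Nine
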