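import Pool.Agent.R355.NineN
import Pool.Agent.R355.NineH

set_option autoImplicit false

/-!
# The criterion by the self-intersection, all classes
-/

namespace Pool.Agent.R355.Nine

open MvPolynomial Pool.Agent.W609 Pool.Agent.W609.CR Pool.Agent.TH167 Pool.Agent.TH167.SH
  Pool.Agent.TH167.TT

theorem hh_sq {r : ℕ} {T : Finset (Fin (r + 4))} (hT : T.card = 9) (d : ℕ)
    (w : Fin (r + 4) → ℕ) (hq : 63 * ((∑ j ∈ Tᶜ, w j : ℕ) : ℤ) ^ 2 ≤ ip d w d w) :
    ∃ F : MvPolynomial (Fin (r + 4) × Fin 2) ℚ, F ≠ 0 ∧ ∀ (K : Type) [Field K] [CharZero K]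
      (P : Fin (r + 4) → Fin 2 → K), evP P F ≠ 0 → Special P d w → MSpecial P d w := by
  classical
  obtain ⟨g, Fg, hFg, hg⟩ := dim_gen w d
  obtain ⟨K0, i1, i2, P0, hP0⟩ := exists_generic (r + 4)
  rcases Nat.eq_zero_or_pos g with hg0 | hg0
  · refine ⟨Fg, hFg, fun K _ _ P hP hs => ?_⟩
    exfalso
    rw [special_iff, hg K P hP, hg0] at hs
    omega
  · have hg1 := hg K0 P0 (evP_ne hP0 hFg)
    obtain ⟨d', w', k, C0, e, u, N, hD, hdim, P1, d1, w1, hP1, hchain, hle, hdle, hred, hdim1⟩ :=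
      main2 d P0 hP0 w (by rw [hg1]; exact hg0)
    have hDcp0 : Dcp P0 d w d' w' C0 e u N :=
      ⟨hD.exc, hD.pos, hD.orth, hD.deg, hD.mul, hD.zero⟩
    obtain ⟨c1, c2, c3⟩ := quad_inv hchain
    simp only at c1 c2 c3
    have hself := hDcp0.self_eq
    have hN : 0 ≤ ∑ a, (N a : ℤ) ^ 2 := Finset.sum_nonneg fun a _ => sq_nonneg _
    have hns : (Module.finrank K0 ↥(VS (fun j => aff (P1 j)) w1 d1) : ℤ) = chi d1 w1 := by
      have h1 : ∑ j ∈ Tᶜ, w1 j ≤ ∑ j ∈ Tᶜ, w j := Finset.sum_le_sum fun j _ => hle j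
      have h1' : ((∑ j ∈ Tᶜ, w1 j : ℕ) : ℤ) ^ 2 ≤ ((∑ j ∈ Tᶜ, w j : ℕ) : ℤ) ^ 2 := by
        exact_mod_cast Nat.pow_le_pow_left h1 2
      have h4 : 63 * ((∑ j ∈ Tᶜ, w1 j : ℕ) : ℤ) ^ 2 ≤ ip d1 w1 d1 w1 := by
        rw [c3]
        linarith
      have h5 : 63 * (∑ j ∈ Tᶜ, w1 j) ^ 2 + ∑ j ∈ T, w1 j * w1 j ≤ d1 * d1 := by
        have h6 := Finset.sum_add_sum_compl T fun j => (w1 j : ℤ) * w1 j
        have h7 : 0 ≤ ∑ j ∈ Tᶜ, (w1 j : ℤ) * w1 j :=
          Finset.sum_nonneg fun j _ => mul_nonneg (Int.natCast_nonneg _) (Int.natCast_nonneg _)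
        unfold ip at h4
        have h8 : 63 * ((∑ j ∈ Tᶜ, w1 j : ℕ) : ℤ) ^ 2 + ∑ j ∈ T, (w1 j : ℤ) * w1 j ≤
            (d1 : ℤ) * d1 := by linarith
        exact_mod_cast h8
      have h2 := Round.transfer (d := d1) (w := w1) (fun P hP => by
        rw [TH442.NF.expDim_iff]
        have h6 := nine_sq hP hT hred h5
        rw [h6, max_eq_right]
        rw [← h6]
        exact Int.natCast_nonneg _) hP1
      rw [TH442.NF.expDim_iff] at h2
      have h3 : 0 < Module.finrank K0 ↥(VS (fun j => aff (P1 j)) w1 d1) := by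
        rw [hdim1, hdim, hg1]
        exact hg0
      omega
    have hspr := fun a => exc_spread (e a) (u a) ⟨K0, i1, i2, P0, C0 a, hP0, hD.exc a⟩
    choose Fa hFa hFa' using hspr
    refine ⟨Fg * ∏ a, Fa a, mul_ne_zero hFg
      (Finset.prod_ne_zero_iff.2 fun a _ => hFa a), fun K _ _ P hP hs => ?_⟩
    rw [map_mul, map_prod] at hP
    have q0 := hg K P (left_ne_zero_of_mul hP)
    have q3 := Finset.prod_ne_zero_iff.1 (right_ne_zero_of_mul hP)
    choose C hC using fun a => hFa' a K P (q3 a (Finset.mem_univ a))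
    have hDcp : Dcp P d w d' w' C e u N := ⟨hC, hD.pos, hD.orth, hD.deg, hD.mul, hD.zero⟩
    rw [special_iff, q0] at hs
    rw [hdim1, hdim, hg1] at hns
    refine ⟨d', w', k, C, e, u, N, hDcp, by omega, ?_⟩
    by_contra hcon
    push Not at hcon
    have h2 := hDcp.chi_one hcon
    omega

end Pool.Agent.R355.Nine
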