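import Pool.Agent.R355.NineG

set_option autoImplicit false

/-!
# The curves used for the restriction, in general
-/

namespace Pool.Agent.R355.Nine

open MvPolynomial Pool.Agent.W609 Pool.Agent.W609.CR Pool.Agent.TH167 Pool.Agent.TH167.SH
  Pool.Agent.TH167.TT

/-- The curve `G` of class `(3 b + e0; u)` and its properties. -/
structure StepCurve {K : Type} [Field K] {r : ℕ} (P : Fin (r + 4) → Fin 2 → K)
    (T : Finset (Fin (r + 4))) (d : ℕ) (w z : Fin (r + 4) → ℕ) (m b e0 : ℕ)
    (y u : Fin (r + 4) → ℕ) (G : MvPolynomial (Fin 3) K) : Prop where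
  b_le : b ≤ tau T z
  e0_pos : 0 < e0
  two_le : 2 ≤ 3 * b + e0
  le_d : 3 * b + e0 ≤ d
  irr : Irreducible G
  hom : G.IsHomogeneous (3 * b + e0)
  ord : ∀ j, Ord (aff (P j)) (u j) G
  on_T : ∀ j ∈ T, u j = b + y j
  y_le : ∀ j ∈ T, y j ≤ 1
  off_T : ∀ j, j ∉ T → z j ≤ u j
  one : 3 * e0 = ∑ j ∈ T, y j + 1
  gen : e0 * (e0 - 1) ≤ ∑ j ∈ T, y j * (y j - 1) + 6
  self : (e0 : ℤ) * e0 - ∑ j ∈ T, (y j : ℤ) * y j ≤ 1
  deg : m + ∑ j ∈ T, y j * w j ≤ e0 * d
  tri : ∀ a ∈ T, ∀ c ∈ T, ∀ l ∈ T, a ≠ c → a ≠ l → c ≠ l →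
    (w a - u a) + (w c - u c) + (w l - u l) ≤ d - (3 * b + e0)

theorem step_curve {K : Type} [Field K] [CharZero K] {r : ℕ}
    {P : Fin (r + 4) → Fin 2 → K}
    (hP : AlgebraicIndependent ℚ (fun ij : Fin (r + 4) × Fin 2 => P ij.1 ij.2))
    {T : Finset (Fin (r + 4))} (hT : T.card = 9) {d : ℕ} {w z' : Fin (r + 4) → ℕ}
    (hred : Reduced d w) {i0 : Fin (r + 4)} (hi0 : i0 ∈ T) (hmin : ∀ i ∈ T, w i0 ≤ w i)
    (hoff : ∃ j, j ∉ T ∧ 1 ≤ z' j) (ha : ∑ j ∈ T, w j < 3 * d)
    (hlarge : tau T z' + 1 ≤ w i0) :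
    ∃ (b e0 : ℕ) (y u : Fin (r + 4) → ℕ) (G : MvPolynomial (Fin 3) K),
      StepCurve P T d w z' (w i0) b e0 y u G := by
  classical
  by_cases hcase : ∃ x ∈ T, ∃ z ∈ T, x ≠ z ∧ x ≠ i0 ∧ z ≠ i0 ∧ d ≤ w i0 + w x + w z
  · -- the class of a line
    obtain ⟨x, hx, z, hz, hxz, hxi, hzi, hd⟩ := hcase
    have hd' : w i0 + w x + w z ≤ d := hred i0 x z hxi.symm hzi.symm hxz
    have heq : ∀ j ∈ T, j ≠ x → j ≠ z → w j = w i0 := by
      intro j hj hjx hjz
      have h1 := hred j x z hjx hjz hxz
      have h2 := hmin j hj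
      omega
    obtain ⟨y, hy⟩ : ∃ y : Fin (r + 4) → ℕ, y = fun j => if j = x ∨ j = z then 1 else 0 := ⟨_, rfl⟩
    have hyx : y x = 1 := by rw [hy]; simp
    have hyz : y z = 1 := by rw [hy]; simp
    have hyo : ∀ j, j ≠ x → j ≠ z → y j = 0 := by
      intro j h1 h2
      rw [hy]
      simp [h1, h2]
    have hsum : ∀ f : Fin (r + 4) → ℕ, ∑ j ∈ T, f j =
        f x + (f z + ∑ j ∈ (T.erase x).erase z, f j) := by
      intro f
      rw [← Finset.add_sum_erase T f hx, ← Finset.add_sum_erase (T.erase x) f
        (Finset.mem_erase.2 ⟨hxz.symm, hz⟩)]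
    have hrest : ∀ j ∈ (T.erase x).erase z, j ∈ T ∧ j ≠ x ∧ j ≠ z := by
      intro j hj
      rw [Finset.mem_erase, Finset.mem_erase] at hj
      exact ⟨hj.2.2, hj.2.1, hj.1⟩
    have hcard : ((T.erase x).erase z).card = 7 := by
      rw [Finset.card_erase_of_mem (Finset.mem_erase.2 ⟨hxz.symm, hz⟩),
        Finset.card_erase_of_mem hx, hT]
    have hsy : ∀ g : ℕ → ℕ → ℕ, (∀ j, j ∈ (T.erase x).erase z → g (y j) (w j) = g 0 (w i0)) →
        ∑ j ∈ T, g (y j) (w j) = g 1 (w x) + (g 1 (w z) + 7 * g 0 (w i0)) := by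
      intro g hg
      rw [hsum fun j => g (y j) (w j), hyx, hyz, Finset.sum_congr rfl hg, Finset.sum_const, hcard,
        smul_eq_mul]
    have hg0 : ∀ (g : ℕ → ℕ → ℕ) (j : Fin (r + 4)), j ∈ (T.erase x).erase z →
        g (y j) (w j) = g 0 (w i0) := by
      intro g j hj
      obtain ⟨h1, h2, h3⟩ := hrest j hj
      rw [hyo j h2 h3, heq j h1 h2 h3]
    have hy1 : ∑ j ∈ T, y j = 2 := by
      rw [hsy (fun a _ => a) (fun j hj => hg0 (fun a _ => a) j hj)]
    have hy2 : ∑ j ∈ T, (y j + 1).choose 2 = 2 := by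
      rw [hsy (fun a _ => (a + 1).choose 2) (fun j hj => hg0 (fun a _ => (a + 1).choose 2) j hj)]
      rfl
    have hy3 : ∑ j ∈ T, y j * (y j - 1) = 0 := by
      rw [hsy (fun a _ => a * (a - 1)) (fun j hj => hg0 (fun a _ => a * (a - 1)) j hj)]
    have hy4 : ∑ j ∈ T, y j * y j = 2 := by
      rw [hsy (fun a _ => a * a) (fun j hj => hg0 (fun a _ => a * a) j hj)]
    have hyw : ∑ j ∈ T, y j * w j = w x + w z := by
      rw [hsy (fun a b => a * b) (fun j hj => hg0 (fun a b => a * b) j hj)]
      ring
    have hw1 : ∑ j ∈ T, w j = w x + (w z + 7 * w i0) := by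
      rw [hsy (fun _ b => b) (fun j hj => hg0 (fun _ b => b) j hj)]
    obtain ⟨b, G, u, hb, hG, hGe, hu, huT, hun⟩ := exists_curve hP hT (e0 := 1) one_pos (by omega)
      (y := y) (by rw [hy1]) (by rw [hy2]; decide) hoff
    have hbw : b + 1 ≤ w i0 := by omega
    refine ⟨b, 1, y, u, G, hb, one_pos, ?_, ?_, hG, hGe, hu, huT, ?_, hun, by rw [hy1],
      by rw [hy3]; omega, ?_, ?_, ?_⟩
    · rcases Nat.eq_zero_or_pos b with h | h
      · -- a line does not have three points
        exfalso
        subst h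
        obtain ⟨j, hj, hj1⟩ := hoff
        have hjx : j ≠ x := fun h => hj (h ▸ hx)
        have hjz : j ≠ z := fun h => hj (h ▸ hz)
        refine line_two hP hG.ne_zero (by simpa using hGe) ![x, z, j] ?_ ?_
        · intro k l hkl
          fin_cases k <;> fin_cases l <;> simp_all
        · intro k
          fin_cases k
          · refine van_mono ?_ (hu x).1
            rw [huT x hx, hyx]
          · refine van_mono ?_ (hu z).1
            rw [huT z hz, hyz]
          · exact van_mono (hj1.trans (hun j hj)) (hu j).1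
      · omega
    · have := hmin x hx
      have := hmin z hz
      omega
    · intro j hj
      by_cases h1 : j = x
      · rw [h1, hyx]
      · by_cases h2 : j = z
        · rw [h2, hyz]
        · rw [hyo j h1 h2]
          omega
    · have : ∑ j ∈ T, (y j : ℤ) * y j = 2 := by exact_mod_cast hy4
      rw [this]
      norm_num
    · rw [hyw]
      omega
    · intro a ha' c hc' l hl' hac hal hcl
      rw [huT a ha', huT c hc', huT l hl']
      have q1 : ∀ j ∈ T, j ≠ x → j ≠ z → w j - (b + y j) = w i0 - b := by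
        intro j hj h1 h2
        rw [hyo j h1 h2, heq j hj h1 h2]
        rfl
      have q2 : w x - (b + y x) = w x - b - 1 := by rw [hyx]; omega
      have q3 : w z - (b + y z) = w z - b - 1 := by rw [hyz]; omega
      have m1 := hmin x hx
      have m2 := hmin z hz
      by_cases a1 : a = x
      · rw [a1] at hac hal ⊢
        rw [q2]
        by_cases c1 : c = z
        · rw [c1] at hcl ⊢
          rw [q3, q1 l hl' hal.symm hcl.symm]
          omega
        · by_cases l1 : l = z
          · rw [l1, q3, q1 c hc' hac.symm c1]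
            omega
          · rw [q1 c hc' hac.symm c1, q1 l hl' hal.symm l1]
            omega
      · by_cases a2 : a = z
        · rw [a2] at hac hal ⊢
          rw [q3]
          by_cases c1 : c = x
          · rw [c1] at hcl ⊢
            rw [q2, q1 l hl' hcl.symm hal.symm]
            omega
          · by_cases l1 : l = x
            · rw [l1, q2, q1 c hc' c1 hac.symm]
              omega
            · rw [q1 c hc' c1 hac.symm, q1 l hl' l1 hal.symm]
              omega
        · rw [q1 a ha' a1 a2]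
          by_cases c1 : c = x
          · rw [c1] at hcl ⊢
            rw [q2]
            by_cases l1 : l = z
            · rw [l1, q3]
              omega
            · rw [q1 l hl' hcl.symm l1]
              omega
          · by_cases c2 : c = z
            · rw [c2] at hcl ⊢
              rw [q3]
              by_cases l1 : l = x
              · rw [l1, q2]
                omega
              · rw [q1 l hl' l1 hcl.symm]
                omega
            · rw [q1 c hc' c1 c2]
              by_cases l1 : l = x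
              · rw [l1, q2]
                omega
              · by_cases l2 : l = z
                · rw [l2, q3]
                  omega
                · rw [q1 l hl' l1 l2]
                  omega
  · -- the class of eight points
    push Not at hcase
    obtain ⟨y, hy⟩ : ∃ y : Fin (r + 4) → ℕ, y = fun j => if j = i0 then 0 else 1 := ⟨_, rfl⟩
    have hyi : y i0 = 0 := by rw [hy]; simp
    have hyo : ∀ j, j ≠ i0 → y j = 1 := by
      intro j h1
      rw [hy]
      simp [h1]
    have hcard : (T.erase i0).card = 8 := by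
      rw [Finset.card_erase_of_mem hi0, hT]
    have hsum : ∀ f : ℕ → ℕ, ∑ j ∈ T, f (y j) = f 0 + 8 * f 1 := by
      intro f
      rw [← Finset.add_sum_erase T _ hi0, hyi, Finset.sum_congr rfl fun j hj => by
        rw [hyo j (Finset.ne_of_mem_erase hj)], Finset.sum_const, hcard, smul_eq_mul]
    have hy1 : ∑ j ∈ T, y j = 8 := by
      rw [hsum fun a => a]
    have hy2 : ∑ j ∈ T, (y j + 1).choose 2 = 8 := by
      rw [hsum fun a => (a + 1).choose 2]
      rfl
    have hy3 : ∑ j ∈ T, y j * (y j - 1) = 0 := by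
      rw [hsum fun a => a * (a - 1)]
    have hy4 : ∑ j ∈ T, y j * y j = 8 := by
      rw [hsum fun a => a * a]
    have hyw : ∑ j ∈ T, y j * w j + w i0 = ∑ j ∈ T, w j := by
      rw [← Finset.add_sum_erase T (fun j => y j * w j) hi0, ← Finset.add_sum_erase T w hi0,
        hyi, Finset.sum_congr rfl fun j hj => by
          rw [hyo j (Finset.ne_of_mem_erase hj), one_mul]]
      ring
    obtain ⟨b, G, u, hb, hG, hGe, hu, huT, hun⟩ := exists_curve hP hT (e0 := 3) (by omega) le_rfl
      (y := y) (by rw [hy1]) (by rw [hy2]; decide) hoff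
    have hbw : b + 1 ≤ w i0 := by omega
    obtain ⟨x, hx, hxi, -⟩ := exists_third (T := T) (by omega) i0 i0
    obtain ⟨z, hz, hzi, hzx⟩ := exists_third (T := T) (by omega) i0 x
    refine ⟨b, 3, y, u, G, hb, by omega, by omega, ?_, hG, hGe, hu, huT, ?_, hun, by rw [hy1],
      by rw [hy3], ?_, ?_, ?_⟩
    · have h1 := hred i0 x z hxi.symm hzi.symm hzx.symm
      have := hmin x hx
      have := hmin z hz
      omega
    · intro j _
      by_cases h1 : j = i0
      · rw [h1, hyi]
        omega
      · rw [hyo j h1]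
    · have : ∑ j ∈ T, (y j : ℤ) * y j = 8 := by exact_mod_cast hy4
      rw [this]
      norm_num
    · omega
    · intro a ha' c hc' l hl' hac hal hcl
      rw [huT a ha', huT c hc', huT l hl']
      have q1 : ∀ j ∈ T, j ≠ i0 → w j - (b + y j) = w j - b - 1 := by
        intro j hj h1
        rw [hyo j h1]
        omega
      have q2 : w i0 - (b + y i0) = w i0 - b := by rw [hyi]; rfl
      have m1 := hmin a ha'
      have m2 := hmin c hc'
      have m3 := hmin l hl'
      have hr3 := hred a c l hac hal hcl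
      by_cases a1 : a = i0
      · rw [a1] at hac hal ⊢
        have := hcase c hc' l hl' hcl hac.symm hal.symm
        rw [q2, q1 c hc' hac.symm, q1 l hl' hal.symm]
        omega
      · rw [q1 a ha' a1]
        by_cases c1 : c = i0
        · rw [c1] at hcl ⊢
          have := hcase a ha' l hl' hal a1 hcl.symm
          rw [q2, q1 l hl' hcl.symm]
          omega
        · rw [q1 c hc' c1]
          by_cases l1 : l = i0
          · rw [l1]
            have := hcase a ha' c hc' hac a1 c1
            rw [q2]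
            omega
          · rw [q1 l hl' l1]
            omega

end Pool.Agent.R355.Nine
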