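import Mathlib

set_option autoImplicit false

/-!
# Unit vectors at large mutual distances
-/

namespace Pool.Agent.R355.Pack

open MeasureTheory Metric

theorem pow_sub_le (a b : ℝ) (hb : 0 ≤ b) (hab : b ≤ a) (n : ℕ) :
    a ^ (n + 1) - b ^ (n + 1) ≤ (n + 1) * (a - b) * a ^ n := by
  induction n with
  | zero => simp
  | succ n ih =>
    have ha : 0 ≤ a := hb.trans hab
    have h1 : a * (a ^ (n + 1) - b ^ (n + 1)) ≤ a * ((n + 1) * (a - b) * a ^ n) :=
      mul_le_mul_of_nonneg_left ih ha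
    have h2 : (a - b) * b ^ (n + 1) ≤ (a - b) * a ^ (n + 1) :=
      mul_le_mul_of_nonneg_left (pow_le_pow_left₀ hb hab _) (by linarith)
    have e1 : a ^ (n + 1 + 1) - b ^ (n + 1 + 1) =
        a * (a ^ (n + 1) - b ^ (n + 1)) + (a - b) * b ^ (n + 1) := by ring
    have e2 : a * ((n + 1) * (a - b) * a ^ n) = (n + 1) * (a - b) * a ^ (n + 1) := by ring
    rw [e1]
    push_cast
    linarith

/-- Unit vectors at mutual distance at least `2 r`. -/
theorem pack {s : ℕ} {r : ℝ} (hr : 0 < r) (hr1 : r ≤ 1)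
    (A : Finset (EuclideanSpace ℝ (Fin (s + 1)))) (h1 : ∀ x ∈ A, ‖x‖ = 1)
    (h2 : ∀ x ∈ A, ∀ y ∈ A, x ≠ y → 2 * r ≤ dist x y) :
    (A.card : ℝ) ≤ 2 * (s + 1) * (1 + 1 / r) ^ s := by
  classical
  obtain ⟨μ, hμ⟩ : ∃ μ : Measure (EuclideanSpace ℝ (Fin (s + 1))), μ = volume := ⟨_, rfl⟩
  have hfin : Module.finrank ℝ (EuclideanSpace ℝ (Fin (s + 1))) = s + 1 := by simp
  have : μ.IsAddHaarMeasure := by rw [hμ]; infer_instance
  have hball : ∀ (x : EuclideanSpace ℝ (Fin (s + 1))) (t : ℝ), 0 ≤ t →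
      μ.real (ball x t) = t ^ (s + 1) * μ.real (ball 0 1) := by
    intro x t ht
    rw [measureReal_def, Measure.addHaar_ball μ x ht, hfin, ENNReal.toReal_mul,
      ENNReal.toReal_ofReal (pow_nonneg ht _), measureReal_def]
  have hv : 0 < μ.real (ball (0 : EuclideanSpace ℝ (Fin (s + 1))) 1) := by
    rw [measureReal_def]
    exact ENNReal.toReal_pos (measure_ball_pos μ _ one_pos).ne' measure_ball_lt_top.ne
  have hdisj : Set.PairwiseDisjoint (A : Set (EuclideanSpace ℝ (Fin (s + 1)))) fun x => ball x r := by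
    intro x hx y hy hxy
    refine ball_disjoint_ball ?_
    have := h2 x hx y hy hxy
    linarith
  have hU : μ.real (⋃ x ∈ A, ball x r) = A.card * (r ^ (s + 1) * μ.real (ball 0 1)) := by
    rw [measureReal_biUnion_finset hdisj (fun _ _ => measurableSet_ball)
      (fun _ _ => measure_ball_lt_top.ne)]
    rw [Finset.sum_congr rfl fun x _ => hball x r hr.le, Finset.sum_const, nsmul_eq_mul]
  have hd2 : Disjoint (⋃ x ∈ A, ball x r) (ball (0 : EuclideanSpace ℝ (Fin (s + 1))) (1 - r)) := by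
    rw [Set.disjoint_left]
    intro y hy hy0
    rw [Set.mem_iUnion₂] at hy
    obtain ⟨x, hx, hyx⟩ := hy
    rw [mem_ball, dist_eq_norm] at hyx
    rw [mem_ball, dist_zero_right] at hy0
    have h3 := h1 x hx
    have h4 : ‖x‖ ≤ ‖y‖ + ‖y - x‖ := by
      have : x = y - (y - x) := by abel
      calc ‖x‖ = ‖y - (y - x)‖ := by rw [← this]
        _ ≤ ‖y‖ + ‖y - x‖ := norm_sub_le _ _
    linarith
  have hsub : (⋃ x ∈ A, ball x r) ∪ ball (0 : EuclideanSpace ℝ (Fin (s + 1))) (1 - r) ⊆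
      ball 0 (1 + r) := by
    intro y hy
    rw [mem_ball, dist_zero_right]
    rcases hy with hy | hy
    · rw [Set.mem_iUnion₂] at hy
      obtain ⟨x, hx, hyx⟩ := hy
      rw [mem_ball, dist_eq_norm] at hyx
      have h3 := h1 x hx
      have h4 : ‖y‖ ≤ ‖x‖ + ‖y - x‖ := by
        have : y = x + (y - x) := by abel
        calc ‖y‖ = ‖x + (y - x)‖ := by rw [← this]
          _ ≤ ‖x‖ + ‖y - x‖ := norm_add_le _ _
      linarith
    · rw [mem_ball, dist_zero_right] at hy
      linarith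
  have hle := measureReal_mono hsub (measure_ball_lt_top (μ := μ)).ne
  rw [measureReal_union hd2 measurableSet_ball
    (by
      refine (lt_of_le_of_lt (measure_mono (Set.subset_union_left.trans hsub))
        measure_ball_lt_top).ne) measure_ball_lt_top.ne,
    hU, hball 0 (1 - r) (by linarith), hball 0 (1 + r) (by linarith)] at hle
  have h3 : (A.card : ℝ) * r ^ (s + 1) + (1 - r) ^ (s + 1) ≤ (1 + r) ^ (s + 1) := by
    have h4 : ((A.card : ℝ) * r ^ (s + 1) + (1 - r) ^ (s + 1)) * μ.real (ball 0 1) ≤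
        (1 + r) ^ (s + 1) * μ.real (ball 0 1) := by
      refine le_trans (le_of_eq ?_) hle
      ring
    exact le_of_mul_le_mul_right h4 hv
  have h5 := pow_sub_le (1 + r) (1 - r) (by linarith) (by linarith) s
  have h6 : (A.card : ℝ) * r ^ (s + 1) ≤ 2 * (s + 1) * (1 + r) ^ s * r := by
    have e1 : ((s : ℝ) + 1) * (1 + r - (1 - r)) * (1 + r) ^ s = 2 * (s + 1) * (1 + r) ^ s * r := by
      ring
    linarith
  have h7 : (A.card : ℝ) * r ^ s ≤ 2 * (s + 1) * (1 + r) ^ s := by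
    have h8 : (A.card : ℝ) * r ^ s * r ≤ 2 * (s + 1) * (1 + r) ^ s * r := by
      refine le_trans (le_of_eq ?_) h6
      ring
    exact le_of_mul_le_mul_right h8 hr
  have h9 : 0 < r ^ s := pow_pos hr s
  have e3 : (1 + 1 / r) ^ s * r ^ s = (1 + r) ^ s := by
    rw [← mul_pow]
    congr 1
    field_simp
    ring
  have h10 : (A.card : ℝ) * r ^ s ≤ (2 * (s + 1) * (1 + 1 / r) ^ s) * r ^ s := by
    rw [mul_assoc (2 * ((s : ℝ) + 1)), e3]
    exact h7
  exact le_of_mul_le_mul_right h10 h9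

end Pool.Agent.R355.Pack
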