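import Pool.Agent.R355.Minor
import Pool.Agent.R355.Greedy
import Pool.Agent.R355.NR2C

/-!
# The rank of the near relations between odd zeta values and arbitrary numbers
-/

set_option autoImplicit false

namespace Pool.Agent.R355.QR

open Finset Matrix
open scoped Nat

/-- **Core.** -/
theorem core {ι : Type*} [Fintype ι] [DecidableEq ι] {b K s d m : ℕ} (hK : 1 ≤ K)
    (hs : (2 : ℝ) ^ (132 * (d + 1)) * ((b : ℝ) + 1) ^ 2 * (K : ℝ) ^ 3 * Real.log (K + 1) ≤ (s : ℝ) ^ 2)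
    (E : Finset ℕ) (hE : ∀ j ∈ E, b < j ∧ j ≤ s ∧ Odd j)
    (hEK : ((Finset.Ioc b s).filter Odd).card < E.card + K) (hm : Fintype.card ι = m + d) (g : E → ι) :
    ∃ c : ℝ, 0 < c ∧ ∀ y : ι → ℝ, (∀ j : E, y (g j) = ∑' n : ℕ, 1 / ((n : ℝ) + 1) ^ (j : ℕ)) →
      ∀ X : ℝ, 1 ≤ X → ∀ A : Fin m → ι → ℤ, LinearIndependent ℤ A → (∀ k i, |(A k i : ℝ)| ≤ X) →
        ∃ k, c / X ^ (m * (d + 1) * (d + 2)) ≤ |∑ i, (A k i : ℝ) * y i| := by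
  classical
  obtain ⟨q0, hq0⟩ := (Pool.Agent.Y926.TW.main b K s (d + 1) hK (by omega) hs).2
  obtain ⟨q2, hq2⟩ : ∃ q2 : ℕ, q2 = max q0 1 := ⟨_, rfl⟩
  have hq21 : 1 ≤ q2 := by rw [hq2]; exact le_max_right _ _
  have hq20 : q0 ≤ q2 := by rw [hq2]; exact le_max_left _ _
  have hq2R : (1 : ℝ) ≤ q2 := by exact_mod_cast hq21
  obtain ⟨F, hF⟩ : ∃ F : ℝ, F = (q2 : ℝ) * (m ! : ℝ) := ⟨_, rfl⟩
  have hm1 : (1 : ℝ) ≤ (m ! : ℝ) := by exact_mod_cast Nat.one_le_iff_ne_zero.2 (Nat.factorial_ne_zero m)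
  have hF1 : 1 ≤ F := by rw [hF]; nlinarith
  have hd0 : (0 : ℝ) ≤ d := Nat.cast_nonneg _
  obtain ⟨C, hC⟩ : ∃ C : ℝ, C = (2 * ((d : ℝ) + 1)) ^ (d + 1) := ⟨_, rfl⟩
  have hC1 : 1 ≤ C := by rw [hC]; exact one_le_pow₀ (by linarith)
  refine ⟨(d + 1) / (2 * C * F ^ (d + 2)) ^ (d + 1), by positivity, ?_⟩
  intro y hy X hX A hA hAX
  by_contra hcon
  push Not at hcon
  obtain ⟨G, hG⟩ : ∃ G : ℝ, G = F * X ^ m := ⟨_, rfl⟩
  have hXm : 1 ≤ X ^ m := one_le_pow₀ hX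
  have hG1 : 1 ≤ G := by rw [hG]; nlinarith
  have hGd : 1 ≤ G ^ (d + 2) := one_le_pow₀ hG1
  obtain ⟨Q, hQ⟩ : ∃ Q : ℕ, Q = ⌊C * G ^ (d + 2)⌋₊ + 1 := ⟨_, rfl⟩
  have hQ1 : 1 ≤ Q := by omega
  have hQlow : C * G ^ (d + 2) < Q := by
    rw [hQ]
    push_cast
    exact Nat.lt_floor_add_one _
  have hCG : 1 ≤ C * G ^ (d + 2) := by nlinarith
  have hQup : (Q : ℝ) ≤ 2 * C * G ^ (d + 2) := by
    have h1 : (⌊C * G ^ (d + 2)⌋₊ : ℝ) ≤ C * G ^ (d + 2) := Nat.floor_le (by positivity)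
    rw [hQ]
    push_cast
    linarith
  have hQ0 : (0 : ℝ) < Q := by exact_mod_cast hQ1
  obtain ⟨δ, hδ⟩ : ∃ δ : ℝ, δ = (d + 1) / (Q : ℝ) ^ (d + 1) := ⟨_, rfl⟩
  have hδ0 : 0 ≤ δ := by rw [hδ]; positivity
  have hsmall : ∀ k, |∑ i, (A k i : ℝ) * y i| ≤ δ := by
    intro k
    refine (hcon k).le.trans ?_
    rw [hδ, div_div]
    have e : (2 * C * F ^ (d + 2)) ^ (d + 1) * X ^ (m * (d + 1) * (d + 2)) = (2 * C * G ^ (d + 2)) ^ (d + 1) := by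
      rw [hG]
      have : X ^ (m * (d + 1) * (d + 2)) = ((X ^ m) ^ (d + 2)) ^ (d + 1) := by
        rw [← pow_mul, ← pow_mul]
        congr 1
        ring
      rw [this, ← mul_pow]
      congr 1
      ring
    rw [e]
    gcongr
  obtain ⟨q, hq1, hqle, hq⟩ := approx_all hm A hA X hX hAX y δ hδ0 hsmall Q hQ1
  obtain ⟨q1, hq1d⟩ : ∃ q1 : ℕ, q1 = q2 * q := ⟨_, rfl⟩
  have hq1q0 : q0 ≤ q1 := by
    rw [hq1d]
    calc q0 ≤ q2 * 1 := by omega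
      _ ≤ q2 * q := Nat.mul_le_mul_left _ hq1
  have hq1R : (q1 : ℝ) = q2 * q := by rw [hq1d]; push_cast; rfl
  have hqR : (1 : ℝ) ≤ q := by exact_mod_cast hq1
  have hq1pos : (0 : ℝ) < q1 := by rw [hq1R]; positivity
  have hq1up : (q1 : ℝ) ≤ G * (Q : ℝ) ^ d := by
    rw [hq1R, hG, hF]
    calc (q2 : ℝ) * q ≤ q2 * ((m ! : ℝ) * X ^ m * (Q : ℝ) ^ d) := by gcongr
      _ = _ := by ring
  have hall : ∀ i, ∃ p : ℤ, |(q1 : ℝ) * y i - p| ≤ 2 * (d + 1) * G / Q := by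
    intro i
    obtain ⟨p, hp⟩ := hq i
    refine ⟨q2 * p, ?_⟩
    have e : (q1 : ℝ) * y i - ((q2 * p : ℤ) : ℝ) = q2 * ((q : ℝ) * y i - p) := by
      rw [hq1R]
      push_cast
      ring
    rw [e, abs_mul, Nat.abs_cast]
    have h1 : (Q : ℝ) ^ d * δ = (d + 1) / Q := by
      rw [hδ, pow_succ]
      field_simp
    rw [h1] at hp
    calc (q2 : ℝ) * |(q : ℝ) * y i - p| ≤ q2 * ((m ! : ℝ) * X ^ m * ((d + 1) / Q + (d + 1) / Q)) := by gcongr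
      _ = 2 * (d + 1) * G / Q := by
          rw [hG, hF]
          ring
  -- an odd zeta value in `E` which is not approximated
  have hmem := hq0 q1 hq1q0
  obtain ⟨j, hjE, hj⟩ : ∃ j ∈ E, ∀ p : ℤ, (q1 : ℝ) ^ (-(1 / ((d + 1 : ℕ) : ℝ))) ≤
      |(q1 : ℝ) * (∑' n : ℕ, 1 / ((n : ℝ) + 1) ^ j) - p| := by
    by_contra hno
    push Not at hno
    have hsub : {j : ℕ | b < j ∧ j ≤ s ∧ Odd j ∧ ∀ p : ℤ, (q1 : ℝ) ^ (-(1 / ((d + 1 : ℕ) : ℝ))) ≤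
        |(q1 : ℝ) * (∑' n : ℕ, 1 / ((n : ℝ) + 1) ^ j) - p|} ⊆
        (((Finset.Ioc b s).filter Odd \ E : Finset ℕ) : Set ℕ) := by
      rintro j ⟨h1, h2, h3, h4⟩
      rw [Finset.coe_sdiff, Set.mem_sdiff, Finset.mem_coe, Finset.mem_filter, Finset.mem_Ioc]
      refine ⟨⟨⟨h1, h2⟩, h3⟩, fun hjE => ?_⟩
      obtain ⟨p, hp⟩ := hno j hjE
      exact absurd (h4 p) (not_le.2 hp)
    have h1 := Set.ncard_le_ncard hsub (Finset.finite_toSet _)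
    rw [Set.ncard_coe_finset] at h1
    have h2 : E ⊆ (Finset.Ioc b s).filter Odd := by
      intro j hj
      obtain ⟨h3, h4, h5⟩ := hE j hj
      exact Finset.mem_filter.2 ⟨Finset.mem_Ioc.2 ⟨h3, h4⟩, h5⟩
    rw [Finset.card_sdiff_of_subset h2] at h1
    have h3 := Finset.card_le_card h2
    omega
  obtain ⟨p, hp⟩ := hall (g ⟨j, hjE⟩)
  rw [hy] at hp
  have h1 := (hj p).trans hp
  have h2 : ((q1 : ℝ) ^ (-(1 / ((d + 1 : ℕ) : ℝ)))) ^ (d + 1) ≤ (2 * (d + 1) * G / Q) ^ (d + 1) :=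
    pow_le_pow_left₀ (by positivity) h1 _
  rw [← Real.rpow_natCast, ← Real.rpow_mul hq1pos.le] at h2
  have h3 : -(1 / ((d + 1 : ℕ) : ℝ)) * ((d + 1 : ℕ) : ℝ) = -1 := by
    have : ((d + 1 : ℕ) : ℝ) ≠ 0 := by positivity
    field_simp
  rw [h3, Real.rpow_neg_one] at h2
  have h4 : 1 ≤ (q1 : ℝ) * (2 * (d + 1) * G / Q) ^ (d + 1) := by
    calc (1 : ℝ) = q1 * (q1 : ℝ)⁻¹ := by field_simp
      _ ≤ _ := by gcongr
  have h5 : (q1 : ℝ) * (2 * (d + 1) * G / Q) ^ (d + 1) ≤ C * G ^ (d + 2) / Q := by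
    calc (q1 : ℝ) * (2 * (d + 1) * G / Q) ^ (d + 1) ≤ (G * (Q : ℝ) ^ d) * (2 * (d + 1) * G / Q) ^ (d + 1) := by
          gcongr
      _ = C * G ^ (d + 2) / Q := by
          rw [hC, div_pow, mul_pow, pow_succ (Q : ℝ)]
          field_simp
          ring
  have h6 : C * G ^ (d + 2) / Q < 1 := by
    rw [div_lt_one hQ0]
    exact hQlow
  linarith

end Pool.Agent.R355.QR
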