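import Pool.Agent.R355.ConeAct
import Pool.Agent.TH167.T3.Nine

set_option autoImplicit false

/-!
# A criterion for nef classes; the shape of the nef cone near the rays `-K_9`
-/

namespace Pool.Agent.R355.Round

open MvPolynomial Pool.Agent.W609 Pool.Agent.W609.CR Pool.Agent.TH167 Pool.Agent.TH167.SH
open Pool.Agent.R355.ConeAct (curveClasses curvCone dot kap nef_of_gen)

/-! ## Numbers -/

theorem bad_num {r : ℕ} {P : Fin (r + 4) → Fin 2 → ℂ}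
    (hP : AlgebraicIndependent ℚ (fun ij : Fin (r + 4) × Fin 2 => P ij.1 ij.2))
    {G : MvPolynomial (Fin 3) ℂ} {d : ℕ} {w : Fin (r + 4) → ℕ} (hG : Irreducible G)
    (hGe : G.IsHomogeneous d) (hGo : ∀ j, Ord (aff (P j)) (w j) G)
    (hneg : ip d w d w < 0) (hne : ¬ (ip d w d w = -1 ∧ kk d w = 1))
    {T : Finset (Fin (r + 4))} (hT : T.card ≤ 9) :
    4 * (10 - (T.card : ℤ)) * (-ip d w d w) ≤ ∑ j ∈ Tᶜ, (w j : ℤ) ^ 2 ∧
      (-ip d w d w) ^ 2 ≤ ∑ j ∈ Tᶜ, (w j : ℤ) ^ 2 := by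
  classical
  obtain ⟨k, hk⟩ : ∃ k, k = -ip d w d w := ⟨_, rfl⟩
  rw [← hk]
  have hk0 : 0 < k := by omega
  obtain ⟨F, hF⟩ : ∃ F, F = Finset.univ.filter fun j => 3 < w j := ⟨_, rfl⟩
  have h10 : 10 ≤ F.card := by
    by_contra hcon
    rw [hF] at hcon
    exact hne (T3.neg9 (by omega) hP hG hGe hGo hneg)
  have hxu : ∀ j ∈ F, k ≤ w j ∧ (4 : ℤ) ≤ w j := by
    intro j hj
    rw [hF] at hj
    have hj3 := (Finset.mem_filter.1 hj).2
    have hx := NegOrb.xu hP hG hGe hGo (k := j) (by omega)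
    have hx' : ((∑ j, w j ^ 2 : ℕ) : ℤ) ≤ ((d ^ 2 + w j : ℕ) : ℤ) := by exact_mod_cast hx
    have e1 : ip d w d w = (d : ℤ) ^ 2 - ((∑ j, w j ^ 2 : ℕ) : ℤ) := by
      unfold ip
      push_cast
      rw [pow_two]
      congr 1
      exact Finset.sum_congr rfl fun i _ => by ring
    rw [e1] at hk
    push_cast at hx' hk
    exact ⟨by linarith, by exact_mod_cast hj3⟩
  have hsub : F \ T ⊆ Tᶜ := fun j hj => Finset.mem_compl.2 (Finset.mem_sdiff.1 hj).2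
  have hcard : 10 ≤ (F \ T).card + T.card := by
    have := Finset.card_le_card_sdiff_add_card (s := F) (t := T)
    omega
  have h1 : ∑ j ∈ F \ T, (w j : ℤ) ^ 2 ≤ ∑ j ∈ Tᶜ, (w j : ℤ) ^ 2 :=
    Finset.sum_le_sum_of_subset_of_nonneg hsub fun i _ _ => sq_nonneg _
  have h2 : ((F \ T).card : ℤ) * (4 * k) ≤ ∑ j ∈ F \ T, (w j : ℤ) ^ 2 := by
    rw [← nsmul_eq_mul, ← Finset.sum_const]
    refine Finset.sum_le_sum fun j hj => ?_
    obtain ⟨a, b⟩ := hxu j (Finset.mem_sdiff.1 hj).1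
    nlinarith
  constructor
  · have h3 : (10 - (T.card : ℤ)) ≤ ((F \ T).card : ℤ) := by
      have : (10 : ℤ) ≤ ((F \ T).card : ℤ) + T.card := by exact_mod_cast hcard
      linarith
    have h4 : (10 - (T.card : ℤ)) * (4 * k) ≤ ((F \ T).card : ℤ) * (4 * k) :=
      mul_le_mul_of_nonneg_right h3 (by linarith)
    linarith
  · obtain ⟨j, hj⟩ : (F \ T).Nonempty := by
      rw [← Finset.card_pos]
      omega
    obtain ⟨a, -⟩ := hxu j (Finset.mem_sdiff.1 hj).1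
    have h3 := Finset.single_le_sum (f := fun j => (w j : ℤ) ^ 2) (fun i _ => sq_nonneg _)
      (hsub hj)
    have h4 : k ^ 2 ≤ (w j : ℤ) ^ 2 := pow_le_pow_left₀ hk0.le a 2
    exact h4.trans h3

/-- The reverse Cauchy-Schwarz inequality. -/
theorem hodge {ι : Type} (T : Finset ι) {x d : ℝ} {y w : ι → ℝ} (hx : 0 ≤ x) (hd : 0 ≤ d)
    (hq : ∑ i ∈ T, y i ^ 2 ≤ x ^ 2) (hQ : ∑ i ∈ T, w i ^ 2 ≤ d ^ 2) :
    0 ≤ x * d - ∑ i ∈ T, y i * w i ∧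
      (x ^ 2 - ∑ i ∈ T, y i ^ 2) * (d ^ 2 - ∑ i ∈ T, w i ^ 2) ≤
        (x * d - ∑ i ∈ T, y i * w i) ^ 2 := by
  have hcs := Finset.sum_mul_sq_le_sq_mul_sq T y w
  obtain ⟨b, hb⟩ : ∃ b, b = ∑ i ∈ T, y i ^ 2 := ⟨_, rfl⟩
  obtain ⟨c, hc⟩ : ∃ c, c = ∑ i ∈ T, w i ^ 2 := ⟨_, rfl⟩
  obtain ⟨s, hs⟩ : ∃ s, s = ∑ i ∈ T, y i * w i := ⟨_, rfl⟩
  have hb0 : 0 ≤ b := by
    rw [hb]
    exact Finset.sum_nonneg fun i _ => sq_nonneg _
  have hc0 : 0 ≤ c := by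
    rw [hc]
    exact Finset.sum_nonneg fun i _ => sq_nonneg _
  rw [← hb] at hq
  rw [← hc] at hQ
  rw [← hb, ← hc, ← hs] at hcs ⊢
  clear hb hc hs
  obtain ⟨β, hβ0, hβ⟩ : ∃ β, 0 ≤ β ∧ β ^ 2 = b := ⟨Real.sqrt b, Real.sqrt_nonneg _, Real.sq_sqrt hb0⟩
  obtain ⟨γ, hγ0, hγ⟩ : ∃ γ, 0 ≤ γ ∧ γ ^ 2 = c := ⟨Real.sqrt c, Real.sqrt_nonneg _, Real.sq_sqrt hc0⟩
  subst hβ
  subst hγ
  have h1 : β ≤ x := abs_le_of_sq_le_sq' hq hx |>.2
  have h2 : γ ≤ d := abs_le_of_sq_le_sq' hQ hd |>.2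
  have h3 : s ≤ β * γ := by
    have : s ^ 2 ≤ (β * γ) ^ 2 := by
      rw [mul_pow]
      exact hcs
    exact (abs_le_of_sq_le_sq' this (mul_nonneg hβ0 hγ0)).2
  have h4 : β * γ ≤ x * d := mul_le_mul h1 h2 hγ0 hx
  refine ⟨by linarith, ?_⟩
  have h5 : (x * d - β * γ) ^ 2 ≤ (x * d - s) ^ 2 := pow_le_pow_left₀ (by linarith) (by linarith) 2
  nlinarith [sq_nonneg (x * γ - d * β)]

/-- The isotropic vector `F = (3; 1, ..., 1)`. -/
theorem iso {ι : Type} (T : Finset ι) (hT : T.card = 9) {x d : ℝ} {y w : ι → ℝ} {p q : ℝ}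
    (hp : 3 * d - ∑ i ∈ T, w i = p) (hq : 3 * x - ∑ i ∈ T, y i = q) :
    q ^ 2 * (d ^ 2 - ∑ i ∈ T, w i ^ 2) + p ^ 2 * (x ^ 2 - ∑ i ∈ T, y i ^ 2) ≤
      2 * q * p * (x * d - ∑ i ∈ T, y i * w i) := by
  have h1 : ∑ i ∈ T, (q * w i - p * y i) = 3 * (q * d - p * x) := by
    rw [Finset.sum_sub_distrib, ← Finset.mul_sum, ← Finset.mul_sum]
    have e1 : ∑ i ∈ T, w i = 3 * d - p := by linarith
    have e2 : ∑ i ∈ T, y i = 3 * x - q := by linarith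
    rw [e1, e2]
    ring
  have h2 := sq_sum_le_card_mul_sum_sq (s := T) (f := fun i => q * w i - p * y i)
  rw [h1, hT] at h2
  have h3 : ∑ i ∈ T, (q * w i - p * y i) ^ 2 = q ^ 2 * ∑ i ∈ T, w i ^ 2 -
      2 * q * p * ∑ i ∈ T, y i * w i + p ^ 2 * ∑ i ∈ T, y i ^ 2 := by
    rw [Finset.mul_sum, Finset.mul_sum, Finset.mul_sum, ← Finset.sum_sub_distrib,
      ← Finset.sum_add_distrib]
    exact Finset.sum_congr rfl fun i _ => by ring
  rw [h3] at h2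
  push_cast at h2
  nlinarith

theorem num_a {t a A k q Q X Y : ℝ} (ht : t ≤ 9) (ha : 0 ≤ a) (hk : 0 ≤ k)
    (hq : (40 - 4 * t) * a ≤ (39 - 4 * t) * q) (hA : 4 * (10 - t) * k ≤ A) (hQ : Q = A - k)
    (hX0 : 0 ≤ X) (hX : q * Q ≤ X ^ 2) (hY : Y ^ 2 ≤ a * A) : Y ≤ X := by
  have hc : 0 < 39 - 4 * t := by linarith
  have hQ0 : 0 ≤ Q := by
    rw [hQ]
    nlinarith
  have h1 : (39 - 4 * t) * (a * A) ≤ (39 - 4 * t) * (q * Q) := by
    have h2 : (40 - 4 * t) * a * Q ≤ (39 - 4 * t) * q * Q := mul_le_mul_of_nonneg_right hq hQ0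
    have h3 : a * ((39 - 4 * t) * A) ≤ a * ((40 - 4 * t) * Q) := by
      refine mul_le_mul_of_nonneg_left ?_ ha
      rw [hQ]
      nlinarith
    nlinarith
  have h4 : a * A ≤ q * Q := le_of_mul_le_mul_left h1 hc
  exact (abs_le_of_sq_le_sq' ((hY.trans h4).trans hX) hX0).2

theorem num_b {s π p a A k Q X Y : ℝ} (hs : 0 ≤ s) (hπ : 0 < π) (hp : 1 ≤ p)
    (hk : 0 ≤ k) (hc : (s + 2 * π) * a ≤ s ^ 3) (hA : 4 * k ≤ A) (hA2 : k ^ 2 ≤ A)
    (hQ : Q = A - k) (hX : π ^ 2 * Q + p ^ 2 * s ^ 2 ≤ 2 * π * p * X) (hY : Y ^ 2 ≤ a * A) :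
    Y ≤ X := by
  by_contra hcon
  push Not at hcon
  have hQ0 : 0 ≤ Q := by linarith
  have h3k : 3 * k ≤ Q := by linarith
  have h3k2 : 3 * k ^ 2 ≤ 4 * Q := by linarith
  obtain ⟨u, hu⟩ : ∃ u, u = π ^ 2 * Q := ⟨_, rfl⟩
  obtain ⟨v, hv⟩ : ∃ v, v = p ^ 2 * s ^ 2 := ⟨_, rfl⟩
  have hu0 : 0 ≤ u := by
    rw [hu]
    positivity
  have hv0 : 0 ≤ v := by
    rw [hv]
    positivity
  have hX0 : 0 ≤ X := by
    by_contra hneg
    push Not at hneg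
    have : 2 * π * p * X < 0 := mul_neg_of_pos_of_neg (by positivity) hneg
    rw [← hu, ← hv] at hX
    linarith
  have hY0 : 0 < Y := by linarith
  -- the strict upper bound
  have h1 : (u + v) ^ 2 ≤ (2 * π * p * X) ^ 2 :=
    pow_le_pow_left₀ (by positivity) (by rw [hu, hv]; exact hX) 2
  have h2 : X ^ 2 < Y ^ 2 := pow_lt_pow_left₀ hcon hX0 (by norm_num)
  have h3 : (u + v) ^ 2 < 4 * π ^ 2 * p ^ 2 * (a * A) := by
    have h4 : 0 < 4 * π ^ 2 * p ^ 2 := by positivity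
    have h5 : 4 * π ^ 2 * p ^ 2 * X ^ 2 < 4 * π ^ 2 * p ^ 2 * (a * A) :=
      mul_lt_mul_of_pos_left (h2.trans_le hY) h4
    nlinarith
  have hA0 : 0 ≤ A := by linarith
  have h6 : (u + v) ^ 2 * (s + 2 * π) < 4 * v * s * (u + π ^ 2 * k) := by
    have h7 : (u + v) ^ 2 * (s + 2 * π) < 4 * π ^ 2 * p ^ 2 * (a * A) * (s + 2 * π) :=
      mul_lt_mul_of_pos_right h3 (by linarith)
    have h8 : 4 * π ^ 2 * p ^ 2 * (a * A) * (s + 2 * π) ≤ 4 * π ^ 2 * p ^ 2 * A * s ^ 3 := by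
      have h9 : 0 ≤ 4 * π ^ 2 * p ^ 2 * A := by positivity
      have := mul_le_mul_of_nonneg_left hc h9
      nlinarith
    have h9 : 4 * π ^ 2 * p ^ 2 * A * s ^ 3 = 4 * v * s * (u + π ^ 2 * k) := by
      rw [hu, hv, hQ]
      ring
    linarith
  -- the lower bound
  rcases le_or_gt (3 * u) v with hcase | hcase
  · have g1 : 16 / 3 * (u * v) ≤ (u + v) ^ 2 := by
      nlinarith [mul_nonneg (sub_nonneg.2 hcase) (by linarith : 0 ≤ v - u / 3)]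
    have g2 : π ^ 2 * k ≤ u / 3 := by
      rw [hu]
      have := mul_le_mul_of_nonneg_left h3k (by positivity : 0 ≤ π ^ 2)
      linarith
    have g3 : 4 * v * s * (u + π ^ 2 * k) ≤ 4 * v * s * (u + u / 3) :=
      mul_le_mul_of_nonneg_left (by linarith) (by positivity)
    have g4 : 16 / 3 * (u * v) * s ≤ (u + v) ^ 2 * (s + 2 * π) :=
      mul_le_mul g1 (by linarith) hs (sq_nonneg _)
    nlinarith
  · have g1 : s * k ≤ 2 * π * Q := by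
      have g2 : s ^ 2 ≤ 3 * (π ^ 2 * Q) := by
        have g3 : s ^ 2 ≤ v := by
          rw [hv]
          have : 1 ≤ p ^ 2 := one_le_pow₀ hp
          nlinarith [sq_nonneg s]
        rw [hu] at hcase
        linarith
      have g4 : (s * k) ^ 2 ≤ (2 * π * Q) ^ 2 := by
        have g5 : s ^ 2 * (3 * k ^ 2) ≤ 3 * (π ^ 2 * Q) * (4 * Q) :=
          mul_le_mul g2 h3k2 (by positivity) (by positivity)
        nlinarith
      exact (abs_le_of_sq_le_sq' g4 (by positivity)).2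
    have g6 : 4 * (u * v) ≤ (u + v) ^ 2 := by nlinarith [sq_nonneg (u - v)]
    have g7 : 4 * (u * v) * (s + 2 * π) ≤ (u + v) ^ 2 * (s + 2 * π) :=
      mul_le_mul_of_nonneg_right g6 (by linarith)
    have g8 : 4 * v * s * (π ^ 2 * k) ≤ 8 * (u * v) * π := by
      have g9 : 4 * v * π ^ 2 * (s * k) ≤ 4 * v * π ^ 2 * (2 * π * Q) :=
        mul_le_mul_of_nonneg_left g1 (by positivity)
      rw [hu]
      nlinarith
    nlinarith

end Pool.Agent.R355.Round
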