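import Pool.Agent.R355.Round

set_option autoImplicit false

/-!
# A criterion for nef classes; the shape of the nef cone near the rays `-K_9`
-/

namespace Pool.Agent.R355.Round

open MvPolynomial Pool.Agent.W609 Pool.Agent.W609.CR Pool.Agent.TH167 Pool.Agent.TH167.SH
open Pool.Agent.R355.ConeAct (curveClasses curvCone dot kap nef_of_gen)

/-- `D = (x; y)`, `q = x ^ 2 - ∑_{i ∈ T} y i ^ 2`, `a = ∑_{i ∉ T} y i ^ 2`, `|T| = t ≤ 9`:
`(40 - 4 t) a ≤ (39 - 4 t) q`. -/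
def CritA {n : ℕ} (D : ℝ × (Fin n → ℝ)) (T : Finset (Fin n)) : Prop :=
  T.card ≤ 9 ∧ (40 - 4 * (T.card : ℝ)) * ∑ i ∈ Tᶜ, D.2 i ^ 2 ≤
    (39 - 4 * (T.card : ℝ)) * (D.1 ^ 2 - ∑ i ∈ T, D.2 i ^ 2)

/-- With also `p = 3 x - ∑_{i ∈ T} y i`, `|T| = 9`: `0 < p`, `0 ≤ q` and
`(√q + 2 p) a ≤ (√q) ^ 3`. -/
def CritB {n : ℕ} (D : ℝ × (Fin n → ℝ)) (T : Finset (Fin n)) : Prop :=
  T.card = 9 ∧ 0 < 3 * D.1 - ∑ i ∈ T, D.2 i ∧ 0 ≤ D.1 ^ 2 - ∑ i ∈ T, D.2 i ^ 2 ∧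
    (Real.sqrt (D.1 ^ 2 - ∑ i ∈ T, D.2 i ^ 2) + 2 * (3 * D.1 - ∑ i ∈ T, D.2 i)) *
      ∑ i ∈ Tᶜ, D.2 i ^ 2 ≤ Real.sqrt (D.1 ^ 2 - ∑ i ∈ T, D.2 i ^ 2) ^ 3

theorem crit_pos {n : ℕ} {D : ℝ × (Fin n → ℝ)} {T : Finset (Fin n)}
    (h : CritA D T ∨ CritB D T) : T.card ≤ 9 ∧ 0 ≤ D.1 ^ 2 - ∑ i ∈ T, D.2 i ^ 2 ∧
      ∑ i ∈ Tᶜ, D.2 i ^ 2 ≤ D.1 ^ 2 - ∑ i ∈ T, D.2 i ^ 2 := by
  have ha : 0 ≤ ∑ i ∈ Tᶜ, D.2 i ^ 2 := Finset.sum_nonneg fun i _ => sq_nonneg _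
  rcases h with ⟨h1, h2⟩ | ⟨h1, h2, h3, h4⟩
  · have ht : (T.card : ℝ) ≤ 9 := by exact_mod_cast h1
    obtain ⟨q, hq⟩ : ∃ q, q = D.1 ^ 2 - ∑ i ∈ T, D.2 i ^ 2 := ⟨_, rfl⟩
    obtain ⟨a, ha'⟩ : ∃ a, a = ∑ i ∈ Tᶜ, D.2 i ^ 2 := ⟨_, rfl⟩
    rw [← hq, ← ha'] at h2 ⊢
    rw [← ha'] at ha
    have h5 : (39 - 4 * (T.card : ℝ)) * a ≤ (39 - 4 * (T.card : ℝ)) * q := by nlinarith
    have h6 : a ≤ q := le_of_mul_le_mul_left h5 (by linarith)
    exact ⟨h1, by linarith, h6⟩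
  · refine ⟨h1.le, h3, ?_⟩
    obtain ⟨q, hq⟩ : ∃ q, q = D.1 ^ 2 - ∑ i ∈ T, D.2 i ^ 2 := ⟨_, rfl⟩
    obtain ⟨a, ha'⟩ : ∃ a, a = ∑ i ∈ Tᶜ, D.2 i ^ 2 := ⟨_, rfl⟩
    obtain ⟨p, hp⟩ : ∃ p, p = 3 * D.1 - ∑ i ∈ T, D.2 i := ⟨_, rfl⟩
    rw [← hq] at h3
    rw [← hp] at h2
    rw [← ha'] at ha
    rw [← hq, ← ha', ← hp] at h4
    rw [← hq, ← ha']
    obtain ⟨s, hs⟩ : ∃ s, s = Real.sqrt q := ⟨_, rfl⟩
    rw [← hs] at h4
    have hs0 : 0 ≤ s := by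
      rw [hs]
      exact Real.sqrt_nonneg _
    have hs2 : s ^ 2 = q := by
      rw [hs]
      exact Real.sq_sqrt h3
    rcases hs0.eq_or_lt with h0 | h0
    · rw [← h0] at h4
      have : a ≤ 0 := by
        by_contra hcon
        push Not at hcon
        have : 0 < (0 + 2 * p) * a := by positivity
        simp only [ne_eq, OfNat.ofNat_ne_zero, not_false_eq_true, zero_pow] at h4
        linarith
      linarith
    · have h5 : s * a ≤ s * q := by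
        have h6 : s * a ≤ (s + 2 * p) * a := mul_le_mul_of_nonneg_right (by linarith) ha
        have h7 : s ^ 3 = s * q := by
          rw [← hs2]
          ring
        linarith
      exact le_of_mul_le_mul_left h5 h0

/-- The intersection with the irreducible curves which are not `(-1)`-curves. -/
theorem crit_curve {r : ℕ} {P : Fin (r + 4) → Fin 2 → ℂ}
    (hP : AlgebraicIndependent ℚ (fun ij : Fin (r + 4) × Fin 2 => P ij.1 ij.2))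
    {G : MvPolynomial (Fin 3) ℂ} {d : ℕ} {w : Fin (r + 4) → ℕ} (hG : Irreducible G)
    (hGe : G.IsHomogeneous d) (hGo : ∀ j, Ord (aff (P j)) (w j) G)
    (hne : ¬ (ip d w d w = -1 ∧ kk d w = 1)) {D : ℝ × (Fin (r + 4) → ℝ)} (hD : 0 ≤ D.1)
    {T : Finset (Fin (r + 4))} (hc : CritA D T ∨ CritB D T) :
    0 ≤ D.1 * d - ∑ l, D.2 l * (w l : ℝ) := by
  classical
  obtain ⟨hT9, hq0, haq⟩ := crit_pos hc
  have hd0 : (0 : ℝ) ≤ d := Nat.cast_nonneg _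
  have hip : ((ip d w d w : ℤ) : ℝ) = (d : ℝ) ^ 2 - ∑ l, (w l : ℝ) ^ 2 := by
    unfold ip
    push_cast
    rw [pow_two]
    congr 1
    exact Finset.sum_congr rfl fun i _ => by ring
  have hw := Finset.sum_add_sum_compl T fun l => (w l : ℝ) ^ 2
  have hy := Finset.sum_add_sum_compl T fun l => D.2 l ^ 2
  have hyw := Finset.sum_add_sum_compl T fun l => D.2 l * (w l : ℝ)
  rcases lt_or_ge (ip d w d w) 0 with hneg | hnn
  · obtain ⟨n1, n2⟩ := bad_num hP hG hGe hGo hneg hne hT9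
    obtain ⟨k, hk⟩ : ∃ k : ℝ, k = -((ip d w d w : ℤ) : ℝ) := ⟨_, rfl⟩
    obtain ⟨A, hA⟩ : ∃ A : ℝ, A = ∑ j ∈ Tᶜ, (w j : ℝ) ^ 2 := ⟨_, rfl⟩
    obtain ⟨Q, hQ⟩ : ∃ Q : ℝ, Q = (d : ℝ) ^ 2 - ∑ l ∈ T, (w l : ℝ) ^ 2 := ⟨_, rfl⟩
    obtain ⟨X, hX⟩ : ∃ X : ℝ, X = D.1 * d - ∑ l ∈ T, D.2 l * (w l : ℝ) := ⟨_, rfl⟩
    obtain ⟨Y, hY⟩ : ∃ Y : ℝ, Y = ∑ l ∈ Tᶜ, D.2 l * (w l : ℝ) := ⟨_, rfl⟩
    obtain ⟨q, hq⟩ : ∃ q, q = D.1 ^ 2 - ∑ i ∈ T, D.2 i ^ 2 := ⟨_, rfl⟩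
    obtain ⟨a, ha⟩ : ∃ a, a = ∑ i ∈ Tᶜ, D.2 i ^ 2 := ⟨_, rfl⟩
    have hk0 : 0 < k := by
      rw [hk]
      have : ((ip d w d w : ℤ) : ℝ) < 0 := by exact_mod_cast hneg
      linarith
    have hQA : Q = A - k := by
      rw [hQ, hA, hk, hip]
      linarith
    have n1' : 4 * (10 - (T.card : ℝ)) * k ≤ A := by
      rw [hk, hA]
      have : ((4 * (10 - (T.card : ℤ)) * (-ip d w d w) : ℤ) : ℝ) ≤
        ((∑ j ∈ Tᶜ, (w j : ℤ) ^ 2 : ℤ) : ℝ) := by exact_mod_cast n1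
      push_cast at this
      exact this
    have n2' : k ^ 2 ≤ A := by
      rw [hk, hA]
      have : (((-ip d w d w) ^ 2 : ℤ) : ℝ) ≤ ((∑ j ∈ Tᶜ, (w j : ℤ) ^ 2 : ℤ) : ℝ) := by
        exact_mod_cast n2
      push_cast at this
      exact this
    have ht9 : (T.card : ℝ) ≤ 9 := by exact_mod_cast hT9
    have h4k : 4 * k ≤ A := by
      have : 4 * 1 * k ≤ 4 * (10 - (T.card : ℝ)) * k :=
        mul_le_mul_of_nonneg_right (by linarith) hk0.le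
      linarith
    have ha0 : 0 ≤ a := by
      rw [ha]
      exact Finset.sum_nonneg fun i _ => sq_nonneg _
    have hYa : Y ^ 2 ≤ a * A := by
      rw [hY, ha, hA]
      exact Finset.sum_mul_sq_le_sq_mul_sq _ _ _
    obtain ⟨o1, o2⟩ := hodge T (y := D.2) (w := fun l => (w l : ℝ)) hD hd0 (by linarith)
      (by linarith)
    rw [← hX, ← hQ, ← hq] at o2
    rw [← hX] at o1
    have hYX : Y ≤ X := by
      rcases hc with ⟨-, hc⟩ | ⟨h9, hp, -, hc⟩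
      · rw [← ha, ← hq] at hc
        exact num_a ht9 ha0 hk0.le hc n1' hQA o1 o2 hYa
      · rw [← ha, ← hq] at hc
        obtain ⟨p, hp'⟩ : ∃ p : ℝ, p = 3 * d - ∑ l ∈ T, (w l : ℝ) := ⟨_, rfl⟩
        have hp1 : 1 ≤ p := by
          have h1 := sq_sum_le_card_mul_sum_sq (s := T) (f := fun l => (w l : ℝ))
          rw [h9] at h1
          push_cast at h1
          have h2 : (∑ l ∈ T, (w l : ℝ)) ^ 2 < (3 * d) ^ 2 := by nlinarith
          have h3 : ∑ l ∈ T, (w l : ℝ) < 3 * d := lt_of_pow_lt_pow_left₀ 2 (by positivity) h2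
          have h4 : ∑ l ∈ T, w l + 1 ≤ 3 * d := by
            have : ((∑ l ∈ T, w l : ℕ) : ℝ) < ((3 * d : ℕ) : ℝ) := by
              push_cast
              exact h3
            exact_mod_cast this
          have h5 : ((∑ l ∈ T, w l + 1 : ℕ) : ℝ) ≤ ((3 * d : ℕ) : ℝ) := by exact_mod_cast h4
          push_cast at h5
          rw [hp']
          linarith
        have h6 := iso T h9 (x := D.1) (y := D.2) (w := fun l => (w l : ℝ)) (d := d) hp'.symm rfl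
        rw [← hX, ← hQ, ← hq] at h6
        have hs2 : Real.sqrt q ^ 2 = q := Real.sq_sqrt (by rw [hq]; exact hq0)
        refine num_b (Real.sqrt_nonneg q) hp hp1 hk0.le hc h4k n2' hQA ?_ hYa
        rw [hs2]
        exact h6
    linarith
  · have h1 : (0 : ℝ) ≤ ((ip d w d w : ℤ) : ℝ) := by exact_mod_cast hnn
    have h2 := hodge Finset.univ (y := D.2) (w := fun l => (w l : ℝ)) hD hd0 (by linarith)
      (by linarith)
    exact h2.1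

theorem cast_ip {n : ℕ} {d : ℕ} {w : Fin n → ℕ}
    (h1 : ip d w d w = -1) (h2 : kk d w = 1) :
    dot ((d : ℝ), fun i => (w i : ℝ)) ((d : ℝ), fun i => (w i : ℝ)) = -1 ∧
      kap ((d : ℝ), fun i => (w i : ℝ)) = -1 := by
  unfold ip at h1
  unfold kk at h2
  constructor
  · have : (((d : ℤ) * d - ∑ i, (w i : ℤ) * w i : ℤ) : ℝ) = ((-1 : ℤ) : ℝ) := by rw [h1]
    push_cast at this
    exact this
  · have : ((3 * (d : ℤ) - ∑ i, (w i : ℤ) : ℤ) : ℝ) = ((1 : ℤ) : ℝ) := by rw [h2]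
    push_cast at this
    show -3 * (d : ℝ) + ∑ i, (w i : ℝ) = -1
    linarith

/-- The criterion. -/
theorem nef_crit {r : ℕ} {P : Fin (r + 4) → Fin 2 → ℂ}
    (hP : AlgebraicIndependent ℚ (fun ij : Fin (r + 4) × Fin 2 => P ij.1 ij.2))
    {D : ℝ × (Fin (r + 4) → ℝ)} (hD : 0 ≤ D.1)
    (hE : ∀ C ∈ curveClasses P, dot C C = -1 → kap C = -1 → 0 ≤ dot D C)
    {T : Finset (Fin (r + 4))} (hc : CritA D T ∨ CritB D T) :
    ∀ C ∈ curveClasses P, 0 ≤ dot D C := by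
  intro C hC
  rcases hC with ⟨G, d, w, hG, rfl⟩ | ⟨i, rfl⟩
  · obtain ⟨g1, g2, g3⟩ := curve_iff.1 hG
    by_cases hne : ip d w d w = -1 ∧ kk d w = 1
    · obtain ⟨h1, h2⟩ := cast_ip hne.1 hne.2
      exact hE _ (Or.inl ⟨G, d, w, hG, rfl⟩) h1 h2
    · exact crit_curve hP g1 g2 g3 hne hD hc
  · refine hE _ (Or.inr ⟨i, rfl⟩) ?_ ?_
    · unfold dot
      simp [Pi.single_apply]
    · unfold kap
      simp [Pi.single_apply]

/-- The three largest values. -/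
theorem top_three {n : ℕ} (hn : 3 ≤ n) (y : Fin n → ℝ) : ∃ a b c : Fin n, a ≠ b ∧ a ≠ c ∧ b ≠ c ∧
    (∀ l, y l ≤ y a) ∧ (∀ l, l ≠ a → y l ≤ y b) ∧ ∀ l, l ≠ a → l ≠ b → y l ≤ y c := by
  classical
  obtain ⟨a, -, ha⟩ := Finset.exists_max_image Finset.univ y
    ⟨⟨0, by omega⟩, Finset.mem_univ _⟩
  have h1 : (Finset.univ.erase a).Nonempty := by
    rw [← Finset.card_pos, Finset.card_erase_of_mem (Finset.mem_univ a), Finset.card_univ,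
      Fintype.card_fin]
    omega
  obtain ⟨b, hb0, hb⟩ := Finset.exists_max_image _ y h1
  have hba := Finset.ne_of_mem_erase hb0
  have h2 : ((Finset.univ.erase a).erase b).Nonempty := by
    rw [← Finset.card_pos, Finset.card_erase_of_mem hb0,
      Finset.card_erase_of_mem (Finset.mem_univ a), Finset.card_univ, Fintype.card_fin]
    omega
  obtain ⟨c, hc0, hc⟩ := Finset.exists_max_image _ y h2
  have hcb := Finset.ne_of_mem_erase hc0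
  have hca := Finset.ne_of_mem_erase (Finset.mem_of_mem_erase hc0)
  exact ⟨a, b, c, hba.symm, hca.symm, hcb.symm, fun l => ha l (Finset.mem_univ l),
    fun l hl => hb l (Finset.mem_erase.2 ⟨hl, Finset.mem_univ l⟩),
    fun l hl hl' => hc l (Finset.mem_erase.2 ⟨hl', Finset.mem_erase.2 ⟨hl, Finset.mem_univ l⟩⟩)⟩

/-- Standard classes are nonnegative on the `(-1)`-curves. -/
theorem std_exc {r : ℕ} {P : Fin (r + 4) → Fin 2 → ℂ} {D : ℝ × (Fin (r + 4) → ℝ)}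
    (hD0 : ∀ i, 0 ≤ D.2 i)
    (hD : ∀ a b c, a ≠ b → a ≠ c → b ≠ c → D.2 a + D.2 b + D.2 c ≤ D.1) :
    ∀ C ∈ curveClasses P, dot C C = -1 → kap C = -1 → 0 ≤ dot D C := by
  classical
  intro C hC h1 h2
  rcases hC with ⟨G, d, w, hG, rfl⟩ | ⟨i, rfl⟩
  · obtain ⟨g1, g2, g3⟩ := curve_iff.1 hG
    obtain ⟨a, b, c, hab, hac, hbc, ya, yb, yc⟩ := top_three (by omega) D.2
    have hle : ∀ j, (w j : ℝ) ≤ d := fun j => by
      exact_mod_cast van_le g1.ne_zero g2 (g3 j).1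
    have hs : ∑ l, (w l : ℝ) = 3 * d - 1 := by
      have : -3 * (d : ℝ) + ∑ l, (w l : ℝ) = -1 := h2
      linarith
    show 0 ≤ D.1 * d - ∑ l, D.2 l * (w l : ℝ)
    have h3 : ∑ l, D.2 l * (w l : ℝ) ≤ ∑ l, (D.2 c * (w l : ℝ) +
        ((if l = a then (D.2 a - D.2 c) * (w a : ℝ) else 0) +
          if l = b then (D.2 b - D.2 c) * (w b : ℝ) else 0)) := by
      refine Finset.sum_le_sum fun l _ => ?_
      by_cases hla : l = a
      · rw [if_pos hla, hla, if_neg hab]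
        linarith
      · rw [if_neg hla]
        by_cases hlb : l = b
        · rw [if_pos hlb, hlb]
          linarith
        · rw [if_neg hlb]
          have := mul_le_mul_of_nonneg_right (yc l hla hlb) (Nat.cast_nonneg (α := ℝ) (w l))
          linarith
    rw [Finset.sum_add_distrib, Finset.sum_add_distrib, ← Finset.mul_sum, hs,
      Finset.sum_ite_eq' Finset.univ a, Finset.sum_ite_eq' Finset.univ b,
      if_pos (Finset.mem_univ a), if_pos (Finset.mem_univ b)] at h3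
    have h4 := mul_le_mul_of_nonneg_right (hD a b c hab hac hbc) (Nat.cast_nonneg (α := ℝ) d)
    have h5 : 0 ≤ (D.2 a - D.2 c) * ((d : ℝ) - w a) :=
      mul_nonneg (by linarith [ya c]) (by linarith [hle a])
    have h6 : 0 ≤ (D.2 b - D.2 c) * ((d : ℝ) - w b) :=
      mul_nonneg (by linarith [yb c hac.symm]) (by linarith [hle b])
    have h7 := hD0 c
    nlinarith
  · have h3 : dot D ((0 : ℝ), (Pi.single i (-1 : ℝ) : Fin (r + 4) → ℝ)) = D.2 i := by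
      unfold dot
      simp [Pi.single_apply]
    rw [h3]
    exact hD0 i

/-- Nine points of weight one and further points of weights of norm `τ ≤ 1`. -/
theorem nine_weights {r : ℕ} {P : Fin (r + 4) → Fin 2 → ℂ}
    (hP : AlgebraicIndependent ℚ (fun ij : Fin (r + 4) × Fin 2 => P ij.1 ij.2))
    {T : Finset (Fin (r + 4))} (hT : T.card = 9) {y : Fin (r + 4) → ℝ} {τ : ℝ} (hτ : 0 < τ)
    (hτ1 : τ ≤ 1) (hy0 : ∀ i, 0 ≤ y i) (hyT : ∀ i ∈ T, y i = 1)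
    (hy : ∑ i ∈ Tᶜ, y i ^ 2 = τ ^ 2) :
    ∀ C ∈ curveClasses P, 0 ≤ dot (Real.sqrt (9 + τ ^ 2 + 3 * τ ^ 3), y) C := by
  classical
  obtain ⟨x, hx⟩ : ∃ x, x = Real.sqrt (9 + τ ^ 2 + 3 * τ ^ 3) := ⟨_, rfl⟩
  rw [← hx]
  have hx0 : 0 ≤ x := by
    rw [hx]
    exact Real.sqrt_nonneg _
  have hx2 : x ^ 2 = 9 + τ ^ 2 + 3 * τ ^ 3 := by
    rw [hx]
    exact Real.sq_sqrt (by positivity)
  have hx3 : 3 < x := by
    refine lt_of_pow_lt_pow_left₀ 2 hx0 ?_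
    rw [hx2]
    have : 0 < τ ^ 2 := by positivity
    have : 0 < τ ^ 3 := by positivity
    linarith
  have hle : ∀ i, y i ≤ 1 := by
    intro i
    by_cases hi : i ∈ T
    · exact (hyT i hi).le
    · have h1 := Finset.single_le_sum (f := fun i => y i ^ 2) (s := Tᶜ) (fun i _ => sq_nonneg _)
        (Finset.mem_compl.2 hi)
      rw [hy] at h1
      have h2 := (abs_le_of_sq_le_sq' h1 hτ.le).2
      linarith
  have hs1 : ∑ i ∈ T, y i = 9 := by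
    rw [Finset.sum_congr rfl hyT, Finset.sum_const, hT]
    norm_num
  have hs2 : ∑ i ∈ T, y i ^ 2 = 9 := by
    rw [Finset.sum_congr rfl fun i hi => by rw [hyT i hi], Finset.sum_const, hT]
    norm_num
  have hq : x ^ 2 - ∑ i ∈ T, y i ^ 2 = τ ^ 2 + 3 * τ ^ 3 := by
    rw [hs2, hx2]
    ring
  refine nef_crit hP hx0 (std_exc hy0 fun a b c _ _ _ => ?_) (T := T) (Or.inr ⟨hT, ?_, ?_, ?_⟩)
  · show y a + y b + y c ≤ x
    linarith [hle a, hle b, hle c]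
  · show 0 < 3 * x - ∑ i ∈ T, y i
    rw [hs1]
    linarith
  · show 0 ≤ x ^ 2 - ∑ i ∈ T, y i ^ 2
    rw [hq]
    positivity
  · show (Real.sqrt (x ^ 2 - ∑ i ∈ T, y i ^ 2) + 2 * (3 * x - ∑ i ∈ T, y i)) *
      ∑ i ∈ Tᶜ, y i ^ 2 ≤ Real.sqrt (x ^ 2 - ∑ i ∈ T, y i ^ 2) ^ 3
    rw [hq, hs1, hy]
    obtain ⟨s, hs⟩ : ∃ s, s = Real.sqrt (τ ^ 2 + 3 * τ ^ 3) := ⟨_, rfl⟩
    rw [← hs]
    have hs0 : 0 ≤ s := by
      rw [hs]
      exact Real.sqrt_nonneg _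
    have hss : s ^ 2 = τ ^ 2 + 3 * τ ^ 3 := by
      rw [hs]
      exact Real.sq_sqrt (by positivity)
    have h3 : s ≤ 3 * τ := by
      refine (abs_le_of_sq_le_sq' ?_ (by positivity)).2
      rw [hss]
      nlinarith [mul_nonneg (sq_nonneg τ) (sub_nonneg.2 hτ1)]
    have h4 : 2 * (3 * x - 9) ≤ s ^ 2 := by
      have : (x - 3) * (x + 3) = s ^ 2 := by
        rw [hss]
        nlinarith
      nlinarith
    have h5 : 2 * (3 * x - 9) * τ ^ 2 ≤ s * (3 * τ) * τ ^ 2 := by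
      have h6 : s ^ 2 ≤ s * (3 * τ) := by nlinarith
      exact mul_le_mul_of_nonneg_right (h4.trans h6) (sq_nonneg τ)
    have h7 : s ^ 3 = s * (τ ^ 2 + 3 * τ ^ 3) := by
      rw [← hss]
      ring
    rw [h7]
    nlinarith

end Pool.Agent.R355.Round
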