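import Pool.Agent.R355.Round2
import Pool.Agent.TH167.TT.Move
import Pool.Agent.TH167.SH.Final

set_option autoImplicit false

/-!
# Emptiness of linear systems by the criterion for nef classes
-/

namespace Pool.Agent.R355.Round

open MvPolynomial Pool.Agent.W609 Pool.Agent.W609.CR Pool.Agent.TH167 Pool.Agent.TH167.SH
open Pool.Agent.R355.ConeAct (curveClasses curvCone dot kap refl nef_of_gen Carries)

/-- From the irreducible curves to the effective classes. -/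
theorem eff_nonneg {s : ℕ} {P : Fin s → Fin 2 → ℂ} {x : ℝ} {y : Fin s → ℝ} (hy : ∀ i, 0 ≤ y i)
    (h : ∀ (G : MvPolynomial (Fin 3) ℂ) (d : ℕ) (w : Fin s → ℕ), Irreducible G →
      G.IsHomogeneous d → (∀ j, Ord (aff (P j)) (w j) G) → 0 ≤ x * d - ∑ l, y l * (w l : ℝ)) :
    ∀ (d : ℕ) (w : Fin s → ℕ) (F : MvPolynomial (Fin 3) ℂ), F ≠ 0 → F.IsHomogeneous d →
      (∀ j, Van (aff (P j)) (w j) F) → 0 ≤ x * d - ∑ l, y l * (w l : ℝ) := by
  intro d
  induction d using Nat.strong_induction_on with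
  | _ d ih =>
    intro w F hF0 hF hv
    rcases Nat.eq_zero_or_pos d with rfl | hd
    · have h0 : ∀ j, w j = 0 := fun j => Nat.le_zero.1 (van_le hF0 hF (hv j))
      simp [h0]
    · have hFu : ¬ IsUnit F := by
        intro hu
        have h1 := (isUnit_iff_totalDegree_of_isReduced.1 hu).2
        rw [hF.totalDegree hF0] at h1
        omega
      obtain ⟨G, hG, H, hH⟩ := WfDvdMonoid.exists_irreducible_factor hFu hF0
      have hH0 : H ≠ 0 := by
        rintro rfl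
        exact hF0 (by rw [hH, mul_zero])
      have hGh := Pool.Agent.Chud.homog_of_dvd hF hF0 ⟨H, hH⟩
      have hHh := Pool.Agent.Chud.homog_of_dvd hF hF0 ⟨G, by rw [hH, mul_comm]⟩
      obtain ⟨e, he⟩ : ∃ e, e = G.totalDegree := ⟨_, rfl⟩
      obtain ⟨e', he'⟩ : ∃ e', e' = H.totalDegree := ⟨_, rfl⟩
      rw [← he] at hGh
      rw [← he'] at hHh
      have hde : d = e + e' := by
        rw [he, he', ← MvPolynomial.totalDegree_mul_of_isDomain hG.ne_zero hH0, ← hH,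
          hF.totalDegree hF0]
      have he0 : e ≠ 0 := by
        intro h0
        rw [h0] at he
        refine hG.not_isUnit ?_
        rw [(MvPolynomial.totalDegree_eq_zero_iff_eq_C).1 he.symm]
        refine (isUnit_iff_ne_zero.2 fun hc => hG.ne_zero ?_).map (C : ℂ →+* _)
        rw [(MvPolynomial.totalDegree_eq_zero_iff_eq_C).1 he.symm, hc, map_zero]
      choose u hu using fun j => TT.exists_ord (p := P j) hG.ne_zero hGh
      have h1 := h G e u hG hGh hu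
      have h2 := ih e' (by omega) (fun j => w j - u j) H hH0 hHh (fun j => by
        rcases Nat.lt_or_ge (w j) (u j) with h3 | h3
        · have : w j - u j = 0 := by omega
          rw [this]
          exact van_zero _ _
        · refine van_of_mul (hu j) ?_
          have h4 : u j + (w j - u j) = w j := by omega
          rw [h4, ← hH]
          exact hv j)
      have h3 : ∑ l, y l * (w l : ℝ) ≤ ∑ l, y l * (u l : ℝ) + ∑ l, y l * ((w l - u l : ℕ) : ℝ) := by
        rw [← Finset.sum_add_distrib]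
        refine Finset.sum_le_sum fun l _ => ?_
        rw [← mul_add]
        refine mul_le_mul_of_nonneg_left ?_ (hy l)
        have : w l ≤ u l + (w l - u l) := by omega
        exact_mod_cast this
      rw [hde]
      push_cast
      have h4 : x * ((e : ℝ) + e') = x * e + x * e' := by ring
      rw [h4]
      linarith

/-- `D = (d; w)`, `q = d ^ 2 - ∑_{i ∈ T} w i ^ 2 > 0`, `a = ∑_{i ∉ T} w i ^ 2`, `|T| = t ≤ 9`:
`(40 - 4 t) q < (39 - 4 t) a`, or `t = 9` and `q + 2 (3 d - ∑_{i ∈ T} w i) √q < a`. -/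
def EmptyCrit {n : ℕ} (d : ℕ) (w : Fin n → ℕ) (T : Finset (Fin n)) : Prop :=
  0 < (d : ℝ) ^ 2 - ∑ i ∈ T, (w i : ℝ) ^ 2 ∧
  ((T.card ≤ 9 ∧ (40 - 4 * (T.card : ℝ)) * ((d : ℝ) ^ 2 - ∑ i ∈ T, (w i : ℝ) ^ 2) <
    (39 - 4 * (T.card : ℝ)) * ∑ i ∈ Tᶜ, (w i : ℝ) ^ 2) ∨
  (T.card = 9 ∧ (d : ℝ) ^ 2 - ∑ i ∈ T, (w i : ℝ) ^ 2 + 2 * (3 * (d : ℝ) - ∑ i ∈ T, (w i : ℝ)) *
    Real.sqrt ((d : ℝ) ^ 2 - ∑ i ∈ T, (w i : ℝ) ^ 2) < ∑ i ∈ Tᶜ, (w i : ℝ) ^ 2))

theorem rho {q a c : ℝ} (hq : 0 < q) (hc : 0 < c) (hc1 : c ≤ 1) (h : q < c * a) :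
    ∃ ρ : ℝ, 0 ≤ ρ ∧ ρ ≤ 1 ∧ ρ ^ 2 * a = c * q ∧ q < ρ * a := by
  have ha : 0 < a := by
    by_contra hcon
    push Not at hcon
    nlinarith
  have haq : q < a := by nlinarith
  refine ⟨Real.sqrt (c * q / a), Real.sqrt_nonneg _, ?_, ?_, ?_⟩
  · rw [Real.sqrt_le_one]
    rw [div_le_one ha]
    nlinarith
  · rw [Real.sq_sqrt (by positivity)]
    field_simp
  · have h1 : q ^ 2 < (Real.sqrt (c * q / a) * a) ^ 2 := by
      rw [mul_pow, Real.sq_sqrt (by positivity)]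
      have : c * q / a * a ^ 2 = q * (c * a) := by
        field_simp
      rw [this, pow_two]
      exact mul_lt_mul_of_pos_left h hq
    exact lt_of_pow_lt_pow_left₀ 2 (by positivity) h1

/-- A nef class which is negative on `D`. -/
theorem exists_neg {r : ℕ} {P : Fin (r + 4) → Fin 2 → ℂ}
    (hP : AlgebraicIndependent ℚ (fun ij : Fin (r + 4) × Fin 2 => P ij.1 ij.2)) {d : ℕ}
    {w : Fin (r + 4) → ℕ} (hred : Reduced d w) {T : Finset (Fin (r + 4))}
    (hT : EmptyCrit d w T) : ∃ N : ℝ × (Fin (r + 4) → ℝ), (∀ x ∈ curvCone P, 0 ≤ dot N x) ∧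
      dot N ((d : ℝ), fun i => (w i : ℝ)) < 0 := by
  classical
  obtain ⟨hq0, hT⟩ := hT
  obtain ⟨q, hq⟩ : ∃ q : ℝ, q = (d : ℝ) ^ 2 - ∑ i ∈ T, (w i : ℝ) ^ 2 := ⟨_, rfl⟩
  obtain ⟨a, ha⟩ : ∃ a : ℝ, a = ∑ i ∈ Tᶜ, (w i : ℝ) ^ 2 := ⟨_, rfl⟩
  obtain ⟨p, hp⟩ : ∃ p : ℝ, p = 3 * (d : ℝ) - ∑ i ∈ T, (w i : ℝ) := ⟨_, rfl⟩
  rw [← hq, ← ha, ← hp] at hT
  rw [← hq] at hq0
  obtain ⟨s, hs⟩ : ∃ s, s = Real.sqrt q := ⟨_, rfl⟩
  have hs0 : 0 < s := by
    rw [hs]
    exact Real.sqrt_pos.2 hq0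
  have hs2 : s ^ 2 = q := by
    rw [hs]
    exact Real.sq_sqrt hq0.le
  -- the main computation for a given `c`
  have main : ∀ c : ℝ, 0 < c → c ≤ 1 → q < c * a → (∀ ρ : ℝ, ρ ^ 2 * a = c * q →
      ∀ N : ℝ × (Fin (r + 4) → ℝ), N.1 = d → (∀ i ∈ T, N.2 i = w i) →
        (∑ i ∈ Tᶜ, N.2 i ^ 2 = c * q) → CritA N T ∨ CritB N T) →
      ∃ N : ℝ × (Fin (r + 4) → ℝ), (∀ x ∈ curvCone P, 0 ≤ dot N x) ∧
        dot N ((d : ℝ), fun i => (w i : ℝ)) < 0 := by
    intro c hc hc1 hqc hcrit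
    obtain ⟨ρ, r0, r1, r2, r3⟩ := rho hq0 hc hc1 hqc
    obtain ⟨y, hy⟩ : ∃ y : Fin (r + 4) → ℝ, y = fun i => if i ∈ T then (w i : ℝ) else ρ * w i :=
      ⟨_, rfl⟩
    have hyT : ∀ i ∈ T, y i = w i := by
      intro i hi
      rw [hy]
      simp only
      rw [if_pos hi]
    have hyc : ∀ i ∈ Tᶜ, y i = ρ * w i := by
      intro i hi
      rw [hy]
      simp only
      rw [if_neg (Finset.mem_compl.1 hi)]
    have hy0 : ∀ i, 0 ≤ y i := by
      intro i
      by_cases hi : i ∈ T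
      · rw [hyT i hi]
        positivity
      · rw [hyc i (Finset.mem_compl.2 hi)]
        positivity
    have hyw : ∀ i, y i ≤ w i := by
      intro i
      by_cases hi : i ∈ T
      · rw [hyT i hi]
      · rw [hyc i (Finset.mem_compl.2 hi)]
        have : (0 : ℝ) ≤ w i := Nat.cast_nonneg _
        nlinarith
    have hsum : ∑ i ∈ Tᶜ, y i ^ 2 = c * q := by
      rw [← r2, ha, Finset.mul_sum]
      refine Finset.sum_congr rfl fun i hi => ?_
      rw [hyc i hi]
      ring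
    refine ⟨((d : ℝ), y), nef_of_gen (nef_crit hP (Nat.cast_nonneg _)
      (std_exc hy0 fun i j l hij hil hjl => ?_) (T := T) (hcrit ρ r2 ((d : ℝ), y) rfl hyT hsum)), ?_⟩
    · show y i + y j + y l ≤ (d : ℝ)
      have h1 : ((w i + w j + w l : ℕ) : ℝ) ≤ ((d : ℕ) : ℝ) := by
        exact_mod_cast hred i j l hij hil hjl
      push_cast at h1
      linarith [hyw i, hyw j, hyw l]
    · show (d : ℝ) * d - ∑ l, y l * (w l : ℝ) < 0
      rw [← Finset.sum_add_sum_compl T]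
      have h1 : ∑ l ∈ T, y l * (w l : ℝ) = ∑ l ∈ T, (w l : ℝ) ^ 2 :=
        Finset.sum_congr rfl fun l hl => by rw [hyT l hl, pow_two]
      have h2 : ∑ l ∈ Tᶜ, y l * (w l : ℝ) = ρ * a := by
        rw [ha, Finset.mul_sum]
        exact Finset.sum_congr rfl fun l hl => by
          rw [hyc l hl]
          ring
      rw [h1, h2]
      nlinarith
  rcases hT with ⟨hT9, hT⟩ | ⟨hT9, hT⟩
  · have ht : (T.card : ℝ) ≤ 9 := by exact_mod_cast hT9
    have hc0 : 0 < 39 - 4 * (T.card : ℝ) := by linarith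
    have hc1 : 0 < 40 - 4 * (T.card : ℝ) := by linarith
    refine main ((39 - 4 * (T.card : ℝ)) / (40 - 4 * (T.card : ℝ))) (by positivity) ?_ ?_ ?_
    · rw [div_le_one hc1]
      linarith
    · rw [div_mul_eq_mul_div, lt_div_iff₀ hc1]
      linarith
    · intro ρ _ N h1 h2 h3
      refine Or.inl ⟨hT9, ?_⟩
      rw [h3, h1, Finset.sum_congr rfl fun i hi => by rw [h2 i hi], ← hq]
      refine le_of_eq ?_
      field_simp
  · have hp0 : 0 < p := by
      have h1 := sq_sum_le_card_mul_sum_sq (s := T) (f := fun l => (w l : ℝ))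
      rw [hT9] at h1
      push_cast at h1
      have h2 : (∑ l ∈ T, (w l : ℝ)) ^ 2 < (3 * d) ^ 2 := by nlinarith
      have h3 : ∑ l ∈ T, (w l : ℝ) < 3 * d := lt_of_pow_lt_pow_left₀ 2 (by positivity) h2
      rw [hp]
      linarith
    rw [← hs] at hT
    refine main (s / (s + 2 * p)) (by positivity) ?_ ?_ ?_
    · rw [div_le_one (by positivity)]
      linarith
    · rw [div_mul_eq_mul_div, lt_div_iff₀ (by positivity)]
      have h1 : s * (q + 2 * p * s) < s * a := mul_lt_mul_of_pos_left hT hs0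
      have h2 : s * (q + 2 * p * s) = q * (s + 2 * p) := by
        rw [← hs2]
        ring
      linarith
    · intro ρ _ N h1 h2 h3
      have e1 : N.1 ^ 2 - ∑ i ∈ T, N.2 i ^ 2 = q := by
        rw [h1, Finset.sum_congr rfl fun i hi => by rw [h2 i hi], ← hq]
      have e2 : 3 * N.1 - ∑ i ∈ T, N.2 i = p := by
        rw [h1, Finset.sum_congr rfl h2, ← hp]
      refine Or.inr ⟨hT9, ?_, ?_, ?_⟩
      · rw [e2]
        exact hp0
      · rw [e1]
        exact hq0.le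
      · rw [e1, e2, h3, ← hs]
        refine le_of_eq ?_
        rw [← hs2]
        field_simp

/-- The chain of reflections is applied to another class as well. -/
theorem carries_par {n : ℕ} {P : Fin n → Fin 2 → ℂ}
    (hP : AlgebraicIndependent ℚ (fun ij : Fin n × Fin 2 => P ij.1 ij.2))
    {D D' N : ℝ × (Fin n → ℝ)} (h : Carries D D') (hN : ∀ x ∈ curvCone P, 0 ≤ dot N x) :
    ∃ N' : ℝ × (Fin n → ℝ), (∀ x ∈ curvCone P, 0 ≤ dot N' x) ∧ dot N' D' = dot N D ∧
      dot D' D' = dot D D ∧ kap D' = kap D := by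
  unfold Carries at h
  induction h with
  | refl => exact ⟨N, hN, rfl, rfl, rfl⟩
  | @tail b c _ h2 ih =>
    obtain ⟨i, hi, rfl⟩ := h2
    obtain ⟨N', h3, h4, h5, h6⟩ := ih
    exact ⟨refl i N', (ConeAct.nef_carries hP (Relation.ReflTransGen.single ⟨i, hi, rfl⟩) h3).1,
      by rw [ConeAct.dot_refl hi, h4], by rw [ConeAct.dot_refl hi, h5],
      by rw [ConeAct.kap_refl hi, h6]⟩

theorem nef_empty {n : ℕ} {P : Fin n → Fin 2 → ℂ} {N : ℝ × (Fin n → ℝ)}
    (hN : ∀ x ∈ curvCone P, 0 ≤ dot N x) {d : ℕ} {w : Fin n → ℕ}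
    (h : dot N ((d : ℝ), fun i => (w i : ℝ)) < 0) : SHDefs.sys P d w = ⊥ := by
  classical
  have hy : ∀ i, 0 ≤ N.2 i := by
    intro i
    have h1 := hN _ (subset_closure (Submodule.subset_span (Or.inr ⟨i, rfl⟩)))
    unfold dot at h1
    simpa [Pi.single_apply] using h1
  rw [Submodule.eq_bot_iff]
  intro F hF
  by_contra hF0
  have hF' : F ∈ VS (fun j => aff (P j)) w d := by
    rw [← sys_eq]
    exact hF
  rw [mem_VS] at hF'
  have h1 := eff_nonneg (x := N.1) hy (fun G e u hG hGe hGo => by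
    exact hN _ (subset_closure (Submodule.subset_span
      (Or.inl ⟨G, e, u, curve_iff.2 ⟨hG, hGe, hGo⟩, rfl⟩)))) d w F hF0 hF'.1 hF'.2
  exact absurd h (not_lt.2 h1)

theorem real_chi {n : ℕ} (d : ℕ) (w : Fin n → ℕ) : 2 * ((chi d w : ℤ) : ℝ) =
    dot ((d : ℝ), fun i => (w i : ℝ)) ((d : ℝ), fun i => (w i : ℝ)) -
      kap ((d : ℝ), fun i => (w i : ℝ)) + 2 := by
  have h := two_chi d w
  have h' : ((2 * chi d w : ℤ) : ℝ) = ((ip d w d w + kk d w + 2 : ℤ) : ℝ) := by rw [h]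
  push_cast at h'
  rw [h']
  unfold ip kk dot kap
  push_cast
  ring

/-- The emptiness of the linear system, and its Euler characteristic. -/
theorem empty_crit {r : ℕ} {P : Fin (r + 4) → Fin 2 → ℂ}
    (hP : AlgebraicIndependent ℚ (fun ij : Fin (r + 4) × Fin 2 => P ij.1 ij.2)) {d : ℕ}
    {w : Fin (r + 4) → ℕ} (hred : Reduced d w) {T : Finset (Fin (r + 4))}
    (hT : EmptyCrit d w T) {d' : ℕ} {w' : Fin (r + 4) → ℕ}
    (hc : Carries ((d : ℝ), fun i => (w i : ℝ)) ((d' : ℝ), fun i => (w' i : ℝ))) :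
    SHDefs.sys P d' w' = ⊥ ∧ chi d' w' ≤ 0 := by
  classical
  obtain ⟨N, h1, h2⟩ := exists_neg hP hred hT
  obtain ⟨N', h3, h4, h5, h6⟩ := carries_par hP hc h1
  refine ⟨nef_empty h3 (by rw [h4]; exact h2), ?_⟩
  have e1 := real_chi d w
  have e2 := real_chi d' w'
  have e3 : chi d' w' = chi d w := by
    have : ((chi d' w' : ℤ) : ℝ) = ((chi d w : ℤ) : ℝ) := by
      rw [h5, h6] at e2
      linarith
    exact_mod_cast this
  rw [e3]
  -- `D ^ 2 < 0`
  have hneg : ip d w d w < 0 := by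
    obtain ⟨hq0, hT⟩ := hT
    have hw := Finset.sum_add_sum_compl T fun l => (w l : ℝ) ^ 2
    have hqa : (d : ℝ) ^ 2 - ∑ i ∈ T, (w i : ℝ) ^ 2 < ∑ i ∈ Tᶜ, (w i : ℝ) ^ 2 := by
      rcases hT with ⟨hT9, hT⟩ | ⟨hT9, hT⟩
      · have ht : (T.card : ℝ) ≤ 9 := by exact_mod_cast hT9
        by_contra hcon
        push Not at hcon
        nlinarith
      · have hp0 : 0 < 3 * (d : ℝ) - ∑ i ∈ T, (w i : ℝ) := by
          have h1 := sq_sum_le_card_mul_sum_sq (s := T) (f := fun l => (w l : ℝ))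
          rw [hT9] at h1
          push_cast at h1
          have h2 : (∑ l ∈ T, (w l : ℝ)) ^ 2 < (3 * d) ^ 2 := by nlinarith
          have h3 : ∑ l ∈ T, (w l : ℝ) < 3 * d := lt_of_pow_lt_pow_left₀ 2 (by positivity) h2
          linarith
        have : 0 ≤ 2 * (3 * (d : ℝ) - ∑ i ∈ T, (w i : ℝ)) *
            Real.sqrt ((d : ℝ) ^ 2 - ∑ i ∈ T, (w i : ℝ) ^ 2) := by positivity
        linarith
    have hip : ((ip d w d w : ℤ) : ℝ) = (d : ℝ) ^ 2 - ∑ l, (w l : ℝ) ^ 2 := by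
      unfold ip
      push_cast
      rw [pow_two]
      congr 1
      exact Finset.sum_congr rfl fun i _ => by ring
    have : ((ip d w d w : ℤ) : ℝ) < 0 := by
      rw [hip, ← hw]
      linarith
    exact_mod_cast this
  have hle : ∀ j, w j ≤ d := by
    intro j
    obtain ⟨a, b, c, hab, hac, hbc, ya, yb, yc⟩ := top_three (n := r + 4) (by omega)
      fun i => (w i : ℝ)
    have h1 := hred a b c hab hac hbc
    have h2 : w j ≤ w a := by exact_mod_cast ya j
    omega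
  have hkk : kk d w < 0 := by
    by_contra hcon
    push Not at hcon
    have h7 : ∑ j, w j ≤ 3 * d := by
      unfold kk at hcon
      have : ((∑ j, w j : ℕ) : ℤ) ≤ ((3 * d : ℕ) : ℤ) := by
        push_cast
        linarith
      exact_mod_cast this
    have := red_ip hred hle h7
    omega
  have h8 := two_chi d w
  omega

end Pool.Agent.R355.Round
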